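import Pool.Agent.Helper743.ACInv

set_option autoImplicit false

/-! the cone is avoided -/

namespace Pool.Agent.Helper743.AC

open Nat.Partrec (Code)
open Filter
open Pool.Agent.Helper743.PR (evT evR LS mdT mdR findIdx_range ev_list mdT_lim evR_spec)

lemma ev_code {ev : List ℕ → ℕ → Option ℕ} (hev : Computable₂ ev) :
    ∃ e, ∀ σ x, evR e σ x = Encodable.encode (ev σ x) := by
  have hpart : Nat.Partrec (fun z => Part.some (Encodable.encode
      (ev ((Encodable.decode (α := List ℕ × ℕ) z).getD ([], 0)).1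
        ((Encodable.decode (α := List ℕ × ℕ) z).getD ([], 0)).2))) := by
    have h0 : Computable (fun z : ℕ => (Encodable.decode (α := List ℕ × ℕ) z).getD ([], 0)) :=
      Computable.option_getD Computable.decode (Computable.const _)
    exact Partrec.nat_iff.1 (Computable.encode.comp
      (hev.comp (Computable.fst.comp h0) (Computable.snd.comp h0)))
  obtain ⟨c, hc⟩ := Code.exists_code.1 hpart
  refine ⟨Encodable.encode c, fun σ x => ?_⟩
  apply PR.evR_of_mem
  rw [Denumerable.ofNat_encode, hc]
  simp only [Encodable.encodek, Option.getD_some, Part.mem_some_iff]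

lemma evT_evR {t e : ℕ} {σ : List ℕ} {x : ℕ} (h : evT t e σ x ≠ 0) : evT t e σ x = evR e σ x := by
  obtain ⟨t', h1, h2⟩ := ((evR_spec e σ x).and (eventually_ge_atTop t)).exists
  rw [← h1]
  exact (PR.evT_mono h2 h).symm

lemma pre_take (G : ℕ → ℕ) {j n : ℕ} (h : j ≤ n) : (pre G n).take j = pre G j := by
  unfold pre
  rw [← List.map_take, List.take_range, min_eq_left h]

/-- outputs along a function are outputs of the functional -/
lemma outp_pre {G : ℕ → ℕ} {ev : List ℕ → ℕ → Option ℕ} {e : ℕ}
    (he : ∀ σ x, evR e σ x = Encodable.encode (ev σ x)) {n x y : ℕ}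
    (h : outp e (pre G n) x y) : ∃ j, ev (pre G j) x = some y := by
  unfold outp at h
  obtain ⟨j, hj, h1⟩ := h
  rw [List.mem_range, pre_length] at hj
  rw [pre_take G (by omega)] at h1
  have h2 := evT_evR (by rw [h1]; exact Nat.succ_ne_zero y)
  rw [he, h1] at h2
  refine ⟨j, ?_⟩
  cases h3 : ev (pre G j) x with
  | none => rw [h3] at h2; simp at h2
  | some v =>
    rw [h3, Encodable.encode_some] at h2
    simp at h2
    rw [h2]

lemma pre_outp {G : ℕ → ℕ} {ev : List ℕ → ℕ → Option ℕ} {e : ℕ}
    (he : ∀ σ x, evR e σ x = Encodable.encode (ev σ x)) {j x y : ℕ}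
    (h : ev (pre G j) x = some y) : ∀ᶠ n in atTop, outp e (pre G n) x y := by
  filter_upwards [evR_spec e (pre G j) x, eventually_ge_atTop j] with n h1 h2
  unfold outp
  refine ⟨j, ?_, ?_⟩
  · rw [List.mem_range, pre_length]; omega
  · rw [pre_length, pre_take G h2, h1, he, h]
    simp

variable (a : ℕ)

noncomputable def WA (n : ℕ) : ℕ := K (Nat.pair a n)

def DL (w : ℕ) : List ℕ × ℕ := (Encodable.decode (α := List ℕ × ℕ) w).getD ([], 0)

lemma DL_p : Primrec DL := Primrec.option_getD.comp Primrec.decode (Primrec.const _)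

lemma DL_encode (d : List ℕ × ℕ) : DL (Encodable.encode d) = d := by
  unfold DL; rw [Encodable.encodek]; rfl

attribute [local irreducible] DL al outp

noncomputable def pF (e : ℕ) (σ : List ℕ) (_ : List ℕ) (q w : ℕ) : Option ℕ :=
  open Classical in
  bif decide (al e σ (DL w).1) && decide (outp e (σ ++ (DL w).1) q (DL w).2)
  then some (DL w).2 else none

lemma pF_c (e : ℕ) (σ : List ℕ) :
    Computable (fun q : (List ℕ × ℕ) × ℕ => pF e σ q.1.1 q.1.2 q.2) := by
  classical
  have w : Primrec (fun q : (List ℕ × ℕ) × ℕ => DL q.2) := DL_p.comp Primrec.snd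
  have x : Primrec (fun q : (List ℕ × ℕ) × ℕ => q.1.2) := Primrec.snd.comp Primrec.fst
  have h1 := al_p.comp (((Primrec.const e).pair (Primrec.const σ)).pair (Primrec.fst.comp w))
  have h2 := outp_p.comp (((Primrec.const e).pair (Primrec.list_append.comp (Primrec.const σ)
    (Primrec.fst.comp w))).pair (x.pair (Primrec.snd.comp w)))
  have h3 := Primrec.cond (Primrec.and.comp h1.decide h2.decide)
    (Primrec.option_some.comp (Primrec.snd.comp w)) (Primrec.const none)
  exact h3.to_comp

theorem avoids (ha : ¬ Computable (WA a)) : ¬ TR (WA a) (GG a) := by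
  classical
  intro hTR
  obtain ⟨ev, hev, hmono, hcor⟩ := use_principle (GG a) _ hTR
  obtain ⟨e, he⟩ := ev_code hev
  have hval : ∀ {n x y}, outp e (pre (GG a) n) x y → y = WA a x := by
    intro n x y h
    obtain ⟨j, hj⟩ := outp_pre he h
    have h1 : y ∈ ((WA a : ℕ →. ℕ) x) := (hcor x y).2 ⟨j, hj⟩
    exact Part.mem_some_iff.1 h1
  have hnever : ∀ s, ¬ (acts s (runR a s) ∧ s.unpair.1 = e) := by
    rintro s ⟨h1, h2⟩
    obtain ⟨x, y, h3, h4⟩ := rh_out a h1
    rw [h2] at h3
    have h5 : sg a s ++ rh a s = pre (GG a) (sg a s ++ rh a s).length := by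
      have h6 := sg_succ' a s
      have h7 := sg_eq_pre a (s + 1)
      have h8 : (sg a s ++ rh a s).length ≤ (sg a (s + 1)).length := by
        rw [h6]; simp
      rw [← pre_take (GG a) h8, ← h7, h6]
      exact (List.take_left' rfl).symm
    rw [h5] at h3
    exact h4 (hval h3)
  obtain ⟨N, hN⟩ := q_tails a e
  -- a late stage for the requirement
  set s := Nat.pair e N with hs
  have hs1 : s.unpair.1 = e := by rw [hs, Nat.unpair_pair]
  have hs2 : N ≤ (sg a s).length := le_trans (Nat.right_le_pair e N) (sg_length a s)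
  have hnosplit : ∀ d : Sp, ¬ spl e (sg a s) d := by
    intro d hd
    apply hnever s
    refine ⟨⟨?_, Encodable.encode d, ?_⟩, hs1⟩
    · intro hmem
      obtain ⟨s', h1, h2⟩ := dd_mem a (s := s) hmem
      exact hnever s' ⟨h1, by rw [h2, hs1]⟩
    · rw [hs1, DS_encode]; exact hd
  have hex : ∀ q, ∀ᶠ n in atTop, ∃ ρ, pre (GG a) n = sg a s ++ ρ ∧ al e (sg a s) ρ ∧
      outp e (sg a s ++ ρ) q (WA a q) := by
    intro q
    obtain ⟨j, hj⟩ := (hcor q (WA a q)).1 (Part.mem_some _)
    filter_upwards [pre_outp he hj, eventually_ge_atTop (sg a s).length] with n h1 h2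
    obtain ⟨ρ, hρ, hr⟩ := pre_split a h2
    refine ⟨ρ, hρ, ?_, by rw [← hρ]; exact h1⟩
    rw [al_iff]
    refine ⟨hr, fun i hi => ?_⟩
    have h3 := hN (sg a s).length n hs2 h2 i hi
    rw [← sg_eq_pre, hρ] at h3
    exact h3
  apply ha
  have hz : Computable (fun _ : ℕ => 0) := Computable.const 0
  apply TR_const hz
  refine cert (TR.refl _) (pF e (sg a s)) (pF_c _ _) _ ?_ ?_
  · intro q
    obtain ⟨n, ρ, _, h1, h2⟩ := (hex q).exists
    refine ⟨0, Encodable.encode (ρ, WA a q), ?_⟩
    unfold pF
    rw [DL_encode]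
    simp only
    rw [decide_eq_true h1, decide_eq_true h2]
    rfl
  · intro q n w y hy
    unfold pF at hy
    by_cases h1 : al e (sg a s) (DL w).1
    · by_cases h2 : outp e (sg a s ++ (DL w).1) q (DL w).2
      · rw [decide_eq_true h1, decide_eq_true h2] at hy
        have hy' := Option.some.inj hy
        rw [← hy']
        by_contra hne
        obtain ⟨n', ρ, _, h3, h4⟩ := (hex q).exists
        exact hnosplit (((DL w).1, ρ), (q, ((DL w).2, WA a q))) ⟨⟨h1, h3⟩, ⟨h2, h4⟩, hne⟩
      · rw [decide_eq_false h2, Bool.and_false] at hy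
        simp at hy
    · rw [decide_eq_false h1, Bool.false_and] at hy
      simp at hy

end Pool.Agent.Helper743.AC
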