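import Pool.Agent.Helper743.PRMain

set_option autoImplicit false

/-! Almost complete functions avoiding cones: definitions and effectiveness. -/

namespace Pool.Agent.Helper743.AC

open Nat.Partrec (Code)
open Filter
open Pool.Agent.Helper743.PR (evT LS mdT mdR)

/-- halting of the code `p` on the input `p` within `t` steps -/
def hl (p t : ℕ) : Bool := hlt' (Nat.pair p p) t

/-- the first `w` bits of the `t`-th approximation of the halting set -/
def str (t w : ℕ) : List Bool := (List.range w).map (fun p => hl p t)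

def outp (e : ℕ) (σ : List ℕ) (x y : ℕ) : Prop :=
  ∃ j ∈ List.range (σ.length + 1), evT σ.length e (σ.take j) x = y + 1

def conv (i : ℕ) (σ : List ℕ) (x : ℕ) : Prop :=
  ∃ j ∈ List.range (σ.length + 1), evT σ.length i (σ.take j) x ≠ 0

noncomputable def kk (i : ℕ) (σ : List ℕ) (w : ℕ) : ℕ :=
  open Classical in
  (List.range (σ.length + 1)).findIdx (fun k => decide (conv i σ (Nat.pair w k)))

noncomputable def wN (L i : ℕ) (σ : List ℕ) (w : ℕ) : ℕ :=
  if kk i σ w ≤ σ.length then 2 ^ (L - kk i σ w) else 0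

noncomputable def massN (L i : ℕ) (σ : List ℕ) : ℕ :=
  ∑ w ∈ Finset.range (σ.length + 1), wN L i σ w

def lst (σ : List ℕ) : ℕ := (σ[σ.length - 1]?).getD 0

noncomputable def cN (L i : ℕ) (σ : List ℕ) (t' : ℕ) : ℕ :=
  if massN L i σ ≤ 2 ^ L then
    ∑ w ∈ Finset.range (σ.length + 1), if str (lst σ) w = str t' w then 0 else wN L i σ w
  else 0

noncomputable def totN (L i : ℕ) (τ : List ℕ) : ℕ :=
  ∑ j ∈ Finset.range τ.length, cN L i (τ.take j) ((τ[j]?).getD 0)

noncomputable def qN (L i : ℕ) (τ : List ℕ) : ℕ := totN L i τ + min (massN L i τ) (2 ^ L)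

def resp (σ ρ : List ℕ) : Prop := ∀ t' ∈ ρ, str t' σ.length = str (lst σ) σ.length

def al (e : ℕ) (σ ρ : List ℕ) : Prop :=
  resp σ ρ ∧ ∀ i ∈ List.range (e + 1),
    2 ^ e * qN (σ ++ ρ).length i (σ ++ ρ) ≤
      2 ^ e * qN (σ ++ ρ).length i σ + 2 ^ (σ ++ ρ).length

/-! primitive recursiveness -/

lemma fsum_p {α : Type*} [Primcodable α] {f : α → ℕ → ℕ} {n : α → ℕ} (hn : Primrec n)
    (hf : Primrec₂ f) : Primrec (fun a => ∑ w ∈ Finset.range (n a), f a w) := by
  have h1 : Primrec₂ (fun (a : α) (z : ℕ × ℕ) => z.2 + f a z.1) :=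
    Primrec.nat_add.comp (Primrec.snd.comp Primrec.snd)
      (hf.comp Primrec.fst (Primrec.fst.comp Primrec.snd))
  have h2 := Primrec.nat_rec' hn (Primrec.const 0) h1
  refine h2.of_eq ?_
  intro a
  generalize n a = m
  induction m with
  | zero => rfl
  | succ m ih => rw [Finset.sum_range_succ, ← ih]

lemma pow_p : Primrec (fun n : ℕ => 2 ^ n) := by
  have hpow : Primrec₂ (fun m n : ℕ => m ^ n) := Primrec₂.unpaired'.1 Nat.Primrec.pow
  exact hpow.comp (Primrec.const 2) Primrec.id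

lemma hl_p : Primrec₂ hl :=
  hlt'_primrec.comp (Primrec₂.natPair.comp Primrec.fst Primrec.fst) Primrec.snd

attribute [local irreducible] hl

lemma str_p : Primrec₂ str := by
  have h : Primrec (fun q : (ℕ × ℕ) × ℕ => hl q.2 q.1.1) :=
    hl_p.comp Primrec.snd (Primrec.fst.comp Primrec.fst)
  have h2 := Primrec.list_map (Primrec.list_range.comp (Primrec.snd (α := ℕ) (β := ℕ))) h.to₂
  exact h2

attribute [local irreducible] evT str

lemma outp_p : PrimrecPred (fun q : (ℕ × List ℕ) × (ℕ × ℕ) => outp q.1.1 q.1.2 q.2.1 q.2.2) := by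
  have s : Primrec (fun z : ℕ × ((ℕ × List ℕ) × (ℕ × ℕ)) => z.2.1.2) :=
    Primrec.snd.comp (Primrec.fst.comp Primrec.snd)
  have e : Primrec (fun z : ℕ × ((ℕ × List ℕ) × (ℕ × ℕ)) => z.2.1.1) :=
    Primrec.fst.comp (Primrec.fst.comp Primrec.snd)
  have x : Primrec (fun z : ℕ × ((ℕ × List ℕ) × (ℕ × ℕ)) => z.2.2.1) :=
    Primrec.fst.comp (Primrec.snd.comp Primrec.snd)
  have y : Primrec (fun z : ℕ × ((ℕ × List ℕ) × (ℕ × ℕ)) => z.2.2.2) :=
    Primrec.snd.comp (Primrec.snd.comp Primrec.snd)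
  have t := Primrec.list_take.comp (Primrec.fst (α := ℕ) (β := (ℕ × List ℕ) × (ℕ × ℕ))) s
  have h1 := PR.evT_p.comp (((Primrec.list_length.comp s).pair e).pair (t.pair x))
  have h2 : PrimrecRel (fun (j : ℕ) (q : (ℕ × List ℕ) × (ℕ × ℕ)) =>
      evT q.1.2.length q.1.1 (q.1.2.take j) q.2.1 = q.2.2 + 1) :=
    Primrec.eq.comp h1 (Primrec.succ.comp y)
  exact h2.exists_mem_list.comp (Primrec.list_range.comp (Primrec.succ.comp
    (Primrec.list_length.comp (Primrec.snd.comp Primrec.fst)))) Primrec.id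

lemma conv_p : PrimrecPred (fun q : (ℕ × List ℕ) × ℕ => conv q.1.1 q.1.2 q.2) := by
  have s : Primrec (fun z : ℕ × ((ℕ × List ℕ) × ℕ) => z.2.1.2) :=
    Primrec.snd.comp (Primrec.fst.comp Primrec.snd)
  have e : Primrec (fun z : ℕ × ((ℕ × List ℕ) × ℕ) => z.2.1.1) :=
    Primrec.fst.comp (Primrec.fst.comp Primrec.snd)
  have x : Primrec (fun z : ℕ × ((ℕ × List ℕ) × ℕ) => z.2.2) :=
    Primrec.snd.comp Primrec.snd
  have t := Primrec.list_take.comp (Primrec.fst (α := ℕ) (β := (ℕ × List ℕ) × ℕ)) s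
  have h1 := PR.evT_p.comp (((Primrec.list_length.comp s).pair e).pair (t.pair x))
  have h2 : PrimrecRel (fun (j : ℕ) (q : (ℕ × List ℕ) × ℕ) =>
      evT q.1.2.length q.1.1 (q.1.2.take j) q.2 ≠ 0) :=
    (Primrec.eq.comp h1 (Primrec.const 0)).not
  exact h2.exists_mem_list.comp (Primrec.list_range.comp (Primrec.succ.comp
    (Primrec.list_length.comp (Primrec.snd.comp Primrec.fst)))) Primrec.id

attribute [local irreducible] outp conv

lemma kk_p : Primrec (fun q : (ℕ × List ℕ) × ℕ => kk q.1.1 q.1.2 q.2) := by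
  classical
  have h1 : PrimrecPred (fun z : ((ℕ × List ℕ) × ℕ) × ℕ =>
      conv z.1.1.1 z.1.1.2 (Nat.pair z.1.2 z.2)) :=
    conv_p.comp ((Primrec.fst.comp Primrec.fst).pair
      (Primrec₂.natPair.comp (Primrec.snd.comp Primrec.fst) Primrec.snd))
  have h2 : Primrec₂ (fun (q : (ℕ × List ℕ) × ℕ) (k : ℕ) =>
      decide (conv q.1.1 q.1.2 (Nat.pair q.2 k))) := h1.decide
  exact Primrec.list_findIdx (Primrec.list_range.comp (Primrec.succ.comp
    (Primrec.list_length.comp (Primrec.snd.comp Primrec.fst)))) h2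

attribute [local irreducible] kk

lemma wN_p : Primrec (fun q : ((ℕ × ℕ) × List ℕ) × ℕ => wN q.1.1.1 q.1.1.2 q.1.2 q.2) := by
  have hk : Primrec (fun q : ((ℕ × ℕ) × List ℕ) × ℕ => kk q.1.1.2 q.1.2 q.2) :=
    kk_p.comp (((Primrec.snd.comp (Primrec.fst.comp Primrec.fst)).pair
      (Primrec.snd.comp Primrec.fst)).pair Primrec.snd)
  have h1 : PrimrecPred (fun q : ((ℕ × ℕ) × List ℕ) × ℕ =>
      kk q.1.1.2 q.1.2 q.2 ≤ q.1.2.length) :=
    Primrec.nat_le.comp hk (Primrec.list_length.comp (Primrec.snd.comp Primrec.fst))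
  have h2 : Primrec (fun q : ((ℕ × ℕ) × List ℕ) × ℕ => 2 ^ (q.1.1.1 - kk q.1.1.2 q.1.2 q.2)) :=
    pow_p.comp (Primrec.nat_sub.comp (Primrec.fst.comp (Primrec.fst.comp Primrec.fst)) hk)
  exact (Primrec.ite h1 h2 (Primrec.const 0)).of_eq (by intro q; rfl)

attribute [local irreducible] wN

lemma massN_p : Primrec (fun q : (ℕ × ℕ) × List ℕ => massN q.1.1 q.1.2 q.2) := by
  have h := fsum_p (α := (ℕ × ℕ) × List ℕ)
    (Primrec.succ.comp (Primrec.list_length.comp Primrec.snd)) wN_p.to₂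
  exact h

lemma lst_p : Primrec lst :=
  Primrec.option_getD.comp (Primrec.list_getElem?.comp Primrec.id
    (Primrec.nat_sub.comp Primrec.list_length (Primrec.const 1))) (Primrec.const 0)

attribute [local irreducible] massN lst

lemma cN_p : Primrec (fun q : ((ℕ × ℕ) × List ℕ) × ℕ => cN q.1.1.1 q.1.1.2 q.1.2 q.2) := by
  have h1 : PrimrecPred (fun q : ((ℕ × ℕ) × List ℕ) × ℕ =>
      massN q.1.1.1 q.1.1.2 q.1.2 ≤ 2 ^ q.1.1.1) :=
    Primrec.nat_le.comp (massN_p.comp Primrec.fst)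
      (pow_p.comp (Primrec.fst.comp (Primrec.fst.comp Primrec.fst)))
  have h2 : PrimrecPred (fun z : (((ℕ × ℕ) × List ℕ) × ℕ) × ℕ =>
      str (lst z.1.1.2) z.2 = str z.1.2 z.2) :=
    Primrec.eq.comp (str_p.comp (lst_p.comp (Primrec.snd.comp (Primrec.fst.comp Primrec.fst)))
      Primrec.snd) (str_p.comp (Primrec.snd.comp Primrec.fst) Primrec.snd)
  have h3 : Primrec (fun z : (((ℕ × ℕ) × List ℕ) × ℕ) × ℕ =>
      wN z.1.1.1.1 z.1.1.1.2 z.1.1.2 z.2) :=
    wN_p.comp ((Primrec.fst.comp Primrec.fst).pair Primrec.snd)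
  have h4 := Primrec.ite h2 (Primrec.const 0) h3
  have h5 := fsum_p (Primrec.succ.comp (Primrec.list_length.comp
    (Primrec.snd.comp (Primrec.fst (α := (ℕ × ℕ) × List ℕ) (β := ℕ))))) h4.to₂
  have h6 := Primrec.ite h1 h5 (Primrec.const 0)
  refine h6.of_eq ?_
  intro q
  unfold cN
  rfl

attribute [local irreducible] cN

lemma totN_p : Primrec (fun q : (ℕ × ℕ) × List ℕ => totN q.1.1 q.1.2 q.2) := by
  have t : Primrec (fun z : ((ℕ × ℕ) × List ℕ) × ℕ => z.1.2.take z.2) :=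
    Primrec.list_take.comp Primrec.snd (Primrec.snd.comp Primrec.fst)
  have g : Primrec (fun z : ((ℕ × ℕ) × List ℕ) × ℕ => (z.1.2[z.2]?).getD 0) :=
    Primrec.option_getD.comp (Primrec.list_getElem?.comp (Primrec.snd.comp Primrec.fst)
      Primrec.snd) (Primrec.const 0)
  have h1 := cN_p.comp (((Primrec.fst.comp Primrec.fst).pair t).pair g)
  have h := fsum_p (α := (ℕ × ℕ) × List ℕ) (Primrec.list_length.comp Primrec.snd) h1.to₂
  exact h

attribute [local irreducible] totN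

lemma qN_p : Primrec (fun q : (ℕ × ℕ) × List ℕ => qN q.1.1 q.1.2 q.2) :=
  Primrec.nat_add.comp totN_p (Primrec.nat_min.comp massN_p
    (pow_p.comp (Primrec.fst.comp Primrec.fst)))

attribute [local irreducible] qN

lemma resp_p : PrimrecPred (fun q : List ℕ × List ℕ => resp q.1 q.2) := by
  have l : Primrec (fun z : ℕ × (List ℕ × List ℕ) => z.2.1.length) :=
    Primrec.list_length.comp (Primrec.fst.comp Primrec.snd)
  have h1 : PrimrecRel (fun (t' : ℕ) (q : List ℕ × List ℕ) =>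
      str t' q.1.length = str (lst q.1) q.1.length) :=
    Primrec.eq.comp (str_p.comp Primrec.fst l)
      (str_p.comp (lst_p.comp (Primrec.fst.comp Primrec.snd)) l)
  exact h1.forall_mem_list.comp Primrec.snd Primrec.id

attribute [local irreducible] resp

lemma al_p : PrimrecPred (fun q : (ℕ × List ℕ) × List ℕ => al q.1.1 q.1.2 q.2) := by
  have h1 : PrimrecPred (fun q : (ℕ × List ℕ) × List ℕ => resp q.1.2 q.2) :=
    resp_p.comp ((Primrec.snd.comp Primrec.fst).pair Primrec.snd)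
  have i : Primrec (fun z : ℕ × ((ℕ × List ℕ) × List ℕ) => z.1) := Primrec.fst
  have e : Primrec (fun z : ℕ × ((ℕ × List ℕ) × List ℕ) => 2 ^ z.2.1.1) :=
    pow_p.comp (Primrec.fst.comp (Primrec.fst.comp Primrec.snd))
  have s : Primrec (fun z : ℕ × ((ℕ × List ℕ) × List ℕ) => z.2.1.2) :=
    Primrec.snd.comp (Primrec.fst.comp Primrec.snd)
  have sr : Primrec (fun z : ℕ × ((ℕ × List ℕ) × List ℕ) => z.2.1.2 ++ z.2.2) :=
    Primrec.list_append.comp s (Primrec.snd.comp Primrec.snd)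
  have L : Primrec (fun z : ℕ × ((ℕ × List ℕ) × List ℕ) => (z.2.1.2 ++ z.2.2).length) :=
    Primrec.list_length.comp sr
  have a1 := Primrec.nat_mul.comp e (qN_p.comp ((L.pair i).pair sr))
  have a2 := Primrec.nat_add.comp (Primrec.nat_mul.comp e (qN_p.comp ((L.pair i).pair s)))
    (pow_p.comp L)
  have h2 : PrimrecRel (fun (i : ℕ) (q : (ℕ × List ℕ) × List ℕ) =>
      2 ^ q.1.1 * qN (q.1.2 ++ q.2).length i (q.1.2 ++ q.2) ≤
      2 ^ q.1.1 * qN (q.1.2 ++ q.2).length i q.1.2 + 2 ^ (q.1.2 ++ q.2).length) :=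
    Primrec.nat_le.comp a1 a2
  have h3 : PrimrecPred (fun q : (ℕ × List ℕ) × List ℕ => ∀ i ∈ List.range (q.1.1 + 1),
      2 ^ q.1.1 * qN (q.1.2 ++ q.2).length i (q.1.2 ++ q.2) ≤
      2 ^ q.1.1 * qN (q.1.2 ++ q.2).length i q.1.2 + 2 ^ (q.1.2 ++ q.2).length) :=
    h2.forall_mem_list.comp (Primrec.list_range.comp (Primrec.succ.comp
      (Primrec.fst.comp Primrec.fst))) Primrec.id
  exact PrimrecPred.and h1 h3

attribute [local irreducible] al

/-- splittings: two allowed extensions with different outputs -/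
abbrev Sp := (List ℕ × List ℕ) × (ℕ × (ℕ × ℕ))

def spl (e : ℕ) (σ : List ℕ) (d : Sp) : Prop :=
  (al e σ d.1.1 ∧ al e σ d.1.2) ∧
    (outp e (σ ++ d.1.1) d.2.1 d.2.2.1 ∧ outp e (σ ++ d.1.2) d.2.1 d.2.2.2) ∧ d.2.2.1 ≠ d.2.2.2

def DS (z : ℕ) : Sp := (Encodable.decode (α := Sp) z).getD (([], []), (0, (0, 0)))

lemma DS_p : Primrec DS := Primrec.option_getD.comp Primrec.decode (Primrec.const _)

lemma DS_encode (d : Sp) : DS (Encodable.encode d) = d := by
  unfold DS; rw [Encodable.encodek]; rfl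

lemma spl_p : PrimrecPred (fun q : (ℕ × List ℕ) × Sp => spl q.1.1 q.1.2 q.2) := by
  have e : Primrec (fun q : (ℕ × List ℕ) × Sp => q.1.1) := Primrec.fst.comp Primrec.fst
  have s : Primrec (fun q : (ℕ × List ℕ) × Sp => q.1.2) := Primrec.snd.comp Primrec.fst
  have r1 : Primrec (fun q : (ℕ × List ℕ) × Sp => q.2.1.1) :=
    Primrec.fst.comp (Primrec.fst.comp Primrec.snd)
  have r2 : Primrec (fun q : (ℕ × List ℕ) × Sp => q.2.1.2) :=
    Primrec.snd.comp (Primrec.fst.comp Primrec.snd)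
  have x : Primrec (fun q : (ℕ × List ℕ) × Sp => q.2.2.1) :=
    Primrec.fst.comp (Primrec.snd.comp Primrec.snd)
  have y1 : Primrec (fun q : (ℕ × List ℕ) × Sp => q.2.2.2.1) :=
    Primrec.fst.comp (Primrec.snd.comp (Primrec.snd.comp Primrec.snd))
  have y2 : Primrec (fun q : (ℕ × List ℕ) × Sp => q.2.2.2.2) :=
    Primrec.snd.comp (Primrec.snd.comp (Primrec.snd.comp Primrec.snd))
  have a1 := al_p.comp ((e.pair s).pair r1)
  have a2 := al_p.comp ((e.pair s).pair r2)
  have b1 := outp_p.comp ((e.pair (Primrec.list_append.comp s r1)).pair (x.pair y1))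
  have b2 := outp_p.comp ((e.pair (Primrec.list_append.comp s r2)).pair (x.pair y2))
  have c := (Primrec.eq.comp y1 y2).not
  have h := PrimrecPred.and (PrimrecPred.and a1 a2) (PrimrecPred.and (PrimrecPred.and b1 b2) c)
  exact h

attribute [local irreducible] spl DS

/-! the approximations of the construction; `a` is an index of the set whose cone is avoided -/

/-- the extension chosen from a splitting -/
def pickT (a t : ℕ) (d : Sp) : List ℕ :=
  if d.2.2.1 = (if hlt' (Nat.pair a d.2.1) t = true then 1 else 0) then d.1.2 else d.1.1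

lemma pickT_p : Primrec (fun q : (ℕ × ℕ) × Sp => pickT q.1.1 q.1.2 q.2) := by
  have r1 : Primrec (fun q : (ℕ × ℕ) × Sp => q.2.1.1) :=
    Primrec.fst.comp (Primrec.fst.comp Primrec.snd)
  have r2 : Primrec (fun q : (ℕ × ℕ) × Sp => q.2.1.2) :=
    Primrec.snd.comp (Primrec.fst.comp Primrec.snd)
  have x : Primrec (fun q : (ℕ × ℕ) × Sp => q.2.2.1) :=
    Primrec.fst.comp (Primrec.snd.comp Primrec.snd)
  have y1 : Primrec (fun q : (ℕ × ℕ) × Sp => q.2.2.2.1) :=
    Primrec.fst.comp (Primrec.snd.comp (Primrec.snd.comp Primrec.snd))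
  have h1 : PrimrecPred (fun q : (ℕ × ℕ) × Sp => hlt' (Nat.pair q.1.1 q.2.2.1) q.1.2 = true) :=
    Primrec.eq.comp (hlt'_primrec.comp (Primrec₂.natPair.comp (Primrec.fst.comp Primrec.fst) x)
      (Primrec.snd.comp Primrec.fst)) (Primrec.const true)
  have h2 := Primrec.ite h1 (Primrec.const 1) (Primrec.const 0)
  have h3 := Primrec.ite (Primrec.eq.comp y1 h2) r2 r1
  refine h3.of_eq ?_
  intro q
  unfold pickT
  rfl

abbrev St := List ℕ × List ℕ

/-- append correct information -/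
noncomputable def corrT (t : ℕ) (τ : List ℕ) : List ℕ := τ ++ [mdT t ((τ.length + 1) ^ 2)]

lemma corrT_p : Primrec₂ corrT := by
  have hpow : Primrec₂ (fun m n : ℕ => m ^ n) := Primrec₂.unpaired'.1 Nat.Primrec.pow
  have h2 : Primrec (fun q : ℕ × List ℕ => (q.2.length + 1) ^ 2) :=
    hpow.comp (Primrec.succ.comp (Primrec.list_length.comp Primrec.snd)) (Primrec.const 2)
  have h3 : Primrec (fun q : ℕ × List ℕ => mdT q.1 ((q.2.length + 1) ^ 2)) :=
    PR.mdT_p.comp (Primrec.fst.pair h2)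
  exact Primrec.list_concat.comp Primrec.snd h3

noncomputable def fndT (t s : ℕ) (σ : List ℕ) : ℕ :=
  open Classical in (List.range t).findIdx (fun z => decide (spl s.unpair.1 σ (DS z)))

lemma fndT_p : Primrec (fun q : (ℕ × ℕ) × List ℕ => fndT q.1.1 q.1.2 q.2) := by
  classical
  have h1 := spl_p.comp (((Primrec.fst.comp (Primrec.unpair.comp (Primrec.snd.comp
    (Primrec.fst.comp (Primrec.fst (α := (ℕ × ℕ) × List ℕ) (β := ℕ)))))).pair
    (Primrec.snd.comp (Primrec.fst (α := (ℕ × ℕ) × List ℕ) (β := ℕ)))).pair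
    (DS_p.comp Primrec.snd))
  have h2 : Primrec₂ (fun (q : (ℕ × ℕ) × List ℕ) (z : ℕ) =>
      decide (spl q.1.2.unpair.1 q.2 (DS z))) := h1.decide
  exact Primrec.list_findIdx (Primrec.list_range.comp (Primrec.fst.comp Primrec.fst)) h2

attribute [local irreducible] pickT corrT fndT

noncomputable def stepT (a t s : ℕ) (u : St) : St :=
  if s.unpair.1 ∉ u.2 ∧ fndT t s u.1 < t then
    (corrT t (u.1 ++ pickT a t (DS (fndT t s u.1))), s.unpair.1 :: u.2)
  else (corrT t u.1, u.2)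

lemma stepT_p (a : ℕ) : Primrec (fun q : (ℕ × ℕ) × St => stepT a q.1.1 q.1.2 q.2) := by
  have t : Primrec (fun q : (ℕ × ℕ) × St => q.1.1) := Primrec.fst.comp Primrec.fst
  have s : Primrec (fun q : (ℕ × ℕ) × St => q.1.2) := Primrec.snd.comp Primrec.fst
  have s1 : Primrec (fun q : (ℕ × ℕ) × St => q.1.2.unpair.1) :=
    Primrec.fst.comp (Primrec.unpair.comp s)
  have u1 : Primrec (fun q : (ℕ × ℕ) × St => q.2.1) := Primrec.fst.comp Primrec.snd
  have u2 : Primrec (fun q : (ℕ × ℕ) × St => q.2.2) := Primrec.snd.comp Primrec.snd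
  have h1 : PrimrecRel (fun (b c : ℕ) => b = c) := Primrec.eq
  have h2 : PrimrecPred (fun q : (ℕ × ℕ) × St => ∃ b ∈ q.2.2, b = q.1.2.unpair.1) :=
    h1.exists_mem_list.comp u2 s1
  have h3 : PrimrecPred (fun q : (ℕ × ℕ) × St => q.1.2.unpair.1 ∉ q.2.2) :=
    h2.not.of_eq (by intro q; simp)
  have hf := fndT_p.comp (Primrec.fst.pair u1)
  have h4 := Primrec.nat_lt.comp hf t
  have h5 := PrimrecPred.and h3 h4
  have h6 := pickT_p.comp (((Primrec.const a).pair t).pair (DS_p.comp hf))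
  have h7 := corrT_p.comp t (Primrec.list_append.comp u1 h6)
  have h8 := h7.pair (Primrec.list_cons.comp s1 u2)
  have h9 := (corrT_p.comp t u1).pair u2
  have h10 := Primrec.ite h5 h8 h9
  refine h10.of_eq ?_
  intro q
  unfold stepT
  rfl

attribute [local irreducible] stepT

noncomputable def runT (a t : ℕ) (s : ℕ) : St := Nat.rec ([], []) (fun s u => stepT a t s u) s

lemma runT_p (a : ℕ) : Primrec₂ (runT a) := by
  have h1 : Primrec₂ (fun (q : ℕ × ℕ) (z : ℕ × St) => stepT a q.1 z.1 z.2) := by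
    have h := (stepT_p a).comp (((Primrec.fst.comp (Primrec.fst (α := ℕ × ℕ) (β := ℕ × St))).pair
      (Primrec.fst.comp (Primrec.snd (α := ℕ × ℕ) (β := ℕ × St)))).pair
      (Primrec.snd.comp (Primrec.snd (α := ℕ × ℕ) (β := ℕ × St))))
    exact h
  have h2 := Primrec.nat_rec' (Primrec.snd (α := ℕ) (β := ℕ)) (Primrec.const (([], []) : St)) h1
  exact h2

end Pool.Agent.Helper743.AC
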