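import Pool.Agent.Helper743.ACReal

set_option autoImplicit false

/-! invariants of the construction -/

namespace Pool.Agent.Helper743.AC

open Nat.Partrec (Code)
open Filter
open Pool.Agent.Helper743.PR (evT LS mdT mdR findIdx_range ev_list mdT_lim)

variable (a : ℕ)

noncomputable def kstr (n : ℕ) : List Bool :=
  open Classical in (List.range n).map (fun p => decide (∃ t, hl p t = true))

lemma kstr_take {w w' : ℕ} (h : w' ≤ w) : kstr w' = (kstr w).take w' := by
  unfold kstr
  rw [← List.map_take, List.take_range, min_eq_left h]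

lemma str_kstr_mono {t w w' : ℕ} (h : w' ≤ w) (he : str t w = kstr w) : str t w' = kstr w' := by
  rw [str_take h, he, ← kstr_take h]

lemma str_mdR (n w : ℕ) (h : w ≤ n + 1) : str (mdR ((n + 1) ^ 2)) w = kstr w := by
  classical
  unfold str kstr
  apply List.map_congr_left
  intro p hp
  rw [List.mem_range] at hp
  have h1 : Nat.pair p p < (n + 1) ^ 2 := by
    have h5 := Nat.pair_lt_max_add_one_sq p p
    rw [max_self] at h5
    exact lt_of_lt_of_le h5 (Nat.pow_le_pow_left (by omega) 2)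
  by_cases h2 : ∃ t, hl p t = true
  · rw [decide_eq_true h2]
    exact PR.mdR_spec _ _ h1 h2
  · rw [decide_eq_false h2, ← Bool.not_eq_true]
    exact fun h3 => h2 ⟨_, h3⟩

/-- the correcting entry -/
noncomputable def ts (s : ℕ) : ℕ := mdR (((sg a s ++ rh a s).length + 1) ^ 2)

lemma sg_succ' (s : ℕ) : sg a (s + 1) = sg a s ++ rh a s ++ [ts a s] := by
  rw [sg_succ]; rfl

lemma str_ts (s w : ℕ) (h : w ≤ (sg a s ++ rh a s).length + 1) : str (ts a s) w = kstr w :=
  str_mdR _ _ h

lemma sg_corr (s : ℕ) : str (lst (sg a s)) (sg a s).length = kstr (sg a s).length := by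
  cases s with
  | zero => rfl
  | succ s =>
    rw [sg_succ', lst_concat]
    apply str_ts
    simp only [List.length_append, List.length_cons, List.length_nil]
    omega

lemma ts_corr (s : ℕ) : str (ts a s) (sg a s).length = str (lst (sg a s)) (sg a s).length := by
  rw [sg_corr]
  apply str_ts
  simp; omega

lemma ext_resp {s : ℕ} {t : ℕ} (h : t ∈ rh a s ++ [ts a s]) :
    str t (sg a s).length = kstr (sg a s).length := by
  rcases List.mem_append.1 h with h | h
  · have h1 := rh_resp a s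
    unfold resp at h1
    rw [h1 t h, sg_corr]
  · rw [List.mem_singleton] at h
    subst h
    rw [ts_corr, sg_corr]

/-- origin of an entry -/
lemma entry {s n : ℕ} (h : (sg a s).length ≤ n) : ∃ u, s ≤ u ∧ (sg a u).length ≤ n ∧
    n < (sg a (u + 1)).length ∧ GG a n ∈ rh a u ++ [ts a u] := by
  classical
  have h1 := Nat.find_spec (sg_long a n)
  have h2 : s < Nat.find (sg_long a n) := by
    by_contra hle
    push Not at hle
    have := (sg_mono a hle).length_le
    omega
  obtain ⟨u, hu⟩ : ∃ u, Nat.find (sg_long a n) = u + 1 :=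
    ⟨Nat.find (sg_long a n) - 1, by omega⟩
  have h3 : (sg a u).length ≤ n := by
    have := Nat.find_min (sg_long a n) (m := u) (by omega)
    omega
  rw [hu] at h1
  refine ⟨u, by omega, h3, h1, ?_⟩
  have h5 := sg_get a h1
  rw [sg_succ', List.append_assoc, List.getElem?_append_right h3] at h5
  exact List.mem_of_getElem? h5

lemma GG_resp {s n : ℕ} (h : (sg a s).length ≤ n) :
    str (GG a n) (sg a s).length = kstr (sg a s).length := by
  obtain ⟨u, h1, h2, h3, h4⟩ := entry a h
  exact str_kstr_mono (sg_mono a h1).length_le (ext_resp a h4)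

lemma pre_split {s n : ℕ} (h : (sg a s).length ≤ n) : ∃ ρ, pre (GG a) n = sg a s ++ ρ ∧
    resp (sg a s) ρ := by
  obtain ⟨ρ, hρ⟩ := pre_prefix (GG a) h
  rw [← sg_eq_pre] at hρ
  refine ⟨ρ, hρ.symm, fun m hm => ?_⟩
  obtain ⟨i, hi⟩ := List.mem_iff_getElem?.1 hm
  have h1 : (pre (GG a) n)[(sg a s).length + i]? = some m := by
    rw [← hρ, List.getElem?_append_right (by omega), Nat.add_sub_cancel_left, hi]
  rw [pre_getElem?] at h1
  by_cases h2 : (sg a s).length + i < n
  · rw [if_pos h2] at h1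
    rw [← Option.some.inj h1, sg_corr]
    exact GG_resp a (Nat.le_add_right _ _)
  · rw [if_neg h2] at h1; simp at h1

/-! each requirement acts at most once -/

lemma dd_mono {s s' : ℕ} (h : s ≤ s') : ∀ e ∈ dd a s, e ∈ dd a s' := by
  induction s', h using Nat.le_induction with
  | base => exact fun e h => h
  | succ n _ ih =>
    intro e he
    by_cases h1 : acts n (runR a n)
    · rw [dd_succ_pos a h1]; exact List.mem_cons_of_mem _ (ih e he)
    · rw [dd_succ_neg a h1]; exact ih e he

lemma dd_mem {s e : ℕ} (h : e ∈ dd a s) : ∃ s', acts s' (runR a s') ∧ s'.unpair.1 = e := by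
  induction s with
  | zero => rw [dd_zero] at h; simp at h
  | succ s ih =>
    by_cases h1 : acts s (runR a s)
    · rw [dd_succ_pos a h1, List.mem_cons] at h
      rcases h with h | h
      · exact ⟨s, h1, h.symm⟩
      · exact ih h
    · rw [dd_succ_neg a h1] at h; exact ih h

lemma acts_once (e : ℕ) : ∀ᶠ s in atTop, ¬ (acts s (runR a s) ∧ s.unpair.1 = e) := by
  by_cases h : ∃ s, acts s (runR a s) ∧ s.unpair.1 = e
  · obtain ⟨s, h1, h2⟩ := h
    filter_upwards [eventually_gt_atTop s] with s' hs'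
    rintro ⟨h3, h4⟩
    apply h3.1
    rw [h4, ← h2]
    apply dd_mono a hs'
    rw [dd_succ_pos a h1]
    exact List.mem_cons_self
  · push Not at h
    exact Eventually.of_forall (fun s hs => h s hs.1 hs.2)

lemma acts_late (i : ℕ) : ∃ s0, ∀ s, s0 ≤ s → acts s (runR a s) → i ≤ s.unpair.1 := by
  have h := ev_list (L := List.range i)
    (P := fun s e => ¬ (acts s (runR a s) ∧ s.unpair.1 = e)) (fun e _ => acts_once a e)
  obtain ⟨s0, h0⟩ := eventually_atTop.1 h
  refine ⟨s0, fun s hs hact => ?_⟩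
  by_contra hlt
  push Not at hlt
  exact h0 s hs s.unpair.1 (List.mem_range.2 hlt) ⟨hact, rfl⟩

/-! the total cost is finite -/

lemma tot_acts {i s : ℕ} (h : acts s (runR a s)) (hi : i ≤ s.unpair.1) :
    totR i (sg a (s + 1)) ≤ totR i (sg a s) + (1 / 2) ^ s.unpair.1 := by
  have h1 := (al_iff.1 (rh_al a h)).2 i hi
  have h2 := tot_step (i := i) (rh_resp a s) (ts_corr a s)
  rw [sg_succ']
  linarith

lemma tot_nacts {i s : ℕ} (h : ¬ acts s (runR a s)) :
    totR i (sg a (s + 1)) ≤ totR i (sg a s) := by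
  have h2 := tot_step (i := i) (rh_resp a s) (ts_corr a s)
  rw [sg_succ']
  rw [rh_neg a h, List.append_nil] at h2 ⊢
  linarith

lemma geo_le (S : Finset ℕ) : ∑ e ∈ S, ((1 : ℝ) / 2) ^ e ≤ 2 := by
  calc ∑ e ∈ S, ((1 : ℝ) / 2) ^ e ≤ ∑' e, ((1 : ℝ) / 2) ^ e :=
        summable_geometric_two.sum_le_tsum S (fun i _ => by positivity)
    _ = 2 := tsum_geometric_two

lemma tot_late {i s0 : ℕ} (h0 : ∀ s, s0 ≤ s → acts s (runR a s) → i ≤ s.unpair.1) (s : ℕ)
    (hs : s0 ≤ s) : totR i (sg a s) ≤ totR i (sg a s0) +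
      ∑ e ∈ (dd a s).toFinset, ((1 : ℝ) / 2) ^ e := by
  induction s, hs using Nat.le_induction with
  | base =>
    have : 0 ≤ ∑ e ∈ (dd a s0).toFinset, ((1 : ℝ) / 2) ^ e :=
      Finset.sum_nonneg (fun e _ => by positivity)
    linarith
  | succ s hs ih =>
    by_cases h1 : acts s (runR a s)
    · rw [dd_succ_pos a h1, List.toFinset_cons, Finset.sum_insert (by
        rw [List.mem_toFinset]; exact h1.1)]
      have := tot_acts a h1 (h0 s hs h1)
      linarith
    · rw [dd_succ_neg a h1]
      have := tot_nacts a (i := i) h1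
      linarith

lemma tot_bdd (i : ℕ) : ∃ C : ℝ, ∀ n, totR i (pre (GG a) n) ≤ C := by
  obtain ⟨s0, h0⟩ := acts_late a i
  refine ⟨totR i (sg a s0) + 2, fun n => ?_⟩
  have h1 : pre (GG a) n <+: sg a (max n s0) := by
    rw [sg_eq_pre]
    exact pre_prefix _ (le_trans (le_max_left _ _) (sg_length a (max n s0)))
  have h2 := totR_mono (i := i) h1
  have h3 := tot_late a h0 (max n s0) (le_max_right _ _)
  have h4 := geo_le (dd a (max n s0)).toFinset
  linarith

lemma q_tail (i : ℕ) {ε : ℝ} (hε : 0 < ε) : ∃ N, ∀ m n, N ≤ m → m ≤ n →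
    qR i (pre (GG a) n) ≤ qR i (pre (GG a) m) + ε := by
  obtain ⟨C, hC⟩ := tot_bdd a i
  have hb : BddAbove (Set.range (fun n => qR i (pre (GG a) n))) := by
    refine ⟨C + 1, ?_⟩
    rintro _ ⟨n, rfl⟩
    exact add_le_add (hC n) (MR_le _ _)
  obtain ⟨N, hN⟩ := exists_lt_of_lt_ciSup (f := fun n => qR i (pre (GG a) n))
    (show (⨆ n, qR i (pre (GG a) n)) - ε < ⨆ n, qR i (pre (GG a) n) by linarith)
  refine ⟨N, fun m n hm _ => ?_⟩
  have h1 := le_ciSup hb n
  have h2 := qR_mono (i := i) (pre_prefix (GG a) hm)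
  have h3 := qR_mono (i := i) (pre_prefix (GG a) hm)
  linarith

lemma q_tails (e : ℕ) : ∃ N, ∀ m n, N ≤ m → m ≤ n → ∀ i, i ≤ e →
    qR i (pre (GG a) n) ≤ qR i (pre (GG a) m) + (1 / 2) ^ e := by
  have hε : (0 : ℝ) < (1 / 2) ^ e := by positivity
  choose f hf using fun i => q_tail a i hε
  refine ⟨(Finset.range (e + 1)).sup f, fun m n hm hmn i hi => ?_⟩
  apply hf i m n _ hmn
  refine le_trans ?_ hm
  exact Finset.le_sup (f := f) (Finset.mem_range.2 (by omega))

end Pool.Agent.Helper743.AC
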