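import Pool.Agent.Helper743.ACRun

set_option autoImplicit false

/-! real valued versions of the costs, and the invariants of the construction -/

namespace Pool.Agent.Helper743.AC

open Nat.Partrec (Code)
open Filter
open Pool.Agent.Helper743.PR (evT LS mdT mdR findIdx_range ev_list mdT_lim)

noncomputable def wR (i : ℕ) (σ : List ℕ) (w : ℕ) : ℝ :=
  if kk i σ w ≤ σ.length then (1 / 2) ^ (kk i σ w) else 0

noncomputable def massR (i : ℕ) (σ : List ℕ) : ℝ :=
  ∑ w ∈ Finset.range (σ.length + 1), wR i σ w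

noncomputable def cR (i : ℕ) (σ : List ℕ) (t' : ℕ) : ℝ :=
  if massR i σ ≤ 1 then
    ∑ w ∈ Finset.range (σ.length + 1), if str (lst σ) w = str t' w then 0 else wR i σ w
  else 0

noncomputable def totR (i : ℕ) (τ : List ℕ) : ℝ :=
  ∑ j ∈ Finset.range τ.length, cR i (τ.take j) ((τ[j]?).getD 0)

noncomputable def MR (i : ℕ) (τ : List ℕ) : ℝ := min (massR i τ) 1

noncomputable def qR (i : ℕ) (τ : List ℕ) : ℝ := totR i τ + MR i τ

lemma wN_cast {L i : ℕ} {σ : List ℕ} {w : ℕ} (h : σ.length ≤ L) :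
    (wN L i σ w : ℝ) = 2 ^ L * wR i σ w := by
  unfold wN wR
  by_cases h1 : kk i σ w ≤ σ.length
  · rw [if_pos h1, if_pos h1]
    have h2 : L = (L - kk i σ w) + kk i σ w := by omega
    conv_rhs => rw [h2]
    rw [pow_add]
    push_cast
    rw [mul_assoc, ← mul_pow]
    norm_num
  · rw [if_neg h1, if_neg h1]; simp

lemma massN_cast {L i : ℕ} {σ : List ℕ} (h : σ.length ≤ L) :
    (massN L i σ : ℝ) = 2 ^ L * massR i σ := by
  unfold massN massR
  push_cast
  rw [Finset.mul_sum]
  exact Finset.sum_congr rfl (fun w _ => wN_cast h)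

lemma mass_le_iff {L i : ℕ} {σ : List ℕ} (h : σ.length ≤ L) :
    massN L i σ ≤ 2 ^ L ↔ massR i σ ≤ 1 := by
  have h1 := massN_cast (i := i) h
  have h2 : (0 : ℝ) < 2 ^ L := by positivity
  constructor
  · intro h3
    have h4 : (massN L i σ : ℝ) ≤ ((2 ^ L : ℕ) : ℝ) := by exact_mod_cast h3
    rw [h1] at h4
    push_cast at h4
    by_contra h5
    push Not at h5
    nlinarith
  · intro h3
    have h4 : (massN L i σ : ℝ) ≤ ((2 ^ L : ℕ) : ℝ) := by
      rw [h1]; push_cast; nlinarith
    exact_mod_cast h4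

lemma cN_cast {L i : ℕ} {σ : List ℕ} {t' : ℕ} (h : σ.length ≤ L) :
    (cN L i σ t' : ℝ) = 2 ^ L * cR i σ t' := by
  unfold cN cR
  by_cases h1 : massR i σ ≤ 1
  · rw [if_pos h1, if_pos ((mass_le_iff h).2 h1), Finset.mul_sum]
    push_cast
    refine Finset.sum_congr rfl (fun w _ => ?_)
    by_cases h2 : str (lst σ) w = str t' w
    · rw [if_pos h2, if_pos h2]; simp
    · rw [if_neg h2, if_neg h2]; exact wN_cast h
  · rw [if_neg h1, if_neg (fun h2 => h1 ((mass_le_iff h).1 h2))]; simp

lemma totN_cast {L i : ℕ} {τ : List ℕ} (h : τ.length ≤ L) :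
    (totN L i τ : ℝ) = 2 ^ L * totR i τ := by
  unfold totN totR
  push_cast
  rw [Finset.mul_sum]
  refine Finset.sum_congr rfl (fun j hj => ?_)
  apply cN_cast
  rw [List.length_take]
  exact le_trans (min_le_right _ _) h

lemma qN_cast {L i : ℕ} {τ : List ℕ} (h : τ.length ≤ L) :
    (qN L i τ : ℝ) = 2 ^ L * qR i τ := by
  unfold qN qR MR
  push_cast
  rw [totN_cast h, massN_cast h, mul_add]
  congr 1
  rw [mul_min_of_nonneg _ _ (by positivity), mul_one]

lemma al_iff {e : ℕ} {σ ρ : List ℕ} : al e σ ρ ↔ resp σ ρ ∧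
    ∀ i, i ≤ e → qR i (σ ++ ρ) ≤ qR i σ + (1 / 2) ^ e := by
  unfold al
  refine and_congr Iff.rfl ?_
  have key : ∀ i, (2 ^ e * qN (σ ++ ρ).length i (σ ++ ρ) ≤
      2 ^ e * qN (σ ++ ρ).length i σ + 2 ^ (σ ++ ρ).length) ↔
      qR i (σ ++ ρ) ≤ qR i σ + (1 / 2) ^ e := by
    intro i
    set L := (σ ++ ρ).length with hL
    have h1 : (qN L i (σ ++ ρ) : ℝ) = 2 ^ L * qR i (σ ++ ρ) := qN_cast (le_refl _)
    have h2 : (qN L i σ : ℝ) = 2 ^ L * qR i σ := qN_cast (by rw [hL]; simp)
    have h3 : (2 ^ e * qN L i (σ ++ ρ) ≤ 2 ^ e * qN L i σ + 2 ^ L) ↔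
        ((2 : ℝ) ^ e * (2 ^ L * qR i (σ ++ ρ)) ≤ 2 ^ e * (2 ^ L * qR i σ) + 2 ^ L) := by
      rw [← h1, ← h2]
      constructor
      · intro h; exact_mod_cast h
      · intro h; exact_mod_cast h
    rw [h3]
    have h4 : (0 : ℝ) < 2 ^ e * 2 ^ L := by positivity
    have h5 : (2 : ℝ) ^ e * (2 ^ L * qR i σ) + 2 ^ L =
        2 ^ e * 2 ^ L * (qR i σ + (1 / 2) ^ e) := by
      have : (2 : ℝ) ^ e * (1 / 2) ^ e = 1 := by rw [← mul_pow]; norm_num
      calc (2 : ℝ) ^ e * (2 ^ L * qR i σ) + 2 ^ L =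
          2 ^ e * (2 ^ L * qR i σ) + 2 ^ L * (2 ^ e * (1 / 2) ^ e) := by rw [this, mul_one]
        _ = _ := by ring
    rw [h5, ← mul_assoc]
    constructor
    · intro h; exact le_of_mul_le_mul_left h h4
    · intro h; exact mul_le_mul_of_nonneg_left h h4.le
  constructor
  · intro h i hi
    exact (key i).1 (h i (List.mem_range.2 (by omega)))
  · intro h i hi
    exact (key i).2 (h i (by have := List.mem_range.1 hi; omega))

/-! monotonicity -/

lemma wR_nonneg (i : ℕ) (σ : List ℕ) (w : ℕ) : 0 ≤ wR i σ w := by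
  unfold wR
  split_ifs
  · positivity
  · exact le_refl _

lemma cR_nonneg (i : ℕ) (σ : List ℕ) (t' : ℕ) : 0 ≤ cR i σ t' := by
  unfold cR
  split_ifs
  · apply Finset.sum_nonneg
    intro w _
    split_ifs
    · exact le_refl _
    · exact wR_nonneg _ _ _
  · exact le_refl _

lemma massR_nonneg (i : ℕ) (σ : List ℕ) : 0 ≤ massR i σ :=
  Finset.sum_nonneg (fun w _ => wR_nonneg _ _ _)

lemma conv_mono {i : ℕ} {σ τ : List ℕ} {x : ℕ} (h : σ <+: τ) (hc : conv i σ x) : conv i τ x := by
  unfold conv at *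
  obtain ⟨j, hj, h1⟩ := hc
  have hl := h.length_le
  rw [List.mem_range] at hj
  refine ⟨j, List.mem_range.2 (by omega), ?_⟩
  have h2 : τ.take j = σ.take j := by
    obtain ⟨ρ, rfl⟩ := h
    rw [List.take_append_of_le_length (by omega)]
  rw [h2, PR.evT_mono hl h1]
  exact h1

lemma kk_le_iff {i : ℕ} {σ : List ℕ} {w n : ℕ} (hn : n ≤ σ.length) :
    kk i σ w ≤ n ↔ ∃ k, k ≤ n ∧ conv i σ (Nat.pair w k) := by
  classical
  unfold kk
  constructor
  · intro h
    have h1 : (List.range (σ.length + 1)).findIdx (fun k => decide (conv i σ (Nat.pair w k))) <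
        (List.range (σ.length + 1)).length := by simp; omega
    have h2 := List.findIdx_getElem (w := h1)
    refine ⟨_, h, ?_⟩
    simpa using h2
  · rintro ⟨k, hk, hc⟩
    by_contra h
    push Not at h
    have h1 : k < (List.range (σ.length + 1)).findIdx
        (fun k => decide (conv i σ (Nat.pair w k))) := by omega
    have h2 := List.not_of_lt_findIdx h1
    simp at h2
    exact h2 hc

lemma kk_mono {i : ℕ} {σ τ : List ℕ} {w : ℕ} (h : σ <+: τ) (hk : kk i σ w ≤ σ.length) :
    kk i τ w ≤ kk i σ w := by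
  obtain ⟨k, hk1, hk2⟩ := (kk_le_iff hk).1 (le_refl _)
  exact (kk_le_iff (le_trans hk h.length_le)).2 ⟨k, hk1, conv_mono h hk2⟩

lemma wR_mono {i : ℕ} {σ τ : List ℕ} (h : σ <+: τ) (w : ℕ) : wR i σ w ≤ wR i τ w := by
  by_cases h1 : kk i σ w ≤ σ.length
  · have h2 := kk_mono h h1
    have h3 := h.length_le
    unfold wR
    rw [if_pos h1, if_pos (by omega)]
    exact pow_le_pow_of_le_one (by norm_num) (by norm_num) h2
  · have : wR i σ w = 0 := by unfold wR; rw [if_neg h1]
    rw [this]; exact wR_nonneg _ _ _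

lemma massR_mono {i : ℕ} {σ τ : List ℕ} (h : σ <+: τ) : massR i σ ≤ massR i τ := by
  unfold massR
  calc ∑ w ∈ Finset.range (σ.length + 1), wR i σ w
      ≤ ∑ w ∈ Finset.range (σ.length + 1), wR i τ w := Finset.sum_le_sum (fun w _ => wR_mono h w)
    _ ≤ _ := Finset.sum_le_sum_of_subset_of_nonneg
        (Finset.range_mono (by have := h.length_le; omega)) (fun w _ _ => wR_nonneg _ _ _)

lemma MR_mono {i : ℕ} {σ τ : List ℕ} (h : σ <+: τ) : MR i σ ≤ MR i τ :=
  min_le_min_right 1 (massR_mono h)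

lemma MR_nonneg (i : ℕ) (σ : List ℕ) : 0 ≤ MR i σ := le_min (massR_nonneg _ _) zero_le_one

lemma MR_le (i : ℕ) (σ : List ℕ) : MR i σ ≤ 1 := min_le_right _ _

lemma totR_concat (i : ℕ) (τ : List ℕ) (t : ℕ) : totR i (τ ++ [t]) = totR i τ + cR i τ t := by
  unfold totR
  have h1 : (τ ++ [t]).length = τ.length + 1 := by simp
  rw [h1, Finset.sum_range_succ]
  congr 1
  · refine Finset.sum_congr rfl (fun j hj => ?_)
    rw [Finset.mem_range] at hj
    rw [List.take_append_of_le_length hj.le, List.getElem?_append_left hj]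
  · simp

lemma totR_mono {i : ℕ} {σ τ : List ℕ} (h : σ <+: τ) : totR i σ ≤ totR i τ := by
  obtain ⟨ρ, rfl⟩ := h
  induction ρ using List.reverseRecOn with
  | nil => rw [List.append_nil]
  | append_singleton ρ t ih =>
    rw [← List.append_assoc, totR_concat]
    have := cR_nonneg i (σ ++ ρ) t
    linarith

lemma qR_mono {i : ℕ} {σ τ : List ℕ} (h : σ <+: τ) : qR i σ ≤ qR i τ :=
  add_le_add (totR_mono h) (MR_mono h)

lemma lst_concat (σ : List ℕ) (t : ℕ) : lst (σ ++ [t]) = t := by
  unfold lst; simp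

lemma str_take {t w w' : ℕ} (h : w' ≤ w) : str t w' = (str t w).take w' := by
  unfold str
  rw [← List.map_take, List.take_range, min_eq_left h]

lemma str_eq_mono {t t' w w' : ℕ} (h : w' ≤ w) (he : str t w = str t' w) :
    str t w' = str t' w' := by
  rw [str_take h, he, ← str_take h]

lemma lst_mem {σ : List ℕ} (h : σ ≠ []) : lst σ ∈ σ := by
  unfold lst
  have h1 : σ.length - 1 < σ.length := by
    have := List.length_pos_iff.2 h
    omega
  rw [List.getElem?_eq_getElem h1]
  exact List.getElem_mem h1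

/-- the last entry of a respecting extension -/
lemma resp_lst {σ ρ : List ℕ} (h : resp σ ρ) :
    str (lst (σ ++ ρ)) σ.length = str (lst σ) σ.length := by
  by_cases h1 : ρ = []
  · rw [h1, List.append_nil]
  · have h2 : lst (σ ++ ρ) = lst ρ := by
      unfold lst
      have h3 := List.length_pos_iff.2 h1
      rw [List.length_append, List.getElem?_append_right (by omega)]
      congr 2
      omega
    rw [h2]
    unfold resp at h
    exact h _ (lst_mem h1)

/-- the cost of the correction is bounded by the growth of the mass -/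
lemma corr_cost {i : ℕ} {σ ρ : List ℕ} {t : ℕ} (h : resp σ ρ)
    (ht : str t σ.length = str (lst σ) σ.length) :
    cR i (σ ++ ρ) t ≤ MR i (σ ++ ρ) - MR i σ := by
  have hpre : σ <+: σ ++ ρ := List.prefix_append _ _
  unfold cR
  by_cases h1 : massR i (σ ++ ρ) ≤ 1
  · rw [if_pos h1]
    have h2 : MR i (σ ++ ρ) = massR i (σ ++ ρ) := min_eq_left h1
    have h3 : MR i σ ≤ massR i σ := min_le_left _ _
    rw [h2]
    have h4 : ∑ w ∈ Finset.range ((σ ++ ρ).length + 1),
        (if str (lst (σ ++ ρ)) w = str t w then 0 else wR i (σ ++ ρ) w) +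
        massR i σ ≤ massR i (σ ++ ρ) := by
      have h5 : massR i σ ≤ ∑ w ∈ Finset.range ((σ ++ ρ).length + 1),
          (if w ≤ σ.length then wR i (σ ++ ρ) w else 0) := by
        have h6 : ∑ w ∈ Finset.range (σ.length + 1), wR i (σ ++ ρ) w =
            ∑ w ∈ Finset.range (σ.length + 1),
            (if w ≤ σ.length then wR i (σ ++ ρ) w else 0) := by
          refine Finset.sum_congr rfl (fun w hw => ?_)
          rw [Finset.mem_range] at hw
          rw [if_pos (by omega)]
        calc massR i σ ≤ ∑ w ∈ Finset.range (σ.length + 1), wR i (σ ++ ρ) w :=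
              Finset.sum_le_sum (fun w _ => wR_mono hpre w)
          _ = _ := h6
          _ ≤ _ := by
              apply Finset.sum_le_sum_of_subset_of_nonneg
              · exact Finset.range_mono (by have := hpre.length_le; omega)
              · intro _ _ _
                split_ifs
                · exact wR_nonneg _ _ _
                · exact le_refl _
      calc _ ≤ ∑ w ∈ Finset.range ((σ ++ ρ).length + 1),
            (if str (lst (σ ++ ρ)) w = str t w then 0 else wR i (σ ++ ρ) w) +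
            ∑ w ∈ Finset.range ((σ ++ ρ).length + 1),
            (if w ≤ σ.length then wR i (σ ++ ρ) w else 0) := by linarith
        _ = ∑ w ∈ Finset.range ((σ ++ ρ).length + 1),
            ((if str (lst (σ ++ ρ)) w = str t w then 0 else wR i (σ ++ ρ) w) +
            (if w ≤ σ.length then wR i (σ ++ ρ) w else 0)) := Finset.sum_add_distrib.symm
        _ ≤ massR i (σ ++ ρ) := by
            unfold massR
            refine Finset.sum_le_sum (fun w _ => ?_)
            by_cases h7 : w ≤ σ.length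
            · have h8 : str (lst (σ ++ ρ)) w = str t w := by
                apply str_eq_mono h7
                rw [resp_lst h, ht]
              rw [if_pos h8, if_pos h7]; linarith
            · rw [if_neg h7]
              have := wR_nonneg i (σ ++ ρ) w
              split_ifs <;> linarith
    linarith
  · rw [if_neg h1]
    have := MR_mono (i := i) hpre
    linarith

lemma tot_step {i : ℕ} {σ ρ : List ℕ} {t : ℕ} (h : resp σ ρ)
    (ht : str t σ.length = str (lst σ) σ.length) :
    totR i (σ ++ ρ ++ [t]) ≤ totR i σ + (qR i (σ ++ ρ) - qR i σ) := by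
  rw [totR_concat]
  have := corr_cost (i := i) h ht
  unfold qR
  linarith

end Pool.Agent.Helper743.AC
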