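import Pool.Agent.Helper743.ACDefs

set_option autoImplicit false

namespace Pool.Agent.Helper743.AC

open Nat.Partrec (Code)
open Filter
open Pool.Agent.Helper743.PR (evT LS mdT mdR findIdx_range ev_list mdT_lim)

variable (a : ℕ)

noncomputable def pickR (d : Sp) : List ℕ :=
  if d.2.2.1 = K (Nat.pair a d.2.1) then d.1.2 else d.1.1

noncomputable def corrR (τ : List ℕ) : List ℕ := τ ++ [mdR ((τ.length + 1) ^ 2)]

def acts (s : ℕ) (u : St) : Prop := s.unpair.1 ∉ u.2 ∧ ∃ z, spl s.unpair.1 u.1 (DS z)

noncomputable def stepR (s : ℕ) (u : St) : St :=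
  open Classical in
  if h : acts s u then (corrR (u.1 ++ pickR a (DS (Nat.find h.2))), s.unpair.1 :: u.2)
  else (corrR u.1, u.2)

noncomputable def runR (s : ℕ) : St := Nat.rec ([], []) (fun s u => stepR a s u) s

lemma corrT_lim (τ : List ℕ) : ∀ᶠ t in atTop, corrT t τ = corrR τ := by
  filter_upwards [mdT_lim ((τ.length + 1) ^ 2)] with t ht
  unfold corrT corrR
  rw [ht]

lemma pickT_lim (d : Sp) : ∀ᶠ t in atTop, pickT a t d = pickR a d := by
  obtain ⟨t0, ht0⟩ := Kt_lim (Nat.pair a d.2.1)
  filter_upwards [eventually_ge_atTop t0] with t ht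
  have h := ht0 t ht
  unfold pickT pickR
  rw [← h]
  unfold Kt
  cases hlt' (Nat.pair a d.2.1) t <;> simp

lemma stepT_lim (s : ℕ) (u : St) : ∀ᶠ t in atTop, stepT a t s u = stepR a s u := by
  classical
  by_cases h : acts s u
  · have h1 := corrT_lim (u.1 ++ pickR a (DS (Nat.find h.2)))
    have h2 := pickT_lim a (DS (Nat.find h.2))
    filter_upwards [h1, h2, eventually_gt_atTop (Nat.find h.2)] with t h1 h2 h3
    have h4 : fndT t s u.1 = Nat.find h.2 := by
      unfold fndT
      apply findIdx_range h3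
      · rw [decide_eq_true_eq]
        exact Nat.find_spec h.2
      · intro j hj
        rw [decide_eq_false_iff_not]
        exact Nat.find_min h.2 hj
    unfold stepT stepR
    rw [h4, h2, h1, if_pos ⟨h.1, h3⟩, dif_pos h]
  · filter_upwards [corrT_lim u.1] with t h1
    unfold stepT stepR
    rw [dif_neg h, if_neg, h1]
    rintro ⟨h2, h3⟩
    apply h
    refine ⟨h2, fndT t s u.1, ?_⟩
    unfold fndT at h3 ⊢
    have h4 : (List.range t).findIdx (fun z => decide (spl s.unpair.1 u.1 (DS z))) <
        (List.range t).length := by simpa using h3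
    have h5 := List.findIdx_getElem (w := h4)
    simpa using h5

lemma runT_lim (s : ℕ) : ∀ᶠ t in atTop, runT a t s = runR a s := by
  induction s with
  | zero => exact Eventually.of_forall (fun t => rfl)
  | succ s ih =>
    filter_upwards [ih, stepT_lim a s (runR a s)] with t h1 h2
    show stepT a t s (runT a t s) = stepR a s (runR a s)
    rw [h1, h2]

noncomputable def sg (s : ℕ) : List ℕ := (runR a s).1
noncomputable def dd (s : ℕ) : List ℕ := (runR a s).2

lemma sg_zero : sg a 0 = [] := rfl
lemma dd_zero : dd a 0 = [] := rfl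

/-- the extension made at stage `s` -/
noncomputable def rh (s : ℕ) : List ℕ :=
  open Classical in
  if h : acts s (runR a s) then pickR a (DS (Nat.find h.2)) else []

lemma sg_succ (s : ℕ) : sg a (s + 1) = corrR (sg a s ++ rh a s) := by
  classical
  show (stepR a s (runR a s)).1 = corrR ((runR a s).1 ++ rh a s)
  unfold stepR rh
  by_cases h : acts s (runR a s)
  · rw [dif_pos h, dif_pos h]
  · rw [dif_neg h, dif_neg h, List.append_nil]

lemma dd_succ_pos {s : ℕ} (h : acts s (runR a s)) : dd a (s + 1) = s.unpair.1 :: dd a s := by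
  classical
  show (stepR a s (runR a s)).2 = _
  unfold stepR
  rw [dif_pos h]; rfl

lemma dd_succ_neg {s : ℕ} (h : ¬ acts s (runR a s)) : dd a (s + 1) = dd a s := by
  classical
  show (stepR a s (runR a s)).2 = _
  unfold stepR
  rw [dif_neg h]; rfl

lemma sg_prefix_succ (s : ℕ) : sg a s <+: sg a (s + 1) := by
  rw [sg_succ]
  unfold corrR
  rw [List.append_assoc]
  exact List.prefix_append _ _

lemma sg_mono {s s' : ℕ} (h : s ≤ s') : sg a s <+: sg a s' := by
  induction s', h using Nat.le_induction with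
  | base => exact List.prefix_refl _
  | succ n _ ih => exact ih.trans (sg_prefix_succ a n)

lemma sg_length_succ (s : ℕ) : (sg a s).length < (sg a (s + 1)).length := by
  rw [sg_succ]; unfold corrR; simp

lemma sg_length (s : ℕ) : s ≤ (sg a s).length := by
  induction s with
  | zero => exact Nat.zero_le _
  | succ s ih => have := sg_length_succ a s; omega

lemma sg_long (n : ℕ) : ∃ s, n < (sg a s).length := ⟨n + 1, sg_length a (n + 1)⟩

noncomputable def GG (n : ℕ) : ℕ :=
  open Classical in ((sg a (Nat.find (sg_long a n)))[n]?).getD 0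

lemma sg_get {s n : ℕ} (h : n < (sg a s).length) : (sg a s)[n]? = some (GG a n) := by
  classical
  have h1 := Nat.find_spec (sg_long a n)
  have h2 : Nat.find (sg_long a n) ≤ s := Nat.find_min' _ h
  obtain ⟨ρ, hρ⟩ := sg_mono a h2
  have h3 : (sg a s)[n]? = (sg a (Nat.find (sg_long a n)))[n]? := by
    rw [← hρ, List.getElem?_append_left h1]
  rw [h3]
  unfold GG
  rw [List.getElem?_eq_getElem h1]
  rfl

lemma sg_eq_pre (s : ℕ) : sg a s = pre (GG a) (sg a s).length := by
  apply List.ext_getElem?
  intro i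
  rw [pre_getElem?]
  by_cases h : i < (sg a s).length
  · rw [if_pos h, sg_get a h]
  · rw [if_neg h, List.getElem?_eq_none (by omega)]

theorem limC_GG : LimC (GG a) := by
  classical
  refine ⟨fun n t => ((runT a t ((List.range t).findIdx
    (fun s => decide (n < (runT a t s).1.length)))).1[n]?).getD 0, ?_, ?_⟩
  · have r1 : Primrec (fun q : (ℕ × ℕ) × ℕ => (runT a q.1.2 q.2).1) :=
      Primrec.fst.comp ((runT_p a).comp (Primrec.snd.comp Primrec.fst) Primrec.snd)
    have r2 : Primrec (fun q : (ℕ × ℕ) × ℕ => (runT a q.1.2 q.2).1.length) :=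
      Primrec.list_length.comp r1
    have r3 : PrimrecPred (fun q : (ℕ × ℕ) × ℕ => q.1.1 < (runT a q.1.2 q.2).1.length) :=
      Primrec.nat_lt.comp (Primrec.fst.comp Primrec.fst) r2
    have r4 : Primrec₂ (fun (q : ℕ × ℕ) (s : ℕ) => decide (q.1 < (runT a q.2 s).1.length)) :=
      r3.decide
    have r5 : Primrec (fun q : ℕ × ℕ => (List.range q.2).findIdx
        (fun s => decide (q.1 < (runT a q.2 s).1.length))) :=
      Primrec.list_findIdx (Primrec.list_range.comp Primrec.snd) r4
    have r6 : Primrec (fun q : ℕ × ℕ => (runT a q.2 ((List.range q.2).findIdx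
        (fun s => decide (q.1 < (runT a q.2 s).1.length)))).1) :=
      Primrec.fst.comp ((runT_p a).comp Primrec.snd r5)
    have r7 := Primrec.option_getD.comp (Primrec.list_getElem?.comp r6 Primrec.fst)
      (Primrec.const 0)
    exact r7.to_comp
  · intro n
    rw [← eventually_atTop]
    have h1 := PR.ev_le (P := fun t s => runT a t s = runR a s) (runT_lim a)
      (Nat.find (sg_long a n))
    filter_upwards [h1, eventually_gt_atTop (Nat.find (sg_long a n))] with t h2 h3
    have h4 : (List.range t).findIdx (fun s => decide (n < (runT a t s).1.length)) =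
        Nat.find (sg_long a n) := by
      apply findIdx_range h3
      · rw [h2 _ (le_refl _), decide_eq_true_eq]
        exact Nat.find_spec (sg_long a n)
      · intro j hj
        rw [h2 _ hj.le, decide_eq_false_iff_not]
        exact Nat.find_min (sg_long a n) hj
    rw [h4, h2 _ (le_refl _)]
    rfl

/-! the extensions made -/

lemma rh_pos {s : ℕ} (h : acts s (runR a s)) : ∃ d : Sp, spl s.unpair.1 (sg a s) d ∧
    rh a s = pickR a d := by
  classical
  refine ⟨DS (Nat.find h.2), Nat.find_spec h.2, ?_⟩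
  unfold rh
  rw [dif_pos h]

lemma rh_neg {s : ℕ} (h : ¬ acts s (runR a s)) : rh a s = [] := by
  unfold rh
  rw [dif_neg h]

lemma rh_al {s : ℕ} (h : acts s (runR a s)) : al s.unpair.1 (sg a s) (rh a s) := by
  obtain ⟨d, hd, he⟩ := rh_pos a h
  rw [he]
  unfold pickR
  by_cases h1 : d.2.2.1 = K (Nat.pair a d.2.1)
  · rw [if_pos h1]; exact hd.1.2
  · rw [if_neg h1]; exact hd.1.1

lemma rh_out {s : ℕ} (h : acts s (runR a s)) : ∃ x y, outp s.unpair.1 (sg a s ++ rh a s) x y ∧
    y ≠ K (Nat.pair a x) := by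
  obtain ⟨d, hd, he⟩ := rh_pos a h
  rw [he]
  unfold pickR
  by_cases h1 : d.2.2.1 = K (Nat.pair a d.2.1)
  · rw [if_pos h1]
    exact ⟨d.2.1, d.2.2.2, hd.2.1.2, fun h2 => hd.2.2 (by rw [h1, h2])⟩
  · rw [if_neg h1]
    exact ⟨d.2.1, d.2.2.1, hd.2.1.1, h1⟩

lemma rh_resp (s : ℕ) : resp (sg a s) (rh a s) := by
  by_cases h : acts s (runR a s)
  · exact (rh_al a h).1
  · rw [rh_neg a h]
    intro t ht
    simp at ht

end Pool.Agent.Helper743.AC
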