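import Pool.Agent.Helper743.ACAvoid

set_option autoImplicit false

/-! the halting problem is K-trivial relative to the constructed function -/

namespace Pool.Agent.Helper743.AC

open Nat.Partrec (Code)
open Filter
open Pool.Agent.Helper743.PR (evT evR LS mdT mdR findIdx_range ev_list mdT_lim evR_spec)

/-- requests along a string -/
def HitL (i c : ℕ) (β : List ℕ) (ρ : List Bool) (k : ℕ) : Prop :=
  Encodable.encode ρ + 2 ≤ k ∨ ((ρ.length ≤ β.length ∧ str (lst β) ρ.length = ρ) ∧
    (kk i β ρ.length ≤ β.length ∧ kk i β ρ.length + c ≤ k))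

lemma HitL_p (i c : ℕ) : PrimrecPred (fun q : (List ℕ × List Bool) × ℕ =>
    HitL i c q.1.1 q.1.2 q.2) := by
  have b : Primrec (fun q : (List ℕ × List Bool) × ℕ => q.1.1) := Primrec.fst.comp Primrec.fst
  have r : Primrec (fun q : (List ℕ × List Bool) × ℕ => q.1.2) := Primrec.snd.comp Primrec.fst
  have k : Primrec (fun q : (List ℕ × List Bool) × ℕ => q.2) := Primrec.snd
  have rl := Primrec.list_length.comp r
  have bl := Primrec.list_length.comp b
  have h1 := Primrec.nat_le.comp (Primrec.nat_add.comp (Primrec.encode.comp r)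
    (Primrec.const 2)) k
  have h2 := Primrec.nat_le.comp rl bl
  have h3 := Primrec.eq.comp (str_p.comp (lst_p.comp b) rl) r
  have hk := kk_p.comp (((Primrec.const i).pair b).pair rl)
  have h4 := Primrec.nat_le.comp hk bl
  have h5 := Primrec.nat_le.comp (Primrec.nat_add.comp hk (Primrec.const c)) k
  exact PrimrecPred.or h1 (PrimrecPred.and (PrimrecPred.and h2 h3) (PrimrecPred.and h4 h5))

lemma HitL_mono {i c : ℕ} {β : List ℕ} {ρ : List Bool} {k k' : ℕ} (h : k ≤ k')
    (hh : HitL i c β ρ k) : HitL i c β ρ k' := by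
  rcases hh with h1 | ⟨h1, h2, h3⟩
  · exact Or.inl (le_trans h1 h)
  · exact Or.inr ⟨h1, h2, le_trans h3 h⟩

variable (G : ℕ → ℕ) (i : ℕ)

def Cur (n : ℕ) (ρ : List Bool) : Prop :=
  ρ.length ≤ n ∧ str (lst (pre G n)) ρ.length = ρ

noncomputable def cur (n : ℕ) (ρ : List Bool) : ℝ :=
  open Classical in if Cur G n ρ then wR i (pre G n) ρ.length else 0

noncomputable def RR : ℕ → List Bool → ℝ
  | 0, ρ => cur G i 0 ρ
  | n + 1, ρ => max (RR n ρ) (cur G i (n + 1) ρ)

lemma cur_nonneg (n : ℕ) (ρ : List Bool) : 0 ≤ cur G i n ρ := by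
  unfold cur
  split_ifs
  · exact wR_nonneg _ _ _
  · exact le_refl _

lemma cur_le (n : ℕ) (ρ : List Bool) : cur G i n ρ ≤ wR i (pre G n) ρ.length := by
  unfold cur
  split_ifs
  · exact le_refl _
  · exact wR_nonneg _ _ _

lemma RR_nonneg (n : ℕ) (ρ : List Bool) : 0 ≤ RR G i n ρ := by
  induction n with
  | zero => exact cur_nonneg G i 0 ρ
  | succ n ih => exact le_trans ih (le_max_left _ _)

lemma RR_le (n : ℕ) (ρ : List Bool) : RR G i n ρ ≤ wR i (pre G n) ρ.length := by
  induction n with
  | zero => exact cur_le G i 0 ρ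
  | succ n ih =>
    apply max_le
    · exact le_trans ih (wR_mono (pre_prefix G (Nat.le_succ n)) _)
    · exact cur_le G i (n + 1) ρ

lemma RR_mono {n m : ℕ} (h : n ≤ m) (ρ : List Bool) : RR G i n ρ ≤ RR G i m ρ := by
  induction m, h using Nat.le_induction with
  | base => exact le_refl _
  | succ m _ ih => exact le_trans ih (le_max_left _ _)

lemma cur_le_RR {n m : ℕ} (h : n ≤ m) (ρ : List Bool) : cur G i n ρ ≤ RR G i m ρ := by
  refine le_trans ?_ (RR_mono G i h ρ)
  cases n with
  | zero => exact le_refl _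
  | succ n => exact le_max_right _ _

open Classical in
lemma sum_cur (n : ℕ) (T : Finset (List Bool)) (hT : ∀ ρ ∈ T, Cur G n ρ) :
    ∑ ρ ∈ T, wR i (pre G n) ρ.length ≤
    ∑ w ∈ Finset.range (n + 1),
      if str (lst (pre G n)) w ∈ T then wR i (pre G n) w else 0 := by
  have hinj : Set.InjOn (fun ρ : List Bool => ρ.length) T := by
    intro ρ hρ ρ' hρ' he
    simp only at he
    rw [← (hT ρ hρ).2, ← (hT ρ' hρ').2, he]
  calc ∑ ρ ∈ T, wR i (pre G n) ρ.length
      = ∑ w ∈ T.image (fun ρ : List Bool => ρ.length), wR i (pre G n) w :=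
        (Finset.sum_image hinj).symm
    _ ≤ ∑ w ∈ (Finset.range (n + 1)).filter (fun w => str (lst (pre G n)) w ∈ T),
        wR i (pre G n) w := by
        apply Finset.sum_le_sum_of_subset_of_nonneg
        · intro w hw
          rw [Finset.mem_image] at hw
          obtain ⟨ρ, hρ, rfl⟩ := hw
          rw [Finset.mem_filter, Finset.mem_range]
          refine ⟨by have := (hT ρ hρ).1; omega, ?_⟩
          rw [(hT ρ hρ).2]; exact hρ
        · intro w _ _
          exact wR_nonneg _ _ _
    _ = _ := Finset.sum_filter _ _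

open Classical in
lemma key_sum (hm : ∀ n, massR i (pre G n) ≤ 1) (S : Finset (List Bool)) (n : ℕ) :
    ∑ ρ ∈ S.filter (fun ρ => ¬ Cur G n ρ), RR G i n ρ ≤ totR i (pre G n) := by
  induction n with
  | zero =>
    have : ∑ ρ ∈ S.filter (fun ρ => ¬ Cur G 0 ρ), RR G i 0 ρ = 0 := by
      apply Finset.sum_eq_zero
      intro ρ hρ
      rw [Finset.mem_filter] at hρ
      show cur G i 0 ρ = 0
      unfold cur
      rw [if_neg hρ.2]
    rw [this]
    unfold totR
    exact Finset.sum_nonneg (fun j _ => cR_nonneg _ _ _)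
  | succ n ih =>
    have h1 : ∑ ρ ∈ S.filter (fun ρ => ¬ Cur G (n + 1) ρ), RR G i (n + 1) ρ =
        ∑ ρ ∈ S.filter (fun ρ => ¬ Cur G (n + 1) ρ), RR G i n ρ := by
      refine Finset.sum_congr rfl (fun ρ hρ => ?_)
      rw [Finset.mem_filter] at hρ
      show max (RR G i n ρ) (cur G i (n + 1) ρ) = _
      have : cur G i (n + 1) ρ = 0 := by unfold cur; rw [if_neg hρ.2]
      rw [this]
      exact max_eq_left (RR_nonneg G i n ρ)
    have h2 : ∑ ρ ∈ S.filter (fun ρ => ¬ Cur G (n + 1) ρ), RR G i n ρ ≤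
        ∑ ρ ∈ S.filter (fun ρ => ¬ Cur G n ρ), RR G i n ρ +
        ∑ ρ ∈ S.filter (fun ρ => Cur G n ρ ∧ ¬ Cur G (n + 1) ρ), RR G i n ρ := by
      rw [← Finset.sum_union]
      · apply Finset.sum_le_sum_of_subset_of_nonneg
        · intro ρ hρ
          rw [Finset.mem_filter] at hρ
          rw [Finset.mem_union, Finset.mem_filter, Finset.mem_filter]
          by_cases h3 : Cur G n ρ
          · exact Or.inr ⟨hρ.1, h3, hρ.2⟩
          · exact Or.inl ⟨hρ.1, h3⟩
        · intro ρ _ _
          exact RR_nonneg _ _ _ _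
      · rw [Finset.disjoint_left]
        intro ρ h3 h4
        rw [Finset.mem_filter] at h3 h4
        exact h3.2 h4.2.1
    have h3 : ∑ ρ ∈ S.filter (fun ρ => Cur G n ρ ∧ ¬ Cur G (n + 1) ρ), RR G i n ρ ≤
        cR i (pre G n) (G n) := by
      set T := S.filter (fun ρ => Cur G n ρ ∧ ¬ Cur G (n + 1) ρ) with hTd
      have hT : ∀ ρ ∈ T, Cur G n ρ := by
        intro ρ hρ
        rw [hTd, Finset.mem_filter] at hρ
        exact hρ.2.1
      calc ∑ ρ ∈ T, RR G i n ρ ≤ ∑ ρ ∈ T, wR i (pre G n) ρ.length :=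
            Finset.sum_le_sum (fun ρ _ => RR_le G i n ρ)
        _ ≤ _ := sum_cur G i n T hT
        _ ≤ cR i (pre G n) (G n) := by
            unfold cR
            rw [if_pos (hm n), pre_length]
            refine Finset.sum_le_sum (fun w hw => ?_)
            rw [Finset.mem_range] at hw
            by_cases h4 : str (lst (pre G n)) w ∈ T
            · rw [if_pos h4, if_neg]
              intro h5
              rw [hTd, Finset.mem_filter] at h4
              apply h4.2.2
              have h6 : (str (lst (pre G n)) w).length = w := by unfold str; simp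
              refine ⟨by rw [h6]; omega, ?_⟩
              rw [h6, pre_succ, lst_concat, h5]
            · rw [if_neg h4]
              split_ifs
              · exact le_refl _
              · exact wR_nonneg _ _ _
    rw [h1, pre_succ, totR_concat]
    linarith

open Classical in
lemma total_sum (hm : ∀ n, massR i (pre G n) ≤ 1) (S : Finset (List Bool)) (n : ℕ) :
    ∑ ρ ∈ S, RR G i n ρ ≤ totR i (pre G n) + 1 := by
  have h1 := key_sum G i hm S n
  have h2 : ∑ ρ ∈ S.filter (fun ρ => Cur G n ρ), RR G i n ρ ≤ 1 := by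
    set T := S.filter (fun ρ => Cur G n ρ) with hTd
    have hT : ∀ ρ ∈ T, Cur G n ρ := by
      intro ρ hρ
      rw [hTd, Finset.mem_filter] at hρ
      exact hρ.2
    calc ∑ ρ ∈ T, RR G i n ρ ≤ ∑ ρ ∈ T, wR i (pre G n) ρ.length :=
          Finset.sum_le_sum (fun ρ _ => RR_le G i n ρ)
      _ ≤ _ := sum_cur G i n T hT
      _ ≤ massR i (pre G n) := by
          unfold massR
          rw [pre_length]
          refine Finset.sum_le_sum (fun w _ => ?_)
          split_ifs
          · exact le_refl _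
          · exact wR_nonneg _ _ _
      _ ≤ 1 := hm n
  have h3 := Finset.sum_filter_add_sum_filter_not S (fun ρ => Cur G n ρ) (fun ρ => RR G i n ρ)
  linarith

end Pool.Agent.Helper743.AC
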