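import Pool.Agent.Helper743.ACTriv

set_option autoImplicit false

namespace Pool.Agent.Helper743.AC

open Nat.Partrec (Code)
open Filter
open Pool.Agent.Helper743.PR (evT evR LS mdT mdR findIdx_range ev_list mdT_lim evR_spec)

lemma conv_pre {G : ℕ → ℕ} {ev : List ℕ → ℕ → Option ℕ} {i : ℕ}
    (he : ∀ σ x, evR i σ x = Encodable.encode (ev σ x)) {n x : ℕ}
    (h : conv i (pre G n) x) : ∃ j y, ev (pre G j) x = some y := by
  unfold conv at h
  obtain ⟨j, hj, h1⟩ := h
  rw [List.mem_range, pre_length] at hj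
  rw [pre_take G (by omega)] at h1
  have h2 := evT_evR h1
  rw [he] at h2
  refine ⟨j, ?_⟩
  cases h3 : ev (pre G j) x with
  | none => rw [h3] at h2; rw [h2] at h1; simp at h1
  | some v => exact ⟨v, rfl⟩

lemma pre_conv {G : ℕ → ℕ} {ev : List ℕ → ℕ → Option ℕ} {i : ℕ}
    (he : ∀ σ x, evR i σ x = Encodable.encode (ev σ x)) {j x y : ℕ}
    (h : ev (pre G j) x = some y) : ∀ᶠ n in atTop, conv i (pre G n) x := by
  filter_upwards [evR_spec i (pre G j) x, eventually_ge_atTop j] with n h1 h2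
  unfold conv
  refine ⟨j, ?_, ?_⟩
  · rw [List.mem_range, pre_length]; omega
  · rw [pre_length, pre_take G h2, h1, he, h]
    simp

def DBl (w : ℕ) : List Bool := (Encodable.decode (α := List Bool) w).getD []

lemma DBl_p : Primrec DBl := Primrec.option_getD.comp Primrec.decode (Primrec.const _)

lemma DBl_encode (d : List Bool) : DBl (Encodable.encode d) = d := by
  unfold DBl; rw [Encodable.encodek]; rfl

attribute [local irreducible] DBl HitL

noncomputable def tst (G : ℕ → ℕ) (i c z : ℕ) : ℕ :=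
  open Classical in
  if HitL i c (pre G z.unpair.2) (DBl z.unpair.1.unpair.1) z.unpair.1.unpair.2 then 0 else 1

lemma tst_TR (G : ℕ → ℕ) (i c : ℕ) : TR (tst G i c) G := by
  classical
  have b : Primrec (fun z : ℕ => LS z.unpair.2) :=
    PR.LS_p.comp (Primrec.snd.comp Primrec.unpair)
  have z1 : Primrec (fun z : ℕ => z.unpair.1.unpair.1.unpair.1) :=
    Primrec.fst.comp (Primrec.unpair.comp (Primrec.fst.comp (Primrec.unpair.comp
      (Primrec.fst.comp Primrec.unpair))))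
  have z2 : Primrec (fun z : ℕ => z.unpair.1.unpair.1.unpair.2) :=
    Primrec.snd.comp (Primrec.unpair.comp (Primrec.fst.comp (Primrec.unpair.comp
      (Primrec.fst.comp Primrec.unpair))))
  have h1 := (HitL_p i c).comp ((b.pair (DBl_p.comp z1)).pair z2)
  have h2 : Primrec (fun z : ℕ => if HitL i c (LS z.unpair.2)
      (DBl z.unpair.1.unpair.1.unpair.1) z.unpair.1.unpair.1.unpair.2 then 0 else 1) :=
    Primrec.ite h1 (Primrec.const 0) (Primrec.const 1)
  have h3 : TR (fun z => Nat.pair z (Encodable.encode (pre G z.unpair.2))) G :=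
    RecT.pair (Computable.recT Computable.id) ((recT_pre (TR.refl G)).comp
      (Computable.recT (Computable.snd.comp Computable.unpair)))
  have h4 := (Computable.recT (O := {(G : ℕ →. ℕ)}) h2.to_comp).comp h3
  refine Nat.RecursiveIn.of_eq h4 ?_
  intro z
  congr 1
  simp only [Nat.unpair_pair]
  rw [PR.LS_encode]
  rfl

variable (a : ℕ)

theorem trivial_rel (f : ℕ → ℕ) (φ : ℕ →. ℕ) (hφ : Nat.RecursiveIn {(GG a : ℕ →. ℕ)} φ)
    (hdom : ∀ n k : ℕ, (φ (Nat.pair n k)).Dom ↔ f n ≤ k)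
    (hsum : ∀ s : Finset ℕ, ∑ n ∈ s, (1/2 : ℝ) ^ (f n) ≤ 1) :
    ∃ h : List Bool → ℕ,
      (∃ ψ : ℕ →. ℕ, Nat.RecursiveIn {(GG a : ℕ →. ℕ)} ψ ∧
        ∀ σ : List Bool, ∀ k : ℕ, (ψ (Nat.pair (Encodable.encode σ) k)).Dom ↔ h σ ≤ k) ∧
      (∀ s : Finset (List Bool), ∑ σ ∈ s, (1/2 : ℝ) ^ (h σ) ≤ 1) ∧
      ∃ c : ℕ, ∀ n : ℕ, h (kstr n) ≤ f n + c := by
  classical
  obtain ⟨ev, hev, hmono, hcor⟩ := use_principle (GG a) _ hφ
  obtain ⟨i, he⟩ := ev_code hev
  have hc1 : ∀ {n w k}, conv i (pre (GG a) n) (Nat.pair w k) → f w ≤ k := by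
    intro n w k h
    obtain ⟨j, y, hy⟩ := conv_pre he h
    have h1 : y ∈ φ (Nat.pair w k) := (hcor _ _).2 ⟨j, hy⟩
    exact (hdom w k).1 (Part.dom_iff_mem.2 ⟨y, h1⟩)
  have hc2 : ∀ w, ∀ᶠ n in atTop, conv i (pre (GG a) n) (Nat.pair w (f w)) := by
    intro w
    obtain ⟨y, hy⟩ := Part.dom_iff_mem.1 ((hdom w (f w)).2 (le_refl _))
    obtain ⟨j, hj⟩ := (hcor _ _).1 hy
    exact pre_conv he hj
  have hk1 : ∀ {n w}, kk i (pre (GG a) n) w ≤ n → f w ≤ kk i (pre (GG a) n) w := by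
    intro n w h
    obtain ⟨k, hk, hc⟩ := (kk_le_iff (i := i) (w := w) (by rw [pre_length]; exact h)).1 (le_refl _)
    exact le_trans (hc1 hc) hk
  have hk2 : ∀ w, ∀ᶠ n in atTop, kk i (pre (GG a) n) w = f w ∧ f w ≤ n := by
    intro w
    filter_upwards [hc2 w, eventually_ge_atTop (f w)] with n h1 h2
    have h3 : kk i (pre (GG a) n) w ≤ f w :=
      (kk_le_iff (by rw [pre_length]; exact h2)).2 ⟨f w, le_refl _, h1⟩
    exact ⟨le_antisymm h3 (hk1 (le_trans h3 h2)), h2⟩
  have hm : ∀ n, massR i (pre (GG a) n) ≤ 1 := by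
    intro n
    refine le_trans ?_ (hsum (Finset.range ((pre (GG a) n).length + 1)))
    unfold massR
    refine Finset.sum_le_sum (fun w _ => ?_)
    unfold wR
    by_cases h1 : kk i (pre (GG a) n) w ≤ (pre (GG a) n).length
    · rw [if_pos h1]
      apply pow_le_pow_of_le_one (by norm_num) (by norm_num)
      rw [pre_length] at h1
      exact hk1 h1
    · rw [if_neg h1]; positivity
  obtain ⟨C, hC⟩ := tot_bdd a i
  have hC0 : 0 ≤ C := le_trans (Finset.sum_nonneg (fun j _ => cR_nonneg _ _ _)) (hC 0)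
  obtain ⟨c, hc⟩ := exists_pow_lt_of_lt_one (show (0 : ℝ) < 1 / (2 * (C + 1)) by positivity)
    (show ((1 : ℝ) / 2) < 1 by norm_num)
  have hc' : ((1 : ℝ) / 2) ^ c * (C + 1) ≤ 1 / 2 := by
    have h1 : (0 : ℝ) < C + 1 := by linarith
    calc ((1 : ℝ) / 2) ^ c * (C + 1) ≤ (1 / (2 * (C + 1))) * (C + 1) :=
          mul_le_mul_of_nonneg_right hc.le h1.le
      _ = 1 / 2 := by field_simp
  have hex : ∀ ρ : List Bool, ∃ k, ∃ n, HitL i c (pre (GG a) n) ρ k := fun ρ =>
    ⟨Encodable.encode ρ + 2, 0, by unfold HitL; exact Or.inl (le_refl _)⟩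
  have hle : ∀ ρ k, Nat.find (hex ρ) ≤ k ↔ ∃ n, HitL i c (pre (GG a) n) ρ k := by
    intro ρ k
    constructor
    · intro h
      obtain ⟨n, hn⟩ := Nat.find_spec (hex ρ)
      exact ⟨n, HitL_mono h hn⟩
    · intro h
      exact Nat.find_min' (hex ρ) h
  refine ⟨fun ρ => Nat.find (hex ρ), ?_, ?_, c, ?_⟩
  · refine ⟨_, Nat.RecursiveIn.rfind (tst_TR (GG a) i c), fun σ k => ?_⟩
    rw [hle]
    rw [Part.dom_iff_mem]
    constructor
    · rintro ⟨n, hn⟩
      have hn' := Nat.mem_rfind.1 hn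
      refine ⟨n, ?_⟩
      have h1 := hn'.1
      simp only [Part.map_eq_map, Part.map_some, Part.mem_some_iff] at h1
      by_contra hne
      unfold tst at h1
      simp only [Nat.unpair_pair] at h1
      rw [DBl_encode, if_neg hne] at h1
      simp at h1
    · intro hn
      have h2 := Nat.find_spec hn
      refine ⟨Nat.find hn, Nat.mem_rfind.2 ⟨?_, ?_⟩⟩
      · simp only [Part.map_eq_map, Part.map_some, Part.mem_some_iff]
        unfold tst
        simp only [Nat.unpair_pair]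
        rw [DBl_encode, if_pos h2]
        simp
      · intro m hm'
        have h3 := Nat.find_min hn hm'
        simp only [Part.map_eq_map, Part.map_some, Part.mem_some_iff]
        unfold tst
        simp only [Nat.unpair_pair]
        rw [DBl_encode, if_neg h3]
        simp
  · intro S
    -- a common stage
    have hst : ∀ ρ : List Bool, ∀ᶠ N in atTop, ((1 : ℝ) / 2) ^ (Nat.find (hex ρ)) ≤
        (1 / 2) ^ (Encodable.encode ρ + 2) + (1 / 2) ^ c * RR (GG a) i N ρ := by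
      intro ρ
      obtain ⟨n, hn⟩ := Nat.find_spec (hex ρ)
      generalize Nat.find (hex ρ) = H at hn ⊢
      unfold HitL at hn
      filter_upwards [eventually_ge_atTop n] with N hN
      have h0 : 0 ≤ (1 / 2 : ℝ) ^ c * RR (GG a) i N ρ :=
        mul_nonneg (by positivity) (RR_nonneg _ _ _ _)
      rcases hn with h1 | ⟨⟨h1, h2⟩, h3, h4⟩
      · have h5 : ((1 : ℝ) / 2) ^ H ≤ (1 / 2) ^ (Encodable.encode ρ + 2) :=
          pow_le_pow_of_le_one (by norm_num) (by norm_num) h1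
        linarith
      · rw [pre_length] at h1 h3
        have h5 : cur (GG a) i n ρ = (1 / 2) ^ (kk i (pre (GG a) n) ρ.length) := by
          unfold cur
          rw [if_pos (show Cur (GG a) n ρ from ⟨h1, h2⟩)]
          unfold wR
          rw [if_pos (by rw [pre_length]; exact h3)]
        have h6 := cur_le_RR (GG a) i hN ρ
        rw [h5] at h6
        have h7 : ((1 : ℝ) / 2) ^ H ≤
            (1 / 2) ^ (kk i (pre (GG a) n) ρ.length + c) :=
          pow_le_pow_of_le_one (by norm_num) (by norm_num) h4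
        rw [pow_add, mul_comm] at h7
        have h8 := mul_le_mul_of_nonneg_left h6 (show (0 : ℝ) ≤ (1 / 2) ^ c by positivity)
        have h9 : (0 : ℝ) ≤ (1 / 2) ^ (Encodable.encode ρ + 2) := by positivity
        linarith
    have hall : ∀ᶠ N in atTop, ∀ ρ ∈ S, ((1 : ℝ) / 2) ^ (Nat.find (hex ρ)) ≤
        (1 / 2) ^ (Encodable.encode ρ + 2) + (1 / 2) ^ c * RR (GG a) i N ρ :=
      (Filter.eventually_all_finset S).2 (fun ρ _ => hst ρ)
    obtain ⟨N, hN⟩ := hall.exists
    have h1 := total_sum (GG a) i hm S N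
    have h2 := hC N
    have h3 : ∑ ρ ∈ S, ((1 : ℝ) / 2) ^ (Encodable.encode ρ + 2) ≤ 1 / 2 := by
      have h4 : ∑ ρ ∈ S, ((1 : ℝ) / 2) ^ (Encodable.encode ρ) ≤ 2 := by
        have h5 := geo_le (S.image (fun ρ => Encodable.encode ρ))
        rw [Finset.sum_image (fun x _ y _ h => Encodable.encode_injective h)] at h5
        exact h5
      have h6 : ∑ ρ ∈ S, ((1 : ℝ) / 2) ^ (Encodable.encode ρ + 2) =
          (1 / 4) * ∑ ρ ∈ S, ((1 : ℝ) / 2) ^ (Encodable.encode ρ) := by
        rw [Finset.mul_sum]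
        refine Finset.sum_congr rfl (fun ρ _ => ?_)
        rw [pow_add]; ring
      rw [h6]; linarith
    calc ∑ ρ ∈ S, ((1 : ℝ) / 2) ^ (Nat.find (hex ρ))
        ≤ ∑ ρ ∈ S, ((1 / 2) ^ (Encodable.encode ρ + 2) + (1 / 2) ^ c * RR (GG a) i N ρ) :=
          Finset.sum_le_sum hN
      _ = ∑ ρ ∈ S, ((1 : ℝ) / 2) ^ (Encodable.encode ρ + 2) +
          (1 / 2) ^ c * ∑ ρ ∈ S, RR (GG a) i N ρ := by
          rw [Finset.sum_add_distrib, Finset.mul_sum]
      _ ≤ 1 / 2 + (1 / 2) ^ c * (C + 1) := by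
          apply add_le_add h3
          apply mul_le_mul_of_nonneg_left _ (by positivity)
          linarith
      _ ≤ 1 := by linarith
  · intro n
    simp only
    rw [hle]
    obtain ⟨N, ⟨h1, h2⟩, h3⟩ := ((hk2 n).and
      (eventually_ge_atTop (max ((sg a n).length + 1) n))).exists
    refine ⟨N, ?_⟩
    unfold HitL
    right
    have hl : (kstr n).length = n := by unfold kstr; simp
    have h4 : (sg a n).length + 1 ≤ N := le_trans (le_max_left _ _) h3
    have h5 : n ≤ N := le_trans (le_max_right _ _) h3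
    obtain ⟨M, rfl⟩ : ∃ M, N = M + 1 := ⟨N - 1, by omega⟩
    rw [hl, pre_length]
    refine ⟨⟨h5, ?_⟩, ?_, ?_⟩
    · rw [pre_succ, lst_concat]
      exact str_kstr_mono (sg_length a n) (GG_resp a (by omega))
    · rw [h1]; exact h2
    · rw [h1]

end Pool.Agent.Helper743.AC
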