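import Mathlib

set_option autoImplicit false

/-! Computable copies of Boolean algebras and degree spectra of binary relations. -/

namespace Pool.Agent.Helper743

/-- A computable copy of a Boolean algebra `α`: a computable set `dom` of natural numbers and a
bijection `e` of `dom` with `α` such that join, meet and complement, carried to `dom` along `e`,
are computable. So `dom` with the carried structure is a computable Boolean algebra and the
inverse of `e` is an isomorphism of `α` onto it; every computable Boolean algebra with domain
contained in the natural numbers, together with an isomorphism from `α` onto it, is of this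
form. -/
structure ComputableCopy (α : Type) [BooleanAlgebra α] where
  dom : Set ℕ
  dom_computable : ComputablePred (fun n : ℕ => n ∈ dom)
  e : dom ≃ α
  sup_computable : ∃ f : ℕ → ℕ → ℕ, Computable₂ f ∧
    ∀ a b : dom, f a b = (e.symm (e a ⊔ e b) : ℕ)
  inf_computable : ∃ f : ℕ → ℕ → ℕ, Computable₂ f ∧
    ∀ a b : dom, f a b = (e.symm (e a ⊓ e b) : ℕ)
  compl_computable : ∃ f : ℕ → ℕ, Computable f ∧
    ∀ a : dom, f a = (e.symm (e a)ᶜ : ℕ)

/-- The characteristic function of the image of the binary relation `R` in the copy `c`, as a set
of coded pairs of natural numbers. -/
noncomputable def relImage {α : Type} [BooleanAlgebra α] (c : ComputableCopy α)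
    (R : α → α → Prop) (z : ℕ) : ℕ :=
  open Classical in
  if ∃ a b : c.dom, Nat.pair a b = z ∧ R (c.e a) (c.e b) then 1 else 0

/-- The degree spectrum of the binary relation `R`: the set of Turing degrees of the images of
`R` in all computable copies. -/
def degreeSpectrum {α : Type} [BooleanAlgebra α] (R : α → α → Prop) : Set TuringDegree :=
  {d | ∃ c : ComputableCopy α,
    d = toAntisymmetrization TuringReducible (fun z => Part.some (relImage c R z))}

end Pool.Agent.Helper743
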