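import Mathlib

set_option autoImplicit false

/-! Computable presentations of the algebra of finite and cofinite sets coming from computable
linear orders of type omega or omega + omega^*. -/

namespace Pool.Agent.Helper743

open Nat.Partrec (Code)
open Nat.Partrec.Code

/-- the requirements on the order used to present the algebra -/
structure GoodOrder (r : ℕ → ℕ → Prop) : Prop where
  prim : PrimrecRel r
  refl : ∀ a, r a a
  total : ∀ a b, r a b ∨ r b a
  trans : ∀ a b c, r a b → r b c → r a c
  antisymm : ∀ a b, r a b → r b a → a = b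
  zero : ∀ a, r 0 a
  fin : ∀ s, {t | r t s}.Finite ∨ {t | r s t}.Finite
  succ : ∀ x, (∀ y, r y x) ∨ ∃ y, r x y ∧ x ≠ y ∧ ∀ z, r x z → x ≠ z → r y z

lemma exists_least (r : ℕ → ℕ → Prop) (hr : ∀ a, r a a) (ht : ∀ a b, r a b ∨ r b a)
    (htr : ∀ a b c, r a b → r b c → r a c) (S : Finset ℕ) (hS : S.Nonempty) :
    ∃ m ∈ S, ∀ s ∈ S, r m s := by
  induction hS using Finset.Nonempty.cons_induction with
  | singleton a => exact ⟨a, by simp, by simp [hr]⟩
  | cons a S ha hS ih =>
    obtain ⟨m, hm, hmin⟩ := ih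
    rcases ht a m with h | h
    · refine ⟨a, by simp, ?_⟩
      intro s hs
      rw [Finset.mem_cons] at hs
      rcases hs with rfl | hs
      · exact hr _
      · exact htr _ _ _ h (hmin s hs)
    · refine ⟨m, by simp [hm], ?_⟩
      intro s hs
      rw [Finset.mem_cons] at hs
      rcases hs with rfl | hs
      · exact h
      · exact hmin s hs

lemma testBit_primrec : PrimrecRel (fun s n : ℕ => n.testBit s = true) := by
  have hpow : Primrec₂ (fun m n : ℕ => m ^ n) := Primrec₂.unpaired'.1 Nat.Primrec.pow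
  have h1 : Primrec (fun p : ℕ × ℕ => p.2 / 2 ^ p.1 % 2) :=
    Primrec.nat_mod.comp (Primrec.nat_div.comp Primrec.snd
      (hpow.comp (Primrec.const 2) Primrec.fst)) (Primrec.const 2)
  have h2 : PrimrecPred (fun p : ℕ × ℕ => p.2 / 2 ^ p.1 % 2 = 1) :=
    Primrec.eq.comp h1 (Primrec.const 1)
  exact h2.of_eq (by intro p; simp [Nat.testBit_eq_decide_div_mod_eq])

lemma lt_of_testBit {n s : ℕ} (h : n.testBit s = true) : s < n := by
  have := Nat.ge_two_pow_of_testBit h
  exact lt_of_lt_of_le Nat.lt_two_pow_self this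

section

variable (r : ℕ → ℕ → Prop) [DecidableRel r]

def cnt (N n x : ℕ) : ℕ :=
  ((Finset.range N).filter (fun s => n.testBit s = true ∧ r s x)).card

def PP (n x : ℕ) : Bool := decide (cnt r n n x % 2 = 1)

variable {r}

lemma PP_primrec (hr : GoodOrder r) : Primrec₂ (PP r) := by
  have hR : PrimrecRel (fun (s : ℕ) (q : ℕ × ℕ) => q.1.testBit s = true ∧ r s q.2) :=
    (testBit_primrec.comp Primrec.fst (Primrec.fst.comp Primrec.snd)).and
      (hr.prim.comp Primrec.fst (Primrec.snd.comp Primrec.snd))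
  have h1 : Primrec (fun p : ℕ × ℕ =>
      ((List.range p.1).filter (fun s => p.1.testBit s = true ∧ r s p.2)).length) :=
    Primrec.list_length.comp (hR.listFilter.comp (Primrec.list_range.comp Primrec.fst) Primrec.id)
  have h2 : PrimrecPred (fun p : ℕ × ℕ =>
      ((List.range p.1).filter (fun s => p.1.testBit s = true ∧ r s p.2)).length % 2 = 1) :=
    Primrec.eq.comp (Primrec.nat_mod.comp h1 (Primrec.const 2)) (Primrec.const 1)
  have h3 := h2.decide
  refine h3.of_eq ?_
  intro p
  rfl

variable (r) in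
noncomputable def SS (N n x : ℕ) : ZMod 2 :=
  ∑ s ∈ Finset.range N, if (n.testBit s = true ∧ r s x) then 1 else 0

lemma SS_eq_cnt (N n x : ℕ) : SS r N n x = (cnt r N n x : ZMod 2) := by
  unfold SS cnt
  rw [Finset.sum_boole]

lemma cnt_stable {N n : ℕ} (h : n ≤ N) (x : ℕ) : cnt r N n x = cnt r n n x := by
  unfold cnt
  congr 1
  ext s
  simp only [Finset.mem_filter, Finset.mem_range]
  constructor
  · rintro ⟨_, h2, h3⟩; exact ⟨lt_of_testBit h2, h2, h3⟩
  · rintro ⟨h1, h2, h3⟩; exact ⟨by omega, h2, h3⟩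

lemma PP_iff {N n : ℕ} (h : n ≤ N) (x : ℕ) : PP r n x = true ↔ SS r N n x = 1 := by
  rw [SS_eq_cnt, cnt_stable h, ZMod.natCast_eq_one_iff_odd, Nat.odd_iff]
  simp [PP]

lemma PP_iff_false {N n : ℕ} (h : n ≤ N) (x : ℕ) : PP r n x = false ↔ SS r N n x = 0 := by
  rw [← Bool.not_eq_true, PP_iff h]
  generalize SS r N n x = z
  revert z; decide

lemma SS_xor (N n m x : ℕ) : SS r N (n ^^^ m) x = SS r N n x + SS r N m x := by
  unfold SS
  rw [← Finset.sum_add_distrib]
  apply Finset.sum_congr rfl
  intro s _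
  rw [Nat.testBit_xor]
  cases n.testBit s <;> cases m.testBit s <;> by_cases h : r s x <;> simp [h]
  decide

lemma PP_xor (n m x : ℕ) : PP r (n ^^^ m) x = (PP r n x ^^ PP r m x) := by
  have h1 : n ≤ n + m + (n ^^^ m) := by omega
  have h2 : m ≤ n + m + (n ^^^ m) := by omega
  have h3 : (n ^^^ m) ≤ n + m + (n ^^^ m) := by omega
  have hx := SS_xor (r := r) (n + m + (n ^^^ m)) n m x
  cases hn : PP r n x <;> cases hm : PP r m x
  · rw [PP_iff_false h1] at hn; rw [PP_iff_false h2] at hm; rw [hn, hm] at hx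
    simpa [PP_iff_false h3] using hx
  · rw [PP_iff_false h1] at hn; rw [PP_iff h2] at hm; rw [hn, hm] at hx
    simpa [PP_iff h3] using hx
  · rw [PP_iff h1] at hn; rw [PP_iff_false h2] at hm; rw [hn, hm] at hx
    simpa [PP_iff h3] using hx
  · rw [PP_iff h1] at hn; rw [PP_iff h2] at hm; rw [hn, hm] at hx
    simp only [Bool.xor_self]
    rw [PP_iff_false h3, hx]; decide

lemma PP_two_pow (s x : ℕ) : PP r (2 ^ s) x = true ↔ r s x := by
  have h : cnt r (2^s) (2^s) x = if r s x then 1 else 0 := by
    unfold cnt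
    by_cases hle : r s x
    · rw [if_pos hle, Finset.card_eq_one]
      refine ⟨s, ?_⟩
      ext t
      simp only [Finset.mem_filter, Finset.mem_range, Finset.mem_singleton, Nat.testBit_two_pow]
      constructor
      · rintro ⟨_, h2, _⟩; simp at h2; exact h2.symm
      · rintro rfl; exact ⟨Nat.lt_two_pow_self, by simp, hle⟩
    · rw [if_neg hle, Finset.card_eq_zero]
      ext t
      simp only [Finset.mem_filter, Finset.mem_range, Nat.testBit_two_pow, Finset.notMem_empty,
        iff_false]
      rintro ⟨_, h2, h3⟩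
      simp at h2; subst h2; exact hle h3
  unfold PP
  rw [h]
  by_cases hle : r s x <;> simp [hle]

lemma PP_zero (x : ℕ) : PP r 0 x = false := by simp [PP, cnt]

lemma PP_inj (hr : GoodOrder r) {n m : ℕ} (h : ∀ x, PP r n x = PP r m x) : n = m := by
  by_contra hne
  have hD : n ^^^ m ≠ 0 := by
    intro h0; exact hne (Nat.xor_eq_zero_iff.1 h0)
  obtain ⟨i, hi⟩ := Nat.exists_testBit_of_ne_zero hD
  obtain ⟨s, hs, hmin⟩ := exists_least r hr.refl hr.total hr.trans
    ((Finset.range (n ^^^ m)).filter (fun s => (n ^^^ m).testBit s = true))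
    ⟨i, by simp only [Finset.mem_filter, Finset.mem_range]; exact ⟨lt_of_testBit hi, hi⟩⟩
  simp only [Finset.mem_filter, Finset.mem_range] at hs hmin
  have h1 : PP r (n ^^^ m) s = true := by
    have : cnt r (n ^^^ m) (n ^^^ m) s = 1 := by
      unfold cnt
      rw [Finset.card_eq_one]
      refine ⟨s, ?_⟩
      ext t
      simp only [Finset.mem_filter, Finset.mem_range, Finset.mem_singleton]
      constructor
      · rintro ⟨h1, h2, h3⟩
        exact hr.antisymm _ _ h3 (hmin t ⟨h1, h2⟩)
      · rintro rfl; exact ⟨hs.1, hs.2, hr.refl _⟩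
    simp [PP, this]
  rw [PP_xor, h s] at h1
  simp at h1

def FC (X : Set ℕ) : Prop := X.Finite ∨ Xᶜ.Finite

variable (r) in
def XX (n : ℕ) : Set ℕ := {x | PP r n x = true}

lemma XX_FC (hr : GoodOrder r) (n : ℕ) : FC (XX r n) := by
  have hev : ∀ s : ℕ, ∃ c : Prop, ∀ᶠ x in Filter.cofinite, (r s x ↔ c) := by
    intro s
    rcases hr.fin s with hs | hs
    · refine ⟨True, ?_⟩
      rw [Filter.eventually_cofinite]
      refine hs.subset ?_
      intro x hx
      simp only [iff_true] at hx
      exact (hr.total x s).resolve_right hx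
    · refine ⟨False, ?_⟩
      rw [Filter.eventually_cofinite]
      refine hs.subset ?_
      intro x hx
      simp only [iff_false, not_not] at hx
      exact hx
  choose c hc using hev
  have hall : ∀ᶠ x in Filter.cofinite, ∀ s ∈ Finset.range n, (r s x ↔ c s) := by
    rw [Filter.eventually_all_finset]
    intro s _; exact hc s
  classical
  let k := ((Finset.range n).filter (fun s => n.testBit s = true ∧ c s)).card
  have hcnt : ∀ᶠ x in Filter.cofinite, cnt r n n x = k := by
    filter_upwards [hall] with x hx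
    show cnt r n n x = ((Finset.range n).filter (fun s => n.testBit s = true ∧ c s)).card
    unfold cnt
    congr 1
    ext s
    simp only [Finset.mem_filter]
    constructor
    · rintro ⟨h1, h2, h3⟩; exact ⟨h1, h2, (hx s h1).1 h3⟩
    · rintro ⟨h1, h2, h3⟩; exact ⟨h1, h2, (hx s h1).2 h3⟩
  rw [Filter.eventually_cofinite] at hcnt
  by_cases hk : k % 2 = 1
  · right
    refine hcnt.subset ?_
    intro x hx hx2
    apply hx
    show PP r n x = true
    unfold PP
    simp only [decide_eq_true_eq]
    rw [hx2]; exact hk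
  · left
    refine hcnt.subset ?_
    intro x hx hx2
    apply hk
    have hx' : PP r n x = true := hx
    unfold PP at hx'
    simp only [decide_eq_true_eq] at hx'
    rw [← hx2]; exact hx'

lemma exists_single (hr : GoodOrder r) (x : ℕ) : ∃ k, ∀ z, PP r k z = true ↔ z = x := by
  rcases hr.succ x with h | ⟨y, hxy, hne, hmin⟩
  · refine ⟨2 ^ x, fun z => ?_⟩
    rw [PP_two_pow]
    constructor
    · intro hz; exact hr.antisymm _ _ (h z) hz
    · rintro rfl; exact hr.refl _
  · refine ⟨2 ^ x ^^^ 2 ^ y, fun z => ?_⟩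
    rw [PP_xor]
    have hx : PP r (2^x) z = decide (r x z) := by
      rw [Bool.eq_iff_iff, PP_two_pow]; simp
    have hy : PP r (2^y) z = decide (r y z) := by
      rw [Bool.eq_iff_iff, PP_two_pow]; simp
    rw [hx, hy]
    constructor
    · intro h
      by_contra hzx
      by_cases h1 : r x z
      · have := hmin z h1 (Ne.symm hzx)
        simp [h1, this] at h
      · have h2 : ¬ r y z := fun h2 => h1 (hr.trans _ _ _ hxy h2)
        simp [h1, h2] at h
    · rintro rfl
      have h2 : ¬ r y z := fun h2 => hne (hr.antisymm _ _ hxy h2)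
      simp [hr.refl, h2]

lemma exists_finset (hr : GoodOrder r) (F : Finset ℕ) : ∃ k, ∀ z, PP r k z = true ↔ z ∈ F := by
  induction F using Finset.induction_on with
  | empty => exact ⟨0, fun z => by simp [PP_zero]⟩
  | insert x F hx ih =>
    obtain ⟨k, hk⟩ := ih
    obtain ⟨j, hj⟩ := exists_single hr x
    refine ⟨k ^^^ j, fun z => ?_⟩
    rw [PP_xor, Finset.mem_insert]
    by_cases hz : z = x
    · subst hz
      have h1 : PP r k z = false := by
        rw [← Bool.not_eq_true, hk]; exact hx
      have h2 : PP r j z = true := (hj z).2 rfl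
      simp [h1, h2]
    · have h2 : PP r j z = false := by
        rw [← Bool.not_eq_true, hj]; exact hz
      rw [h2]; simp [hz, hk]

lemma PP_one (hr : GoodOrder r) (z : ℕ) : PP r 1 z = true := by
  have := (PP_two_pow 0 z).2 (hr.zero z)
  simpa using this

lemma exists_FC (hr : GoodOrder r) {Y : Set ℕ} (hY : FC Y) : ∃ k, XX r k = Y := by
  rcases hY with hY | hY
  · obtain ⟨k, hk⟩ := exists_finset hr hY.toFinset
    refine ⟨k, ?_⟩
    ext z
    show PP r k z = true ↔ z ∈ Y
    rw [hk]; simp
  · obtain ⟨k, hk⟩ := exists_finset hr hY.toFinset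
    refine ⟨k ^^^ 1, ?_⟩
    ext z
    show PP r (k ^^^ 1) z = true ↔ z ∈ Y
    rw [PP_xor, PP_one hr]
    have := hk z
    simp only [Set.Finite.mem_toFinset, Set.mem_compl_iff] at this
    by_cases hz : z ∈ Y
    · have h1 : PP r k z = false := by
        rw [← Bool.not_eq_true, this]; simpa using hz
      simp [h1, hz]
    · have h1 : PP r k z = true := this.2 hz
      simp [h1, hz]

end

/-- the algebra of finite and cofinite sets of natural numbers -/
def FCA : BooleanSubalgebra (Set ℕ) where
  carrier := {Y | FC Y}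
  supClosed' := by
    intro a ha b hb
    rcases ha with ha | ha <;> rcases hb with hb | hb
    · exact Or.inl (ha.union hb)
    · exact Or.inr (hb.subset (by
        intro x hx hxb; exact hx (Or.inr hxb)))
    · exact Or.inr (ha.subset (by
        intro x hx hxb; exact hx (Or.inl hxb)))
    · exact Or.inr (ha.subset (by
        intro x hx hxb; exact hx (Or.inl hxb)))
  infClosed' := by
    intro a ha b hb
    rcases ha with ha | ha <;> rcases hb with hb | hb
    · exact Or.inl (ha.subset (fun x hx => hx.1))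
    · exact Or.inl (ha.subset (fun x hx => hx.1))
    · exact Or.inl (hb.subset (fun x hx => hx.2))
    · exact Or.inr ((ha.union hb).subset (by
        intro x hx
        by_contra hcon
        apply hx
        constructor
        · by_contra h; exact hcon (Or.inl h)
        · by_contra h; exact hcon (Or.inr h)))
  compl_mem' := by
    intro a ha
    rcases ha with ha | ha
    · exact Or.inr (by simpa using ha)
    · exact Or.inl ha
  bot_mem' := Or.inl (by simp)

lemma mem_FCA {Y : Set ℕ} : Y ∈ FCA ↔ FC Y := Iff.rfl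

section

variable {r : ℕ → ℕ → Prop} [DecidableRel r]

/-- the presentation attached to a good order -/
noncomputable def ee (hr : GoodOrder r) : ℕ ≃ FCA :=
  Equiv.ofBijective (fun n => (⟨XX r n, XX_FC hr n⟩ : FCA)) (by
    constructor
    · intro n m h
      have h' : XX r n = XX r m := congrArg Subtype.val h
      apply PP_inj hr
      intro x
      have : (x ∈ XX r n) = (x ∈ XX r m) := by rw [h']
      have h2 : (PP r n x = true) = (PP r m x = true) := this
      rw [Bool.eq_iff_iff, h2]
    · rintro ⟨Y, hY⟩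
      obtain ⟨k, hk⟩ := exists_FC hr hY
      exact ⟨k, Subtype.ext hk⟩)

lemma ee_val (hr : GoodOrder r) (n : ℕ) : (ee hr n : Set ℕ) = XX r n := rfl

/-- if an identity between memberships holds at all relevant points it holds everywhere -/
lemma check (hr : GoodOrder r) (op : Bool → Bool → Bool) (k m n : ℕ)
    (h : ∀ s < k + m + n + 1, PP r k s = op (PP r m s) (PP r n s)) :
    ∀ x, PP r k x = op (PP r m x) (PP r n x) := by
  intro x
  let T : Finset ℕ := (Finset.range (k + m + n + 1)).filter (fun s => r s x)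
  obtain ⟨s, hs, hmax⟩ := exists_least (fun a b => r b a) hr.refl (fun a b => hr.total b a)
    (fun a b c hab hbc => hr.trans _ _ _ hbc hab) T
    ⟨0, by simp [T, hr.zero]⟩
  simp only [T, Finset.mem_filter, Finset.mem_range] at hs hmax
  have key : ∀ j, j ≤ k + m + n → PP r j x = PP r j s := by
    intro j hj
    have : cnt r j j x = cnt r j j s := by
      unfold cnt
      congr 1
      ext t
      simp only [Finset.mem_filter, Finset.mem_range]
      constructor
      · rintro ⟨h1, h2, h3⟩
        exact ⟨h1, h2, hmax t ⟨by omega, h3⟩⟩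
      · rintro ⟨h1, h2, h3⟩
        exact ⟨h1, h2, hr.trans _ _ _ h3 hs.2⟩
    unfold PP; rw [this]
  rw [key k (by omega), key m (by omega), key n (by omega)]
  exact h s hs.1

lemma comp_op (hr : GoodOrder r) (op : Bool → Bool → Bool) (f : ℕ → ℕ → ℕ)
    (hf : ∀ m n x, PP r (f m n) x = op (PP r m x) (PP r n x)) : Computable₂ f := by
  have hR : PrimrecRel (fun (s : ℕ) (q : (ℕ × ℕ) × ℕ) =>
      PP r q.2 s = op (PP r q.1.1 s) (PP r q.1.2 s)) := by
    have h1 : Primrec (fun z : ℕ × ((ℕ × ℕ) × ℕ) => PP r z.2.2 z.1) :=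
      (PP_primrec hr).comp (Primrec.snd.comp Primrec.snd) Primrec.fst
    have h2 : Primrec (fun z : ℕ × ((ℕ × ℕ) × ℕ) => PP r z.2.1.1 z.1) :=
      (PP_primrec hr).comp (Primrec.fst.comp (Primrec.fst.comp Primrec.snd)) Primrec.fst
    have h3 : Primrec (fun z : ℕ × ((ℕ × ℕ) × ℕ) => PP r z.2.1.2 z.1) :=
      (PP_primrec hr).comp (Primrec.snd.comp (Primrec.fst.comp Primrec.snd)) Primrec.fst
    exact Primrec.eq.comp h1 ((Primrec.dom_bool₂ op).comp h2 h3)
  have hR2 : PrimrecRel (fun (q : ℕ × ℕ) (k : ℕ) =>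
      ∀ s < k + q.1 + q.2 + 1, PP r k s = op (PP r q.1 s) (PP r q.2 s)) := by
    have hb : Primrec (fun p : (ℕ × ℕ) × ℕ => p.2 + p.1.1 + p.1.2 + 1) :=
      Primrec.succ.comp (Primrec.nat_add.comp (Primrec.nat_add.comp Primrec.snd
        (Primrec.fst.comp Primrec.fst)) (Primrec.snd.comp Primrec.fst))
    exact PrimrecPred.of_eq (hR.forall_mem_list.comp (Primrec.list_range.comp hb) Primrec.id) (by
      intro z; simp)
  classical
  have hex : ∀ q : ℕ × ℕ, ∃ k, ∀ s < k + q.1 + q.2 + 1, PP r k s = op (PP r q.1 s) (PP r q.2 s) :=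
    fun q => ⟨f q.1 q.2, fun s _ => hf q.1 q.2 s⟩
  have hc := Computable.find (α := ℕ × ℕ)
    (P := fun q k => ∀ s < k + q.1 + q.2 + 1, PP r k s = op (PP r q.1 s) (PP r q.2 s))
    (PrimrecPred.computablePred hR2) hex
  refine hc.of_eq ?_
  intro q
  apply PP_inj hr
  intro x
  have hspec := Nat.find_spec (hex q)
  rw [check hr op _ _ _ hspec x, hf]

lemma ee_sup (hr : GoodOrder r) :
    Computable₂ (fun m n : ℕ => (ee hr).symm (ee hr m ⊔ ee hr n)) := by
  apply comp_op hr or
  intro m n x
  have h1 : XX r ((ee hr).symm (ee hr m ⊔ ee hr n)) = XX r m ∪ XX r n := by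
    rw [← ee_val hr, Equiv.apply_symm_apply]; rfl
  have h2 : x ∈ XX r ((ee hr).symm (ee hr m ⊔ ee hr n)) ↔ (x ∈ XX r m ∨ x ∈ XX r n) := by
    rw [h1]; rfl
  rw [Bool.eq_iff_iff, Bool.or_eq_true]; exact h2

lemma ee_inf (hr : GoodOrder r) :
    Computable₂ (fun m n : ℕ => (ee hr).symm (ee hr m ⊓ ee hr n)) := by
  apply comp_op hr and
  intro m n x
  have h1 : XX r ((ee hr).symm (ee hr m ⊓ ee hr n)) = XX r m ∩ XX r n := by
    rw [← ee_val hr, Equiv.apply_symm_apply]; rfl
  have h2 : x ∈ XX r ((ee hr).symm (ee hr m ⊓ ee hr n)) ↔ (x ∈ XX r m ∧ x ∈ XX r n) := by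
    rw [h1]; rfl
  rw [Bool.eq_iff_iff, Bool.and_eq_true]; exact h2

lemma ee_compl (hr : GoodOrder r) :
    Computable (fun m : ℕ => (ee hr).symm (ee hr m)ᶜ) := by
  have h := comp_op hr (fun a _ => !a) (fun m _ => (ee hr).symm (ee hr m)ᶜ) (by
    intro m n x
    have h1 : XX r ((ee hr).symm (ee hr m)ᶜ) = (XX r m)ᶜ := by
      rw [← ee_val hr, Equiv.apply_symm_apply]; rfl
    have h2 : x ∈ XX r ((ee hr).symm (ee hr m)ᶜ) ↔ ¬ (x ∈ XX r m) := by rw [h1]; rfl
    rw [Bool.eq_iff_iff]
    simp only [Bool.not_eq_true']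
    rw [← Bool.not_eq_true]
    exact h2)
  exact h.comp Computable.id Computable.id

end

/-! first order: the usual one -/

lemma good_le : GoodOrder (fun a b : ℕ => a ≤ b) where
  prim := Primrec.nat_le
  refl := fun a => le_refl a
  total := fun a b => le_total a b
  trans := fun a b c h1 h2 => le_trans h1 h2
  antisymm := fun a b h1 h2 => le_antisymm h1 h2
  zero := fun a => Nat.zero_le a
  fin := fun s => Or.inl (Set.finite_Iic s)
  succ := fun x => Or.inr ⟨x+1, by omega, by omega, fun z h1 h2 => by omega⟩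

/-! second order: true stages -/

/-- the code and input coded by `k` halts within `t` steps -/
def hlt (k t : ℕ) : Bool := (evaln t (Denumerable.ofNat Code k.unpair.1) k.unpair.2).isSome

/-- an injective enumeration: `2k+1` appears iff `k` codes a halting computation. -/
def g (n : ℕ) : ℕ :=
  Nat.casesOn n 0 (fun u =>
    bif (hlt u.unpair.1 (u.unpair.2 + 1) && !hlt u.unpair.1 u.unpair.2)
      then 2 * u.unpair.1 + 1 else 2 * u + 2)

lemma hlt_primrec : Primrec₂ hlt := by
  have h : Primrec (fun p : ℕ × ℕ =>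
      evaln p.2 (Denumerable.ofNat Code p.1.unpair.1) p.1.unpair.2) :=
    primrec_evaln.comp (((Primrec.snd).pair ((Primrec.ofNat Code).comp
      (Primrec.fst.comp (Primrec.unpair.comp Primrec.fst)))).pair
      (Primrec.snd.comp (Primrec.unpair.comp Primrec.fst)))
  exact Primrec.option_isSome.comp h

lemma g_primrec : Primrec g := by
  refine Primrec.nat_casesOn Primrec.id (Primrec.const 0) ?_
  have k : Primrec (fun p : ℕ × ℕ => p.2.unpair.1) :=
    Primrec.fst.comp (Primrec.unpair.comp Primrec.snd)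
  have t : Primrec (fun p : ℕ × ℕ => p.2.unpair.2) :=
    Primrec.snd.comp (Primrec.unpair.comp Primrec.snd)
  have h1 := hlt_primrec.comp k (Primrec.succ.comp t)
  have h2 := hlt_primrec.comp k t
  exact Primrec.cond (Primrec.and.comp h1 (Primrec.not.comp h2))
    (Primrec.succ.comp (Primrec.nat_mul.comp (Primrec.const 2) k))
    (Primrec.nat_add.comp (Primrec.nat_mul.comp (Primrec.const 2) Primrec.snd) (Primrec.const 2))

lemma hlt_mono {k s t : ℕ} (h : s ≤ t) (hs : hlt k s = true) : hlt k t = true := by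
  unfold hlt at *
  rw [Option.isSome_iff_exists] at *
  obtain ⟨a, ha⟩ := hs
  exact ⟨a, evaln_mono h ha⟩

lemma hlt_zero (k : ℕ) : hlt k 0 = false := by
  simp [hlt, evaln]

lemma g_zero : g 0 = 0 := rfl

lemma g_succ (u : ℕ) : g (u+1) =
    bif (hlt u.unpair.1 (u.unpair.2 + 1) && !hlt u.unpair.1 u.unpair.2)
      then 2 * u.unpair.1 + 1 else 2 * u + 2 := rfl

lemma g_inj : Function.Injective g := by
  intro a b hab
  cases a with
  | zero =>
    cases b with
    | zero => rfl
    | succ v =>
      rw [g_zero, g_succ] at hab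
      cases h : (hlt v.unpair.1 (v.unpair.2 + 1) && !hlt v.unpair.1 v.unpair.2) <;>
        rw [h] at hab <;> simp at hab
  | succ u =>
    cases b with
    | zero =>
      rw [g_zero, g_succ] at hab
      cases h : (hlt u.unpair.1 (u.unpair.2 + 1) && !hlt u.unpair.1 u.unpair.2) <;>
        rw [h] at hab <;> simp at hab
    | succ v =>
      rw [g_succ, g_succ] at hab
      cases h : (hlt u.unpair.1 (u.unpair.2 + 1) && !hlt u.unpair.1 u.unpair.2) <;>
      cases h' : (hlt v.unpair.1 (v.unpair.2 + 1) && !hlt v.unpair.1 v.unpair.2) <;>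
        rw [h, h'] at hab
      · simp at hab; omega
      · simp at hab; omega
      · simp at hab; omega
      · simp at hab h h'
        have hk : u.unpair.1 = v.unpair.1 := by omega
        rw [← hk] at h'
        have ht : u.unpair.2 = v.unpair.2 := by
          rcases lt_trichotomy u.unpair.2 v.unpair.2 with hl | hl | hl
          · have := hlt_mono (show u.unpair.2 + 1 ≤ v.unpair.2 from hl) h.1
            rw [this] at h'; simp at h'
          · exact hl
          · have := hlt_mono (show v.unpair.2 + 1 ≤ u.unpair.2 from hl) h'.1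
            rw [this] at h; simp at h
        have : u = v := by
          rw [← Nat.pair_unpair u, ← Nat.pair_unpair v, hk, ht]
        rw [this]

def alive (s t : ℕ) : Prop := ∀ u < t + 1, s < u → g s ≤ g u

instance (s t : ℕ) : Decidable (alive s t) := by unfold alive; infer_instance

def le' (s t : ℕ) : Prop := (s ≤ t ∧ alive s t) ∨ (t < s ∧ ¬ alive t s)

instance : DecidableRel le' := fun s t => by unfold le'; infer_instance

lemma alive_primrec : PrimrecRel alive := by
  have h : PrimrecRel (fun u s : ℕ => s < u → g s ≤ g u) := by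
    have h1 : PrimrecRel (fun u s : ℕ => ¬ (s < u)) :=
      (Primrec.nat_lt.comp Primrec.snd Primrec.fst).not
    have h2 : PrimrecRel (fun u s : ℕ => g s ≤ g u) :=
      Primrec.nat_le.comp (g_primrec.comp Primrec.snd) (g_primrec.comp Primrec.fst)
    exact (h1.or h2).of_eq (by intro a; simp [imp_iff_not_or])
  have h3 := h.forall_lt
  have h4 : PrimrecRel (fun s t : ℕ => ∀ u < t + 1, s < u → g s ≤ g u) :=
    h3.comp (Primrec.succ.comp Primrec.snd) Primrec.fst
  exact h4

lemma le'_primrec : PrimrecRel le' := by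
  have h1 : PrimrecRel (fun s t : ℕ => s ≤ t ∧ alive s t) :=
    (Primrec.nat_le.comp Primrec.fst Primrec.snd).and
      (alive_primrec.comp Primrec.fst Primrec.snd)
  have h2 : PrimrecRel (fun s t : ℕ => t < s ∧ ¬ alive t s) :=
    (Primrec.nat_lt.comp Primrec.snd Primrec.fst).and
      (alive_primrec.comp Primrec.snd Primrec.fst).not
  exact h1.or h2

lemma le'_refl (s : ℕ) : le' s s := Or.inl ⟨le_refl s, fun u h1 h2 => by omega⟩

lemma alive_mono {s t t' : ℕ} (h : t ≤ t') (ha : alive s t') : alive s t :=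
  fun u hu hs => ha u (by omega) hs

lemma le'_total (s t : ℕ) : le' s t ∨ le' t s := by
  rcases lt_trichotomy s t with h | h | h
  · by_cases ha : alive s t
    · exact Or.inl (Or.inl ⟨h.le, ha⟩)
    · exact Or.inr (Or.inr ⟨h, ha⟩)
  · subst h; exact Or.inl (le'_refl s)
  · by_cases ha : alive t s
    · exact Or.inr (Or.inl ⟨h.le, ha⟩)
    · exact Or.inl (Or.inr ⟨h, ha⟩)

lemma le'_antisymm {s t : ℕ} (h1 : le' s t) (h2 : le' t s) : s = t := by
  rcases lt_trichotomy s t with h | h | h
  · rcases h1 with h1 | h1 <;> rcases h2 with h2 | h2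
    · omega
    · exact absurd h1.2 h2.2
    · omega
    · omega
  · exact h
  · rcases h1 with h1 | h1 <;> rcases h2 with h2 | h2
    · omega
    · omega
    · exact absurd h2.2 h1.2
    · omega

lemma le'_of_lt {s t : ℕ} (h : s < t) : le' s t ↔ alive s t := by
  constructor
  · rintro (h1 | h1)
    · exact h1.2
    · omega
  · intro h1; exact Or.inl ⟨h.le, h1⟩

lemma le'_of_gt {s t : ℕ} (h : t < s) : le' s t ↔ ¬ alive t s := by
  constructor
  · rintro (h1 | h1)
    · omega
    · exact h1.2
  · intro h1; exact Or.inr ⟨h, h1⟩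

lemma key1 {a b c : ℕ} (_hab : a < b) (_hbc : b < c) (h1 : alive a b) (h2 : ¬ alive a c) :
    ¬ alive b c := by
  intro h3
  apply h2
  intro u hu hau
  by_cases hub : u < b + 1
  · exact h1 u hub hau
  · exact le_trans (h1 b (by omega) _hab) (h3 u hu (by omega))

lemma le'_trans {a b c : ℕ} (h1 : le' a b) (h2 : le' b c) : le' a c := by
  by_contra h3
  have h3' : le' c a := (le'_total a c).resolve_left h3
  have hab : a ≠ b := by rintro rfl; exact h3 h2
  have hbc : b ≠ c := by rintro rfl; exact h3 h1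
  have hac : a ≠ c := by rintro rfl; exact h3 (le'_refl a)
  rcases lt_or_gt_of_ne hab with h | h <;> rcases lt_or_gt_of_ne hbc with k | k <;>
    rcases lt_or_gt_of_ne hac with l | l
  · rw [le'_of_lt h] at h1; rw [le'_of_lt k] at h2; rw [le'_of_gt l] at h3'
    exact key1 h k h1 h3' h2
  · omega
  · rw [le'_of_lt h] at h1; rw [le'_of_gt k] at h2; rw [le'_of_gt l] at h3'
    exact h3' (alive_mono k.le h1)
  · rw [le'_of_lt h] at h1; rw [le'_of_gt k] at h2; rw [le'_of_lt l] at h3'
    exact key1 l h h3' h2 h1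
  · rw [le'_of_gt h] at h1; rw [le'_of_lt k] at h2; rw [le'_of_gt l] at h3'
    exact h1 (alive_mono l.le h2)
  · rw [le'_of_gt h] at h1; rw [le'_of_lt k] at h2; rw [le'_of_lt l] at h3'
    exact key1 k l h2 h1 h3'
  · omega
  · rw [le'_of_gt h] at h1; rw [le'_of_gt k] at h2; rw [le'_of_lt l] at h3'
    exact h2 (alive_mono h.le h3')

lemma zero_le' (s : ℕ) : le' 0 s :=
  Or.inl ⟨Nat.zero_le _, fun u _ _ => by rw [g_zero]; exact Nat.zero_le _⟩

/-- true stages -/
def tr (s : ℕ) : Prop := ∀ u, s < u → g s ≤ g u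

lemma below_finite {s : ℕ} (h : tr s) : {t | le' t s}.Finite := by
  refine (Set.finite_Iic s).subset ?_
  intro t ht
  simp only [Set.mem_ofPred_eq] at ht
  simp only [Set.mem_Iic]
  by_contra hlt
  push Not at hlt
  rw [le'_of_gt hlt] at ht
  exact ht (fun u _ hu => h u hu)

lemma above_finite {s : ℕ} (h : ¬ tr s) : {t | le' s t}.Finite := by
  unfold tr at h
  push Not at h
  obtain ⟨u, hu, hg⟩ := h
  refine (Set.finite_Iic u).subset ?_
  intro t ht
  simp only [Set.mem_ofPred_eq] at ht
  simp only [Set.mem_Iic]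
  by_contra hlt
  push Not at hlt
  rw [le'_of_lt (by omega)] at ht
  have := ht u (by omega) hu
  omega

lemma g_large (N : ℕ) : ∃ M, ∀ u, M ≤ u → N ≤ g u := by
  have h := g_inj.nat_tendsto_atTop
  rw [Filter.tendsto_atTop_atTop] at h
  exact h N

lemma exists_tr (N : ℕ) : ∃ s, N ≤ s ∧ tr s := by
  have hne : ∃ m, ∃ s, N ≤ s ∧ g s = m := ⟨g N, N, le_refl _, rfl⟩
  classical
  obtain ⟨s, hs, hg⟩ := Nat.find_spec hne
  refine ⟨s, hs, fun u hu => ?_⟩
  rw [hg]
  exact Nat.find_min' hne ⟨u, by omega, rfl⟩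

lemma exists_succ (x : ℕ) : (∀ y, le' y x) ∨
    ∃ y, le' x y ∧ x ≠ y ∧ ∀ z, le' x z → x ≠ z → le' y z := by
  by_cases hall : ∀ y, le' y x
  · exact Or.inl hall
  right
  push Not at hall
  obtain ⟨y0, hy0⟩ := hall
  have hxy0 : le' x y0 := (le'_total x y0).resolve_right hy0
  have hne0 : x ≠ y0 := by rintro rfl; exact hy0 (le'_refl _)
  have hb : ∃ y1, le' x y1 ∧ x ≠ y1 ∧ {z | le' x z ∧ le' z y1}.Finite := by
    by_cases hx : tr x
    · obtain ⟨s, hs, hts⟩ := exists_tr (x+1)
      refine ⟨s, ?_, by omega, (below_finite hts).subset fun z hz => hz.2⟩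
      rw [le'_of_lt (by omega)]
      exact fun u _ hu => hx u hu
    · exact ⟨y0, hxy0, hne0, (above_finite hx).subset fun z hz => hz.1⟩
  obtain ⟨y1, hxy1, hne1, hfin⟩ := hb
  have hfin2 : {z | (le' x z ∧ x ≠ z) ∧ le' z y1}.Finite :=
    hfin.subset fun z hz => ⟨hz.1.1, hz.2⟩
  obtain ⟨m, hm, hmin⟩ := exists_least le' le'_refl le'_total (fun _ _ _ => le'_trans)
    hfin2.toFinset ⟨y1, by simp [hxy1, hne1, le'_refl]⟩
  simp only [Set.Finite.mem_toFinset, Set.mem_ofPred_eq] at hm hmin
  refine ⟨m, hm.1.1, hm.1.2, fun z hz hnz => ?_⟩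
  rcases le'_total z y1 with h | h
  · exact hmin z ⟨⟨hz, hnz⟩, h⟩
  · exact le'_trans hm.2 h

lemma good_le' : GoodOrder le' where
  prim := le'_primrec
  refl := le'_refl
  total := le'_total
  trans := fun _ _ _ => le'_trans
  antisymm := fun _ _ => le'_antisymm
  zero := zero_le'
  fin := fun s => by
    by_cases h : tr s
    · exact Or.inl (below_finite h)
    · exact Or.inr (above_finite h)
  succ := exists_succ

lemma hlt_iff (k : ℕ) : (∃ t, hlt k t = true) ↔ ∃ u, g u = 2 * k + 1 := by
  constructor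
  · intro h
    classical
    have h0 := Nat.find_spec h
    have hmin := fun m => Nat.find_min (m := m) h
    obtain ⟨t, ht⟩ : ∃ t, Nat.find h = t + 1 := by
      cases h1 : Nat.find h with
      | zero => rw [h1, hlt_zero] at h0; simp at h0
      | succ t => exact ⟨t, rfl⟩
    refine ⟨Nat.pair k t + 1, ?_⟩
    rw [g_succ, Nat.unpair_pair]
    have h2 : hlt k t = false := by
      rw [← Bool.not_eq_true]; exact hmin t (by omega)
    rw [ht] at h0
    simp [h0, h2]
  · rintro ⟨u, hu⟩
    cases u with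
    | zero => rw [g_zero] at hu; omega
    | succ u =>
      rw [g_succ] at hu
      cases h : (hlt u.unpair.1 (u.unpair.2 + 1) && !hlt u.unpair.1 u.unpair.2) <;>
        rw [h] at hu
      · simp at hu; omega
      · simp at hu h
        have : u.unpair.1 = k := by omega
        rw [this] at h
        exact ⟨_, h.1⟩

lemma dom_iff (k : ℕ) : (eval (Denumerable.ofNat Code k.unpair.1) k.unpair.2).Dom ↔
    ∃ t, hlt k t = true := by
  unfold hlt
  rw [Part.dom_iff_mem]
  constructor
  · rintro ⟨y, hy⟩
    obtain ⟨t, ht⟩ := evaln_complete.1 hy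
    exact ⟨t, Option.isSome_iff_exists.2 ⟨y, ht⟩⟩
  · rintro ⟨t, ht⟩
    obtain ⟨y, hy⟩ := Option.isSome_iff_exists.1 ht
    exact ⟨y, evaln_sound hy⟩

/-- for a true stage `s` with large value, halting is decided below `s` -/
lemma tr_decides {s k : ℕ} (hs : tr s) (hk : 2 * k + 1 < g s) :
    (eval (Denumerable.ofNat Code k.unpair.1) k.unpair.2).Dom ↔ ∃ u < s, g u = 2 * k + 1 := by
  rw [dom_iff, hlt_iff]
  constructor
  · rintro ⟨u, hu⟩
    refine ⟨u, ?_, hu⟩
    by_contra hlt
    push Not at hlt
    rcases Nat.lt_or_ge s u with h | h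
    · have := hs u h; omega
    · have : u = s := by omega
      subst this; omega
  · rintro ⟨u, _, hu⟩; exact ⟨u, hu⟩

lemma tr_iff_infinite (s : ℕ) : tr s ↔ (XX le' (2 ^ s)).Infinite := by
  have hX : XX le' (2 ^ s) = {x | le' s x} := by
    ext x; exact PP_two_pow s x
  rw [hX]
  constructor
  · intro h hfin
    have h1 := below_finite h
    have : (Set.univ : Set ℕ) ⊆ {t | le' t s} ∪ {x | le' s x} := by
      intro x _; exact (le'_total x s)
    exact Set.infinite_univ ((h1.union hfin).subset this)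
  · intro h
    by_contra h1
    exact h (above_finite h1)

end Pool.Agent.Helper743
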