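import Pool.Agent.Helper743.Ideal
import Pool.Agent.Helper743.FC
import Pool.Agent.Helper743.BADefs

set_option autoImplicit false

namespace Pool.Agent.Helper743

open Nat.Partrec (Code)

lemma computable_foldl {α β σ : Type} [Primcodable α] [Primcodable β] [Primcodable σ]
    {f : α → List β} {g : α → σ} {h : α → σ → β → σ} (hf : Computable f) (hg : Computable g)
    (hh : Computable (fun q : α × (σ × β) => h q.1 q.2.1 q.2.2)) :
    Computable (fun a => (f a).foldl (h a) (g a)) := by
  have hstep : Computable₂ (fun (a : α) (z : ℕ × σ) =>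
      (Option.casesOn ((f a)[z.1]?) z.2 (fun b => h a z.2 b) : σ)) := by
    have h1 : Computable (fun w : α × (ℕ × σ) => (f w.1)[w.2.1]?) :=
      Computable.list_getElem?.comp (hf.comp Computable.fst)
        (Computable.fst.comp Computable.snd)
    have h2 : Computable (fun w : α × (ℕ × σ) => w.2.2) := Computable.snd.comp Computable.snd
    have h3 : Computable₂ (fun (w : α × (ℕ × σ)) (b : β) => h w.1 w.2.2 b) :=
      hh.comp ((Computable.fst.comp Computable.fst).pair
        ((Computable.snd.comp (Computable.snd.comp Computable.fst)).pair Computable.snd))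
    exact Computable.option_casesOn h1 h2 h3
  have h1 := Computable.nat_rec (Computable.list_length.comp hf) hg hstep
  refine h1.of_eq ?_
  intro a
  have key : ∀ n, n ≤ (f a).length → (Nat.rec (g a) (fun y ih =>
      (Option.casesOn ((f a)[y]?) ih (fun b => h a ih b) : σ)) n : σ)
      = ((f a).take n).foldl (h a) (g a) := by
    intro n
    induction n with
    | zero => intro _; rfl
    | succ n ih =>
      intro hn
      have hlt : n < (f a).length := by omega
      have h2 := ih (by omega)
      rw [List.take_add_one, List.getElem?_eq_getElem hlt]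
      simp only [Option.toList_some, List.foldl_append, List.foldl_cons, List.foldl_nil]
      rw [← h2, List.getElem?_eq_getElem hlt]
  have := key (f a).length (le_refl _)
  rw [List.take_length] at this
  exact this

/-- the value of a number in a copy -/
noncomputable def cv {α : Type} [BooleanAlgebra α] (c : ComputableCopy α) (n : ℕ) : α :=
  open Classical in if h : n ∈ c.dom then c.e ⟨n, h⟩ else ⊥

section

variable {α : Type} [BooleanAlgebra α] (c : ComputableCopy α)

lemma cv_mk {n : ℕ} (h : n ∈ c.dom) : cv c n = c.e ⟨n, h⟩ := by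
  unfold cv; rw [dif_pos h]

lemma cv_inj {a b : ℕ} (ha : a ∈ c.dom) (hb : b ∈ c.dom) (h : cv c a = cv c b) : a = b := by
  rw [cv_mk c ha, cv_mk c hb] at h
  exact congrArg Subtype.val (c.e.injective h)

lemma cv_surj (x : α) : ∃ a, a ∈ c.dom ∧ cv c a = x :=
  ⟨c.e.symm x, (c.e.symm x).2, by rw [cv_mk c (c.e.symm x).2]; simp⟩

lemma cv_sup : ∃ f : ℕ → ℕ → ℕ, Computable₂ f ∧ ∀ a b, a ∈ c.dom → b ∈ c.dom →
    f a b ∈ c.dom ∧ cv c (f a b) = cv c a ⊔ cv c b := by
  obtain ⟨f, hf, h⟩ := c.sup_computable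
  refine ⟨f, hf, fun a b ha hb => ?_⟩
  have := h ⟨a, ha⟩ ⟨b, hb⟩
  simp only at this
  rw [this]
  refine ⟨(c.e.symm _).2, ?_⟩
  rw [cv_mk c (c.e.symm _).2, cv_mk c ha, cv_mk c hb]
  simp

lemma cv_inf : ∃ f : ℕ → ℕ → ℕ, Computable₂ f ∧ ∀ a b, a ∈ c.dom → b ∈ c.dom →
    f a b ∈ c.dom ∧ cv c (f a b) = cv c a ⊓ cv c b := by
  obtain ⟨f, hf, h⟩ := c.inf_computable
  refine ⟨f, hf, fun a b ha hb => ?_⟩
  have := h ⟨a, ha⟩ ⟨b, hb⟩
  simp only at this
  rw [this]
  refine ⟨(c.e.symm _).2, ?_⟩
  rw [cv_mk c (c.e.symm _).2, cv_mk c ha, cv_mk c hb]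
  simp

lemma cv_compl : ∃ f : ℕ → ℕ, Computable f ∧ ∀ a, a ∈ c.dom →
    f a ∈ c.dom ∧ cv c (f a) = (cv c a)ᶜ := by
  obtain ⟨f, hf, h⟩ := c.compl_computable
  refine ⟨f, hf, fun a ha => ?_⟩
  have := h ⟨a, ha⟩
  simp only at this
  rw [this]
  refine ⟨(c.e.symm _).2, ?_⟩
  rw [cv_mk c (c.e.symm _).2, cv_mk c ha]
  simp

lemma relImage_eq (R : α → α → Prop) (x y : ℕ) :
    relImage c R (Nat.pair x y) = (open Classical in
      if x ∈ c.dom ∧ y ∈ c.dom ∧ R (cv c x) (cv c y) then 1 else 0) := by
  classical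
  unfold relImage
  apply if_congr _ rfl rfl
  constructor
  · rintro ⟨a, b, hab, hR⟩
    rw [Nat.pair_eq_pair] at hab
    obtain ⟨rfl, rfl⟩ := hab
    refine ⟨a.2, b.2, ?_⟩
    rw [cv_mk c a.2, cv_mk c b.2]; exact hR
  · rintro ⟨hx, hy, hR⟩
    refine ⟨⟨x, hx⟩, ⟨y, hy⟩, rfl, ?_⟩
    rw [cv_mk c hx, cv_mk c hy] at hR; exact hR

/-- atoms -/
noncomputable def At (n : ℕ) : ℕ :=
  open Classical in if n ∈ c.dom ∧ IsAtom (cv c n) then 1 else 0

end

lemma isAtom_FCA (a : FCA) : IsAtom a ↔ ∃ x, (a : Set ℕ) = {x} := by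
  constructor
  · intro h
    have hne : (a : Set ℕ).Nonempty := by
      rw [Set.nonempty_iff_ne_empty]
      intro h0
      exact h.1 (Subtype.ext h0)
    obtain ⟨x, hx⟩ := hne
    let s : FCA := ⟨{x}, Or.inl (Set.finite_singleton x)⟩
    have hle : s ≤ a := by
      intro y hy
      rw [Set.mem_singleton_iff] at hy
      rw [hy]; exact hx
    have hs : s ≠ ⊥ := by
      intro h0
      have : ({x} : Set ℕ) = ∅ := congrArg Subtype.val h0
      exact Set.singleton_ne_empty x this
    have : s = a := ((h.le_iff).1 hle).resolve_left hs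
    exact ⟨x, by rw [← this]⟩
  · rintro ⟨x, hx⟩
    refine ⟨?_, ?_⟩
    · intro h0
      rw [h0] at hx
      exact Set.singleton_ne_empty x hx.symm
    · intro b hb
      have h1 : (b : Set ℕ) ⊆ {x} := by rw [← hx]; exact hb.le
      rcases Set.subset_singleton_iff_eq.1 h1 with h2 | h2
      · exact Subtype.ext h2
      · exfalso
        apply hb.ne
        exact Subtype.ext (by rw [h2, hx])

section fold

variable (fs fi : ℕ → ℕ → ℕ) (bot : ℕ)

def stepA (β : List ℕ) (o : Option (ℕ × ℕ)) (l : ℕ) : Option (ℕ × ℕ) :=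
  o.bind (fun p => bif (decide (((β[l]?).getD 0).unpair.2 = 1)) && (decide (fi l p.1 = bot))
    then some (fs l p.1, p.2 + 1) else none)

def foldA (β L : List ℕ) : Option (ℕ × ℕ) := L.foldl (stepA fs fi bot β) (some (bot, 0))

lemma foldA_append (β L : List ℕ) (l : ℕ) :
    foldA fs fi bot β (L ++ [l]) = stepA fs fi bot β (foldA fs fi bot β L) l := by
  simp [foldA]

lemma foldA_computable (hs : Computable₂ fs) (hi : Computable₂ fi) :
    Computable (fun q : List ℕ × List ℕ => foldA fs fi bot q.1 q.2) := by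
  have hstep : Computable (fun q : (List ℕ × List ℕ) × (Option (ℕ × ℕ) × ℕ) =>
      stepA fs fi bot q.1.1 q.2.1 q.2.2) := by
    have h1 : Computable (fun q : (List ℕ × List ℕ) × (Option (ℕ × ℕ) × ℕ) => q.2.1) :=
      Computable.fst.comp Computable.snd
    have h2 : Computable₂ (fun (q : (List ℕ × List ℕ) × (Option (ℕ × ℕ) × ℕ)) (p : ℕ × ℕ) =>
        bif (decide (((q.1.1[q.2.2]?).getD 0).unpair.2 = 1)) && (decide (fi q.2.2 p.1 = bot))
        then some (fs q.2.2 p.1, p.2 + 1) else none) := by
      have k1 : Computable (fun w : ((List ℕ × List ℕ) × (Option (ℕ × ℕ) × ℕ)) × (ℕ × ℕ) =>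
          w.1.2.2) := Computable.snd.comp (Computable.snd.comp Computable.fst)
      have k2 : Computable (fun w : ((List ℕ × List ℕ) × (Option (ℕ × ℕ) × ℕ)) × (ℕ × ℕ) =>
          w.2.1) := Computable.fst.comp Computable.snd
      have k3 : Computable (fun w : ((List ℕ × List ℕ) × (Option (ℕ × ℕ) × ℕ)) × (ℕ × ℕ) =>
          w.2.2 + 1) := Computable.succ.comp (Computable.snd.comp Computable.snd)
      have k4 : Computable (fun w : ((List ℕ × List ℕ) × (Option (ℕ × ℕ) × ℕ)) × (ℕ × ℕ) =>
          w.1.1.1) := Computable.fst.comp (Computable.fst.comp Computable.fst)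
      have k5 : Computable (fun w : ((List ℕ × List ℕ) × (Option (ℕ × ℕ) × ℕ)) × (ℕ × ℕ) =>
          (w.1.1.1[w.1.2.2]?).getD 0) :=
        Computable.option_getD (Computable.list_getElem?.comp k4 k1) (Computable.const 0)
      have e1 : Computable (fun n : ℕ => decide (n.unpair.2 = 1)) :=
        (PrimrecPred.decide (p := fun n : ℕ => n.unpair.2 = 1) (Primrec.eq.comp
          (Primrec.snd.comp Primrec.unpair) (Primrec.const 1))).to_comp
      have e2 : Computable (fun n : ℕ => decide (n = bot)) :=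
        (PrimrecPred.decide (p := fun n : ℕ => n = bot) (Primrec.eq.comp Primrec.id
          (Primrec.const bot))).to_comp
      have k6 := e1.comp k5
      have k7 := e2.comp (hi.comp k1 k2)
      have k8 : Computable (fun w : ((List ℕ × List ℕ) × (Option (ℕ × ℕ) × ℕ)) × (ℕ × ℕ) =>
          some (fs w.1.2.2 w.2.1, w.2.2 + 1)) :=
        Computable.option_some.comp ((hs.comp k1 k2).pair k3)
      exact Computable.cond (Primrec.and.to_comp.comp k6 k7) k8 (Computable.const none)
    exact Computable.option_bind h1 h2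
  exact computable_foldl Computable.snd (Computable.const (some (bot, 0))) hstep

end fold

section FCcopy

variable (c : ComputableCopy FCA) (fs fi : ℕ → ℕ → ℕ) (bot : ℕ)

lemma foldA_sound (hs : ∀ a b, a ∈ c.dom → b ∈ c.dom →
      fs a b ∈ c.dom ∧ cv c (fs a b) = cv c a ⊔ cv c b)
    (hi : ∀ a b, a ∈ c.dom → b ∈ c.dom →
      fi a b ∈ c.dom ∧ cv c (fi a b) = cv c a ⊓ cv c b)
    (hb : bot ∈ c.dom ∧ cv c bot = ⊥) (F : ℕ → ℕ) (n : ℕ) (L : List ℕ) (y m : ℕ)
    (h : foldA fs fi bot (pre (join F (At c)) n) L = some (y, m)) :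
    y ∈ c.dom ∧ ((cv c y : FCA) : Set ℕ).Finite ∧ ((cv c y : FCA) : Set ℕ).ncard = m := by
  induction L using List.reverseRecOn generalizing y m with
  | nil =>
    simp only [foldA, List.foldl_nil, Option.some.injEq, Prod.mk.injEq] at h
    obtain ⟨rfl, rfl⟩ := h
    refine ⟨hb.1, ?_, ?_⟩
    · rw [hb.2]; exact Set.finite_empty
    · rw [hb.2]; exact Set.ncard_empty ℕ
  | append_singleton L l ih =>
    rw [foldA_append] at h
    unfold stepA at h
    rw [Option.bind_eq_some_iff] at h
    obtain ⟨⟨y', m'⟩, h1, h2⟩ := h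
    obtain ⟨hy', hfin, hcard⟩ := ih _ _ h1
    by_cases hc : (decide ((((pre (join F (At c)) n)[l]?).getD 0).unpair.2 = 1) &&
        decide (fi l y' = bot)) = true
    · rw [hc, cond_true] at h2
      simp only [Option.some.injEq, Prod.mk.injEq] at h2
      obtain ⟨rfl, rfl⟩ := h2
      rw [Bool.and_eq_true, decide_eq_true_eq, decide_eq_true_eq] at hc
      obtain ⟨hc1, hc2⟩ := hc
      rw [pre_getElem?] at hc1
      by_cases hl : l < n
      · rw [if_pos hl] at hc1
        simp only [Option.getD_some, join, Nat.unpair_pair] at hc1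
        unfold At at hc1
        by_cases hat : l ∈ c.dom ∧ IsAtom (cv c l)
        · obtain ⟨hld, hat⟩ := hat
          rw [isAtom_FCA] at hat
          obtain ⟨x, hx⟩ := hat
          have h3 := hs l y' hld hy'
          have h4 := (hi l y' hld hy').2
          rw [hc2, hb.2] at h4
          have h5 : x ∉ ((cv c y' : FCA) : Set ℕ) := by
            intro hxy
            have : x ∈ ((cv c l ⊓ cv c y' : FCA) : Set ℕ) := by
              refine ⟨?_, hxy⟩
              rw [hx]; exact Set.mem_singleton x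
            rw [← h4] at this
            exact this
          have h6 : ((cv c (fs l y') : FCA) : Set ℕ) = insert x ((cv c y' : FCA) : Set ℕ) := by
            rw [h3.2]
            show ((cv c l : FCA) : Set ℕ) ∪ ((cv c y' : FCA) : Set ℕ) = _
            rw [hx, Set.singleton_union]
          refine ⟨h3.1, ?_, ?_⟩
          · rw [h6]; exact hfin.insert x
          · rw [h6, Set.ncard_insert_of_notMem h5 hfin, hcard]
        · rw [if_neg hat] at hc1; omega
      · rw [if_neg hl] at hc1
        simp at hc1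
    · rw [Bool.not_eq_true] at hc
      rw [hc, cond_false] at h2
      simp at h2

lemma foldA_complete (hs : ∀ a b, a ∈ c.dom → b ∈ c.dom →
      fs a b ∈ c.dom ∧ cv c (fs a b) = cv c a ⊔ cv c b)
    (hi : ∀ a b, a ∈ c.dom → b ∈ c.dom →
      fi a b ∈ c.dom ∧ cv c (fi a b) = cv c a ⊓ cv c b)
    (hb : bot ∈ c.dom ∧ cv c bot = ⊥) (F : ℕ → ℕ) (S : Finset ℕ) :
    ∀ y, y ∈ c.dom → ((cv c y : FCA) : Set ℕ) = (S : Set ℕ) →
      ∃ N L, ∀ n, N ≤ n → foldA fs fi bot (pre (join F (At c)) n) L = some (y, S.card) := by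
  induction S using Finset.induction_on with
  | empty =>
    intro y hy hcv
    refine ⟨0, [], fun n _ => ?_⟩
    have : y = bot := by
      apply cv_inj c hy hb.1
      rw [hb.2]
      apply Subtype.ext
      rw [hcv]; simp
    subst this
    rfl
  | insert x S hx ih =>
    intro y hy hcv
    obtain ⟨y', hy', hcv'⟩ := cv_surj c (⟨(S : Set ℕ), Or.inl S.finite_toSet⟩ : FCA)
    obtain ⟨l, hl, hcl⟩ := cv_surj c (⟨{x}, Or.inl (Set.finite_singleton x)⟩ : FCA)
    obtain ⟨N, L, hNL⟩ := ih y' hy' (by rw [hcv'])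
    refine ⟨max N (l+1), L ++ [l], fun n hn => ?_⟩
    rw [foldA_append, hNL n (le_trans (le_max_left _ _) hn)]
    have hln : l < n := lt_of_lt_of_le (Nat.lt_succ_self l) (le_trans (le_max_right _ _) hn)
    have h1 : At c l = 1 := by
      unfold At
      rw [if_pos]
      refine ⟨hl, ?_⟩
      rw [isAtom_FCA]
      exact ⟨x, by rw [hcl]⟩
    have h2 : fi l y' = bot := by
      apply cv_inj c (hi l y' hl hy').1 hb.1
      rw [(hi l y' hl hy').2, hb.2, hcl, hcv']
      apply Subtype.ext
      show ({x} : Set ℕ) ∩ (S : Set ℕ) = ∅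
      rw [Set.singleton_inter_eq_empty]
      exact fun h => hx (Finset.mem_coe.1 h)
    have h3 : fs l y' = y := by
      apply cv_inj c (hs l y' hl hy').1 hy
      rw [(hs l y' hl hy').2, hcl, hcv']
      apply Subtype.ext
      rw [hcv]
      show ({x} : Set ℕ) ∪ (S : Set ℕ) = _
      rw [Finset.coe_insert, Set.singleton_union]
    unfold stepA
    rw [Option.bind_some, pre_getElem?, if_pos hln]
    simp only [Option.getD_some, join, Nat.unpair_pair, h1, h2, h3, decide_true, Bool.and_self,
      cond_true, Finset.card_insert_of_notMem hx]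

end FCcopy


/-! the relation -/

/-- the relation: below `⊥` it codes the atoms, below `⊤` it codes the graph of `G` through the
sizes of the finite elements -/
def RG (G : ℕ → ℕ) (a b : FCA) : Prop :=
  (a = ⊥ ∧ IsAtom b) ∨
    (a = ⊤ ∧ (b : Set ℕ).Finite ∧
      G (b : Set ℕ).ncard.unpair.1 = (b : Set ℕ).ncard.unpair.2)

lemma bot_ne_top_FCA : (⊥ : FCA) ≠ ⊤ := by
  intro h
  have : (∅ : Set ℕ) = Set.univ := congrArg Subtype.val h
  exact Set.empty_ne_univ this

lemma FCA_fin_or (a : FCA) : (a : Set ℕ).Finite ∨ ((aᶜ : FCA) : Set ℕ).Finite := a.2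

lemma FCA_not_both (a : FCA) (h1 : (a : Set ℕ).Finite) (h2 : ((aᶜ : FCA) : Set ℕ).Finite) :
    False := by
  have h3 : (Set.univ : Set ℕ) ⊆ (a : Set ℕ) ∪ ((aᶜ : FCA) : Set ℕ) := by
    intro x _
    by_cases h : x ∈ (a : Set ℕ)
    · exact Or.inl h
    · exact Or.inr h
  exact Set.infinite_univ ((h1.union h2).subset h3)

lemma unpair1_c : Computable (fun n : ℕ => n.unpair.1) := Computable.fst.comp Computable.unpair
lemma unpair2_c : Computable (fun n : ℕ => n.unpair.2) := Computable.snd.comp Computable.unpair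

lemma decEq_c {α : Type} [Primcodable α] {f g : α → ℕ} (hf : Computable f) (hg : Computable g) :
    Computable (fun a => decide (f a = g a)) := by
  have h : Primrec (fun p : ℕ × ℕ => decide (p.1 = p.2)) :=
    (PrimrecPred.decide (p := fun p : ℕ × ℕ => p.1 = p.2)
      (Primrec.eq.comp Primrec.fst Primrec.snd))
  exact h.to_comp.comp (hf.pair hg)


def outA (fc : ℕ → ℕ) (β : List ℕ) (y : ℕ) (q : ℕ × ℕ) : Option ℕ :=
  bif decide (q.1 = y) then
    (β[q.2.unpair.1]?).map (fun v => bif decide (v.unpair.1 = q.2.unpair.2) then 1 else 0)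
  else (bif decide (q.1 = fc y) then some 0 else none)

def LL (w : ℕ) : List ℕ := (Encodable.decode (α := List ℕ) w).getD []

def pA (fs fi : ℕ → ℕ → ℕ) (fc : ℕ → ℕ) (bot top : ℕ) (din : ℕ → Bool)
    (β : List ℕ) (z w : ℕ) : Option ℕ :=
  bif din z.unpair.1 && din z.unpair.2 then
    (bif decide (z.unpair.1 = bot) then (β[z.unpair.2]?).map (fun v => v.unpair.2)
     else (bif decide (z.unpair.1 = top) then
      (foldA fs fi bot β (LL w)).bind (outA fc β z.unpair.2)
      else some 0))
  else some 0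

lemma LL_c : Computable LL := Computable.option_getD Computable.decode (Computable.const [])

lemma LL_encode (L : List ℕ) : LL (Encodable.encode L) = L := by simp [LL]

attribute [irreducible] LL

lemma outA_c {fc : ℕ → ℕ} (hfc : Computable fc) :
    Computable (fun q : (List ℕ × ℕ) × (ℕ × ℕ) => outA fc q.1.1 q.1.2 q.2) := by
  have r1 : Computable (fun w : (List ℕ × ℕ) × (ℕ × ℕ) => w.2.1) :=
    Computable.fst.comp Computable.snd
  have r2 : Computable (fun w : (List ℕ × ℕ) × (ℕ × ℕ) => w.2.2) :=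
    Computable.snd.comp Computable.snd
  have zz : Computable (fun w : (List ℕ × ℕ) × (ℕ × ℕ) => w.1.2) :=
    Computable.snd.comp Computable.fst
  have bb : Computable (fun w : (List ℕ × ℕ) × (ℕ × ℕ) => w.1.1) :=
    Computable.fst.comp Computable.fst
  have m1 : Computable₂ (fun (w : (List ℕ × ℕ) × (ℕ × ℕ)) (v : ℕ) =>
      bif decide (v.unpair.1 = w.2.2.unpair.2) then 1 else 0) :=
    Computable.cond (decEq_c (unpair1_c.comp Computable.snd)
      ((unpair2_c.comp r2).comp Computable.fst)) (Computable.const 1) (Computable.const 0)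
  have m2 : Computable (fun (w : (List ℕ × ℕ) × (ℕ × ℕ)) => (w.1.1[w.2.2.unpair.1]?).map
      (fun v => bif decide (v.unpair.1 = w.2.2.unpair.2) then 1 else 0)) :=
    Computable.option_map (Computable.list_getElem?.comp bb (unpair1_c.comp r2)) m1
  have m3 : Computable (fun (w : (List ℕ × ℕ) × (ℕ × ℕ)) =>
      (bif decide (w.2.1 = fc w.1.2) then some 0 else none : Option ℕ)) :=
    Computable.cond (decEq_c r1 (hfc.comp zz)) (Computable.const (some 0))
        (Computable.const none)
  exact Computable.cond (decEq_c r1 zz) m2 m3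

lemma foldLL_c {fs fi : ℕ → ℕ → ℕ} (bot : ℕ)
    (hfs : Computable₂ fs) (hfi : Computable₂ fi) :
    Computable (fun q : (List ℕ × ℕ) × ℕ => foldA fs fi bot q.1.1 (LL q.2)) := by
  have hβ : Computable (fun q : (List ℕ × ℕ) × ℕ => q.1.1) :=
    Computable.fst.comp Computable.fst
  have h2 : Computable (fun q : (List ℕ × ℕ) × ℕ => LL q.2) := LL_c.comp Computable.snd
  have h3 := hβ.pair h2
  have h4 := foldA_computable fs fi bot hfs hfi
  have h5 := h4.comp h3
  exact h5

lemma outAq_c {fc : ℕ → ℕ} (hfc : Computable fc) :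
    Computable₂ (fun (q : (List ℕ × ℕ) × ℕ) (r : ℕ × ℕ) =>
      outA fc q.1.1 q.1.2.unpair.2 r) := by
  have hz2 : Computable (fun q : ((List ℕ × ℕ) × ℕ) × (ℕ × ℕ) => q.1.1.2.unpair.2) :=
    unpair2_c.comp (Computable.snd.comp (Computable.fst.comp Computable.fst))
  have hβ : Computable (fun q : ((List ℕ × ℕ) × ℕ) × (ℕ × ℕ) => q.1.1.1) :=
    Computable.fst.comp (Computable.fst.comp Computable.fst)
  have h2 := (hβ.pair hz2).pair
    (Computable.snd : Computable (fun q : ((List ℕ × ℕ) × ℕ) × (ℕ × ℕ) => q.2))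
  have h3 := (outA_c hfc).comp h2
  exact h3

lemma pA_c {fs fi : ℕ → ℕ → ℕ} {fc : ℕ → ℕ} (bot top : ℕ) {din : ℕ → Bool}
    (hfs : Computable₂ fs) (hfi : Computable₂ fi) (hfc : Computable fc) (hd : Computable din) :
    Computable (fun q : (List ℕ × ℕ) × ℕ => pA fs fi fc bot top din q.1.1 q.1.2 q.2) := by
  have hz1 : Computable (fun q : (List ℕ × ℕ) × ℕ => q.1.2.unpair.1) :=
    unpair1_c.comp (Computable.snd.comp Computable.fst)
  have hz2 : Computable (fun q : (List ℕ × ℕ) × ℕ => q.1.2.unpair.2) :=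
    unpair2_c.comp (Computable.snd.comp Computable.fst)
  have hβ : Computable (fun q : (List ℕ × ℕ) × ℕ => q.1.1) :=
    Computable.fst.comp Computable.fst
  have hfold := foldLL_c bot hfs hfi
  have hg : Computable (fun q : (List ℕ × ℕ) × ℕ => q.1.1[q.1.2.unpair.2]?) :=
    Computable.list_getElem?.comp hβ hz2
  have hu : Computable₂ (fun (_ : (List ℕ × ℕ) × ℕ) (v : ℕ) => v.unpair.2) :=
    unpair2_c.comp Computable.snd
  have hcase1 := Computable.option_map hg hu
  have m3 := outAq_c hfc
  have hcase2 := Computable.option_bind hfold m3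
  have e1 : Computable (fun q : (List ℕ × ℕ) × ℕ => decide (q.1.2.unpair.1 = top)) :=
    decEq_c hz1 (Computable.const top)
  have e2 : Computable (fun q : (List ℕ × ℕ) × ℕ => decide (q.1.2.unpair.1 = bot)) :=
    decEq_c hz1 (Computable.const bot)
  have e3 : Computable (fun q : (List ℕ × ℕ) × ℕ => (din q.1.2.unpair.1 && din q.1.2.unpair.2)) :=
    Primrec.and.to_comp.comp (hd.comp hz1) (hd.comp hz2)
  have h3 := Computable.cond e1 hcase2 (Computable.const (some 0))
  have h4 := Computable.cond e2 hcase1 h3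
  have h5 := Computable.cond e3 h4 (Computable.const (some 0))
  exact h5

section pAlem

variable (fs fi : ℕ → ℕ → ℕ) (fc : ℕ → ℕ) (bot top : ℕ) (din : ℕ → Bool)
    (β : List ℕ) (z w : ℕ)

lemma pA_bot (h1 : din z.unpair.1 = true) (h2 : din z.unpair.2 = true)
    (h : z.unpair.1 = bot) : pA fs fi fc bot top din β z w =
      (β[z.unpair.2]?).map (fun v => v.unpair.2) := by
  unfold pA
  rw [h1, h2, decide_eq_true h]; rfl

lemma pA_top (h1 : din z.unpair.1 = true) (h2 : din z.unpair.2 = true)
    (h : ¬ z.unpair.1 = bot) (h' : z.unpair.1 = top) : pA fs fi fc bot top din β z w =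
      (foldA fs fi bot β (LL w)).bind (outA fc β z.unpair.2) := by
  unfold pA
  rw [h1, h2, decide_eq_false h, decide_eq_true h']; rfl

lemma pA_other (h1 : din z.unpair.1 = true) (h2 : din z.unpair.2 = true)
    (h : ¬ z.unpair.1 = bot) (h' : ¬ z.unpair.1 = top) : pA fs fi fc bot top din β z w =
      some 0 := by
  unfold pA
  rw [h1, h2, decide_eq_false h, decide_eq_false h']; rfl

lemma pA_out (h1 : ¬ (din z.unpair.1 = true ∧ din z.unpair.2 = true)) :
    pA fs fi fc bot top din β z w = some 0 := by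
  unfold pA
  rw [← Bool.and_eq_true, Bool.not_eq_true] at h1
  rw [h1]; rfl

lemma outA_eq (y : ℕ) (q : ℕ × ℕ) (h : q.1 = y) : outA fc β y q =
    (β[q.2.unpair.1]?).map (fun v => bif decide (v.unpair.1 = q.2.unpair.2) then 1 else 0) := by
  unfold outA
  rw [decide_eq_true h]; rfl

lemma outA_fc (y : ℕ) (q : ℕ × ℕ) (h : ¬ q.1 = y) (h' : q.1 = fc y) : outA fc β y q =
    some 0 := by
  unfold outA
  rw [decide_eq_false h, decide_eq_true h']; rfl

lemma outA_none (y : ℕ) (q : ℕ × ℕ) (h : ¬ q.1 = y) (h' : ¬ q.1 = fc y) : outA fc β y q =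
    none := by
  unfold outA
  rw [decide_eq_false h, decide_eq_false h']; rfl

end pAlem

theorem image_TR (G : ℕ → ℕ) (c : ComputableCopy FCA) :
    TR (relImage c (RG G)) (join G (At c)) := by
  classical
  obtain ⟨fs, hfs, hs⟩ := cv_sup c
  obtain ⟨fi, hfi, hi⟩ := cv_inf c
  obtain ⟨fc, hfc, hc⟩ := cv_compl c
  obtain ⟨bot, hb⟩ := cv_surj c ⊥
  obtain ⟨top, ht⟩ := cv_surj c ⊤
  have hdin := c.dom_computable.decide
  have hdm : ∀ n, n ∈ c.dom → decide (n ∈ c.dom) = true := fun n h => decide_eq_true h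
  have hdn : ∀ n, decide (n ∈ c.dom) = true → n ∈ c.dom := fun n h => of_decide_eq_true h
  refine cert (TR.refl _) (pA fs fi fc bot top (fun n => decide (n ∈ c.dom))) ?_ _ ?_ ?_
  · exact pA_c bot top hfs hfi hfc hdin
  · -- existence of certificates
    intro z
    by_cases hd : z.unpair.1 ∈ c.dom ∧ z.unpair.2 ∈ c.dom
    · by_cases h1 : z.unpair.1 = bot
      · refine ⟨z.unpair.2 + 1, 0, ?_⟩
        rw [pA_bot _ _ _ _ _ _ _ _ _ (hdm _ hd.1) (hdm _ hd.2) h1, pre_getElem?]
        simp
      · by_cases h2 : z.unpair.1 = top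
        · rcases FCA_fin_or (cv c z.unpair.2) with hf | hf
          · obtain ⟨N, Lw, hN⟩ := foldA_complete c fs fi bot hs hi hb G hf.toFinset
              z.unpair.2 hd.2 (by simp)
            refine ⟨max N (hf.toFinset.card.unpair.1 + 1), Encodable.encode Lw, ?_⟩
            have h3 := hN (max N (hf.toFinset.card.unpair.1 + 1)) (le_max_left _ _)
            have h4 : hf.toFinset.card.unpair.1 < max N (hf.toFinset.card.unpair.1 + 1) :=
              lt_of_lt_of_le (Nat.lt_succ_self _) (le_max_right _ _)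
            rw [pA_top _ _ _ _ _ _ _ _ _ (hdm _ hd.1) (hdm _ hd.2) h1 h2]
            have hLL : LL (Encodable.encode Lw) = Lw := LL_encode Lw
            rw [hLL, h3, Option.bind_some, outA_eq fc _ z.unpair.2 (z.unpair.2, hf.toFinset.card) rfl,
              pre_getElem?, if_pos h4]
            simp
          · have h5 := hc z.unpair.2 hd.2
            obtain ⟨N, Lw, hN⟩ := foldA_complete c fs fi bot hs hi hb G hf.toFinset
              (fc z.unpair.2) h5.1 (by rw [h5.2]; simp)
            refine ⟨N, Encodable.encode Lw, ?_⟩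
            have h3 := hN N (le_refl _)
            have h6 : ¬ (fc z.unpair.2 = z.unpair.2) := by
              intro h7
              have h8 := h5.2
              rw [h7] at h8
              have hf2 := hf
              rw [← h8] at hf2
              exact FCA_not_both _ hf2 hf
            rw [pA_top _ _ _ _ _ _ _ _ _ (hdm _ hd.1) (hdm _ hd.2) h1 h2]
            have hLL : LL (Encodable.encode Lw) = Lw := LL_encode Lw
            rw [hLL, h3, Option.bind_some,
              outA_fc fc _ z.unpair.2 (fc z.unpair.2, hf.toFinset.card) h6 rfl]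
            simp
        · refine ⟨0, 0, ?_⟩
          rw [pA_other _ _ _ _ _ _ _ _ _ (hdm _ hd.1) (hdm _ hd.2) h1 h2]
          simp
    · refine ⟨0, 0, ?_⟩
      rw [pA_out _ _ _ _ _ _ _ _ _ (fun h => hd ⟨hdn _ h.1, hdn _ h.2⟩)]
      simp
  · -- soundness
    intro z n w v hv
    have hz : z = Nat.pair z.unpair.1 z.unpair.2 := (Nat.pair_unpair z).symm
    rw [hz, relImage_eq]
    by_cases hd : z.unpair.1 ∈ c.dom ∧ z.unpair.2 ∈ c.dom
    · by_cases h1 : z.unpair.1 = bot
      · rw [pA_bot _ _ _ _ _ _ _ _ _ (hdm _ hd.1) (hdm _ hd.2) h1, pre_getElem?] at hv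
        by_cases h2 : z.unpair.2 < n
        · rw [if_pos h2] at hv
          simp only [join, Option.map_some, Nat.unpair_pair, Option.some.injEq] at hv
          rw [← hv, h1]
          unfold At
          apply if_congr _ rfl rfl
          rw [hb.2]
          constructor
          · rintro ⟨a1, a2⟩
            exact ⟨hb.1, a1, Or.inl ⟨rfl, a2⟩⟩
          · rintro ⟨_, a1, a2⟩
            refine ⟨a1, ?_⟩
            rcases a2 with a2 | a2
            · exact a2.2
            · exact absurd a2.1 bot_ne_top_FCA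
        · rw [if_neg h2] at hv; simp at hv
      · by_cases h2 : z.unpair.1 = top
        · rw [pA_top _ _ _ _ _ _ _ _ _ (hdm _ hd.1) (hdm _ hd.2) h1 h2] at hv
          rw [Option.bind_eq_some_iff] at hv
          obtain ⟨⟨q1, q2⟩, hq, hv⟩ := hv
          obtain ⟨hq1, hq2, hq3⟩ := foldA_sound c fs fi bot hs hi hb _ _ _ _ _ hq
          by_cases h3 : q1 = z.unpair.2
          · rw [outA_eq _ _ _ _ h3, pre_getElem?] at hv
            by_cases h4 : q2.unpair.1 < n
            · rw [if_pos h4] at hv
              simp only [join, Option.map_some, Nat.unpair_pair, Option.some.injEq] at hv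
              rw [← hv, h2, ht.2]
              subst h3
              have hiff : (top ∈ c.dom ∧ z.unpair.2 ∈ c.dom ∧ RG G ⊤ (cv c z.unpair.2)) ↔
                  G q2.unpair.1 = q2.unpair.2 := by
                constructor
                · rintro ⟨_, _, a2⟩
                  rcases a2 with a2 | a2
                  · exact absurd a2.1 bot_ne_top_FCA.symm
                  · rw [hq3] at a2; exact a2.2.2
                · intro a
                  refine ⟨ht.1, hd.2, Or.inr ⟨rfl, hq2, ?_⟩⟩
                  rw [hq3]; exact a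
              by_cases hG : G q2.unpair.1 = q2.unpair.2
              · rw [if_pos (hiff.2 hG), decide_eq_true hG]; rfl
              · rw [if_neg (fun h => hG (hiff.1 h)), decide_eq_false hG]; rfl
            · rw [if_neg h4] at hv; simp at hv
          · by_cases h4 : q1 = fc z.unpair.2
            · rw [outA_fc _ _ _ _ h3 h4] at hv
              have hv' : (0 : ℕ) = v := Option.some.inj hv
              rw [← hv', if_neg]
              rintro ⟨_, _, a2⟩
              rw [h2, ht.2] at a2
              rcases a2 with a2 | a2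
              · exact bot_ne_top_FCA.symm a2.1
              · apply FCA_not_both _ a2.2.1
                rw [← (hc _ hd.2).2, ← h4]; exact hq2
            · rw [outA_none _ _ _ _ h3 h4] at hv
              simp at hv
        · rw [pA_other _ _ _ _ _ _ _ _ _ (hdm _ hd.1) (hdm _ hd.2) h1 h2] at hv
          have hv' : (0 : ℕ) = v := Option.some.inj hv
          rw [← hv', if_neg]
          rintro ⟨_, _, a2⟩
          rcases a2 with a2 | a2
          · exact h1 (cv_inj c hd.1 hb.1 (by rw [a2.1, hb.2]))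
          · exact h2 (cv_inj c hd.1 ht.1 (by rw [a2.1, ht.2]))
    · rw [pA_out _ _ _ _ _ _ _ _ _ (fun h => hd ⟨hdn _ h.1, hdn _ h.2⟩)] at hv
      have hv' : (0 : ℕ) = v := Option.some.inj hv
      rw [← hv', if_neg]
      rintro ⟨a1, a2, _⟩
      exact hd ⟨a1, a2⟩

end Pool.Agent.Helper743
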