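import Pool.Agent.Helper743.BAProof

set_option autoImplicit false

namespace Pool.Agent.Helper743

open Nat.Partrec (Code)

theorem At_TR_image (G : ℕ → ℕ) (c : ComputableCopy FCA) :
    TR (At c) (relImage c (RG G)) := by
  classical
  obtain ⟨bot, hb⟩ := cv_surj c ⊥
  have h1 : Computable (fun y : ℕ => Nat.pair bot y) :=
    Primrec₂.natPair.to_comp.comp (Computable.const bot) Computable.id
  have h2 := (TR.refl (relImage c (RG G))).comp
    (Computable.recT (O := {(relImage c (RG G) : ℕ →. ℕ)}) h1)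
  have h3 : (fun y => relImage c (RG G) (Nat.pair bot y)) = At c := by
    funext y
    rw [relImage_eq]
    unfold At
    apply if_congr _ rfl rfl
    rw [hb.2]
    constructor
    · rintro ⟨_, a1, a2⟩
      refine ⟨a1, ?_⟩
      rcases a2 with a2 | a2
      · exact a2.2
      · exact absurd a2.1 bot_ne_top_FCA
    · rintro ⟨a1, a2⟩
      exact ⟨hb.1, a1, Or.inl ⟨rfl, a2⟩⟩
  rw [h3] at h2
  exact h2

/-- certificate for computing `G` -/
def pB (fs fi : ℕ → ℕ → ℕ) (bot top : ℕ) (β : List ℕ) (x w : ℕ) : Option ℕ :=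
  (foldA fs fi bot β (LL w.unpair.1)).bind (fun q =>
    bif decide (q.2 = Nat.pair x w.unpair.2) &&
      decide (((β[Nat.pair top q.1]?).getD 0).unpair.1 = 1) then some w.unpair.2 else none)

lemma foldLL1_c {fs fi : ℕ → ℕ → ℕ} (bot : ℕ)
    (hfs : Computable₂ fs) (hfi : Computable₂ fi) :
    Computable (fun q : (List ℕ × ℕ) × ℕ => foldA fs fi bot q.1.1 (LL q.2.unpair.1)) := by
  have hβ : Computable (fun q : (List ℕ × ℕ) × ℕ => q.1) := Computable.fst
  have h2 : Computable (fun q : (List ℕ × ℕ) × ℕ => q.2.unpair.1) :=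
    unpair1_c.comp Computable.snd
  have h3 := hβ.pair h2
  have h4 := foldLL_c bot hfs hfi
  have h5 := h4.comp h3
  exact h5

lemma pB_c {fs fi : ℕ → ℕ → ℕ} (bot top : ℕ)
    (hfs : Computable₂ fs) (hfi : Computable₂ fi) :
    Computable (fun q : (List ℕ × ℕ) × ℕ => pB fs fi bot top q.1.1 q.1.2 q.2) := by
  have h1 := foldLL1_c bot hfs hfi
  have x1 : Computable (fun q : ((List ℕ × ℕ) × ℕ) × (ℕ × ℕ) => q.1.1.2) :=
    Computable.snd.comp (Computable.fst.comp Computable.fst)
  have x2 : Computable (fun q : ((List ℕ × ℕ) × ℕ) × (ℕ × ℕ) => q.1.2.unpair.2) :=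
    unpair2_c.comp (Computable.snd.comp Computable.fst)
  have x3 : Computable (fun q : ((List ℕ × ℕ) × ℕ) × (ℕ × ℕ) => q.2.2) :=
    Computable.snd.comp Computable.snd
  have x4 : Computable (fun q : ((List ℕ × ℕ) × ℕ) × (ℕ × ℕ) => q.2.1) :=
    Computable.fst.comp Computable.snd
  have x5 : Computable (fun q : ((List ℕ × ℕ) × ℕ) × (ℕ × ℕ) => q.1.1.1) :=
    Computable.fst.comp (Computable.fst.comp Computable.fst)
  have x6 : Computable (fun q : ((List ℕ × ℕ) × ℕ) × (ℕ × ℕ) => Nat.pair q.1.1.2 q.1.2.unpair.2) :=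
    Primrec₂.natPair.to_comp.comp x1 x2
  have x7 : Computable (fun q : ((List ℕ × ℕ) × ℕ) × (ℕ × ℕ) => Nat.pair top q.2.1) :=
    Primrec₂.natPair.to_comp.comp (Computable.const top) x4
  have x8 : Computable (fun q : ((List ℕ × ℕ) × ℕ) × (ℕ × ℕ) =>
      q.1.1.1[Nat.pair top q.2.1]?) := Computable.list_getElem?.comp x5 x7
  have x9 : Computable (fun q : ((List ℕ × ℕ) × ℕ) × (ℕ × ℕ) =>
      ((q.1.1.1[Nat.pair top q.2.1]?).getD 0)) := Computable.option_getD x8 (Computable.const 0)
  have x10 := unpair1_c.comp x9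
  have e1 := decEq_c x3 x6
  have e2 := decEq_c x10 (Computable.const 1)
  have e3 := Primrec.and.to_comp.comp e1 e2
  have x11 := Computable.option_some.comp x2
  have x12 := Computable.cond e3 x11 (Computable.const none)
  have h2 := Computable.option_bind h1 x12.to₂
  exact h2

lemma pB_some {fs fi : ℕ → ℕ → ℕ} {bot top : ℕ} {β : List ℕ} {x w v : ℕ}
    (h : pB fs fi bot top β x w = some v) : ∃ y, foldA fs fi bot β (LL w.unpair.1) =
      some (y, Nat.pair x v) ∧ ((β[Nat.pair top y]?).getD 0).unpair.1 = 1 := by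
  unfold pB at h
  rw [Option.bind_eq_some_iff] at h
  obtain ⟨⟨q1, q2⟩, hq, hv⟩ := h
  simp only at hv
  by_cases hc : (decide (q2 = Nat.pair x w.unpair.2) &&
      decide (((β[Nat.pair top q1]?).getD 0).unpair.1 = 1)) = true
  · rw [hc, cond_true] at hv
    have hv' : w.unpair.2 = v := Option.some.inj hv
    rw [Bool.and_eq_true, decide_eq_true_eq, decide_eq_true_eq] at hc
    refine ⟨q1, ?_, hc.2⟩
    rw [hq, hc.1, hv']
  · rw [Bool.not_eq_true] at hc
    rw [hc, cond_false] at hv
    simp at hv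

lemma pB_intro {fs fi : ℕ → ℕ → ℕ} {bot top : ℕ} {β : List ℕ} {x v y : ℕ} {L : List ℕ}
    (h1 : foldA fs fi bot β L = some (y, Nat.pair x v))
    (h2 : ((β[Nat.pair top y]?).getD 0).unpair.1 = 1) :
    pB fs fi bot top β x (Nat.pair (Encodable.encode L) v) = some v := by
  unfold pB
  rw [Nat.unpair_pair]
  simp only
  rw [LL_encode, h1, Option.bind_some]
  simp only
  rw [h2]
  simp

theorem G_TR_image (G : ℕ → ℕ) (c : ComputableCopy FCA) :
    TR G (relImage c (RG G)) := by
  classical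
  obtain ⟨fs, hfs, hs⟩ := cv_sup c
  obtain ⟨fi, hfi, hi⟩ := cv_inf c
  obtain ⟨bot, hb⟩ := cv_surj c ⊥
  obtain ⟨top, ht⟩ := cv_surj c ⊤
  refine TR.trans ?_ (TR_join (TR.refl _) (At_TR_image G c))
  refine cert (TR.refl _) (pB fs fi bot top) (pB_c bot top hfs hfi) _ ?_ ?_
  · intro n
    obtain ⟨y, hy, hcv⟩ := cv_surj c (⟨((Finset.range (Nat.pair n (G n)) : Finset ℕ) : Set ℕ),
      Or.inl (Finset.finite_toSet _)⟩ : FCA)
    have hcv' : ((cv c y : FCA) : Set ℕ) = ((Finset.range (Nat.pair n (G n)) : Finset ℕ) : Set ℕ) := by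
      rw [hcv]
    obtain ⟨N, L, hN⟩ := foldA_complete c fs fi bot hs hi hb (relImage c (RG G)) _ y hy hcv'
    rw [Finset.card_range] at hN
    refine ⟨max N (Nat.pair top y + 1), Nat.pair (Encodable.encode L) (G n), ?_⟩
    rw [pB_intro (hN _ (le_max_left _ _))]
    · rfl
    · rw [pre_getElem?, if_pos (lt_of_lt_of_le (Nat.lt_succ_self _) (le_max_right _ _))]
      simp only [Option.getD_some, join, Nat.unpair_pair]
      rw [relImage_eq, if_pos]
      refine ⟨ht.1, hy, Or.inr ⟨ht.2, ?_, ?_⟩⟩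
      · rw [hcv']; exact Finset.finite_toSet _
      · rw [hcv', Set.ncard_coe_finset, Finset.card_range, Nat.unpair_pair]
  · intro x n w v hv
    obtain ⟨y, h1, h2⟩ := pB_some hv
    obtain ⟨g1, g2, g3⟩ := foldA_sound c fs fi bot hs hi hb _ _ _ _ _ h1
    rw [pre_getElem?] at h2
    by_cases hlt : Nat.pair top y < n
    · rw [if_pos hlt] at h2
      simp only [Option.getD_some, join, Nat.unpair_pair] at h2
      rw [relImage_eq] at h2
      by_cases hR : top ∈ c.dom ∧ y ∈ c.dom ∧ RG G (cv c top) (cv c y)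
      · obtain ⟨_, _, hR⟩ := hR
        rcases hR with hR | hR
        · rw [ht.2] at hR
          exact absurd hR.1 bot_ne_top_FCA.symm
        · have := hR.2.2
          rw [g3, Nat.unpair_pair] at this
          exact this.symm
      · rw [if_neg hR] at h2; omega
    · rw [if_neg hlt] at h2
      simp at h2

/-- image is equivalent to `G` join the atoms -/
theorem join_TR_image (G : ℕ → ℕ) (c : ComputableCopy FCA) :
    TR (join G (At c)) (relImage c (RG G)) := TR_join (G_TR_image G c) (At_TR_image G c)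

end Pool.Agent.Helper743
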