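import Pool.Agent.Helper743.BAProof2

set_option autoImplicit false

namespace Pool.Agent.Helper743

open Nat.Partrec (Code)

section

variable {r : ℕ → ℕ → Prop} [DecidableRel r]

/-- the computable copy attached to a good order -/
noncomputable def mkCopy (hr : GoodOrder r) : ComputableCopy FCA where
  dom := Set.univ
  dom_computable := Computable.computablePred ((Computable.const true).of_eq
    (by intro n; simp))
  e := (Equiv.Set.univ ℕ).trans (ee hr)
  sup_computable := ⟨_, ee_sup hr, fun a b => rfl⟩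
  inf_computable := ⟨_, ee_inf hr, fun a b => rfl⟩
  compl_computable := ⟨_, ee_compl hr, fun a => rfl⟩

lemma cv_mkCopy (hr : GoodOrder r) (n : ℕ) : cv (mkCopy hr) n = ee hr n := by
  rw [cv_mk (mkCopy hr) (show n ∈ (mkCopy hr).dom from Set.mem_univ n)]
  rfl

end

/-- certificate for computing the halting problem from the atoms -/
def pC (fs fi : ℕ → ℕ → ℕ) (fc : ℕ → ℕ) (bot : ℕ) (β : List ℕ) (x w : ℕ) : Option ℕ :=
  (foldA fs fi bot β (LL w.unpair.1)).bind (fun q =>
    bif decide (q.1 = fc (2 ^ w.unpair.2)) && decide (2 * x + 1 < g w.unpair.2)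
    then some (bif decide (∃ u < w.unpair.2, g u = 2 * x + 1) then 1 else 0) else none)

lemma exg_c : Computable (fun q : ℕ × ℕ => decide (∃ u < q.2, g u = 2 * q.1 + 1)) := by
  have h : PrimrecRel (fun (u x : ℕ) => g u = 2 * x + 1) :=
    Primrec.eq.comp (g_primrec.comp Primrec.fst)
      (Primrec.succ.comp (Primrec.nat_mul.comp (Primrec.const 2) Primrec.snd))
  have h2 : PrimrecRel (fun (b x : ℕ) => ∃ u ∈ List.range b, g u = 2 * x + 1) :=
    PrimrecPred.of_eq (h.exists_mem_list.comp (Primrec.list_range.comp Primrec.fst) Primrec.snd)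
      (by intro q; rfl)
  have h3 : PrimrecPred (fun q : ℕ × ℕ => ∃ u < q.2, g u = 2 * q.1 + 1) :=
    (h2.comp Primrec.snd Primrec.fst).of_eq (by intro q; simp [List.mem_range])
  exact h3.decide.to_comp

lemma pC_c {fs fi : ℕ → ℕ → ℕ} {fc : ℕ → ℕ} (bot : ℕ)
    (hfs : Computable₂ fs) (hfi : Computable₂ fi) (hfc : Computable fc) :
    Computable (fun q : (List ℕ × ℕ) × ℕ => pC fs fi fc bot q.1.1 q.1.2 q.2) := by
  have h1 := foldLL1_c bot hfs hfi
  have hpow : Primrec₂ (fun m n : ℕ => m ^ n) := Primrec₂.unpaired'.1 Nat.Primrec.pow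
  have p2 : Primrec (fun n : ℕ => 2 ^ n) := hpow.comp (Primrec.const 2) Primrec.id
  have x1 : Computable (fun q : ((List ℕ × ℕ) × ℕ) × (ℕ × ℕ) => q.1.1.2) :=
    Computable.snd.comp (Computable.fst.comp Computable.fst)
  have x2 : Computable (fun q : ((List ℕ × ℕ) × ℕ) × (ℕ × ℕ) => q.1.2.unpair.2) :=
    unpair2_c.comp (Computable.snd.comp Computable.fst)
  have x4 : Computable (fun q : ((List ℕ × ℕ) × ℕ) × (ℕ × ℕ) => q.2.1) :=
    Computable.fst.comp Computable.snd
  have x5 : Computable (fun q : ((List ℕ × ℕ) × ℕ) × (ℕ × ℕ) => fc (2 ^ q.1.2.unpair.2)) :=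
    hfc.comp (p2.to_comp.comp x2)
  have x6 : Computable (fun q : ((List ℕ × ℕ) × ℕ) × (ℕ × ℕ) =>
      decide (2 * q.1.1.2 + 1 < g q.1.2.unpair.2)) := by
    have k1 : PrimrecRel (fun x s : ℕ => 2 * x + 1 < g s) :=
      Primrec.nat_lt.comp (Primrec.succ.comp (Primrec.nat_mul.comp (Primrec.const 2) Primrec.fst))
        (g_primrec.comp Primrec.snd)
    exact k1.decide.to_comp.comp x1 x2
  have e1 := decEq_c x4 x5
  have e3 := Primrec.and.to_comp.comp e1 x6
  have x7 := exg_c.comp (x1.pair x2)
  have x8 := Computable.cond x7 (Computable.const 1) (Computable.const 0)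
  have x11 := Computable.option_some.comp x8
  have x12 := Computable.cond e3 x11 (Computable.const none)
  have h2 := Computable.option_bind h1 x12.to₂
  exact h2

lemma pC_some {fs fi : ℕ → ℕ → ℕ} {fc : ℕ → ℕ} {bot : ℕ} {β : List ℕ} {x w v : ℕ}
    (h : pC fs fi fc bot β x w = some v) : ∃ m s, foldA fs fi bot β (LL w.unpair.1) =
      some (fc (2 ^ s), m) ∧ 2 * x + 1 < g s ∧
        v = (open Classical in if (∃ u < s, g u = 2 * x + 1) then 1 else 0) := by
  unfold pC at h
  rw [Option.bind_eq_some_iff] at h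
  obtain ⟨⟨q1, q2⟩, hq, hv⟩ := h
  simp only at hv
  by_cases hc : (decide (q1 = fc (2 ^ w.unpair.2)) && decide (2 * x + 1 < g w.unpair.2)) = true
  · rw [hc, cond_true] at hv
    have hv' := Option.some.inj hv
    rw [Bool.and_eq_true, decide_eq_true_eq, decide_eq_true_eq] at hc
    refine ⟨q2, w.unpair.2, ?_, hc.2, ?_⟩
    · rw [hq, hc.1]
    · rw [← hv']
      by_cases he : ∃ u < w.unpair.2, g u = 2 * x + 1
      · rw [if_pos he, decide_eq_true he]; rfl
      · rw [if_neg he, decide_eq_false he]; rfl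
  · rw [Bool.not_eq_true] at hc
    rw [hc, cond_false] at hv
    simp at hv

lemma pC_intro {fs fi : ℕ → ℕ → ℕ} {fc : ℕ → ℕ} {bot : ℕ} {β : List ℕ} {x s m : ℕ} {L : List ℕ}
    (h1 : foldA fs fi bot β L = some (fc (2 ^ s), m)) (h2 : 2 * x + 1 < g s) :
    (pC fs fi fc bot β x (Nat.pair (Encodable.encode L) s)).isSome := by
  unfold pC
  rw [Nat.unpair_pair]
  simp only
  rw [LL_encode, h1, Option.bind_some]
  simp only
  rw [decide_eq_true h2]
  simp

theorem K_TR_At2 : TR K (At (mkCopy good_le')) := by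
  classical
  set c := mkCopy good_le' with hcdef
  obtain ⟨fs, hfs, hs⟩ := cv_sup c
  obtain ⟨fi, hfi, hi⟩ := cv_inf c
  obtain ⟨fc, hfc, hc⟩ := cv_compl c
  obtain ⟨bot, hb⟩ := cv_surj c ⊥
  have hdom : ∀ n, n ∈ c.dom := fun n => Set.mem_univ n
  have hcv : ∀ s, ((cv c (2 ^ s) : FCA) : Set ℕ) = XX le' (2 ^ s) := by
    intro s
    rw [hcdef, cv_mkCopy, ee_val]
  refine TR.trans ?_ (TR_join (TR.refl _) (TR.refl _))
  refine cert (TR.refl _) (pC fs fi fc bot) (pC_c bot hfs hfi hfc) _ ?_ ?_
  · intro x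
    obtain ⟨M, hM⟩ := g_large (2 * x + 2)
    obtain ⟨s, hs1, hs2⟩ := exists_tr M
    have hg := hM s hs1
    have hinf := (tr_iff_infinite s).1 hs2
    have hfin : ((cv c (fc (2 ^ s)) : FCA) : Set ℕ).Finite := by
      rw [(hc (2 ^ s) (hdom _)).2]
      rcases FCA_fin_or (cv c (2 ^ s)) with h | h
      · exfalso
        rw [hcv] at h
        exact hinf h
      · exact h
    obtain ⟨N, L, hN⟩ := foldA_complete c fs fi bot hs hi hb (At c) hfin.toFinset
      (fc (2 ^ s)) (hdom _) (by simp)
    exact ⟨N, _, pC_intro (hN N (le_refl _)) (by omega)⟩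
  · intro x n w v hv
    obtain ⟨m, s, h1, h2, h3⟩ := pC_some hv
    obtain ⟨_, g2, _⟩ := foldA_sound c fs fi bot hs hi hb _ _ _ _ _ h1
    rw [(hc (2 ^ s) (hdom _)).2] at g2
    have htr : tr s := by
      rw [tr_iff_infinite]
      intro hfin
      rw [← hcv] at hfin
      exact FCA_not_both _ hfin g2
    rw [h3]
    unfold K
    apply if_congr _ rfl rfl
    exact (tr_decides htr h2).symm

lemma three_pow (x : ℕ) : 3 * 2 ^ x = 2 ^ x ^^^ 2 ^ (x + 1) := by
  have h := Nat.shiftLeft_xor_distrib (a := 1) (b := 2) (i := x)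
  rw [Nat.shiftLeft_eq, Nat.shiftLeft_eq, Nat.shiftLeft_eq] at h
  have h1 : (1 ^^^ 2 : ℕ) = 3 := by decide
  rw [h1, one_mul] at h
  rw [h, pow_succ, mul_comm 2 (2 ^ x)]

theorem At1_computable : Computable (At (mkCopy good_le)) := by
  classical
  have hpow : Primrec₂ (fun m n : ℕ => m ^ n) := Primrec₂.unpaired'.1 Nat.Primrec.pow
  have p2 : Primrec (fun n : ℕ => 2 ^ n) := hpow.comp (Primrec.const 2) Primrec.id
  have h : PrimrecRel (fun (x n : ℕ) => n = 3 * 2 ^ x) :=
    Primrec.eq.comp Primrec.snd (Primrec.nat_mul.comp (Primrec.const 3) (p2.comp Primrec.fst))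
  have h2 : PrimrecRel (fun (b n : ℕ) => ∃ x ∈ List.range b, n = 3 * 2 ^ x) :=
    PrimrecPred.of_eq (h.exists_mem_list.comp (Primrec.list_range.comp Primrec.fst) Primrec.snd)
      (by intro q; rfl)
  have h3 : PrimrecPred (fun n : ℕ => ∃ x ∈ List.range n, n = 3 * 2 ^ x) :=
    h2.comp Primrec.id Primrec.id
  have h4 : Primrec (fun n : ℕ => if (∃ x ∈ List.range n, n = 3 * 2 ^ x) then 1 else 0) :=
    Primrec.ite h3 (Primrec.const 1) (Primrec.const 0)
  refine h4.to_comp.of_eq ?_
  intro n
  unfold At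
  apply if_congr _ rfl rfl
  rw [cv_mkCopy, isAtom_FCA]
  have hsing : ∀ x, XX (fun a b : ℕ => a ≤ b) (3 * 2 ^ x) = {x} := by
    intro x
    ext z
    show PP _ (3 * 2 ^ x) z = true ↔ z ∈ ({x} : Set ℕ)
    rw [three_pow, PP_xor, Set.mem_singleton_iff]
    have k1 := PP_two_pow (r := fun a b : ℕ => a ≤ b) x z
    have k2 := PP_two_pow (r := fun a b : ℕ => a ≤ b) (x + 1) z
    by_cases e1 : x ≤ z
    · rw [k1.2 e1]
      by_cases e2 : x + 1 ≤ z
      · rw [k2.2 e2]; simp; omega
      · have : PP (fun a b : ℕ => a ≤ b) (2 ^ (x + 1)) z = false := by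
          rw [← Bool.not_eq_true, k2]; exact e2
        rw [this]; simp; omega
    · have h1 : PP (fun a b : ℕ => a ≤ b) (2 ^ x) z = false := by
        rw [← Bool.not_eq_true, k1]; exact e1
      have h2 : PP (fun a b : ℕ => a ≤ b) (2 ^ (x + 1)) z = false := by
        rw [← Bool.not_eq_true, k2]; omega
      rw [h1, h2]; simp; omega
  constructor
  · rintro ⟨x, _, hx⟩
    refine ⟨Set.mem_univ n, x, ?_⟩
    rw [ee_val, hx, hsing]
  · rintro ⟨_, x, hx⟩
    rw [ee_val] at hx
    have : n = 3 * 2 ^ x := by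
      apply PP_inj good_le
      intro z
      have e1 : (z ∈ XX (fun a b : ℕ => a ≤ b) n) ↔
          (z ∈ XX (fun a b : ℕ => a ≤ b) (3 * 2 ^ x)) := by rw [hx, hsing]
      exact Bool.eq_iff_iff.2 e1
    refine ⟨x, ?_, this⟩
    rw [List.mem_range, this]
    have := Nat.lt_two_pow_self (n := x)
    omega

/-- the non-atoms of a copy are computably enumerable -/
theorem nonatom_re (c : ComputableCopy FCA) :
    REPred (fun n => ¬ (n ∈ c.dom ∧ IsAtom (cv c n))) := by
  classical
  obtain ⟨fi, hfi, hi⟩ := cv_inf c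
  obtain ⟨bot, hb⟩ := cv_surj c ⊥
  have hdin := c.dom_computable.decide
  let q : ℕ → ℕ → Bool := fun n w =>
    (!decide (n ∈ c.dom)) || (decide (n = bot) ||
      (decide (w ∈ c.dom) && (!decide (w = bot) && (!decide (w = n) && decide (fi w n = w)))))
  have hq : Computable₂ q := by
    have n1 : Computable (fun p : ℕ × ℕ => decide (p.1 ∈ c.dom)) := hdin.comp Computable.fst
    have n2 : Computable (fun p : ℕ × ℕ => decide (p.2 ∈ c.dom)) := hdin.comp Computable.snd
    have n3 : Computable (fun p : ℕ × ℕ => decide (p.1 = bot)) :=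
      decEq_c Computable.fst (Computable.const bot)
    have n4 : Computable (fun p : ℕ × ℕ => decide (p.2 = bot)) :=
      decEq_c Computable.snd (Computable.const bot)
    have n5 : Computable (fun p : ℕ × ℕ => decide (p.2 = p.1)) :=
      decEq_c Computable.snd Computable.fst
    have n6 : Computable (fun p : ℕ × ℕ => decide (fi p.2 p.1 = p.2)) :=
      decEq_c (hfi.comp Computable.snd Computable.fst) Computable.snd
    have nt := Primrec.not.to_comp
    have na := Primrec.and.to_comp
    have no := Primrec.or.to_comp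
    have m1 := na.comp (nt.comp n5) n6
    have m2 := na.comp (nt.comp n4) m1
    have m3 := na.comp n2 m2
    have m4 := no.comp n3 m3
    have m5 := no.comp (nt.comp n1) m4
    exact m5
  have h1 : Partrec (fun n => Nat.rfind (fun w => (Part.some (q n w) : Part Bool))) :=
    Partrec.rfind hq.partrec₂
  refine h1.dom_re.of_eq ?_
  intro n
  refine Iff.trans (Nat.rfind_dom (p := fun w => (Part.some (q n w) : Part Bool))) ?_
  constructor
  · rintro ⟨w, hw, _⟩
    rw [Part.mem_some_iff] at hw
    rintro ⟨hn, hat⟩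
    have hw' : q n w = true := hw.symm
    simp only [q, hn, decide_true, Bool.not_true, Bool.false_or, Bool.or_eq_true,
      decide_eq_true_eq, Bool.and_eq_true, Bool.not_eq_true', decide_eq_false_iff_not] at hw'
    rcases hw' with hw' | ⟨w1, w2, w3, w4⟩
    · rw [hw', hb.2] at hat
      exact hat.1 rfl
    · have h2 := (hi w n w1 hn).2
      rw [w4] at h2
      have hle : cv c w ≤ cv c n := by rw [h2]; exact inf_le_right
      have hne : cv c w ≠ cv c n := fun h => w3 (cv_inj c w1 hn h)
      have h3 := hat.2 (cv c w) (lt_of_le_of_ne hle hne)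
      apply w2
      apply cv_inj c w1 hb.1
      rw [h3, hb.2]
  · intro hnot
    have key : ∃ w, q n w = true := by
      by_cases hn : n ∈ c.dom
      · by_cases hbn : n = bot
        · refine ⟨0, ?_⟩
          simp [q, hbn]
        · have h2 : ¬ IsAtom (cv c n) := fun h => hnot ⟨hn, h⟩
          have h3 : ∃ b, b < cv c n ∧ b ≠ ⊥ := by
            by_contra hall
            push Not at hall
            apply h2
            refine ⟨?_, fun b hb => hall b hb⟩
            intro h0
            apply hbn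
            apply cv_inj c hn hb.1
            rw [h0, hb.2]
          obtain ⟨b, hb1, hb2⟩ := h3
          obtain ⟨w, hw, hwb⟩ := cv_surj c b
          refine ⟨w, ?_⟩
          have e1 : w ≠ bot := by
            rintro rfl
            apply hb2
            rw [← hwb, hb.2]
          have e2 : w ≠ n := by
            rintro rfl
            exact hb1.ne hwb.symm
          have e3 : fi w n = w := by
            apply cv_inj c (hi w n hw hn).1 hw
            rw [(hi w n hw hn).2, hwb]
            exact inf_eq_left.2 hb1.le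
          simp [q, hn, hw, e1, e2, e3]
      · refine ⟨0, ?_⟩
        simp [q, hn]
    obtain ⟨w, hw⟩ := key
    exact ⟨w, by rw [hw]; exact Part.mem_some _, fun {m} _ => trivial⟩

end Pool.Agent.Helper743
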