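import Pool.Agent.Helper743.KTFin

set_option autoImplicit false

/-! Almost complete functions avoiding the cones above countably many noncomputable functions. -/

namespace Pool.Agent.Helper743.FM

open Nat.Partrec (Code)
open Filter
open Pool.Agent.Helper743.PR (evT evR LS mdT mdR ev_list evR_spec)
open Pool.Agent.Helper743.AC (hl str outp conv kk wR massR cR totR MR qR al resp lst corrR kstr
  St Sp al_iff totR_mono MR_le qR_mono tot_step lst_concat str_kstr_mono str_mdR geo_le resp_lst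
  pre_take ev_code outp_pre pre_outp DL DL_p DL_encode al_p outp_p evT_evR)

variable (C : ℕ → ℕ → ℕ)

/-- splittings for the requirement `r`: functional `r.unpair.1`, target `C r.unpair.2` -/
def spl (r : ℕ) (σ : List ℕ) (d : Sp) : Prop :=
  (al r σ d.1.1 ∧ al r σ d.1.2) ∧
    (outp r.unpair.1 (σ ++ d.1.1) d.2.1 d.2.2.1 ∧ outp r.unpair.1 (σ ++ d.1.2) d.2.1 d.2.2.2) ∧
    d.2.2.1 ≠ d.2.2.2

noncomputable def pick (r : ℕ) (d : Sp) : List ℕ :=
  if d.2.2.1 = C r.unpair.2 d.2.1 then d.1.2 else d.1.1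

def acts (s : ℕ) (u : St) : Prop := s.unpair.1 ∉ u.2 ∧ ∃ d, spl s.unpair.1 u.1 d

noncomputable def step (s : ℕ) (u : St) : St :=
  open Classical in
  if h : acts s u then (corrR (u.1 ++ pick C s.unpair.1 h.2.choose), s.unpair.1 :: u.2)
  else (corrR u.1, u.2)

noncomputable def run (s : ℕ) : St := Nat.rec ([], []) (fun s u => step C s u) s

noncomputable def sg (s : ℕ) : List ℕ := (run C s).1
noncomputable def dd (s : ℕ) : List ℕ := (run C s).2

lemma dd_zero : dd C 0 = [] := rfl

noncomputable def rh (s : ℕ) : List ℕ :=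
  open Classical in
  if h : acts s (run C s) then pick C s.unpair.1 h.2.choose else []

noncomputable def ts (s : ℕ) : ℕ := mdR (((sg C s ++ rh C s).length + 1) ^ 2)

lemma sg_succ' (s : ℕ) : sg C (s + 1) = sg C s ++ rh C s ++ [ts C s] := by
  classical
  show (step C s (run C s)).1 = (run C s).1 ++ rh C s ++ [ts C s]
  unfold ts step sg rh corrR
  by_cases h : acts s (run C s)
  · rw [dif_pos h, dif_pos h]
  · rw [dif_neg h, dif_neg h, List.append_nil]

lemma dd_succ_pos {s : ℕ} (h : acts s (run C s)) : dd C (s + 1) = s.unpair.1 :: dd C s := by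
  show (step C s (run C s)).2 = _
  unfold step
  rw [dif_pos h]; rfl

lemma dd_succ_neg {s : ℕ} (h : ¬ acts s (run C s)) : dd C (s + 1) = dd C s := by
  show (step C s (run C s)).2 = _
  unfold step
  rw [dif_neg h]; rfl

lemma sg_prefix_succ (s : ℕ) : sg C s <+: sg C (s + 1) := by
  rw [sg_succ', List.append_assoc]
  exact List.prefix_append _ _

lemma sg_mono {s s' : ℕ} (h : s ≤ s') : sg C s <+: sg C s' := by
  induction s', h using Nat.le_induction with
  | base => exact List.prefix_refl _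
  | succ n _ ih => exact ih.trans (sg_prefix_succ C n)

lemma sg_length_succ (s : ℕ) : (sg C s).length < (sg C (s + 1)).length := by
  rw [sg_succ']; simp only [List.length_append, List.length_cons, List.length_nil]; omega

lemma sg_length (s : ℕ) : s ≤ (sg C s).length := by
  induction s with
  | zero => exact Nat.zero_le _
  | succ s ih => have := sg_length_succ C s; omega

lemma sg_long (n : ℕ) : ∃ s, n < (sg C s).length := ⟨n + 1, sg_length C (n + 1)⟩

noncomputable def GG (n : ℕ) : ℕ :=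
  open Classical in ((sg C (Nat.find (sg_long C n)))[n]?).getD 0

lemma sg_get {s n : ℕ} (h : n < (sg C s).length) : (sg C s)[n]? = some (GG C n) := by
  classical
  have h1 := Nat.find_spec (sg_long C n)
  have h2 : Nat.find (sg_long C n) ≤ s := Nat.find_min' _ h
  obtain ⟨ρ, hρ⟩ := sg_mono C h2
  have h3 : (sg C s)[n]? = (sg C (Nat.find (sg_long C n)))[n]? := by
    rw [← hρ, List.getElem?_append_left h1]
  rw [h3]
  unfold GG
  rw [List.getElem?_eq_getElem h1]
  rfl

lemma sg_eq_pre (s : ℕ) : sg C s = pre (GG C) (sg C s).length := by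
  apply List.ext_getElem?
  intro i
  rw [pre_getElem?]
  by_cases h : i < (sg C s).length
  · rw [if_pos h, sg_get C h]
  · rw [if_neg h, List.getElem?_eq_none (by omega)]

lemma rh_pos {s : ℕ} (h : acts s (run C s)) : ∃ d : Sp, spl s.unpair.1 (sg C s) d ∧
    rh C s = pick C s.unpair.1 d := by
  classical
  refine ⟨h.2.choose, h.2.choose_spec, ?_⟩
  unfold rh
  rw [dif_pos h]

lemma rh_neg {s : ℕ} (h : ¬ acts s (run C s)) : rh C s = [] := by
  unfold rh
  rw [dif_neg h]

lemma rh_al {s : ℕ} (h : acts s (run C s)) : al s.unpair.1 (sg C s) (rh C s) := by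
  obtain ⟨d, hd, he⟩ := rh_pos C h
  rw [he]
  unfold pick
  split_ifs
  · exact hd.1.2
  · exact hd.1.1

lemma rh_out {s : ℕ} (h : acts s (run C s)) : ∃ x y,
    outp s.unpair.1.unpair.1 (sg C s ++ rh C s) x y ∧ y ≠ C s.unpair.1.unpair.2 x := by
  obtain ⟨d, hd, he⟩ := rh_pos C h
  rw [he]
  unfold pick
  by_cases h1 : d.2.2.1 = C s.unpair.1.unpair.2 d.2.1
  · rw [if_pos h1]
    exact ⟨d.2.1, d.2.2.2, hd.2.1.2, fun h2 => hd.2.2 (by rw [h1, h2])⟩
  · rw [if_neg h1]
    exact ⟨d.2.1, d.2.2.1, hd.2.1.1, h1⟩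

lemma rh_resp (s : ℕ) : resp (sg C s) (rh C s) := by
  by_cases h : acts s (run C s)
  · exact (rh_al C h).1
  · rw [rh_neg C h]
    intro t ht
    simp at ht

lemma str_ts (s w : ℕ) (h : w ≤ (sg C s ++ rh C s).length + 1) : str (ts C s) w = kstr w :=
  str_mdR _ _ h

lemma sg_corr (s : ℕ) : str (lst (sg C s)) (sg C s).length = kstr (sg C s).length := by
  cases s with
  | zero => rfl
  | succ s =>
    rw [sg_succ', lst_concat]
    apply str_ts
    simp only [List.length_append, List.length_cons, List.length_nil]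
    omega

lemma ts_corr (s : ℕ) : str (ts C s) (sg C s).length = str (lst (sg C s)) (sg C s).length := by
  rw [sg_corr]
  apply str_ts
  simp; omega

lemma ext_resp {s : ℕ} {t : ℕ} (h : t ∈ rh C s ++ [ts C s]) :
    str t (sg C s).length = kstr (sg C s).length := by
  rcases List.mem_append.1 h with h | h
  · have h1 := rh_resp C s
    unfold resp at h1
    rw [h1 t h, sg_corr]
  · rw [List.mem_singleton] at h
    subst h
    rw [ts_corr, sg_corr]

lemma entry {s n : ℕ} (h : (sg C s).length ≤ n) : ∃ u, s ≤ u ∧ (sg C u).length ≤ n ∧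
    n < (sg C (u + 1)).length ∧ GG C n ∈ rh C u ++ [ts C u] := by
  classical
  have h1 := Nat.find_spec (sg_long C n)
  have h2 : s < Nat.find (sg_long C n) := by
    by_contra hle
    push Not at hle
    have := (sg_mono C hle).length_le
    omega
  obtain ⟨u, hu⟩ : ∃ u, Nat.find (sg_long C n) = u + 1 :=
    ⟨Nat.find (sg_long C n) - 1, by omega⟩
  have h3 : (sg C u).length ≤ n := by
    have := Nat.find_min (sg_long C n) (m := u) (by omega)
    omega
  rw [hu] at h1
  refine ⟨u, by omega, h3, h1, ?_⟩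
  have h5 := sg_get C h1
  rw [sg_succ', List.append_assoc, List.getElem?_append_right h3] at h5
  exact List.mem_of_getElem? h5

lemma GG_resp {s n : ℕ} (h : (sg C s).length ≤ n) :
    str (GG C n) (sg C s).length = kstr (sg C s).length := by
  obtain ⟨u, h1, h2, h3, h4⟩ := entry C h
  exact str_kstr_mono (sg_mono C h1).length_le (ext_resp C h4)

lemma pre_split {s n : ℕ} (h : (sg C s).length ≤ n) : ∃ ρ, pre (GG C) n = sg C s ++ ρ ∧
    resp (sg C s) ρ := by
  obtain ⟨ρ, hρ⟩ := pre_prefix (GG C) h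
  rw [← sg_eq_pre] at hρ
  refine ⟨ρ, hρ.symm, fun m hm => ?_⟩
  obtain ⟨i, hi⟩ := List.mem_iff_getElem?.1 hm
  have h1 : (pre (GG C) n)[(sg C s).length + i]? = some m := by
    rw [← hρ, List.getElem?_append_right (by omega), Nat.add_sub_cancel_left, hi]
  rw [pre_getElem?] at h1
  by_cases h2 : (sg C s).length + i < n
  · rw [if_pos h2] at h1
    rw [← Option.some.inj h1, sg_corr]
    exact GG_resp C (Nat.le_add_right _ _)
  · rw [if_neg h2] at h1; simp at h1

lemma dd_mono {s s' : ℕ} (h : s ≤ s') : ∀ e ∈ dd C s, e ∈ dd C s' := by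
  induction s', h using Nat.le_induction with
  | base => exact fun e h => h
  | succ n _ ih =>
    intro e he
    by_cases h1 : acts n (run C n)
    · rw [dd_succ_pos C h1]; exact List.mem_cons_of_mem _ (ih e he)
    · rw [dd_succ_neg C h1]; exact ih e he

lemma dd_mem {s e : ℕ} (h : e ∈ dd C s) : ∃ s', acts s' (run C s') ∧ s'.unpair.1 = e := by
  induction s with
  | zero => rw [dd_zero] at h; simp at h
  | succ s ih =>
    by_cases h1 : acts s (run C s)
    · rw [dd_succ_pos C h1, List.mem_cons] at h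
      rcases h with h | h
      · exact ⟨s, h1, h.symm⟩
      · exact ih h
    · rw [dd_succ_neg C h1] at h; exact ih h

lemma acts_once (e : ℕ) : ∀ᶠ s in atTop, ¬ (acts s (run C s) ∧ s.unpair.1 = e) := by
  by_cases h : ∃ s, acts s (run C s) ∧ s.unpair.1 = e
  · obtain ⟨s, h1, h2⟩ := h
    filter_upwards [eventually_gt_atTop s] with s' hs'
    rintro ⟨h3, h4⟩
    apply h3.1
    rw [h4, ← h2]
    apply dd_mono C hs'
    rw [dd_succ_pos C h1]
    exact List.mem_cons_self
  · push Not at h
    exact Eventually.of_forall (fun s hs => h s hs.1 hs.2)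

lemma acts_late (i : ℕ) : ∃ s0, ∀ s, s0 ≤ s → acts s (run C s) → i ≤ s.unpair.1 := by
  have h := ev_list (L := List.range i)
    (P := fun s e => ¬ (acts s (run C s) ∧ s.unpair.1 = e)) (fun e _ => acts_once C e)
  obtain ⟨s0, h0⟩ := eventually_atTop.1 h
  refine ⟨s0, fun s hs hact => ?_⟩
  by_contra hlt
  push Not at hlt
  exact h0 s hs s.unpair.1 (List.mem_range.2 hlt) ⟨hact, rfl⟩

lemma tot_acts {i s : ℕ} (h : acts s (run C s)) (hi : i ≤ s.unpair.1) :
    totR i (sg C (s + 1)) ≤ totR i (sg C s) + (1 / 2) ^ s.unpair.1 := by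
  have h1 := (al_iff.1 (rh_al C h)).2 i hi
  have h2 := tot_step (i := i) (rh_resp C s) (ts_corr C s)
  rw [sg_succ']
  linarith

lemma tot_nacts {i s : ℕ} (h : ¬ acts s (run C s)) :
    totR i (sg C (s + 1)) ≤ totR i (sg C s) := by
  have h2 := tot_step (i := i) (rh_resp C s) (ts_corr C s)
  rw [sg_succ']
  rw [rh_neg C h, List.append_nil] at h2 ⊢
  linarith

lemma tot_late {i s0 : ℕ} (h0 : ∀ s, s0 ≤ s → acts s (run C s) → i ≤ s.unpair.1) (s : ℕ)
    (hs : s0 ≤ s) : totR i (sg C s) ≤ totR i (sg C s0) +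
      ∑ e ∈ (dd C s).toFinset, ((1 : ℝ) / 2) ^ e := by
  induction s, hs using Nat.le_induction with
  | base =>
    have : 0 ≤ ∑ e ∈ (dd C s0).toFinset, ((1 : ℝ) / 2) ^ e :=
      Finset.sum_nonneg (fun e _ => by positivity)
    linarith
  | succ s hs ih =>
    by_cases h1 : acts s (run C s)
    · rw [dd_succ_pos C h1, List.toFinset_cons, Finset.sum_insert (by
        rw [List.mem_toFinset]; exact h1.1)]
      have := tot_acts C h1 (h0 s hs h1)
      linarith
    · rw [dd_succ_neg C h1]
      have := tot_nacts C (i := i) h1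
      linarith

lemma tot_bdd (i : ℕ) : ∃ B : ℝ, ∀ n, totR i (pre (GG C) n) ≤ B := by
  obtain ⟨s0, h0⟩ := acts_late C i
  refine ⟨totR i (sg C s0) + 2, fun n => ?_⟩
  have h1 : pre (GG C) n <+: sg C (max n s0) := by
    rw [sg_eq_pre]
    exact pre_prefix _ (le_trans (le_max_left _ _) (sg_length C (max n s0)))
  have h2 := totR_mono (i := i) h1
  have h3 := tot_late C h0 (max n s0) (le_max_right _ _)
  have h4 := geo_le (dd C (max n s0)).toFinset
  linarith

lemma q_tail (i : ℕ) {ε : ℝ} (hε : 0 < ε) : ∃ N, ∀ m n, N ≤ m → m ≤ n →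
    qR i (pre (GG C) n) ≤ qR i (pre (GG C) m) + ε := by
  obtain ⟨B, hB⟩ := tot_bdd C i
  have hb : BddAbove (Set.range (fun n => qR i (pre (GG C) n))) := by
    refine ⟨B + 1, ?_⟩
    rintro _ ⟨n, rfl⟩
    exact add_le_add (hB n) (MR_le _ _)
  obtain ⟨N, hN⟩ := exists_lt_of_lt_ciSup (f := fun n => qR i (pre (GG C) n))
    (show (⨆ n, qR i (pre (GG C) n)) - ε < ⨆ n, qR i (pre (GG C) n) by linarith)
  refine ⟨N, fun m n hm _ => ?_⟩
  have h1 := le_ciSup hb n
  have h2 := qR_mono (i := i) (pre_prefix (GG C) hm)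
  linarith

lemma q_tails (e : ℕ) : ∃ N, ∀ m n, N ≤ m → m ≤ n → ∀ i, i ≤ e →
    qR i (pre (GG C) n) ≤ qR i (pre (GG C) m) + (1 / 2) ^ e := by
  have hε : (0 : ℝ) < (1 / 2) ^ e := by positivity
  choose f hf using fun i => q_tail C i hε
  refine ⟨(Finset.range (e + 1)).sup f, fun m n hm hmn i hi => ?_⟩
  apply hf i m n _ hmn
  refine le_trans ?_ hm
  exact Finset.le_sup (f := f) (Finset.mem_range.2 (by omega))

attribute [local irreducible] DL al outp

noncomputable def pF (r : ℕ) (σ : List ℕ) (_ : List ℕ) (q w : ℕ) : Option ℕ :=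
  open Classical in
  bif decide (al r σ (DL w).1) && decide (outp r.unpair.1 (σ ++ (DL w).1) q (DL w).2)
  then some (DL w).2 else none

lemma pF_c (r : ℕ) (σ : List ℕ) :
    Computable (fun q : (List ℕ × ℕ) × ℕ => pF r σ q.1.1 q.1.2 q.2) := by
  classical
  have w : Primrec (fun q : (List ℕ × ℕ) × ℕ => DL q.2) := DL_p.comp Primrec.snd
  have x : Primrec (fun q : (List ℕ × ℕ) × ℕ => q.1.2) := Primrec.snd.comp Primrec.fst
  have h1 := al_p.comp (((Primrec.const r).pair (Primrec.const σ)).pair (Primrec.fst.comp w))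
  have h2 := outp_p.comp (((Primrec.const r.unpair.1).pair (Primrec.list_append.comp
    (Primrec.const σ) (Primrec.fst.comp w))).pair (x.pair (Primrec.snd.comp w)))
  have h3 := Primrec.cond (Primrec.and.comp h1.decide h2.decide)
    (Primrec.option_some.comp (Primrec.snd.comp w)) (Primrec.const none)
  exact h3.to_comp

theorem avoids (n : ℕ) (hC : ¬ Computable (C n)) : ¬ TR (C n) (GG C) := by
  classical
  intro hTR
  obtain ⟨ev, hev, hmono, hcor⟩ := use_principle (GG C) _ hTR
  obtain ⟨e, he⟩ := ev_code hev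
  set r := Nat.pair e n with hr
  have hr1 : r.unpair.1 = e := by rw [hr, Nat.unpair_pair]
  have hr2 : r.unpair.2 = n := by rw [hr, Nat.unpair_pair]
  have hval : ∀ {k x y}, outp e (pre (GG C) k) x y → y = C n x := by
    intro k x y h
    obtain ⟨j, hj⟩ := outp_pre he h
    have h1 : y ∈ ((C n : ℕ →. ℕ) x) := (hcor x y).2 ⟨j, hj⟩
    exact Part.mem_some_iff.1 h1
  have hnever : ∀ s, ¬ (acts s (run C s) ∧ s.unpair.1 = r) := by
    rintro s ⟨h1, h2⟩
    obtain ⟨x, y, h3, h4⟩ := rh_out C h1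
    rw [h2, hr1] at h3
    rw [h2, hr2] at h4
    have h5 : sg C s ++ rh C s = pre (GG C) (sg C s ++ rh C s).length := by
      have h6 := sg_succ' C s
      have h7 := sg_eq_pre C (s + 1)
      have h8 : (sg C s ++ rh C s).length ≤ (sg C (s + 1)).length := by
        rw [h6]; simp
      rw [← pre_take (GG C) h8, ← h7, h6]
      exact (List.take_left' rfl).symm
    rw [h5] at h3
    exact h4 (hval h3)
  obtain ⟨N, hN⟩ := q_tails C r
  set s := Nat.pair r N with hs
  have hs1 : s.unpair.1 = r := by rw [hs, Nat.unpair_pair]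
  have hs2 : N ≤ (sg C s).length := le_trans (Nat.right_le_pair r N) (sg_length C s)
  have hnosplit : ∀ d : Sp, ¬ spl r (sg C s) d := by
    intro d hd
    apply hnever s
    refine ⟨⟨?_, d, ?_⟩, hs1⟩
    · intro hmem
      obtain ⟨s', h1, h2⟩ := dd_mem C (s := s) hmem
      exact hnever s' ⟨h1, by rw [h2, hs1]⟩
    · rw [hs1]; exact hd
  have hex : ∀ q, ∀ᶠ k in atTop, ∃ ρ, pre (GG C) k = sg C s ++ ρ ∧ al r (sg C s) ρ ∧
      outp e (sg C s ++ ρ) q (C n q) := by
    intro q
    obtain ⟨j, hj⟩ := (hcor q (C n q)).1 (Part.mem_some _)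
    filter_upwards [pre_outp he hj, eventually_ge_atTop (sg C s).length] with k h1 h2
    obtain ⟨ρ, hρ, hr⟩ := pre_split C h2
    refine ⟨ρ, hρ, ?_, by rw [← hρ]; exact h1⟩
    rw [al_iff]
    refine ⟨hr, fun i hi => ?_⟩
    have h3 := hN (sg C s).length k hs2 h2 i hi
    rw [← sg_eq_pre, hρ] at h3
    exact h3
  apply hC
  have hz : Computable (fun _ : ℕ => 0) := Computable.const 0
  apply TR_const hz
  refine cert (TR.refl _) (pF r (sg C s)) (pF_c _ _) _ ?_ ?_
  · intro q
    obtain ⟨k, ρ, _, h1, h2⟩ := (hex q).exists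
    refine ⟨0, Encodable.encode (ρ, C n q), ?_⟩
    unfold pF
    rw [DL_encode, hr1]
    simp only
    rw [decide_eq_true h1, decide_eq_true h2]
    rfl
  · intro q k w y hy
    unfold pF at hy
    rw [hr1] at hy
    by_cases h1 : al r (sg C s) (DL w).1
    · by_cases h2 : outp e (sg C s ++ (DL w).1) q (DL w).2
      · rw [decide_eq_true h1, decide_eq_true h2] at hy
        have hy' := Option.some.inj hy
        rw [← hy']
        by_contra hne
        obtain ⟨n', ρ, _, h3, h4⟩ := (hex q).exists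
        refine hnosplit (((DL w).1, ρ), (q, ((DL w).2, C n q))) ⟨⟨h1, h3⟩, ?_, hne⟩
        rw [hr1]
        exact ⟨h2, h4⟩
      · rw [decide_eq_false h2, Bool.and_false] at hy
        simp at hy
    · rw [decide_eq_false h1, Bool.false_and] at hy
      simp at hy

lemma GG_lim (n : ℕ) : ∀ᶠ N in atTop, str (GG C N) n = kstr n := by
  filter_upwards [eventually_ge_atTop (sg C n).length] with N hN
  exact str_kstr_mono (sg_length C n) (GG_resp C hN)

lemma str_len (t w : ℕ) : (str t w).length = w := by unfold str; simp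

lemma halting_triv : ∃ c, ∀ n, KT.KG (GG C) (Encodable.encode (kstr n)) ≤
    KT.KG (GG C) n + c := by
  apply KT.triv_KG
  intro f φ h1 h2 h3
  refine KT.trivial_rel str (GG C) AC.str_p str_len ?_ kstr (GG_lim C) f φ h1 h2 h3
  intro i
  obtain ⟨B, hB⟩ := tot_bdd C i
  exact ⟨B, fun n => hB n⟩

end Pool.Agent.Helper743.FM
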