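import Pool.Agent.Helper743.GRSat

set_option autoImplicit false

/-! A sequential golden run construction: the concrete approximations. -/

namespace Pool.Agent.Helper743.GR

open Nat.Partrec (Code)
open Filter
open Pool.Agent.Helper743.PR (evT evR evT_p findIdx_range)
open Pool.Agent.Helper743.AC (hl str kstr str_p fsum_p pow_p)
open Pool.Agent.Helper743.KT (HitU HitU_p KG KG_le K0)

/-! congruence -/

section congr

variable {kd kd' : ℕ → ℕ → ℕ → Bool} {cmp : ℕ → ℕ → ℕ}

lemma newv_congr {t : ℕ} (h : ∀ t', t' ≤ t → ∀ m r, kd t' m r = kd' t' m r) (m r : ℕ) :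
    newv kd t m r = newv kd' t m r := by
  rw [Bool.eq_iff_iff, newv_iff, newv_iff, h t (le_refl _)]
  constructor
  · rintro ⟨h1, h2⟩
    exact ⟨h1, fun t' ht' hk => h2 t' ht' (by rw [h t' ht'.le]; exact hk)⟩
  · rintro ⟨h1, h2⟩
    exact ⟨h1, fun t' ht' hk => h2 t' ht' (by rw [← h t' ht'.le]; exact hk)⟩

lemma cnt_congr {s : ℕ} (h : ∀ t', t' ≤ s → ∀ m r, kd t' m r = kd' t' m r) (m r : ℕ) :
    cnt kd s m r = cnt kd' s m r := by
  unfold cnt
  congr 1
  apply List.filter_congr
  intro t ht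
  rw [List.mem_range] at ht
  exact newv_congr (fun t' ht' => h t' (by omega)) m r

lemma stp_congr {s : ℕ} (h : ∀ t', t' ≤ s → ∀ m r, kd t' m r = kd' t' m r) (e k a : ℕ)
    (stk : List Frame) : stp kd cmp e k a s stk = stp kd' cmp e k a s stk := by
  have h1 : ∀ m r, cnt kd s m r = cnt kd' s m r := cnt_congr h
  have h2 : ∀ m r, kd s m r = kd' s m r := h s (le_refl _)
  unfold stp
  cases stk with
  | nil => rfl
  | cons x rest =>
    simp only
    unfold stpc EE pend
    simp only [h1, h2]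

end congr

/-- descriptions relative to `G` -/
noncomputable def kdG (G : ℕ → ℕ) (s m r : ℕ) : Bool :=
  open Classical in
  decide (∃ j ∈ List.range (s + 1), HitU (pre G j) (Encodable.encode (str s m)) r)

lemma kdL_eq {G : ℕ → ℕ} {N s : ℕ} (h : s ≤ N) (m r : ℕ) :
    kdL (pre G N) s m r = kdG G s m r := by
  classical
  unfold kdL kdG
  rw [decide_eq_decide]
  constructor
  · rintro ⟨j, hj, h1⟩
    refine ⟨j, hj, ?_⟩
    rw [List.mem_range] at hj
    rw [AC.pre_take G (by omega)] at h1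
    exact h1
  · rintro ⟨j, hj, h1⟩
    refine ⟨j, hj, ?_⟩
    rw [List.mem_range] at hj
    rw [AC.pre_take G (by omega)]
    exact h1

lemma runL_eq {G : ℕ → ℕ} {cmp : ℕ → ℕ → ℕ} {N : ℕ} (e : ℕ) : ∀ {s : ℕ}, s ≤ N →
    runL cmp (pre G N) e s = run (kdG G) cmp e (kE e) (kE e + 3) s := by
  intro s
  induction s with
  | zero => intro _; rfl
  | succ s ih =>
    intro h
    have h1 := ih (by omega)
    show stp (kdL (pre G N)) cmp e (kE e) (aE e) s (runL cmp (pre G N) e s) =
      stp (kdG G) cmp e (kE e) (kE e + 3) s (run (kdG G) cmp e (kE e) (kE e + 3) s)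
    rw [h1]
    exact stp_congr (fun t' ht' m r => kdL_eq (by omega) m r) _ _ _ _

/-! limits -/

lemma str_lim (m : ℕ) : ∃ N, ∀ s, N ≤ s → str s m = kstr m := by
  classical
  induction m with
  | zero => exact ⟨0, fun s _ => rfl⟩
  | succ m ih =>
    obtain ⟨N, hN⟩ := ih
    have h1 : ∃ M, ∀ s, M ≤ s → hl m s = decide (∃ t, hl m t = true) := by
      by_cases h : ∃ t, hl m t = true
      · obtain ⟨t, ht⟩ := h
        exact ⟨t, fun s hs => by rw [hl_mono hs ht, decide_eq_true ⟨t, ht⟩]⟩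
      · refine ⟨0, fun s _ => ?_⟩
        rw [decide_eq_false h, ← Bool.not_eq_true]
        exact fun h2 => h ⟨s, h2⟩
    obtain ⟨M, hM⟩ := h1
    refine ⟨max N M, fun s hs => ?_⟩
    have h2 := hN s (le_trans (le_max_left _ _) hs)
    have h3 := hM s (le_trans (le_max_right _ _) hs)
    unfold str kstr at *
    rw [List.range_succ, List.map_append, List.map_append, h2]
    simp only [List.map_cons, List.map_nil, h3]

lemma kstr_map (n : ℕ) : (kstr n).map Bool.toNat = pre K0 n := by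
  classical
  unfold kstr pre
  rw [List.map_map]
  apply List.map_congr_left
  intro p _
  show (decide (∃ t, hl p t = true)).toNat = K0 p
  have h5 : (∃ t, AC.hl p t = true) ↔ K (Nat.pair p p) = 1 := by
    unfold AC.hl
    exact PR.K_one.symm
  unfold K at h5
  rw [Nat.unpair_pair] at h5
  unfold K0
  by_cases h6 : (Nat.Partrec.Code.eval (Denumerable.ofNat Nat.Partrec.Code p) p).Dom
  · rw [if_pos h6, decide_eq_true (h5.2 (by simp [h6]))]
    rfl
  · rw [if_neg h6, decide_eq_false (fun h => by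
      have := h5.1 h
      simp [h6] at this)]
    rfl

lemma kdG_iff {G : ℕ → ℕ} {s m r : ℕ} : kdG G s m r = true ↔
    ∃ j, j ≤ s ∧ HitU (pre G j) (Encodable.encode (str s m)) r := by
  unfold kdG
  refine Iff.trans (@decide_eq_true_iff _ (_)) ?_
  constructor
  · rintro ⟨j, hj, h⟩
    rw [List.mem_range] at hj
    exact ⟨j, by omega, h⟩
  · rintro ⟨j, hj, h⟩
    exact ⟨j, List.mem_range.2 (by omega), h⟩

lemma kdG_KG {G : ℕ → ℕ} {s m r : ℕ} (h : kdG G s m r = true) :
    KG G (Encodable.encode (str s m)) ≤ r := by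
  obtain ⟨j, -, h1⟩ := kdG_iff.1 h
  exact KG_le.2 ⟨j, h1⟩

lemma kdG_ev {G : ℕ → ℕ} {m r : ℕ} (h : KG G (Encodable.encode (kstr m)) ≤ r) :
    ∃ N, ∀ s, N ≤ s → kdG G s m r = true := by
  obtain ⟨j, hj⟩ := KG_le.1 h
  obtain ⟨N, hN⟩ := str_lim m
  refine ⟨max j N, fun s hs => kdG_iff.2 ⟨j, le_trans (le_max_left _ _) hs, ?_⟩⟩
  rw [hN s (le_trans (le_max_right _ _) hs)]
  exact hj

/-! the functional -/

def prd (ix s n w : ℕ) : Bool :=
  decide (evT w.unpair.2 ix ((str s w.unpair.1).map Bool.toNat) n ≠ 0)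

lemma cmpc_spec {ix s n : ℕ} (h : cmpc ix s n ≤ s) :
    prd ix s n (cmpc ix s n) = true ∧ ∀ j, j < cmpc ix s n → prd ix s n j = false := by
  have h0 : cmpc ix s n = (List.range (s + 1)).findIdx (prd ix s n) := rfl
  rw [h0] at h ⊢
  have h1 : (List.range (s + 1)).findIdx (prd ix s n) < (List.range (s + 1)).length := by
    rw [List.length_range]; omega
  constructor
  · have h2 := List.findIdx_getElem (w := h1)
    rw [List.getElem_range] at h2
    exact h2
  · intro j hj
    have h2 := List.not_of_lt_findIdx hj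
    rw [List.getElem_range] at h2
    simpa using h2

lemma cmpc_eq {ix s n w : ℕ} (hw : w ≤ s) (h1 : prd ix s n w = true)
    (h2 : ∀ j, j < w → prd ix s n j = false) : cmpc ix s n = w :=
  findIdx_range (by omega) h1 (fun j hj => h2 j hj)

lemma prd_congr {ix s s' n w w' : ℕ} (hw : w' ≤ w) (h : str s' w = str s w) :
    prd ix s' n w' = prd ix s n w' := by
  unfold prd
  have h1 : str s' w'.unpair.1 = str s w'.unpair.1 :=
    str_le (le_trans (Nat.unpair_left_le w') hw) h
  rw [h1]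

theorem comp_c {F : ℕ → ℕ} (hF : TR F K0) : ∃ ix, Comp (cmpc ix) (valc ix) ∧
    ∀ n, ∃ s1, ∀ s, s1 ≤ s → valc ix s n = F n + 1 := by
  classical
  obtain ⟨ev, hev, hmono, hcor⟩ := use_principle K0 _ hF
  obtain ⟨ix, hix⟩ := AC.ev_code hev
  have hval : ∀ u τ n, evT τ ix (pre K0 u) n ≠ 0 → evT τ ix (pre K0 u) n = F n + 1 := by
    intro u τ n h
    rw [AC.evT_evR h, hix]
    cases h1 : ev (pre K0 u) n with
    | none =>
      rw [AC.evT_evR h, hix, h1] at h
      exact absurd rfl h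
    | some v =>
      have h2 : v ∈ ((F : ℕ →. ℕ) n) := (hcor _ _).2 ⟨u, h1⟩
      rw [Part.mem_some_iff.1 h2]
      rfl
  have hlim : ∀ n, ∃ w s1, w ≤ s1 ∧ (∀ s, s1 ≤ s → cmpc ix s n = w ∧ str s w = kstr w) ∧
      evT w.unpair.2 ix (pre K0 w.unpair.1) n ≠ 0 := by
    intro n
    have hex : ∃ w, evT (Nat.unpair w).2 ix (pre K0 (Nat.unpair w).1) n ≠ 0 := by
      obtain ⟨u, hu⟩ := (hcor n (F n)).1 (Part.mem_some _)
      obtain ⟨t, ht⟩ := (PR.evR_spec ix (pre K0 u) n).exists
      refine ⟨Nat.pair u t, ?_⟩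
      rw [Nat.unpair_pair]
      simp only
      rw [ht, hix, hu]
      exact Nat.succ_ne_zero _
    obtain ⟨N, hN⟩ := str_lim (Nat.find hex)
    have hmin := fun j (hj : j < Nat.find hex) => Nat.find_min hex hj
    have hsp := Nat.find_spec hex
    generalize Nat.find hex = w at hN hmin hsp
    have hp : ∀ s, N ≤ s → ∀ j, j ≤ w → prd ix s n j =
        decide (evT (Nat.unpair j).2 ix (pre K0 (Nat.unpair j).1) n ≠ 0) := by
      intro s hs j hj
      unfold prd
      have h1 : str s j.unpair.1 = kstr j.unpair.1 :=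
        AC.str_kstr_mono (le_trans (Nat.unpair_left_le j) hj) (hN s hs)
      rw [h1, kstr_map]
    refine ⟨w, max w N, le_max_left _ _, fun s hs => ⟨?_, hN s (le_trans (le_max_right _ _) hs)⟩,
      hsp⟩
    have hs2 := le_trans (le_max_right _ _) hs
    apply cmpc_eq (le_trans (le_max_left _ _) hs)
    · rw [hp s hs2 w (le_refl _)]
      exact decide_eq_true hsp
    · intro j hj
      rw [hp s hs2 j hj.le]
      exact decide_eq_false (hmin j hj)
  refine ⟨ix, ⟨?_, ?_⟩, ?_⟩
  · intro s s' n h1 h2 h3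
    obtain ⟨h4, h5⟩ := cmpc_spec h1
    have h6 : cmpc ix s' n = cmpc ix s n := by
      apply cmpc_eq (by omega)
      · rw [prd_congr (le_refl _) h3]; exact h4
      · intro j hj
        rw [prd_congr hj.le h3]; exact h5 j hj
    refine ⟨h6, ?_⟩
    unfold valc
    rw [h6]
    have h7 : str s' (cmpc ix s n).unpair.1 = str s (cmpc ix s n).unpair.1 :=
      str_le (Nat.unpair_left_le _) h3
    rw [h7]
  · intro n
    obtain ⟨w, s1, h1, h2, -⟩ := hlim n
    refine ⟨s1, fun s hs => ?_⟩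
    rw [(h2 s hs).1, (h2 s1 (le_refl _)).1, (h2 s hs).2, (h2 s1 (le_refl _)).2]
    exact ⟨by omega, rfl, rfl⟩
  · intro n
    obtain ⟨w, s1, h1, h2, h3⟩ := hlim n
    refine ⟨s1, fun s hs => ?_⟩
    unfold valc
    rw [(h2 s hs).1]
    have h4 : str s w.unpair.1 = kstr w.unpair.1 :=
      AC.str_kstr_mono (Nat.unpair_left_le w) (h2 s hs).2
    rw [h4, kstr_map]
    exact hval _ _ _ h3

end Pool.Agent.Helper743.GR
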