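import Pool.Agent.Helper743.KTHalt

set_option autoImplicit false

/-! A sequential golden run construction: definitions and effectiveness. -/

namespace Pool.Agent.Helper743.GR

open Nat.Partrec (Code)
open Filter
open Pool.Agent.Helper743.PR (evT evT_p)
open Pool.Agent.Helper743.AC (hl str str_p fsum_p pow_p)
open Pool.Agent.Helper743.KT (HitU HitU_p)

/-- records `((n, t), (m, r))` -/
abbrev Rec := (ℕ × ℕ) × (ℕ × ℕ)

/-- frames `((g, f), ((n, t), (R, Q)))` -/
abbrev Frame := (ℕ × ℕ) × ((ℕ × ℕ) × (List Rec × List (ℕ × ℕ)))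

def rs (l : List (ℕ × ℕ)) : ℕ := l.foldr (fun p acc => p.2 + acc) 0

def sw (R : ℕ) (l : List (ℕ × ℕ)) : ℕ := l.foldr (fun p acc => 2 ^ (R - p.2) + acc) 0

/-- the weight of `l` is at least `2 ^ (-g)` -/
def big (g : ℕ) (l : List (ℕ × ℕ)) : Bool := decide (2 ^ rs l ≤ 2 ^ g * sw (rs l) l)

section gen

variable (kd : ℕ → ℕ → ℕ → Bool) (cmp : ℕ → ℕ → ℕ)

/-- at stage `t` a new version of the string of length `m` is described -/
def newv (t m r : ℕ) : Bool :=
  kd t m r && decide (((List.range t).filter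
    (fun t' => kd t' m r && decide (str t' m = str t m))).length = 0)

/-- the number of versions described so far -/
def cnt (s m r : ℕ) : ℕ := ((List.range (s + 1)).filter (fun t => newv kd t m r)).length

/-- the computation on `q.1` at stage `q.2` is still valid at stage `s` -/
def valid (s : ℕ) (q : ℕ × ℕ) : Bool :=
  decide (str s (cmp q.2 q.1) = str q.2 (cmp q.2 q.1))

def EE (e s i : ℕ) (R : List Rec) : List (ℕ × ℕ) :=
  (R.filter (fun ρ => decide (i ≤ cnt kd s ρ.2.1 (ρ.2.2 + e)))).map Prod.snd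

def pend (e s i : ℕ) (R : List Rec) : Bool :=
  decide ((R.filter (fun ρ => !(valid cmp s ρ.1) &&
    decide (cnt kd s ρ.2.1 (ρ.2.2 + e) < i))).length ≠ 0)

def nfilt (s n : ℕ) (R : List Rec) : List (ℕ × ℕ) :=
  (R.filter (fun ρ => decide (ρ.1.1 = n) && valid cmp s ρ.1)).map Prod.snd

/-- the least argument requiring attention -/
def att (s g : ℕ) (R : List Rec) : ℕ :=
  (List.range (s + 1)).findIdx (fun n => decide (cmp s n ≤ s) && !(big (g + n) (nfilt cmp s n R)))

def ret (s : ℕ) (D Q : List (ℕ × ℕ)) (y : Frame) : Frame :=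
  bif valid cmp s y.2.1 then
    (y.1, (y.2.1, (D.map (fun d => (y.2.1, d)) ++ y.2.2.1, Q ++ y.2.2.2)))
  else ((y.1.1, y.1.2 + 1), (y.2.1, (y.2.2.1, Q ++ y.2.2.2)))

def pop (s : ℕ) (D Q : List (ℕ × ℕ)) (x : Frame) (rest : List Frame) : List Frame :=
  List.casesOn rest [x] (fun y rest' => ret cmp s D Q y :: rest')

/-- a step with top frame `x` -/
def stpc (e k a s : ℕ) (x : Frame) (rest : List Frame) : List Frame :=
  bif decide (k ≤ rest.length + 1) then
    bif kd s x.2.1.2 (x.1.1 + e) then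
      pop cmp s [(x.2.1.2, x.1.1)] [(x.2.1.2, x.1.1)] x rest
    else x :: rest
  else bif big x.1.1 (EE kd e s (k - rest.length) x.2.2.1) then
    pop cmp s (EE kd e s (k - rest.length) x.2.2.1) x.2.2.2 x rest
  else bif pend kd cmp e s (k - rest.length) x.2.2.1 then x :: rest
  else bif decide (att cmp s (x.1.1 + a + 1) x.2.2.1 ≤ s) then
    ((x.1.1 + a + 1 + att cmp s (x.1.1 + a + 1) x.2.2.1 + x.1.2, 0), ((0, s), ([], []))) ::
      (x.1, ((att cmp s (x.1.1 + a + 1) x.2.2.1, s), x.2.2)) :: rest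
  else x :: rest

def stp (e k a s : ℕ) (stk : List Frame) : List Frame :=
  List.casesOn stk [] (fun x rest => stpc kd cmp e k a s x rest)

end gen

/-! primitive recursiveness -/

lemma filt_p {α β : Type*} [Primcodable α] [Primcodable β] {f : α → List β} {p : α → β → Bool}
    (hf : Primrec f) (hp : Primrec₂ p) : Primrec (fun a => (f a).filter (p a)) := by
  have h1 : Primrec₂ (fun (a : α) (b : β) => bif p a b then some b else none) :=
    Primrec.cond hp (Primrec.option_some.comp Primrec.snd) (Primrec.const none)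
  refine (Primrec.listFilterMap hf h1).of_eq ?_
  intro a
  generalize f a = l
  induction l with
  | nil => rfl
  | cons b l ih =>
    rw [List.filterMap_cons, List.filter_cons]
    cases h : p a b
    · simp [ih]
    · simp [ih]

lemma rs_p : Primrec rs := by
  have h : Primrec₂ (fun (_ : List (ℕ × ℕ)) (z : (ℕ × ℕ) × ℕ) => z.1.2 + z.2) :=
    Primrec.nat_add.comp (Primrec.snd.comp (Primrec.fst.comp Primrec.snd))
      (Primrec.snd.comp Primrec.snd)
  exact Primrec.list_foldr Primrec.id (Primrec.const 0) h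

lemma sw_p : Primrec₂ sw := by
  have h : Primrec₂ (fun (q : ℕ × List (ℕ × ℕ)) (z : (ℕ × ℕ) × ℕ) =>
      2 ^ (q.1 - z.1.2) + z.2) :=
    Primrec.nat_add.comp (pow_p.comp (Primrec.nat_sub.comp (Primrec.fst.comp Primrec.fst)
      (Primrec.snd.comp (Primrec.fst.comp Primrec.snd)))) (Primrec.snd.comp Primrec.snd)
  exact Primrec.list_foldr (f := fun q : ℕ × List (ℕ × ℕ) => q.2) Primrec.snd
    (Primrec.const 0) h

lemma big_p : Primrec₂ big := by
  have l : Primrec (fun q : ℕ × List (ℕ × ℕ) => q.2) := Primrec.snd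
  have h1 := pow_p.comp (rs_p.comp l)
  have h2 := Primrec.nat_mul.comp (pow_p.comp (Primrec.fst (α := ℕ) (β := List (ℕ × ℕ))))
    (sw_p.comp (rs_p.comp l) l)
  exact (Primrec.nat_le.comp h1 h2).decide

attribute [local irreducible] big str evT

/-- descriptions along a string -/
noncomputable def kdL (β : List ℕ) (s m r : ℕ) : Bool :=
  open Classical in
  decide (∃ j ∈ List.range (s + 1), HitU (β.take j) (Encodable.encode (str s m)) r)

lemma kdL_p : Primrec (fun q : (List ℕ × ℕ) × (ℕ × ℕ) => kdL q.1.1 q.1.2 q.2.1 q.2.2) := by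
  classical
  have b : Primrec (fun z : ℕ × ((List ℕ × ℕ) × (ℕ × ℕ)) => z.2.1.1.take z.1) :=
    Primrec.list_take.comp Primrec.fst (Primrec.fst.comp (Primrec.fst.comp Primrec.snd))
  have s : Primrec (fun z : ℕ × ((List ℕ × ℕ) × (ℕ × ℕ)) =>
      Encodable.encode (str z.2.1.2 z.2.2.1)) :=
    Primrec.encode.comp (str_p.comp (Primrec.snd.comp (Primrec.fst.comp Primrec.snd))
      (Primrec.fst.comp (Primrec.snd.comp Primrec.snd)))
  have h1 : PrimrecRel (fun (j : ℕ) (q : (List ℕ × ℕ) × (ℕ × ℕ)) =>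
      HitU (q.1.1.take j) (Encodable.encode (str q.1.2 q.2.1)) q.2.2) :=
    HitU_p.comp ((b.pair s).pair (Primrec.snd.comp (Primrec.snd.comp Primrec.snd)))
  have h2 := h1.exists_mem_list.comp (Primrec.list_range.comp (Primrec.succ.comp
    (Primrec.snd.comp (Primrec.fst (α := List ℕ × ℕ) (β := ℕ × ℕ))))) Primrec.id
  refine h2.decide.of_eq ?_
  intro q
  unfold kdL
  simp only [id, Nat.succ_eq_add_one]
  congr

attribute [local irreducible] kdL

lemma newv_p : Primrec (fun q : (List ℕ × ℕ) × (ℕ × ℕ) =>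
    newv (kdL q.1.1) q.1.2 q.2.1 q.2.2) := by
  have h1 : Primrec₂ (fun (q : (List ℕ × ℕ) × (ℕ × ℕ)) (t' : ℕ) =>
      kdL q.1.1 t' q.2.1 q.2.2 && decide (str t' q.2.1 = str q.1.2 q.2.1)) := by
    have a1 : Primrec (fun z : ((List ℕ × ℕ) × (ℕ × ℕ)) × ℕ =>
        kdL z.1.1.1 z.2 z.1.2.1 z.1.2.2) :=
      kdL_p.comp (((Primrec.fst.comp (Primrec.fst.comp Primrec.fst)).pair Primrec.snd).pair
        (Primrec.snd.comp Primrec.fst))
    have m : Primrec (fun z : ((List ℕ × ℕ) × (ℕ × ℕ)) × ℕ => z.1.2.1) :=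
      Primrec.fst.comp (Primrec.snd.comp Primrec.fst)
    have a2 := (Primrec.eq.comp (str_p.comp Primrec.snd m)
      (str_p.comp (Primrec.snd.comp (Primrec.fst.comp Primrec.fst)) m)).decide
    exact Primrec.and.comp a1 a2
  have h2 := Primrec.list_length.comp (filt_p (Primrec.list_range.comp
    (Primrec.snd.comp (Primrec.fst (α := List ℕ × ℕ) (β := ℕ × ℕ)))) h1)
  have h3 := (Primrec.eq.comp h2 (Primrec.const 0)).decide
  exact Primrec.and.comp kdL_p h3

attribute [local irreducible] newv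

lemma cnt_p : Primrec (fun q : (List ℕ × ℕ) × (ℕ × ℕ) =>
    cnt (kdL q.1.1) q.1.2 q.2.1 q.2.2) := by
  have h1 : Primrec₂ (fun (q : (List ℕ × ℕ) × (ℕ × ℕ)) (t : ℕ) =>
      newv (kdL q.1.1) t q.2.1 q.2.2) :=
    newv_p.comp (((Primrec.fst.comp (Primrec.fst.comp Primrec.fst)).pair Primrec.snd).pair
        (Primrec.snd.comp Primrec.fst))
  exact Primrec.list_length.comp (filt_p (Primrec.list_range.comp (Primrec.succ.comp
    (Primrec.snd.comp (Primrec.fst (α := List ℕ × ℕ) (β := ℕ × ℕ))))) h1)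

attribute [local irreducible] cnt

variable {cmp : ℕ → ℕ → ℕ}

lemma valid_p (hc : Primrec₂ cmp) : Primrec₂ (valid cmp) := by
  have c : Primrec (fun q : ℕ × (ℕ × ℕ) => cmp q.2.2 q.2.1) :=
    hc.comp (Primrec.snd.comp Primrec.snd) (Primrec.fst.comp Primrec.snd)
  exact (Primrec.eq.comp (str_p.comp Primrec.fst c)
    (str_p.comp (Primrec.snd.comp Primrec.snd) c)).decide

attribute [local irreducible] valid

lemma EE_p : Primrec (fun q : (List ℕ × (ℕ × ℕ)) × (ℕ × List Rec) =>
    EE (kdL q.1.1) q.1.2.1 q.1.2.2 q.2.1 q.2.2) := by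
  have h1 : Primrec₂ (fun (q : (List ℕ × (ℕ × ℕ)) × (ℕ × List Rec)) (ρ : Rec) =>
      decide (q.2.1 ≤ cnt (kdL q.1.1) q.1.2.2 ρ.2.1 (ρ.2.2 + q.1.2.1))) := by
    have i : Primrec (fun z : ((List ℕ × (ℕ × ℕ)) × (ℕ × List Rec)) × Rec => z.1.2.1) :=
      Primrec.fst.comp (Primrec.snd.comp Primrec.fst)
    have b : Primrec (fun z : ((List ℕ × (ℕ × ℕ)) × (ℕ × List Rec)) × Rec => z.1.1.1) :=
      Primrec.fst.comp (Primrec.fst.comp Primrec.fst)
    have s : Primrec (fun z : ((List ℕ × (ℕ × ℕ)) × (ℕ × List Rec)) × Rec => z.1.1.2.2) :=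
      Primrec.snd.comp (Primrec.snd.comp (Primrec.fst.comp Primrec.fst))
    have e : Primrec (fun z : ((List ℕ × (ℕ × ℕ)) × (ℕ × List Rec)) × Rec => z.1.1.2.1) :=
      Primrec.fst.comp (Primrec.snd.comp (Primrec.fst.comp Primrec.fst))
    have m : Primrec (fun z : ((List ℕ × (ℕ × ℕ)) × (ℕ × List Rec)) × Rec => z.2.2.1) :=
      Primrec.fst.comp (Primrec.snd.comp Primrec.snd)
    have r : Primrec (fun z : ((List ℕ × (ℕ × ℕ)) × (ℕ × List Rec)) × Rec => z.2.2.2) :=
      Primrec.snd.comp (Primrec.snd.comp Primrec.snd)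
    have c := cnt_p.comp ((b.pair s).pair (m.pair (Primrec.nat_add.comp r e)))
    exact (Primrec.nat_le.comp i c).decide
  have h2 := filt_p (Primrec.snd.comp (Primrec.snd (α := List ℕ × (ℕ × ℕ))
    (β := ℕ × List Rec))) h1
  exact Primrec.list_map h2 (Primrec.snd.comp Primrec.snd).to₂

lemma pend_p (hc : Primrec₂ cmp) : Primrec (fun q : (List ℕ × (ℕ × ℕ)) × (ℕ × List Rec) =>
    pend (kdL q.1.1) cmp q.1.2.1 q.1.2.2 q.2.1 q.2.2) := by
  have h1 : Primrec₂ (fun (q : (List ℕ × (ℕ × ℕ)) × (ℕ × List Rec)) (ρ : Rec) =>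
      !(valid cmp q.1.2.2 ρ.1) &&
      decide (cnt (kdL q.1.1) q.1.2.2 ρ.2.1 (ρ.2.2 + q.1.2.1) < q.2.1)) := by
    have i : Primrec (fun z : ((List ℕ × (ℕ × ℕ)) × (ℕ × List Rec)) × Rec => z.1.2.1) :=
      Primrec.fst.comp (Primrec.snd.comp Primrec.fst)
    have b : Primrec (fun z : ((List ℕ × (ℕ × ℕ)) × (ℕ × List Rec)) × Rec => z.1.1.1) :=
      Primrec.fst.comp (Primrec.fst.comp Primrec.fst)
    have s : Primrec (fun z : ((List ℕ × (ℕ × ℕ)) × (ℕ × List Rec)) × Rec => z.1.1.2.2) :=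
      Primrec.snd.comp (Primrec.snd.comp (Primrec.fst.comp Primrec.fst))
    have e : Primrec (fun z : ((List ℕ × (ℕ × ℕ)) × (ℕ × List Rec)) × Rec => z.1.1.2.1) :=
      Primrec.fst.comp (Primrec.snd.comp (Primrec.fst.comp Primrec.fst))
    have m : Primrec (fun z : ((List ℕ × (ℕ × ℕ)) × (ℕ × List Rec)) × Rec => z.2.2.1) :=
      Primrec.fst.comp (Primrec.snd.comp Primrec.snd)
    have r : Primrec (fun z : ((List ℕ × (ℕ × ℕ)) × (ℕ × List Rec)) × Rec => z.2.2.2) :=
      Primrec.snd.comp (Primrec.snd.comp Primrec.snd)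
    have c := cnt_p.comp ((b.pair s).pair (m.pair (Primrec.nat_add.comp r e)))
    exact Primrec.and.comp (Primrec.not.comp ((valid_p hc).comp s
      (Primrec.fst.comp Primrec.snd))) (Primrec.nat_lt.comp c i).decide
  have h2 := Primrec.list_length.comp (filt_p (Primrec.snd.comp (Primrec.snd
    (α := List ℕ × (ℕ × ℕ)) (β := ℕ × List Rec))) h1)
  have h3 := (Primrec.eq.comp h2 (Primrec.const 0)).not.decide
  exact h3

lemma nfilt_p (hc : Primrec₂ cmp) : Primrec (fun q : (ℕ × ℕ) × List Rec =>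
    nfilt cmp q.1.1 q.1.2 q.2) := by
  have h1 : Primrec₂ (fun (q : (ℕ × ℕ) × List Rec) (ρ : Rec) =>
      decide (ρ.1.1 = q.1.2) && valid cmp q.1.1 ρ.1) := by
    have n : Primrec (fun z : ((ℕ × ℕ) × List Rec) × Rec => z.1.1.2) :=
      Primrec.snd.comp (Primrec.fst.comp Primrec.fst)
    have s : Primrec (fun z : ((ℕ × ℕ) × List Rec) × Rec => z.1.1.1) :=
      Primrec.fst.comp (Primrec.fst.comp Primrec.fst)
    exact Primrec.and.comp (Primrec.eq.comp (Primrec.fst.comp (Primrec.fst.comp Primrec.snd))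
      n).decide ((valid_p hc).comp s (Primrec.fst.comp Primrec.snd))
  have h2 := filt_p (Primrec.snd (α := ℕ × ℕ) (β := List Rec)) h1
  exact Primrec.list_map h2 (Primrec.snd.comp Primrec.snd).to₂

attribute [local irreducible] EE pend nfilt

lemma att_p (hc : Primrec₂ cmp) : Primrec (fun q : (ℕ × ℕ) × List Rec =>
    att cmp q.1.1 q.1.2 q.2) := by
  have h1 : Primrec₂ (fun (q : (ℕ × ℕ) × List Rec) (n : ℕ) =>
      decide (cmp q.1.1 n ≤ q.1.1) && !(big (q.1.2 + n) (nfilt cmp q.1.1 n q.2))) := by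
    have s : Primrec (fun z : ((ℕ × ℕ) × List Rec) × ℕ => z.1.1.1) :=
      Primrec.fst.comp (Primrec.fst.comp Primrec.fst)
    have g : Primrec (fun z : ((ℕ × ℕ) × List Rec) × ℕ => z.1.1.2) :=
      Primrec.snd.comp (Primrec.fst.comp Primrec.fst)
    have a1 := (Primrec.nat_le.comp (hc.comp s Primrec.snd) s).decide
    have a2 := big_p.comp (Primrec.nat_add.comp g Primrec.snd)
      ((nfilt_p hc).comp ((s.pair Primrec.snd).pair (Primrec.snd.comp Primrec.fst)))
    exact Primrec.and.comp a1 (Primrec.not.comp a2)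
  exact Primrec.list_findIdx (Primrec.list_range.comp (Primrec.succ.comp
    (Primrec.fst.comp (Primrec.fst (α := ℕ × ℕ) (β := List Rec))))) h1

lemma ret_p (hc : Primrec₂ cmp) : Primrec (fun q :
    (ℕ × (List (ℕ × ℕ) × List (ℕ × ℕ))) × Frame => ret cmp q.1.1 q.1.2.1 q.1.2.2 q.2) := by
  have s : Primrec (fun q : (ℕ × (List (ℕ × ℕ) × List (ℕ × ℕ))) × Frame => q.1.1) :=
    Primrec.fst.comp Primrec.fst
  have D : Primrec (fun q : (ℕ × (List (ℕ × ℕ) × List (ℕ × ℕ))) × Frame => q.1.2.1) :=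
    Primrec.fst.comp (Primrec.snd.comp Primrec.fst)
  have Q : Primrec (fun q : (ℕ × (List (ℕ × ℕ) × List (ℕ × ℕ))) × Frame => q.1.2.2) :=
    Primrec.snd.comp (Primrec.snd.comp Primrec.fst)
  have y1 : Primrec (fun q : (ℕ × (List (ℕ × ℕ) × List (ℕ × ℕ))) × Frame => q.2.1) :=
    Primrec.fst.comp Primrec.snd
  have y2 : Primrec (fun q : (ℕ × (List (ℕ × ℕ) × List (ℕ × ℕ))) × Frame => q.2.2.1) :=
    Primrec.fst.comp (Primrec.snd.comp Primrec.snd)
  have y3 : Primrec (fun q : (ℕ × (List (ℕ × ℕ) × List (ℕ × ℕ))) × Frame => q.2.2.2.1) :=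
    Primrec.fst.comp (Primrec.snd.comp (Primrec.snd.comp Primrec.snd))
  have y4 : Primrec (fun q : (ℕ × (List (ℕ × ℕ) × List (ℕ × ℕ))) × Frame => q.2.2.2.2) :=
    Primrec.snd.comp (Primrec.snd.comp (Primrec.snd.comp Primrec.snd))
  have v := (valid_p hc).comp s y2
  have m : Primrec (fun q : (ℕ × (List (ℕ × ℕ) × List (ℕ × ℕ))) × Frame =>
      q.1.2.1.map (fun d => (q.2.2.1, d))) := by
    have h : Primrec₂ (fun (q : (ℕ × (List (ℕ × ℕ) × List (ℕ × ℕ))) × Frame) (d : ℕ × ℕ) =>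
        (q.2.2.1, d)) := (y2.comp Primrec.fst).pair Primrec.snd
    exact Primrec.list_map D h
  have a1 := y1.pair (y2.pair ((Primrec.list_append.comp m y3).pair
    (Primrec.list_append.comp Q y4)))
  have a2 := ((Primrec.fst.comp y1).pair (Primrec.succ.comp (Primrec.snd.comp y1))).pair
    (y2.pair (y3.pair (Primrec.list_append.comp Q y4)))
  exact Primrec.cond v a1 a2

attribute [local irreducible] att ret

lemma pop_p (hc : Primrec₂ cmp) : Primrec (fun q :
    (ℕ × (List (ℕ × ℕ) × List (ℕ × ℕ))) × (Frame × List Frame) =>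
    pop cmp q.1.1 q.1.2.1 q.1.2.2 q.2.1 q.2.2) := by
  have h1 : Primrec₂ (fun (q : (ℕ × (List (ℕ × ℕ) × List (ℕ × ℕ))) × (Frame × List Frame))
      (z : Frame × List Frame) => ret cmp q.1.1 q.1.2.1 q.1.2.2 z.1 :: z.2) := by
    have a1 := (ret_p hc).comp ((Primrec.fst.comp (Primrec.fst
      (α := (ℕ × (List (ℕ × ℕ) × List (ℕ × ℕ))) × (Frame × List Frame))
      (β := Frame × List Frame))).pair (Primrec.fst.comp Primrec.snd))
    exact Primrec.list_cons.comp a1 (Primrec.snd.comp Primrec.snd)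
  have h2 := Primrec.list_casesOn (f := fun q : (ℕ × (List (ℕ × ℕ) × List (ℕ × ℕ))) ×
      (Frame × List Frame) => q.2.2) (g := fun q => [q.2.1])
    (h := fun q z => ret cmp q.1.1 q.1.2.1 q.1.2.2 z.1 :: z.2)
    (Primrec.snd.comp Primrec.snd)
    (Primrec.list_cons.comp (Primrec.fst.comp Primrec.snd) (Primrec.const [])) h1
  exact h2

attribute [local irreducible] pop

lemma stpc_p (hc : Primrec₂ cmp) : Primrec (fun q :
    (List ℕ × ((ℕ × ℕ) × (ℕ × ℕ))) × (Frame × List Frame) =>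
    stpc (kdL q.1.1) cmp q.1.2.1.1 q.1.2.1.2 q.1.2.2.1 q.1.2.2.2 q.2.1 q.2.2) := by
  have b : Primrec (fun q : (List ℕ × ((ℕ × ℕ) × (ℕ × ℕ))) × (Frame × List Frame) => q.1.1) :=
    Primrec.fst.comp Primrec.fst
  have e : Primrec (fun q : (List ℕ × ((ℕ × ℕ) × (ℕ × ℕ))) × (Frame × List Frame) =>
      q.1.2.1.1) := Primrec.fst.comp (Primrec.fst.comp (Primrec.snd.comp Primrec.fst))
  have k : Primrec (fun q : (List ℕ × ((ℕ × ℕ) × (ℕ × ℕ))) × (Frame × List Frame) =>
      q.1.2.1.2) := Primrec.snd.comp (Primrec.fst.comp (Primrec.snd.comp Primrec.fst))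
  have a : Primrec (fun q : (List ℕ × ((ℕ × ℕ) × (ℕ × ℕ))) × (Frame × List Frame) =>
      q.1.2.2.1) := Primrec.fst.comp (Primrec.snd.comp (Primrec.snd.comp Primrec.fst))
  have s : Primrec (fun q : (List ℕ × ((ℕ × ℕ) × (ℕ × ℕ))) × (Frame × List Frame) =>
      q.1.2.2.2) := Primrec.snd.comp (Primrec.snd.comp (Primrec.snd.comp Primrec.fst))
  have x : Primrec (fun q : (List ℕ × ((ℕ × ℕ) × (ℕ × ℕ))) × (Frame × List Frame) =>
      q.2.1) := Primrec.fst.comp Primrec.snd
  have rest : Primrec (fun q : (List ℕ × ((ℕ × ℕ) × (ℕ × ℕ))) × (Frame × List Frame) =>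
      q.2.2) := Primrec.snd.comp Primrec.snd
  have x1 := Primrec.fst.comp x
  have g := Primrec.fst.comp x1
  have f := Primrec.snd.comp x1
  have x2 := Primrec.snd.comp x
  have t := Primrec.snd.comp (Primrec.fst.comp x2)
  have x22 := Primrec.snd.comp x2
  have R := Primrec.fst.comp x22
  have Q := Primrec.snd.comp x22
  have len := Primrec.list_length.comp rest
  have c1 := (Primrec.nat_le.comp k (Primrec.succ.comp len)).decide
  have c2 := kdL_p.comp ((b.pair s).pair (t.pair (Primrec.nat_add.comp g e)))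
  have one := Primrec.list_cons.comp (t.pair g) (Primrec.const ([] : List (ℕ × ℕ)))
  have p1 := (pop_p hc).comp ((s.pair (one.pair one)).pair (x.pair rest))
  have same := Primrec.list_cons.comp x rest
  have i := Primrec.nat_sub.comp k len
  have E := EE_p.comp ((b.pair (e.pair s)).pair (i.pair R))
  have c3 := big_p.comp g E
  have p2 := (pop_p hc).comp ((s.pair (E.pair Q)).pair (x.pair rest))
  have c4 := (pend_p hc).comp ((b.pair (e.pair s)).pair (i.pair R))
  have ga := Primrec.succ.comp (Primrec.nat_add.comp g a)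
  have at' := (att_p hc).comp ((s.pair ga).pair R)
  have c5 := (Primrec.nat_le.comp at' s).decide
  have new1 := ((Primrec.nat_add.comp (Primrec.nat_add.comp ga at') f).pair
    (Primrec.const 0)).pair (((Primrec.const 0).pair s).pair
    (Primrec.const (([], []) : List Rec × List (ℕ × ℕ))))
  have new2 := x1.pair ((at'.pair s).pair x22)
  have p3 := Primrec.list_cons.comp new1 (Primrec.list_cons.comp new2 rest)
  have h := Primrec.cond c1 (Primrec.cond c2 p1 same) (Primrec.cond c3 p2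
    (Primrec.cond c4 same (Primrec.cond c5 p3 same)))
  exact h.of_eq (by intro q; rfl)

attribute [local irreducible] stpc

lemma stp_p (hc : Primrec₂ cmp) : Primrec (fun q :
    (List ℕ × ((ℕ × ℕ) × (ℕ × ℕ))) × List Frame =>
    stp (kdL q.1.1) cmp q.1.2.1.1 q.1.2.1.2 q.1.2.2.1 q.1.2.2.2 q.2) := by
  have h1 : Primrec₂ (fun (q : (List ℕ × ((ℕ × ℕ) × (ℕ × ℕ))) × List Frame)
      (z : Frame × List Frame) =>
      stpc (kdL q.1.1) cmp q.1.2.1.1 q.1.2.1.2 q.1.2.2.1 q.1.2.2.2 z.1 z.2) :=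
    (stpc_p hc).comp ((Primrec.fst.comp Primrec.fst).pair Primrec.snd)
  have h2 := Primrec.list_casesOn (f := fun q : (List ℕ × ((ℕ × ℕ) × (ℕ × ℕ))) × List Frame =>
      q.2) (g := fun _ => ([] : List Frame))
    (h := fun q z => stpc (kdL q.1.1) cmp q.1.2.1.1 q.1.2.1.2 q.1.2.2.1 q.1.2.2.2 z.1 z.2)
    Primrec.snd (Primrec.const []) h1
  exact h2

attribute [local irreducible] stp

def kE (e : ℕ) : ℕ := 2 ^ (e + 1) + 1

def aE (e : ℕ) : ℕ := kE e + 3

lemma kE_p : Primrec kE := Primrec.succ.comp (pow_p.comp Primrec.succ)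

lemma aE_p : Primrec aE := Primrec.nat_add.comp kE_p (Primrec.const 3)

def init : List Frame := [((1, 0), ((0, 0), ([], [])))]

noncomputable def runL (cmp : ℕ → ℕ → ℕ) (β : List ℕ) (e s : ℕ) : List Frame :=
  Nat.rec init (fun s stk => stp (kdL β) cmp e (kE e) (aE e) s stk) s

lemma runL_p (hc : Primrec₂ cmp) : Primrec (fun q : (List ℕ × ℕ) × ℕ =>
    runL cmp q.1.1 q.1.2 q.2) := by
  have h1 : Primrec₂ (fun (q : (List ℕ × ℕ) × ℕ) (z : ℕ × List Frame) =>
      stp (kdL q.1.1) cmp q.1.2 (kE q.1.2) (aE q.1.2) z.1 z.2) := by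
    have b : Primrec (fun q : ((List ℕ × ℕ) × ℕ) × (ℕ × List Frame) => q.1.1.1) :=
      Primrec.fst.comp (Primrec.fst.comp Primrec.fst)
    have e : Primrec (fun q : ((List ℕ × ℕ) × ℕ) × (ℕ × List Frame) => q.1.1.2) :=
      Primrec.snd.comp (Primrec.fst.comp Primrec.fst)
    have s : Primrec (fun q : ((List ℕ × ℕ) × ℕ) × (ℕ × List Frame) => q.2.1) :=
      Primrec.fst.comp Primrec.snd
    have st : Primrec (fun q : ((List ℕ × ℕ) × ℕ) × (ℕ × List Frame) => q.2.2) :=
      Primrec.snd.comp Primrec.snd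
    exact (stp_p hc).comp ((b.pair ((e.pair (kE_p.comp e)).pair ((aE_p.comp e).pair s))).pair st)
  have h2 := Primrec.nat_rec' (f := fun q : (List ℕ × ℕ) × ℕ => q.2) (g := fun _ => init)
    Primrec.snd (Primrec.const init) h1
  exact h2

/-- all requests made so far -/
def tot (k : ℕ) (stk : List Frame) : List (ℕ × ℕ) :=
  (List.casesOn stk [] (fun x rest =>
    bif decide (k ≤ rest.length + 1) then [(x.2.1.2, x.1.1)] else []) : List (ℕ × ℕ)) ++
  (stk.map (fun x => x.2.2.2)).flatten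

lemma tot_p : Primrec₂ tot := by
  have h1 : Primrec₂ (fun (q : ℕ × List Frame) (z : Frame × List Frame) =>
      bif decide (q.1 ≤ z.2.length + 1) then [(z.1.2.1.2, z.1.1.1)] else []) := by
    have c := (Primrec.nat_le.comp (Primrec.fst.comp (Primrec.fst (α := ℕ × List Frame)
      (β := Frame × List Frame))) (Primrec.succ.comp (Primrec.list_length.comp
      (Primrec.snd.comp Primrec.snd)))).decide
    have x : Primrec (fun q : (ℕ × List Frame) × (Frame × List Frame) => q.2.1) :=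
      Primrec.fst.comp Primrec.snd
    have t := Primrec.snd.comp (Primrec.fst.comp (Primrec.snd.comp x))
    have g := Primrec.fst.comp (Primrec.fst.comp x)
    exact Primrec.cond c (Primrec.list_cons.comp (t.pair g) (Primrec.const [])) (Primrec.const [])
  have h2 := Primrec.list_casesOn (f := fun q : ℕ × List Frame => q.2)
    (g := fun _ => ([] : List (ℕ × ℕ)))
    (h := fun q z => bif decide (q.1 ≤ z.2.length + 1) then [(z.1.2.1.2, z.1.1.1)] else [])
    Primrec.snd (Primrec.const []) h1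
  have h3 : Primrec (fun q : ℕ × List Frame => (q.2.map (fun x => x.2.2.2)).flatten) := by
    have h : Primrec₂ (fun (_ : ℕ × List Frame) (x : Frame) => x.2.2.2) :=
      Primrec.snd.comp (Primrec.snd.comp (Primrec.snd.comp Primrec.snd))
    exact Primrec.list_flatten.comp (Primrec.list_map Primrec.snd h)
  exact Primrec.list_append.comp h2 h3

/-- the use function of the functional with index `ix` -/
def cmpc (ix s n : ℕ) : ℕ :=
  (List.range (s + 1)).findIdx (fun w =>
    decide (evT w.unpair.2 ix ((str s w.unpair.1).map Bool.toNat) n ≠ 0))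

def valc (ix s n : ℕ) : ℕ :=
  evT (cmpc ix s n).unpair.2 ix ((str s (cmpc ix s n).unpair.1).map Bool.toNat) n

lemma toNat_p : Primrec Bool.toNat := by
  refine (Primrec.cond Primrec.id (Primrec.const 1) (Primrec.const 0)).of_eq ?_
  intro b
  cases b <;> rfl

lemma cmpc_p (ix : ℕ) : Primrec₂ (cmpc ix) := by
  have h1 : Primrec₂ (fun (q : ℕ × ℕ) (w : ℕ) =>
      decide (evT w.unpair.2 ix ((str q.1 w.unpair.1).map Bool.toNat) q.2 ≠ 0)) := by
    have w2 : Primrec (fun z : (ℕ × ℕ) × ℕ => z.2.unpair.2) :=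
      Primrec.snd.comp (Primrec.unpair.comp Primrec.snd)
    have w1 : Primrec (fun z : (ℕ × ℕ) × ℕ => z.2.unpair.1) :=
      Primrec.fst.comp (Primrec.unpair.comp Primrec.snd)
    have a := Primrec.list_map (str_p.comp (Primrec.fst.comp Primrec.fst) w1)
      (toNat_p.comp Primrec.snd).to₂
    have b := evT_p.comp ((w2.pair (Primrec.const ix)).pair (a.pair
      (Primrec.snd.comp Primrec.fst)))
    exact (Primrec.eq.comp b (Primrec.const 0)).not.decide
  exact Primrec.list_findIdx (Primrec.list_range.comp (Primrec.succ.comp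
    (Primrec.fst (α := ℕ) (β := ℕ)))) h1

attribute [local irreducible] cmpc

lemma valc_p (ix : ℕ) : Primrec₂ (valc ix) := by
  have c : Primrec (fun q : ℕ × ℕ => cmpc ix q.1 q.2) := cmpc_p ix
  have w2 := Primrec.snd.comp (Primrec.unpair.comp c)
  have w1 := Primrec.fst.comp (Primrec.unpair.comp c)
  have a := Primrec.list_map (str_p.comp Primrec.fst w1) (toNat_p.comp Primrec.snd).to₂
  exact evT_p.comp ((w2.pair (Primrec.const ix)).pair (a.pair Primrec.snd))

end Pool.Agent.Helper743.GR
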