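import Pool.Agent.Helper743.GRTot

set_option autoImplicit false

/-! A sequential golden run construction: the golden run. -/

namespace Pool.Agent.Helper743.GR

open Nat.Partrec (Code)
open Filter
open Pool.Agent.Helper743.AC (hl str)
open Pool.Agent.Helper743.PR (findIdx_range)

section gen

variable {kd : ℕ → ℕ → ℕ → Bool} {cmp : ℕ → ℕ → ℕ} {e k : ℕ}

lemma step_at (hk : 2 ≤ k) {s : ℕ} {x : Frame} {rest : List Frame}
    (h : run kd cmp e k (k + 3) s = x :: rest) :
    Inv kd cmp e k (k + 3) s x rest ∧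
      Step kd cmp e k (k + 3) s x rest (run kd cmp e k (k + 3) (s + 1)) := by
  obtain ⟨x', rest', h1, h2⟩ := run_inv kd cmp e k hk s
  rw [h] at h1
  obtain ⟨rfl, rfl⟩ := List.cons.inj h1
  refine ⟨h2, ?_⟩
  rw [run_succ, h]
  exact stp_Step s x rest

lemma ret_g (s : ℕ) (D Q : List (ℕ × ℕ)) (y : Frame) : (ret cmp s D Q y).1.1 = y.1.1 := by
  unfold ret
  cases valid cmp s y.2.1 <;> rfl

lemma ret_R (s : ℕ) (D Q : List (ℕ × ℕ)) (y : Frame) :
    y.2.2.1 <:+ (ret cmp s D Q y).2.2.1 := by
  unfold ret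
  cases valid cmp s y.2.1
  · exact List.suffix_refl _
  · exact List.suffix_append _ _

lemma track (hk : 2 ≤ k) {base : List Frame} {x0 : Frame} {u0 u : ℕ}
    (h0 : run kd cmp e k (k + 3) u0 = x0 :: base) (hu : u0 ≤ u)
    (hh : ∀ v, u0 ≤ v → v ≤ u → base.length + 1 ≤ (run kd cmp e k (k + 3) v).length) :
    ∃ above x, run kd cmp e k (k + 3) u = above ++ x :: base ∧ x.1.1 = x0.1.1 ∧
      x0.2.2.1 <:+ x.2.2.1 := by
  induction u, hu using Nat.le_induction with
  | base => exact ⟨[], x0, h0, rfl, List.suffix_refl _⟩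
  | succ m hm ih =>
    obtain ⟨above, x, h1, h2, h3⟩ := ih (fun v hv1 hv2 => hh v hv1 (by omega))
    have hl := hh (m + 1) (by omega) (le_refl _)
    cases above with
    | nil =>
      rw [List.nil_append] at h1
      obtain ⟨-, hs⟩ := step_at hk h1
      generalize run kd cmp e k (k + 3) (m + 1) = stk at hs hl ⊢
      cases hs with
      | ret1 y rest' hr _ _ =>
        subst hr
        simp only [List.length_cons] at hl
        omega
      | ret2 y rest' hr _ _ =>
        subst hr
        simp only [List.length_cons] at hl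
        omega
      | push _ _ _ _ => exact ⟨[_], _, rfl, h2, h3⟩
      | wait1 _ _ => exact ⟨[], x, rfl, h2, h3⟩
      | deg _ _ => exact ⟨[], x, rfl, h2, h3⟩
      | fin _ _ _ => exact ⟨[], x, rfl, h2, h3⟩
      | wait2 _ _ _ => exact ⟨[], x, rfl, h2, h3⟩
      | idle _ _ _ _ => exact ⟨[], x, rfl, h2, h3⟩
    | cons z above =>
      rw [List.cons_append] at h1
      obtain ⟨-, hs⟩ := step_at hk h1
      have hret : ∀ (y : Frame) (rest' : List Frame) (D Q : List (ℕ × ℕ)),
          above ++ x :: base = y :: rest' →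
          ∃ above' x', ret cmp m D Q y :: rest' = above' ++ x' :: base ∧ x'.1.1 = x0.1.1 ∧
            x0.2.2.1 <:+ x'.2.2.1 := by
        intro y rest' D Q hr
        cases above with
        | nil =>
          rw [List.nil_append] at hr
          obtain ⟨rfl, rfl⟩ := List.cons.inj hr
          exact ⟨[], _, rfl, by rw [ret_g]; exact h2, h3.trans (ret_R _ _ _ _)⟩
        | cons w above =>
          rw [List.cons_append] at hr
          obtain ⟨rfl, rfl⟩ := List.cons.inj hr
          exact ⟨_ :: above, x, rfl, h2, h3⟩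
      generalize run kd cmp e k (k + 3) (m + 1) = stk at hs hl ⊢
      cases hs with
      | ret1 y rest' hr _ _ => exact hret y rest' _ _ hr
      | ret2 y rest' hr _ _ => exact hret y rest' _ _ hr
      | push _ _ _ _ => exact ⟨_ :: _ :: above, x, rfl, h2, h3⟩
      | wait1 _ _ => exact ⟨z :: above, x, rfl, h2, h3⟩
      | deg _ _ => exact ⟨z :: above, x, rfl, h2, h3⟩
      | fin _ _ _ => exact ⟨z :: above, x, rfl, h2, h3⟩
      | wait2 _ _ _ => exact ⟨z :: above, x, rfl, h2, h3⟩
      | idle _ _ _ _ => exact ⟨z :: above, x, rfl, h2, h3⟩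

lemma drop_step (hk : 2 ≤ k) {u : ℕ} {z : Frame} {rest : List Frame}
    (h : run kd cmp e k (k + 3) u = z :: rest)
    (hl : (run kd cmp e k (k + 3) (u + 1)).length < rest.length + 1) :
    ∃ y rest' D Q, rest = y :: rest' ∧
      run kd cmp e k (k + 3) (u + 1) = ret cmp u D Q y :: rest' ∧ (1/2) ^ z.1.1 ≤ WW D := by
  obtain ⟨-, hs⟩ := step_at hk h
  generalize run kd cmp e k (k + 3) (u + 1) = stk at hs hl ⊢
  cases hs with
  | ret1 y rest' hr _ _ => exact ⟨y, rest', _, _, hr, rfl, by simp⟩
  | ret2 y rest' hr _ hb => exact ⟨y, rest', _, _, hr, rfl, (big_iff _ _).1 hb⟩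
  | push _ _ _ _ => simp only [List.length_cons] at hl; omega
  | wait1 _ _ => simp only [List.length_cons] at hl; omega
  | deg _ _ => simp only [List.length_cons] at hl; omega
  | fin _ _ _ => simp only [List.length_cons] at hl; omega
  | wait2 _ _ _ => simp only [List.length_cons] at hl; omega
  | idle _ _ _ _ => simp only [List.length_cons] at hl; omega

lemma len_step (hk : 2 ≤ k) (u : ℕ) : (run kd cmp e k (k + 3) u).length ≤
    (run kd cmp e k (k + 3) (u + 1)).length + 1 := by
  obtain ⟨x, rest, h, -⟩ := run_inv kd cmp e k hk u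
  by_contra hl
  push Not at hl
  rw [h, List.length_cons] at hl
  obtain ⟨y, rest', D, Q, h1, h2, -⟩ := drop_step hk h (by omega)
  rw [h2, h1] at hl
  simp only [List.length_cons] at hl
  omega

lemma first_return (hk : 2 ≤ k) {base : List Frame} {x z : Frame} {u0 s' : ℕ}
    (h0 : run kd cmp e k (k + 3) u0 = z :: x :: base) (hs : u0 ≤ s')
    (htop : (run kd cmp e k (k + 3) s').length ≤ base.length + 1) :
    ∃ u, u0 ≤ u ∧ u < s' ∧ ∃ D Q, run kd cmp e k (k + 3) (u + 1) = ret cmp u D Q x :: base ∧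
      (1/2) ^ z.1.1 ≤ WW D := by
  classical
  have hex : ∃ v, (run kd cmp e k (k + 3) (u0 + v)).length ≤ base.length + 1 :=
    ⟨s' - u0, by rw [Nat.add_sub_cancel' hs]; exact htop⟩
  have hf := Nat.find_spec hex
  have hm := fun v (hv : v < Nat.find hex) => Nat.find_min hex hv
  have hle : Nat.find hex ≤ s' - u0 := Nat.find_min' hex
    (by rw [Nat.add_sub_cancel' hs]; exact htop)
  generalize Nat.find hex = w at hf hm hle
  have hw0 : w ≠ 0 := by
    intro h
    subst h
    have hf' : (run kd cmp e k (k + 3) u0).length ≤ base.length + 1 := hf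
    rw [h0] at hf'
    simp only [List.length_cons] at hf'
    omega
  obtain ⟨v, rfl⟩ : ∃ v, w = v + 1 := ⟨w - 1, by omega⟩
  obtain ⟨above, w', h1, h2, -⟩ := track hk (u := u0 + v) h0 (Nat.le_add_right _ _) (by
    intro v' hv1 hv2
    have h := hm (v' - u0) (by omega)
    rw [Nat.add_sub_cancel' hv1] at h
    simp only [List.length_cons]
    omega)
  have h3 := len_step (kd := kd) (cmp := cmp) (e := e) hk (u0 + v)
  have h4 : above = [] := by
    rw [h1, List.length_append] at h3
    simp only [List.length_cons] at h3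
    have h5 : (run kd cmp e k (k + 3) (u0 + v + 1)).length ≤ base.length + 1 := hf
    apply List.eq_nil_of_length_eq_zero
    omega
  subst h4
  rw [List.nil_append] at h1
  obtain ⟨y, rest', D, Q, h5, h6, h7⟩ := drop_step hk h1 (by
    have h5 : (run kd cmp e k (k + 3) (u0 + v + 1)).length ≤ base.length + 1 := hf
    simp only [List.length_cons]
    omega)
  obtain ⟨rfl, rfl⟩ := List.cons.inj h5
  rw [h2] at h7
  exact ⟨u0 + v, Nat.le_add_right _ _, by omega, D, Q, h6, h7⟩

variable (kd cmp e) in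
lemma exists_golden (hk : 2 ≤ k) : ∃ s0 x0 base, run kd cmp e k (k + 3) s0 = x0 :: base ∧
    (∀ v, s0 ≤ v → base.length + 1 ≤ (run kd cmp e k (k + 3) v).length) ∧
    ∀ N, ∃ s, N ≤ s ∧ (run kd cmp e k (k + 3) s).length = base.length + 1 := by
  classical
  have hex : ∃ H, ∃ᶠ s in atTop, (run kd cmp e k (k + 3) s).length ≤ H + 1 := by
    refine ⟨k, Eventually.frequently (Eventually.of_forall (fun s => ?_))⟩
    obtain ⟨x, rest, h, hi⟩ := run_inv kd cmp e k hk s
    rw [h, List.length_cons]
    have := hi.len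
    omega
  have hf := Nat.find_spec hex
  have hm := fun v (hv : v < Nat.find hex) => Nat.find_min hex hv
  set H := Nat.find hex with hH
  have hev : ∀ᶠ s in atTop, H + 1 ≤ (run kd cmp e k (k + 3) s).length := by
    rcases Nat.eq_zero_or_pos H with h0 | h0
    · refine Eventually.of_forall (fun s => ?_)
      obtain ⟨x, rest, h, -⟩ := run_inv kd cmp e k hk s
      rw [h, List.length_cons]
      omega
    · have h1 := hm (H - 1) (by omega)
      rw [not_frequently] at h1
      filter_upwards [h1] with s hs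
      omega
  have hfr : ∃ᶠ s in atTop, (run kd cmp e k (k + 3) s).length = H + 1 :=
    (hf.and_eventually hev).mono (fun s hs => le_antisymm hs.1 hs.2)
  obtain ⟨N, hN⟩ := eventually_atTop.1 hev
  obtain ⟨s0, hs0, hl⟩ := frequently_atTop.1 hfr N
  obtain ⟨x0, base, h, -⟩ := run_inv kd cmp e k hk s0
  rw [h, List.length_cons] at hl
  have hb : base.length = H := by omega
  refine ⟨s0, x0, base, h, fun v hv => ?_, fun M => ?_⟩
  · rw [hb]; exact hN v (by omega)
  · obtain ⟨s, hs, h1⟩ := frequently_atTop.1 hfr M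
    exact ⟨s, hs, by rw [hb]; exact h1⟩

lemma pend_false {s i : ℕ} {x : Frame} (hx : FI kd cmp e (k + 3) s i x)
    (h : ∀ ρ ∈ x.2.2.1, kd s ρ.2.1 (ρ.2.2 + e) = true) :
    pend kd cmp e s i x.2.2.1 = false := by
  unfold pend
  rw [decide_eq_false_iff_not, not_not, List.length_eq_zero_iff, List.filter_eq_nil_iff]
  intro ρ hρ hb
  rw [Bool.and_eq_true, Bool.not_eq_true', decide_eq_true_eq] at hb
  obtain ⟨h1, h2, h3, c, h4, h5, h6, h7⟩ := hx.rc ρ hρ
  obtain ⟨⟨n, t⟩, ⟨m, r⟩⟩ := ρ
  simp only at *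
  have hne : str s m ≠ str c m := by
    intro he
    have h8 := valid_iff.1 h6
    have h9 : valid cmp s (n, t) = true := by
      rw [valid_iff, ← h8]
      exact str_le (by omega) he
    rw [h9] at hb
    exact absurd hb.1 (by simp)
  have h8 := cnt_incr h5 hne (h _ hρ)
  simp only at h8
  omega

end gen

end Pool.Agent.Helper743.GR
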