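import Pool.Agent.Helper743.GRDefs

set_option autoImplicit false

/-! A sequential golden run construction: weights and invariants. -/

namespace Pool.Agent.Helper743.GR

open Nat.Partrec (Code)
open Filter
open Pool.Agent.Helper743.AC (hl str)

/-! strings -/

lemma hl_mono {p s t : ℕ} (h : s ≤ t) (hs : hl p s = true) : hl p t = true :=
  PR.hlt'_mono h hs

lemma str_eq_iff {s t w : ℕ} : str s w = str t w ↔ ∀ p, p < w → hl p s = hl p t := by
  unfold str
  rw [List.map_inj_left]
  constructor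
  · intro h p hp
    exact h p (List.mem_range.2 hp)
  · intro h p hp
    exact h p (List.mem_range.1 hp)

lemma str_mid {s s' s'' w : ℕ} (h1 : s ≤ s') (h2 : s' ≤ s'') (h : str s w = str s'' w) :
    str s' w = str s w := by
  rw [str_eq_iff] at *
  intro p hp
  have h3 := h p hp
  cases h4 : hl p s with
  | true => exact hl_mono h1 h4
  | false =>
    rw [h4] at h3
    cases h5 : hl p s' with
    | false => rfl
    | true =>
      have h6 := hl_mono h2 h5
      rw [← h3] at h6
      exact absurd h6 (by simp)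

lemma str_le {s t w w' : ℕ} (hw : w' ≤ w) (h : str s w = str t w) : str s w' = str t w' := by
  rw [str_eq_iff] at *
  exact fun p hp => h p (lt_of_lt_of_le hp hw)

/-! weights -/

noncomputable def WW (l : List (ℕ × ℕ)) : ℝ := (l.map (fun p => (1/2 : ℝ) ^ p.2)).sum

@[simp] lemma WW_nil : WW [] = 0 := rfl

@[simp] lemma WW_cons (p : ℕ × ℕ) (l : List (ℕ × ℕ)) : WW (p :: l) = (1/2) ^ p.2 + WW l := by
  simp [WW]

@[simp] lemma WW_append (l l' : List (ℕ × ℕ)) : WW (l ++ l') = WW l + WW l' := by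
  simp [WW]

lemma WW_nonneg (l : List (ℕ × ℕ)) : 0 ≤ WW l := by
  induction l with
  | nil => simp
  | cons p l ih => rw [WW_cons]; positivity

lemma WW_sublist {l l' : List (ℕ × ℕ)} (h : l.Sublist l') : WW l ≤ WW l' := by
  induction h with
  | slnil => exact le_refl _
  | cons a _ ih => rw [WW_cons]; have : (0:ℝ) ≤ (1/2)^a.2 := by positivity
                   linarith
  | cons_cons a _ ih => rw [WW_cons, WW_cons]; linarith

lemma rs_cons (p : ℕ × ℕ) (l : List (ℕ × ℕ)) : rs (p :: l) = p.2 + rs l := rfl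

lemma le_rs {l : List (ℕ × ℕ)} {p : ℕ × ℕ} (h : p ∈ l) : p.2 ≤ rs l := by
  induction l with
  | nil => simp at h
  | cons q l ih =>
    rw [rs_cons]
    rcases List.mem_cons.1 h with rfl | h
    · omega
    · have := ih h; omega

lemma sw_eq (R : ℕ) (l : List (ℕ × ℕ)) (h : ∀ p ∈ l, p.2 ≤ R) :
    ((sw R l : ℕ) : ℝ) = 2 ^ R * WW l := by
  induction l with
  | nil => simp [sw]
  | cons q l ih =>
    have h1 : sw R (q :: l) = 2 ^ (R - q.2) + sw R l := rfl
    have h2 := ih (fun p hp => h p (List.mem_cons_of_mem _ hp))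
    have h3 := h q List.mem_cons_self
    rw [h1, WW_cons]
    push_cast
    rw [h2, mul_add]
    congr 1
    rw [one_div, inv_pow, ← div_eq_mul_inv, eq_div_iff (by positivity), ← pow_add]
    congr 1
    omega

lemma big_iff (g : ℕ) (l : List (ℕ × ℕ)) : big g l = true ↔ (1/2 : ℝ) ^ g ≤ WW l := by
  unfold big
  rw [decide_eq_true_eq]
  have h1 := sw_eq (rs l) l (fun p hp => le_rs hp)
  have h2 : (2 ^ rs l ≤ 2 ^ g * sw (rs l) l) ↔ ((2:ℝ) ^ rs l ≤ 2 ^ g * (sw (rs l) l : ℕ)) := by
    exact_mod_cast Iff.rfl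
  rw [h2, h1, one_div, inv_pow]
  have h3 : (0:ℝ) < 2 ^ rs l := by positivity
  have h4 : (0:ℝ) < 2 ^ g := by positivity
  rw [inv_le_iff_one_le_mul₀ h4]
  constructor
  · intro h
    have : (2:ℝ) ^ rs l * 1 ≤ 2 ^ rs l * (2 ^ g * WW l) := by linarith
    have := le_of_mul_le_mul_left this h3
    linarith
  · intro h
    have := mul_le_mul_of_nonneg_left h h3.le
    linarith

noncomputable def WR (R : List Rec) : ℝ := WW (R.map Prod.snd)

@[simp] lemma WR_nil : WR [] = 0 := rfl

@[simp] lemma WR_cons (p : Rec) (l : List Rec) : WR (p :: l) = (1/2) ^ p.2.2 + WR l := by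
  simp [WR]

@[simp] lemma WR_append (l l' : List Rec) : WR (l ++ l') = WR l + WR l' := by
  simp [WR]

lemma WR_nonneg (l : List Rec) : 0 ≤ WR l := WW_nonneg _

lemma WR_filter_mono (l : List Rec) (p q : Rec → Bool) (h : ∀ ρ ∈ l, p ρ = true → q ρ = true) :
    WR (l.filter p) ≤ WR (l.filter q) := by
  induction l with
  | nil => simp
  | cons ρ l ih =>
    have h1 := ih (fun ρ hρ => h ρ (List.mem_cons_of_mem _ hρ))
    have h2 := h ρ List.mem_cons_self
    rw [List.filter_cons, List.filter_cons]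
    have h0 : (0:ℝ) ≤ (1/2) ^ ρ.2.2 := by positivity
    by_cases hp : p ρ = true
    · rw [if_pos hp, if_pos (h2 hp), WR_cons, WR_cons]; linarith
    · rw [if_neg hp]
      by_cases hq : q ρ = true
      · rw [if_pos hq, WR_cons]; linarith
      · rw [if_neg hq]; exact h1

lemma WR_filter_le (l : List Rec) (p : Rec → Bool) : WR (l.filter p) ≤ WR l := by
  have h := WR_filter_mono l p (fun _ => true) (fun _ _ _ => rfl)
  simpa using h

lemma WR_split (l : List Rec) (p q : Rec → Bool) (h : ∀ ρ ∈ l, p ρ = true ∨ q ρ = true) :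
    WR l ≤ WR (l.filter p) + WR (l.filter q) := by
  induction l with
  | nil => simp
  | cons ρ l ih =>
    have h1 := ih (fun ρ hρ => h ρ (List.mem_cons_of_mem _ hρ))
    have h0 : (0:ℝ) ≤ (1/2) ^ ρ.2.2 := by positivity
    rw [List.filter_cons, List.filter_cons]
    by_cases hp : p ρ = true
    · rw [if_pos hp]
      by_cases hq : q ρ = true
      · rw [if_pos hq, WR_cons, WR_cons, WR_cons]; linarith
      · rw [if_neg hq, WR_cons, WR_cons]; linarith
    · have hq : q ρ = true := (h ρ List.mem_cons_self).resolve_left hp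
      rw [if_neg hp, if_pos hq, WR_cons, WR_cons]; linarith

lemma WR_byn (l : List Rec) (v : Rec → Bool) (B : ℕ) (h : ∀ ρ ∈ l, ρ.1.1 < B) :
    WR (l.filter v) ≤ ∑ n ∈ Finset.range B,
      WR (l.filter (fun ρ => decide (ρ.1.1 = n) && v ρ)) := by
  induction l with
  | nil => simp
  | cons ρ l ih =>
    have h1 := ih (fun ρ hρ => h ρ (List.mem_cons_of_mem _ hρ))
    by_cases hv : v ρ = true
    · rw [List.filter_cons, if_pos hv, WR_cons]
      have h2 : ∀ n, WR ((ρ :: l).filter (fun ρ => decide (ρ.1.1 = n) && v ρ)) =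
          (if n = ρ.1.1 then (1/2 : ℝ) ^ ρ.2.2 else 0) +
          WR (l.filter (fun ρ => decide (ρ.1.1 = n) && v ρ)) := by
        intro n
        rw [List.filter_cons]
        by_cases hn : ρ.1.1 = n
        · subst hn
          rw [if_pos (by simp [hv]), WR_cons, if_pos rfl]
        · rw [if_neg (by simp [hn]), if_neg (fun h => hn h.symm), zero_add]
      rw [Finset.sum_congr rfl (fun n _ => h2 n), Finset.sum_add_distrib,
        Finset.sum_ite_eq' (Finset.range B) ρ.1.1 (fun _ => (1/2 : ℝ) ^ ρ.2.2),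
        if_pos (Finset.mem_range.2 (h ρ List.mem_cons_self))]
      linarith
    · rw [List.filter_cons, if_neg hv]
      refine le_trans h1 (Finset.sum_le_sum (fun n _ => ?_))
      rw [List.filter_cons, if_neg (by simp [hv])]

lemma geo_sum_le (B c : ℕ) : ∑ n ∈ Finset.range B, (1/2 : ℝ) ^ (c + 1 + n) ≤ (1/2) ^ c := by
  have h : ∑ n ∈ Finset.range B, (1/2 : ℝ) ^ (c + 1 + n) = (1/2) ^ c * (1 - (1/2) ^ B) := by
    induction B with
    | zero => simp
    | succ B ih =>
      rw [Finset.sum_range_succ, ih, pow_add (1/2:ℝ) (c+1) B, pow_succ, pow_succ]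
      ring
  rw [h]
  have h1 : (0:ℝ) ≤ (1/2) ^ c := by positivity
  have h2 : (0:ℝ) ≤ (1/2) ^ B := by positivity
  nlinarith

/-! counting versions -/

section gen

variable {kd : ℕ → ℕ → ℕ → Bool} {cmp : ℕ → ℕ → ℕ}

lemma cnt_eq (s m r : ℕ) : cnt kd s m r =
    ((Finset.range (s + 1)).filter (fun t => newv kd t m r = true)).card := by
  unfold cnt
  have h := List.toFinset_card_of_nodup ((List.nodup_range (n := s + 1)).filter
    (fun t => newv kd t m r))
  rw [← h]
  congr 1
  ext t
  simp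

lemma newv_iff {t m r : ℕ} : newv kd t m r = true ↔ kd t m r = true ∧
    ∀ t', t' < t → kd t' m r = true → str t' m ≠ str t m := by
  unfold newv
  rw [Bool.and_eq_true, decide_eq_true_eq, List.length_eq_zero_iff, List.filter_eq_nil_iff]
  simp only [List.mem_range, Bool.and_eq_true, decide_eq_true_eq, not_and]

lemma cnt_mono {s s' m r : ℕ} (h : s ≤ s') : cnt kd s m r ≤ cnt kd s' m r := by
  rw [cnt_eq, cnt_eq]
  apply Finset.card_le_card
  intro t ht
  rw [Finset.mem_filter, Finset.mem_range] at *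
  exact ⟨by omega, ht.2⟩

lemma newv_ex {s m r : ℕ} (h : kd s m r = true) : ∃ t, t ≤ s ∧ newv kd t m r = true ∧
    str t m = str s m := by
  classical
  have hex : ∃ t, kd t m r = true ∧ str t m = str s m := ⟨s, h, rfl⟩
  refine ⟨Nat.find hex, Nat.find_min' hex ⟨h, rfl⟩, ?_, (Nat.find_spec hex).2⟩
  rw [newv_iff]
  refine ⟨(Nat.find_spec hex).1, fun t' ht' hk he => ?_⟩
  exact Nat.find_min hex ht' ⟨hk, he.trans (Nat.find_spec hex).2⟩

lemma cnt_pos {s m r : ℕ} (h : kd s m r = true) : 1 ≤ cnt kd s m r := by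
  obtain ⟨t, h1, h2, -⟩ := newv_ex h
  rw [cnt_eq]
  exact Finset.card_pos.2 ⟨t, Finset.mem_filter.2 ⟨Finset.mem_range.2 (by omega), h2⟩⟩

lemma cnt_incr {s s' m r : ℕ} (hs : s ≤ s') (hne : str s' m ≠ str s m) (h : kd s' m r = true) :
    cnt kd s m r + 1 ≤ cnt kd s' m r := by
  obtain ⟨t, h1, h2, h3⟩ := newv_ex h
  have h4 : s < t := by
    by_contra h4
    push Not at h4
    have h5 := str_mid h4 hs h3
    exact hne (by rw [h5, h3])
  rw [cnt_eq, cnt_eq]
  have h5 : ((Finset.range (s + 1)).filter (fun t => newv kd t m r = true)) ∪ {t} ⊆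
      (Finset.range (s' + 1)).filter (fun t => newv kd t m r = true) := by
    intro u hu
    rw [Finset.mem_union, Finset.mem_filter, Finset.mem_range, Finset.mem_singleton] at hu
    rw [Finset.mem_filter, Finset.mem_range]
    rcases hu with hu | rfl
    · exact ⟨by omega, hu.2⟩
    · exact ⟨by omega, h2⟩
  have h6 := Finset.card_le_card h5
  rw [Finset.card_union_of_disjoint] at h6
  · rw [Finset.card_singleton] at h6
    exact h6
  · rw [Finset.disjoint_singleton_right, Finset.mem_filter, Finset.mem_range]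
    omega

/-! validity -/

lemma valid_iff {s n t : ℕ} : valid cmp s (n, t) = true ↔ str s (cmp t n) = str t (cmp t n) := by
  unfold valid
  rw [decide_eq_true_eq]

lemma valid_anti {s s' : ℕ} {q : ℕ × ℕ} (h1 : q.2 ≤ s) (h2 : s ≤ s')
    (h : valid cmp s' q = true) : valid cmp s q = true := by
  obtain ⟨n, t⟩ := q
  rw [valid_iff] at *
  exact str_mid h1 h2 h.symm

end gen

end Pool.Agent.Helper743.GR
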