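import Pool.Agent.Helper743.GRInv

set_option autoImplicit false

/-! A sequential golden run construction: the cost analysis. -/

namespace Pool.Agent.Helper743.GR

open Nat.Partrec (Code)
open Filter
open Pool.Agent.Helper743.AC (hl str)

noncomputable def lam (a i : ℕ) : ℝ := 1 + i * (8 * (1/2) ^ a)

lemma lam_succ (a i : ℕ) : lam a (i + 1) = lam a i + 8 * (1/2) ^ a := by
  unfold lam; push_cast; ring

lemma lam_one_le (a i : ℕ) : 1 ≤ lam a i := by
  unfold lam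
  have : (0:ℝ) ≤ i * (8 * (1/2) ^ a) := by positivity
  linarith

lemma lam_mono {a i j : ℕ} (h : i ≤ j) : lam a i ≤ lam a j := by
  unfold lam
  have h1 : (i : ℝ) ≤ j := by exact_mod_cast h
  have h2 : (0:ℝ) ≤ 8 * (1/2) ^ a := by positivity
  nlinarith

lemma lam_step {a i : ℕ} (h : lam a i ≤ 2) : lam a i * (1 + 4 * (1/2) ^ a) ≤ lam a (i + 1) := by
  rw [lam_succ]
  have h2 : (0:ℝ) ≤ (1/2) ^ a := by positivity
  nlinarith

lemma lam_two {k i : ℕ} (h : i ≤ k) : lam (k + 3) i ≤ 2 := by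
  unfold lam
  have h1 : (i : ℝ) ≤ 2 ^ k := by exact_mod_cast le_trans h (Nat.lt_two_pow_self).le
  have h2 : (8 : ℝ) * (1/2) ^ (k + 3) = (1/2) ^ k := by
    rw [pow_add]; ring
  rw [h2]
  have h3 : (2:ℝ) ^ k * (1/2) ^ k = 1 := by rw [← mul_pow]; norm_num
  have h4 : (0:ℝ) ≤ (1/2) ^ k := by positivity
  nlinarith

section gen

variable (kd : ℕ → ℕ → ℕ → Bool) (cmp : ℕ → ℕ → ℕ) (e k a : ℕ)

structure FI (s i : ℕ) (x : Frame) : Prop where
  lv : i ≤ 1 → x.2.2.1 = [] ∧ x.2.2.2 = [] ∧ x.2.1.2 < s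
  tl : x.2.1.2 ≤ s
  rc : ∀ ρ ∈ x.2.2.1, ρ.1.2 ≤ s ∧ cmp ρ.1.2 ρ.1.1 ≤ ρ.1.2 ∧ ρ.1.2 ≤ ρ.2.1 ∧
    ∃ c, ρ.1.2 ≤ c ∧ c ≤ s ∧ valid cmp c ρ.1 = true ∧ i ≤ cnt kd c ρ.2.1 (ρ.2.2 + e) + 1
  co : WW x.2.2.2 ≤ lam a (i - 1) * (WR x.2.2.1 + (1/2) ^ (x.1.1 + a) * (1 - (1/2) ^ x.1.2))
  cp : WW x.2.2.2 ≤ lam a (i - 1) * ((1/2) ^ x.1.1 * (1 + 4 * (1/2) ^ a))
  sb : (x.2.2.1.map Prod.snd).Sublist x.2.2.2
  pr : ∀ n, WW (nfilt cmp s n x.2.2.1) ≤ 3 * (1/2) ^ (x.1.1 + a + 1 + n)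
  rq : ∀ p ∈ x.2.2.2, p.1 < s

structure CI (s : ℕ) (x y : Frame) : Prop where
  gl : x.1.1 = y.1.1 + a + 1 + y.2.1.1 + y.1.2
  wr : WR y.2.2.1 ≤ (1/2) ^ y.1.1 * (1 + 3 * (1/2) ^ a)
  cl : cmp y.2.1.2 y.2.1.1 ≤ y.2.1.2
  pr : WW (nfilt cmp s y.2.1.1 y.2.2.1) ≤ (1/2) ^ (y.1.1 + a + 1 + y.2.1.1)
  tt : y.2.1.2 ≤ x.2.1.2
  qq : ∀ p ∈ x.2.2.2, y.2.1.2 ≤ p.1

def Low (s : ℕ) : Frame → List Frame → Prop
  | x, [] => x.1.1 = 1
  | x, y :: rest => CI cmp a s x y ∧ FI kd cmp e a s (k - rest.length) y ∧ Low s y rest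

variable {kd cmp e k a}

lemma nfilt_anti {s : ℕ} {n : ℕ} {R : List Rec} (h : ∀ ρ ∈ R, ρ.1.2 ≤ s) :
    WW (nfilt cmp (s + 1) n R) ≤ WW (nfilt cmp s n R) := by
  apply WR_filter_mono
  intro ρ hρ h1
  rw [Bool.and_eq_true] at *
  exact ⟨h1.1, valid_anti (h ρ hρ) (Nat.le_succ s) h1.2⟩

lemma FI.mono {s i : ℕ} {x : Frame} (h : FI kd cmp e a s i x) : FI kd cmp e a (s + 1) i x := by
  refine ⟨fun hi => ⟨(h.lv hi).1, (h.lv hi).2.1, lt_of_lt_of_le (h.lv hi).2.2 (Nat.le_succ s)⟩,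
    le_trans h.tl (Nat.le_succ s), fun ρ hρ => ?_, h.co, h.cp, h.sb, fun n => ?_,
    fun p hp => lt_of_lt_of_le (h.rq p hp) (Nat.le_succ s)⟩
  · obtain ⟨h1, h2, h3, c, h4, h5, h6⟩ := h.rc ρ hρ
    exact ⟨by omega, h2, h3, c, h4, by omega, h6⟩
  · exact le_trans (nfilt_anti (fun ρ hρ => (h.rc ρ hρ).1)) (h.pr n)

lemma CI.mono {s i : ℕ} {x y : Frame} (hy : FI kd cmp e a s i y) (h : CI cmp a s x y) :
    CI cmp a (s + 1) x y :=
  ⟨h.gl, h.wr, h.cl, le_trans (nfilt_anti (fun ρ hρ => (hy.rc ρ hρ).1)) h.pr, h.tt, h.qq⟩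

lemma Low.mono {s : ℕ} {rest : List Frame} : ∀ {x : Frame}, Low kd cmp e k a s x rest →
    Low kd cmp e k a (s + 1) x rest := by
  induction rest with
  | nil => intro x h; exact h
  | cons y rest ih =>
    intro x h
    exact ⟨CI.mono h.2.1 h.1, h.2.1.mono, ih h.2.2⟩

/-- changing the top frame -/
lemma Low.change {s : ℕ} {rest : List Frame} {x x' : Frame} (h : Low kd cmp e k a s x rest)
    (h1 : x'.1.1 = x.1.1) (h2 : x.2.1.2 ≤ x'.2.1.2)
    (h3 : ∀ p ∈ x'.2.2.2, p ∈ x.2.2.2 ∨ x.2.1.2 ≤ p.1) : Low kd cmp e k a s x' rest := by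
  cases rest with
  | nil => exact h1.trans h
  | cons y rest =>
    obtain ⟨hc, hy, hl⟩ := h
    refine ⟨⟨h1.trans hc.gl, hc.wr, hc.cl, hc.pr, le_trans hc.tt h2, fun p hp => ?_⟩, hy, hl⟩
    rcases h3 p hp with h4 | h4
    · exact hc.qq p h4
    · exact le_trans hc.tt h4

lemma parent_bound {g n f i : ℕ} {wq wr c : ℝ}
    (h1 : wq ≤ lam a i * (wr + (1/2) ^ (g + a) * (1 - (1/2) ^ f)))
    (h2 : wr ≤ (1/2) ^ g * (1 + 3 * (1/2) ^ a))
    (h3 : c ≤ lam a i * (1/2) ^ (g + a + 1 + n + f)) :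
    c + wq ≤ lam a i * ((1/2) ^ g * (1 + 4 * (1/2) ^ a)) := by
  have e1 : ((1:ℝ)/2) ^ (g + a + 1 + n + f) = (1/2) ^ g * (1/2) ^ a * ((1/2) ^ f *
      ((1/2) * (1/2) ^ n)) := by
    rw [pow_add, pow_add, pow_add, pow_add]; ring
  have e2 : ((1:ℝ)/2) ^ (g + a) = (1/2) ^ g * (1/2) ^ a := pow_add _ _ _
  rw [e1] at h3
  rw [e2] at h1
  have hl0 := lam_one_le a i
  have q1 : ((1:ℝ)/2) * (1/2) ^ n ≤ 1 := by
    have : ((1:ℝ)/2) ^ n ≤ 1 := pow_le_one₀ (by norm_num) (by norm_num)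
    linarith
  have q2 : (0:ℝ) ≤ (1/2) ^ f := by positivity
  have q3 : (0:ℝ) ≤ (1/2) ^ g * (1/2) ^ a := by positivity
  have h4 : c ≤ lam a i * ((1/2) ^ g * (1/2) ^ a * (1/2) ^ f) := by
    refine le_trans h3 ?_
    apply mul_le_mul_of_nonneg_left _ (by linarith)
    apply mul_le_mul_of_nonneg_left _ q3
    nlinarith
  have h5 : lam a i * (wr + (1/2) ^ g * (1/2) ^ a * (1 - (1/2) ^ f)) ≤
      lam a i * ((1/2) ^ g * (1 + 3 * (1/2) ^ a) + (1/2) ^ g * (1/2) ^ a * (1 - (1/2) ^ f)) := by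
    apply mul_le_mul_of_nonneg_left _ (by linarith)
    linarith
  calc c + wq ≤ lam a i * ((1/2) ^ g * (1/2) ^ a * (1/2) ^ f) +
      lam a i * ((1/2) ^ g * (1 + 3 * (1/2) ^ a) + (1/2) ^ g * (1/2) ^ a * (1 - (1/2) ^ f)) := by
        linarith
    _ = lam a i * ((1/2) ^ g * (1 + 4 * (1/2) ^ a)) := by ring

lemma ret_FI {s i : ℕ} {y : Frame} {D Q : List (ℕ × ℕ)} (hi : 1 ≤ i) (hl : lam a i ≤ 2)
    (hy : FI kd cmp e a s (i + 1) y)
    (hwr : WR y.2.2.1 ≤ (1/2) ^ y.1.1 * (1 + 3 * (1/2) ^ a))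
    (hcl : cmp y.2.1.2 y.2.1.1 ≤ y.2.1.2)
    (hpr : WW (nfilt cmp s y.2.1.1 y.2.2.1) ≤ (1/2) ^ (y.1.1 + a + 1 + y.2.1.1))
    (hDQ : D.Sublist Q)
    (hQ : WW Q ≤ lam a i * (1/2) ^ (y.1.1 + a + 1 + y.2.1.1 + y.1.2))
    (hD : (1/2) ^ (y.1.1 + a + 1 + y.2.1.1 + y.1.2) ≤ WW D)
    (hcnt : ∀ p ∈ D, i ≤ cnt kd s p.1 (p.2 + e))
    (hq : ∀ p ∈ Q, y.2.1.2 ≤ p.1 ∧ p.1 < s + 1) :
    FI kd cmp e a (s + 1) (i + 1) (ret cmp s D Q y) := by
  have hl0 := lam_one_le a i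
  have hcap : WW (Q ++ y.2.2.2) ≤ lam a i * ((1/2) ^ y.1.1 * (1 + 4 * (1/2) ^ a)) := by
    rw [WW_append]
    exact parent_bound (by simpa using hy.co) hwr hQ
  have hrq : ∀ p ∈ Q ++ y.2.2.2, p.1 < s + 1 := by
    intro p hp
    rcases List.mem_append.1 hp with h | h
    · exact (hq p h).2
    · exact lt_of_lt_of_le (hy.rq p h) (Nat.le_succ s)
  have hco := hy.co
  simp only [Nat.add_sub_cancel] at hco
  unfold ret
  cases hv : valid cmp s y.2.1 with
  | true =>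
    simp only [cond_true]
    refine ⟨fun h => by omega, le_trans hy.tl (Nat.le_succ s), ?_, ?_, ?_, ?_, ?_, hrq⟩
    · intro ρ hρ
      simp only at hρ
      rcases List.mem_append.1 hρ with h | h
      · rw [List.mem_map] at h
        obtain ⟨p, hp, rfl⟩ := h
        refine ⟨le_trans hy.tl (Nat.le_succ s), hcl, (hq p (hDQ.subset hp)).1, s, hy.tl,
          Nat.le_succ s, hv, ?_⟩
        have h1 := hcnt p hp
        simp only
        omega
      · exact (hy.mono).rc ρ h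
    · simp only [Nat.add_sub_cancel, WW_append, WR_append]
      have h1 : WR (D.map (fun d => (y.2.1, d))) = WW D := by
        unfold WR
        rw [List.map_map]
        congr 1
        exact List.map_id _
      rw [h1]
      have h2 : WW Q ≤ lam a i * WW D :=
        le_trans hQ (mul_le_mul_of_nonneg_left hD (by linarith))
      linarith
    · simp only [Nat.add_sub_cancel]
      exact hcap
    · simp only
      rw [List.map_append, List.map_map]
      have h1 : D.map (Prod.snd ∘ fun d => (y.2.1, d)) = D := List.map_id _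
      rw [h1]
      exact hDQ.append hy.sb
    · intro n
      simp only
      have hm := hy.mono.pr
      by_cases hn : y.2.1.1 = n
      · subst hn
        have h1 : WW (nfilt cmp (s + 1) y.2.1.1 (D.map (fun d => (y.2.1, d)) ++ y.2.2.1)) ≤
            WW D + WW (nfilt cmp (s + 1) y.2.1.1 y.2.2.1) := by
          unfold nfilt
          rw [List.filter_append, List.map_append, WW_append]
          have h2 : WR ((D.map (fun d => (y.2.1, d))).filter
              (fun ρ => decide (ρ.1.1 = y.2.1.1) && valid cmp (s + 1) ρ.1)) ≤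
              WR (D.map (fun d => (y.2.1, d))) := WR_filter_le _ _
          have h3 : WR (D.map (fun d => (y.2.1, d))) = WW D := by
            unfold WR
            rw [List.map_map]
            congr 1
            exact List.map_id _
          rw [h3] at h2
          have h4 : WR ((D.map (fun d => (y.2.1, d))).filter
              (fun ρ => decide (ρ.1.1 = y.2.1.1) && valid cmp (s + 1) ρ.1)) =
            WW (List.map Prod.snd ((D.map (fun d => (y.2.1, d))).filter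
              (fun ρ => decide (ρ.1.1 = y.2.1.1) && valid cmp (s + 1) ρ.1))) := rfl
          linarith
        have h5 := nfilt_anti (cmp := cmp) (n := y.2.1.1) (fun ρ hρ => (hy.rc ρ hρ).1)
        have h6 : WW D ≤ WW Q := WW_sublist hDQ
        have h7 : ((1:ℝ)/2) ^ (y.1.1 + a + 1 + y.2.1.1 + y.1.2) ≤
            (1/2) ^ (y.1.1 + a + 1 + y.2.1.1) :=
          pow_le_pow_of_le_one (by norm_num) (by norm_num) (by omega)
        have h8 : lam a i * (1/2) ^ (y.1.1 + a + 1 + y.2.1.1 + y.1.2) ≤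
            2 * (1/2) ^ (y.1.1 + a + 1 + y.2.1.1) := by
          apply mul_le_mul hl h7 (by positivity) (by norm_num)
        linarith
      · have h1 : nfilt cmp (s + 1) n (D.map (fun d => (y.2.1, d)) ++ y.2.2.1) =
            nfilt cmp (s + 1) n y.2.2.1 := by
          unfold nfilt
          rw [List.filter_append, List.map_append]
          have h2 : (D.map (fun d => (y.2.1, d))).filter
              (fun ρ => decide (ρ.1.1 = n) && valid cmp (s + 1) ρ.1) = [] := by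
            rw [List.filter_eq_nil_iff]
            intro ρ hρ
            rw [List.mem_map] at hρ
            obtain ⟨p, _, rfl⟩ := hρ
            simp [hn]
          rw [h2]
          rfl
        rw [h1]
        exact hm n
  | false =>
    simp only [cond_false]
    refine ⟨fun h => by omega, le_trans hy.tl (Nat.le_succ s), (hy.mono).rc, ?_, ?_, ?_,
      (hy.mono).pr, hrq⟩
    · simp only [Nat.add_sub_cancel, WW_append]
      have h7 : ((1:ℝ)/2) ^ (y.1.1 + a + 1 + y.2.1.1 + y.1.2) ≤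
            (1/2) ^ (y.1.1 + a) * ((1/2) ^ y.1.2 - (1/2) ^ (y.1.2 + 1)) := by
        have e1 : ((1:ℝ)/2) ^ (y.1.1 + a) * ((1/2) ^ y.1.2 - (1/2) ^ (y.1.2 + 1)) =
            (1/2) ^ (y.1.1 + a + 1 + y.1.2) := by
          rw [pow_succ (1/2:ℝ) y.1.2, pow_add (1/2:ℝ) (y.1.1 + a + 1), pow_succ (1/2:ℝ) (y.1.1 + a)]
          ring
        rw [e1]
        exact pow_le_pow_of_le_one (by norm_num) (by norm_num) (by omega)
      have h8 := mul_le_mul_of_nonneg_left h7 (show 0 ≤ lam a i by linarith)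
      calc WW Q + WW y.2.2.2 ≤ lam a i * ((1/2) ^ (y.1.1 + a) *
            ((1/2) ^ y.1.2 - (1/2) ^ (y.1.2 + 1))) +
            lam a i * (WR y.2.2.1 + (1/2) ^ (y.1.1 + a) * (1 - (1/2) ^ y.1.2)) := by linarith
        _ = lam a i * (WR y.2.2.1 + (1/2) ^ (y.1.1 + a) * (1 - (1/2) ^ (y.1.2 + 1))) := by ring
    · simp only [Nat.add_sub_cancel]
      exact hcap
    · simp only
      exact hy.sb.trans (List.sublist_append_right _ _)

end gen

end Pool.Agent.Helper743.GR
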