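import Pool.Agent.Helper743.GRVote

set_option autoImplicit false

/-! Above a random set relative to which the halting problem is K-trivial, every degree which is
PA and below the halting problem is complete. -/

namespace Pool.Agent.Helper743.GR

open Nat.Partrec (Code)
open Filter
open Pool.Agent.Helper743.AC (hl hl_p str kstr str_p fsum_p pow_p geo_le)
open Pool.Agent.Helper743.KT (HitU HitU_p KG KG_le K0 KG_opt KG_Kraft UpS Kraft upper_test')

/-- `n` enters the halting set at stage `s` -/
def fst (n s : ℕ) : Prop := hl n s = true ∧ ∀ s', s' < s → hl n s' = false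

lemma fst_unique {n s s' : ℕ} (h : fst n s) (h' : fst n s') : s = s' := by
  rcases lt_trichotomy s s' with h1 | h1 | h1
  · have := h'.2 s h1; rw [h.1] at this; exact absurd this (by simp)
  · exact h1
  · have := h.2 s' h1; rw [h'.1] at this; exact absurd this (by simp)

lemma fst_iff {n s : ℕ} : fst n s ↔ (hl n s && decide (((List.range s).filter
    (fun s' => hl n s')).length = 0)) = true := by
  unfold fst
  rw [Bool.and_eq_true, decide_eq_true_eq, List.length_eq_zero_iff, List.filter_eq_nil_iff]
  simp only [List.mem_range, Bool.not_eq_true]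

/-- the partial function which is extended -/
noncomputable def psi (x : ℕ) : Part Bool :=
  (Nat.rfind (fun s => Part.some (hl x.unpair.1 s))).map
    (fun s => ((cho x.unpair.1 s)[x.unpair.2]?).getD false)

lemma psi_partrec : Partrec (psi : ℕ →. Bool) := by
  have h1 : Partrec (fun x : ℕ => Nat.rfind (fun s => Part.some (hl x.unpair.1 s))) := by
    apply Partrec.rfind
    have h : Computable₂ (fun (x s : ℕ) => hl x.unpair.1 s) :=
      (hl_p.comp (Primrec.fst.comp (Primrec.unpair.comp Primrec.fst)) Primrec.snd).to_comp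
    exact h.partrec₂
  have h2 : Computable₂ (fun (x s : ℕ) => ((cho x.unpair.1 s)[x.unpair.2]?).getD false) := by
    have a := cho_p.comp (Primrec.fst.comp (Primrec.unpair.comp (Primrec.fst (α := ℕ) (β := ℕ))))
      (Primrec.snd (α := ℕ) (β := ℕ))
    have b := Primrec.list_getElem?.comp a (Primrec.snd.comp (Primrec.unpair.comp
      (Primrec.fst (α := ℕ) (β := ℕ))))
    exact (Primrec.option_getD.comp b (Primrec.const false)).to_comp
  exact h1.map h2

lemma psi_mem {n i s : ℕ} (h : fst n s) :
    ((cho n s)[i]?).getD false ∈ psi (Nat.pair n i) := by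
  unfold psi
  rw [Nat.unpair_pair]
  rw [Part.mem_map_iff]
  refine ⟨s, Nat.mem_rfind.2 ⟨?_, fun {m} hm => ?_⟩, rfl⟩
  · simp [h.1]
  · simp [h.2 m hm]

/-- the test -/
def UU (j : ℕ) : Set (List Bool) :=
  {β | ∃ n, j ≤ n ∧ fst n β.length ∧ cer β n (cho n β.length) = true}

lemma UU_re : REPred (fun p : ℕ × List Bool => p.2 ∈ UU p.1) := by
  have hT : Computable₂ (fun (p : ℕ × List Bool) (n : ℕ) => decide (p.1 ≤ n) &&
      ((hl n p.2.length && decide (((List.range p.2.length).filter
        (fun s' => hl n s')).length = 0)) && cer p.2 n (cho n p.2.length))) := by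
    have n : Primrec (fun q : (ℕ × List Bool) × ℕ => q.2) := Primrec.snd
    have b : Primrec (fun q : (ℕ × List Bool) × ℕ => q.1.2) := Primrec.snd.comp Primrec.fst
    have l := Primrec.list_length.comp b
    have a1 := (Primrec.nat_le.comp (Primrec.fst.comp (Primrec.fst (α := ℕ × List Bool)
      (β := ℕ))) n).decide
    have a2 := hl_p.comp n l
    have a3 : Primrec₂ (fun (q : (ℕ × List Bool) × ℕ) (s' : ℕ) => hl q.2 s') :=
      hl_p.comp (Primrec.snd.comp Primrec.fst) Primrec.snd
    have a4 := (Primrec.eq.comp (Primrec.list_length.comp (filt_p (Primrec.list_range.comp l) a3))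
      (Primrec.const 0)).decide
    have a5 := cer_p.comp ((b.pair n).pair (cho_p.comp n l))
    exact (Primrec.and.comp a1 (Primrec.and.comp (Primrec.and.comp a2 a4) a5)).to_comp
  have h6 := (Partrec.rfind hT.partrec₂).dom_re
  refine h6.of_eq ?_
  intro p
  refine Iff.trans (Nat.rfind_dom (p := fun n => (Part.some (decide (p.1 ≤ n) &&
      ((hl n p.2.length && decide (((List.range p.2.length).filter
        (fun s' => hl n s')).length = 0)) && cer p.2 n (cho n p.2.length))) : Part Bool))) ?_
  constructor
  · rintro ⟨n, hn, _⟩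
    rw [Part.mem_some_iff] at hn
    have hn' := hn.symm
    rw [Bool.and_eq_true, Bool.and_eq_true, ← fst_iff, decide_eq_true_eq] at hn'
    exact ⟨n, hn'.1, hn'.2.1, hn'.2.2⟩
  · rintro ⟨n, h1, h2, h3⟩
    refine ⟨n, ?_, fun {m} _ => trivial⟩
    rw [Part.mem_some_iff]
    symm
    rw [Bool.and_eq_true, Bool.and_eq_true, ← fst_iff, decide_eq_true_eq]
    exact ⟨h1, h2, h3⟩

lemma UU_meas (j : ℕ) (S : Finset (List Bool)) (hS : ∀ β ∈ S, β ∈ UU j) :
    ∑ β ∈ S, (1/2 : ℝ) ^ β.length ≤ (1/2) ^ j := by
  classical
  have hch : ∀ β ∈ S, ∃ n, j ≤ n ∧ fst n β.length ∧ cer β n (cho n β.length) = true := hS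
  choose! N hN using hch
  have e4 : ∀ n ∈ S.image N, ∑ β ∈ S.filter (fun β => N β = n), (1/2 : ℝ) ^ β.length ≤
      (1/2) ^ (n + 1) := by
    intro n hn
    rw [Finset.mem_image] at hn
    obtain ⟨β0, hβ0, rfl⟩ := hn
    set n := N β0 with hn
    set s := β0.length with hs
    have h1 : ∀ β ∈ S.filter (fun β => N β = n), β.length = s ∧ cer β n (cho n s) = true := by
      intro β hβ
      rw [Finset.mem_filter] at hβ
      obtain ⟨-, h2, h3⟩ := hN β hβ.1
      rw [hβ.2] at h2 h3
      have h4 := fst_unique h2 (hN β0 hβ0).2.1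
      rw [h4] at h3
      exact ⟨h4, h3⟩
    have h2 : S.filter (fun β => N β = n) ⊆
        ((allb s).filter (fun β => cer β n (cho n s))).toFinset := by
      intro β hβ
      rw [List.mem_toFinset, List.mem_filter, mem_allb]
      exact h1 β hβ
    have h3 := le_trans (Finset.card_le_card h2) (List.toFinset_card_le _)
    have h4 := (cho_spec n s).2
    have h5 : ∑ β ∈ S.filter (fun β => N β = n), (1/2 : ℝ) ^ β.length =
        ∑ β ∈ S.filter (fun β => N β = n), (1/2 : ℝ) ^ s :=
      Finset.sum_congr rfl (fun β hβ => by rw [(h1 β hβ).1])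
    rw [h5, Finset.sum_const, nsmul_eq_mul]
    have h6 : (S.filter (fun β => N β = n)).card * 2 ^ (n + 1) ≤ 2 ^ s :=
      le_trans (Nat.mul_le_mul_right _ h3) h4
    have h7 : ((S.filter (fun β => N β = n)).card : ℝ) * 2 ^ (n + 1) ≤ 2 ^ s := by
      exact_mod_cast h6
    have h8 : (2:ℝ) ^ s * (1/2) ^ s = 1 := by rw [← mul_pow]; norm_num
    have h9 : (2:ℝ) ^ (n + 1) * (1/2) ^ (n + 1) = 1 := by rw [← mul_pow]; norm_num
    have h10 : (0:ℝ) ≤ (1/2) ^ s * (1/2) ^ (n + 1) := by positivity
    calc ((S.filter (fun β => N β = n)).card : ℝ) * (1/2) ^ s =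
        (((S.filter (fun β => N β = n)).card : ℝ) * 2 ^ (n + 1)) *
          ((1/2) ^ s * (1/2) ^ (n + 1)) := by
          rw [show (((S.filter (fun β => N β = n)).card : ℝ) * 2 ^ (n + 1)) *
            ((1/2) ^ s * (1/2) ^ (n + 1)) = ((S.filter (fun β => N β = n)).card : ℝ) *
            (1/2) ^ s * (2 ^ (n + 1) * (1/2) ^ (n + 1)) by ring, h9, mul_one]
      _ ≤ 2 ^ s * ((1/2) ^ s * (1/2) ^ (n + 1)) := mul_le_mul_of_nonneg_right h7 h10
      _ = (1/2) ^ (n + 1) := by rw [← mul_assoc, h8, one_mul]
  have e5 : ∑ β ∈ S, (1/2 : ℝ) ^ β.length = ∑ n ∈ S.image N,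
      ∑ β ∈ S.filter (fun β => N β = n), (1/2 : ℝ) ^ β.length :=
    (Finset.sum_fiberwise_of_maps_to (fun m hm => Finset.mem_image_of_mem _ hm) _).symm
  rw [e5]
  refine le_trans (Finset.sum_le_sum e4) ?_
  have e6 : S.image N ⊆ (Finset.range ((S.image N).sup id + 1)).image (fun i => j + i) := by
    intro n hn
    have h1 : n ≤ (S.image N).sup id := Finset.le_sup (f := id) hn
    rw [Finset.mem_image] at hn
    obtain ⟨β, hβ, rfl⟩ := hn
    have h2 := (hN β hβ).1
    rw [Finset.mem_image]
    exact ⟨N β - j, Finset.mem_range.2 (by omega), by omega⟩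
  refine le_trans (Finset.sum_le_sum_of_subset_of_nonneg e6 (fun _ _ _ => by positivity)) ?_
  rw [Finset.sum_image (fun a _ b _ h => by simpa using h)]
  refine le_trans (le_of_eq ?_) (geo_sum_le ((S.image N).sup id + 1) j)
  refine Finset.sum_congr rfl (fun i _ => ?_)
  congr 1
  ring

/-- the values read off a function -/
def FF (g : ℕ → Bool) (n : ℕ) : ℕ :=
  Encodable.encode ((List.range (4 * n + 1)).map (fun i => g (Nat.pair n i)))

lemma FF_rec {O : Set (ℕ →. ℕ)} {g : ℕ → Bool} (hg : RecT O (fun n => (g n).toNat)) :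
    RecT O (FF g) := by
  let p : List ℕ → ℕ → ℕ → Option ℕ := fun β x _ =>
    bif decide (((List.range (4 * x + 1)).filter
      (fun i => decide (β.length ≤ Nat.pair x i))).length = 0) then
      some (Encodable.encode ((List.range (4 * x + 1)).map
        (fun i => decide (β[Nat.pair x i]? = some 1))))
    else none
  refine cert hg p ?_ (FF g) ?_ ?_
  · have b : Primrec (fun q : (List ℕ × ℕ) × ℕ => q.1.1) := Primrec.fst.comp Primrec.fst
    have x : Primrec (fun q : (List ℕ × ℕ) × ℕ => q.1.2) := Primrec.snd.comp Primrec.fst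
    have r := Primrec.list_range.comp (Primrec.succ.comp (Primrec.nat_mul.comp
      (Primrec.const 4) x))
    have a1 : Primrec₂ (fun (q : (List ℕ × ℕ) × ℕ) (i : ℕ) =>
        decide (q.1.1.length ≤ Nat.pair q.1.2 i)) :=
      (Primrec.nat_le.comp (Primrec.list_length.comp (b.comp Primrec.fst))
        (Primrec₂.natPair.comp (x.comp Primrec.fst) Primrec.snd)).decide
    have a2 := (Primrec.eq.comp (Primrec.list_length.comp (filt_p r a1))
      (Primrec.const 0)).decide
    have a3 : Primrec₂ (fun (q : (List ℕ × ℕ) × ℕ) (i : ℕ) =>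
        decide (q.1.1[Nat.pair q.1.2 i]? = some 1)) :=
      (Primrec.eq.comp (Primrec.list_getElem?.comp (b.comp Primrec.fst)
        (Primrec₂.natPair.comp (x.comp Primrec.fst) Primrec.snd)) (Primrec.const _)).decide
    have a4 := Primrec.option_some.comp (Primrec.encode.comp (Primrec.list_map r a3))
    exact (Primrec.cond a2 a4 (Primrec.const none)).to_comp
  · intro x
    obtain ⟨N, hN⟩ : ∃ N, ∀ i ∈ List.range (4 * x + 1), Nat.pair x i < N := by
      refine ⟨(Finset.range (4 * x + 1)).sup (fun i => Nat.pair x i) + 1, fun i hi => ?_⟩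
      exact Nat.lt_succ_of_le (Finset.le_sup (f := fun i => Nat.pair x i)
        (Finset.mem_range.2 (List.mem_range.1 hi)))
    refine ⟨N, 0, ?_⟩
    have h1 : ((List.range (4 * x + 1)).filter
      (fun i => decide ((pre (fun n => (g n).toNat) N).length ≤ Nat.pair x i))).length = 0 := by
      rw [List.length_eq_zero_iff, List.filter_eq_nil_iff]
      intro i hi
      have := hN i hi
      rw [pre_length, decide_eq_true_eq]
      omega
    show Option.isSome (α := ℕ) (bif decide _ then _ else _) = true
    rw [decide_eq_true h1]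
    rfl
  · intro x n w y h
    have h0 : (bif decide (((List.range (4 * x + 1)).filter
      (fun i => decide ((pre (fun n => (g n).toNat) n).length ≤ Nat.pair x i))).length = 0) then
      some (Encodable.encode ((List.range (4 * x + 1)).map
        (fun i => decide ((pre (fun n => (g n).toNat) n)[Nat.pair x i]? = some 1))))
      else none) = some y := h
    by_cases h1 : ((List.range (4 * x + 1)).filter
      (fun i => decide ((pre (fun n => (g n).toNat) n).length ≤ Nat.pair x i))).length = 0
    · rw [decide_eq_true h1, cond_true, Option.some.injEq] at h0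
      rw [← h0]
      unfold FF
      congr 1
      apply List.map_congr_left
      intro i hi
      rw [List.length_eq_zero_iff, List.filter_eq_nil_iff] at h1
      have h2 := h1 i hi
      rw [decide_eq_true_eq, pre_length] at h2
      rw [pre_getElem?, if_pos (by omega)]
      cases g (Nat.pair x i) <;> decide
    · rw [decide_eq_false h1, cond_false] at h0
      exact absurd h0 (by simp)

lemma K0_hl {n : ℕ} : (∃ t, hl n t = true) ↔ K0 n = 1 := by
  classical
  have h5 : (∃ t, AC.hl n t = true) ↔ K (Nat.pair n n) = 1 := by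
    unfold AC.hl
    exact PR.K_one.symm
  rw [h5]
  unfold K K0
  rw [Nat.unpair_pair]

lemma K0_le (n : ℕ) : K0 n = 0 ∨ K0 n = 1 := by
  classical
  unfold K0
  split_ifs
  · exact Or.inr rfl
  · exact Or.inl rfl

theorem key {O : Set (ℕ →. ℕ)} (Z : ℕ → Bool)
    (hML : ∀ U : ℕ → Set (List Bool), REPred (fun p : ℕ × List Bool => p.2 ∈ U p.1) →
      (∀ n, ∀ S : Finset (List Bool), (∀ σ ∈ S, σ ∈ U n) →
        (∀ σ ∈ S, ∀ τ ∈ S, σ <+: τ → σ = τ) →
        ∑ σ ∈ S, (1/2 : ℝ) ^ σ.length ≤ (1/2) ^ n) →
      ∃ n, ∀ m : ℕ, List.ofFn (fun i : Fin m => Z i) ∉ U n)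
    (hK : ∃ c, ∀ n, KG (fun n => (Z n).toNat) (Encodable.encode (kstr n)) ≤
      KG (fun n => (Z n).toNat) n + c)
    (hPA : ∀ f : ℕ →. Bool, Partrec f → ∃ g : ℕ → Bool, RecT O (fun n => (g n).toNat) ∧
      ∀ n b, b ∈ f n → g n = b)
    (hZO : RecT O (fun n => (Z n).toNat)) (hO : ∀ h : ℕ → ℕ, RecT O h → TR h K0) :
    RecT O K0 := by
  classical
  set GZ : ℕ → ℕ := fun n => (Z n).toNat with hGZ
  obtain ⟨c, hc⟩ := hK
  obtain ⟨g, hg1, hg2⟩ := hPA psi psi_partrec
  have hF : RecT O (FF g) := FF_rec hg1
  obtain ⟨d, hd⟩ := low_values GZ hc (hO _ hF)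
  obtain ⟨j, hj⟩ := hML UU UU_re (fun n S hS _ => UU_meas n S hS)
  -- the values on the halting set
  have hval : ∀ n s, fst n s → FF g n = Encodable.encode (cho n s) := by
    intro n s h
    unfold FF
    congr 1
    have h1 := (cho_spec n s).1
    apply List.ext_getElem
    · rw [List.length_map, List.length_range, h1]
    · intro i h2 h3
      rw [List.getElem_map, List.getElem_range]
      rw [hg2 _ _ (psi_mem (i := i) h), List.getElem?_eq_getElem h3]
      rfl
  have hprez : ∀ m, (List.ofFn (fun i : Fin m => Z i)).map Bool.toNat = pre GZ m := by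
    intro m
    apply List.ext_getElem
    · simp
    · intro i h1 h2
      simp [pre, hGZ]
  have hpret : ∀ m i, i ≤ m → ((List.ofFn (fun i : Fin m => Z i)).take i).map Bool.toNat =
      pre GZ i := by
    intro m i h
    rw [List.map_take, hprez, AC.pre_take GZ h]
  set N0 := max j d with hN0
  -- late arguments
  have hlate : ∀ n t, N0 ≤ n → HitU (pre GZ t) (Nat.pair n (FF g n)) (3 * n) →
      K0 n = (hl n t).toNat := by
    intro n t hn hh
    cases h1 : hl n t with
    | true => exact K0_hl.1 ⟨t, h1⟩
    | false =>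
      rcases K0_le n with h2 | h2
      · rw [h2]; rfl
      · exfalso
        have hex := K0_hl.2 h2
        have h3 : fst n (Nat.find hex) := by
          refine ⟨Nat.find_spec hex, fun s' hs' => ?_⟩
          rw [← Bool.not_eq_true]
          exact Nat.find_min hex hs'
        have h4 : t ≤ Nat.find hex := by
          by_contra h5
          push Not at h5
          have := hl_mono h5.le (Nat.find_spec hex)
          rw [h1] at this
          exact absurd this (by simp)
        generalize Nat.find hex = s at h3 h4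
        apply hj s
        refine ⟨n, le_trans (le_max_left _ _) hn, ?_, ?_⟩
        · rw [List.length_ofFn]; exact h3
        · rw [cer_iff, List.length_ofFn]
          refine ⟨t, h4, ?_⟩
          rw [hpret s t h4, ← hval n s h3]
          exact hh
  have hfind : ∀ n, N0 ≤ n → ∃ t, HitU (pre GZ t) (Nat.pair n (FF g n)) (3 * n) := by
    intro n hn
    apply KG_le.1
    have h1 := hd n
    have h2 : d ≤ n := le_trans (le_max_right _ _) hn
    omega
  -- the reduction
  have hJ : RecT O (join GZ (FF g)) := RecT.pair hZO hF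
  let tab : List ℕ := pre K0 N0
  let p : List ℕ → ℕ → ℕ → Option ℕ := fun β x w =>
    bif decide (x < N0) then some ((tab[x]?).getD 0)
    else bif (decide (x < β.length) && decide (w ≤ β.length)) && decide (HitU
      ((β.take w).map (fun z => z.unpair.1)) (Nat.pair x (((β[x]?).getD 0).unpair.2)) (3 * x))
    then some (hl x w).toNat else none
  have hpj : ∀ n w, w ≤ n → ((pre (join GZ (FF g)) n).take w).map (fun z => z.unpair.1) =
      pre GZ w := by
    intro n w h
    rw [AC.pre_take _ h]
    unfold pre
    rw [List.map_map]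
    apply List.map_congr_left
    intro i _
    simp [join]
  have hpx : ∀ n x, x < n → (((pre (join GZ (FF g)) n)[x]?).getD 0).unpair.2 = FF g x := by
    intro n x h
    rw [pre_getElem?, if_pos h]
    simp [join]
  refine cert hJ p ?_ K0 ?_ ?_
  · have b : Primrec (fun q : (List ℕ × ℕ) × ℕ => q.1.1) := Primrec.fst.comp Primrec.fst
    have x : Primrec (fun q : (List ℕ × ℕ) × ℕ => q.1.2) := Primrec.snd.comp Primrec.fst
    have w : Primrec (fun q : (List ℕ × ℕ) × ℕ => q.2) := Primrec.snd
    have l := Primrec.list_length.comp b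
    have a1 := (Primrec.nat_lt.comp x (Primrec.const N0)).decide
    have a2 := Primrec.option_some.comp (Primrec.option_getD.comp (Primrec.list_getElem?.comp
      (Primrec.const tab) x) (Primrec.const 0))
    have a3 := (Primrec.nat_lt.comp x l).decide
    have a4 := (Primrec.nat_le.comp w l).decide
    have c1 := Primrec.list_map (Primrec.list_take.comp w b)
      ((Primrec.fst.comp (Primrec.unpair.comp Primrec.snd)).to₂)
    have c2 := Primrec.snd.comp (Primrec.unpair.comp (Primrec.option_getD.comp
      (Primrec.list_getElem?.comp b x) (Primrec.const 0)))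
    have a5 := (HitU_p.comp ((c1.pair (Primrec₂.natPair.comp x c2)).pair
      (Primrec.nat_mul.comp (Primrec.const 3) x))).decide
    have a6 := Primrec.option_some.comp (toNat_p.comp (hl_p.comp x w))
    have h := Primrec.cond a1 a2 (Primrec.cond (Primrec.and.comp (Primrec.and.comp a3 a4) a5) a6
      (Primrec.const none))
    refine h.to_comp.of_eq ?_
    intro q
    show _ = (bif _ then _ else _)
    congr
  · intro x
    by_cases hx : x < N0
    · refine ⟨0, 0, ?_⟩
      show Option.isSome (α := ℕ) (bif _ then _ else _) = true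
      rw [decide_eq_true hx]
      rfl
    · push Not at hx
      obtain ⟨t, ht⟩ := hfind x hx
      refine ⟨max (x + 1) t, t, ?_⟩
      show Option.isSome (α := ℕ) (bif _ then _ else bif _ then _ else _) = true
      rw [decide_eq_false (by omega), cond_false, hpj _ _ (le_max_right _ _),
        hpx _ _ (lt_of_lt_of_le (Nat.lt_succ_self x) (le_max_left _ _)), decide_eq_true ht,
        pre_length, decide_eq_true (lt_of_lt_of_le (Nat.lt_succ_self x) (le_max_left _ _)),
        decide_eq_true (le_max_right _ _)]
      rfl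
  · intro x n w y h
    have h0 : (bif decide (x < N0) then some ((tab[x]?).getD 0)
      else bif (decide (x < (pre (join GZ (FF g)) n).length) &&
        decide (w ≤ (pre (join GZ (FF g)) n).length)) && decide (HitU
        (((pre (join GZ (FF g)) n).take w).map (fun z => z.unpair.1))
        (Nat.pair x ((((pre (join GZ (FF g)) n)[x]?).getD 0).unpair.2)) (3 * x))
      then some (hl x w).toNat else none) = some y := h
    by_cases hx : x < N0
    · rw [decide_eq_true hx, cond_true, Option.some.injEq] at h0
      rw [← h0]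
      show ((pre K0 N0)[x]?).getD 0 = K0 x
      rw [pre_getElem?, if_pos hx]
      rfl
    · rw [decide_eq_false hx, cond_false, pre_length] at h0
      by_cases h1 : x < n ∧ w ≤ n
      · rw [hpj _ _ h1.2, hpx _ _ h1.1, decide_eq_true h1.1, decide_eq_true h1.2] at h0
        by_cases h2 : HitU (pre GZ w) (Nat.pair x (FF g x)) (3 * x)
        · rw [decide_eq_true h2] at h0
          simp only [Bool.and_true, cond_true, Option.some.injEq] at h0
          rw [← h0]
          exact (hlate x w (by omega) h2).symm
        · rw [decide_eq_false h2] at h0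
          simp at h0
      · have h2 : (decide (x < n) && decide (w ≤ n)) = false := by
          rw [← Bool.not_eq_true, Bool.and_eq_true, decide_eq_true_eq, decide_eq_true_eq]
          exact h1
        rw [h2, Bool.false_and, cond_false] at h0
        exact absurd h0 (by simp)

end Pool.Agent.Helper743.GR
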