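import Pool.Agent.Helper743.GRConc

set_option autoImplicit false

/-! A sequential golden run construction: the requests and the golden run for an oracle relative
to which the halting problem is K-trivial. -/

namespace Pool.Agent.Helper743.GR

open Nat.Partrec (Code)
open Filter
open Pool.Agent.Helper743.PR (evT evR evT_p findIdx_range)
open Pool.Agent.Helper743.AC (hl str kstr str_p fsum_p pow_p geo_le)
open Pool.Agent.Helper743.KT (HitU HitU_p KG KG_le K0 KG_opt KG_Kraft UpS Kraft upper_test')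

lemma kE_two (e : ℕ) : 2 ≤ kE e := by
  unfold kE
  have : 1 ≤ 2 ^ (e + 1) := Nat.one_le_two_pow
  omega

noncomputable def rn (G : ℕ → ℕ) (cmp : ℕ → ℕ → ℕ) (e s : ℕ) : List Frame :=
  run (kdG G) cmp e (kE e) (kE e + 3) s

/-- summing over the first components of a list without duplicates -/
lemma WW_finset {l : List (ℕ × ℕ)} (h : (l.map Prod.fst).Nodup) (S : Finset ℕ) (r : ℕ → ℕ)
    (hr : ∀ m ∈ S, (m, r m) ∈ l) : ∑ m ∈ S, (1/2 : ℝ) ^ (r m) ≤ WW l := by
  have h1 : WW l = ∑ p ∈ l.toFinset, (1/2 : ℝ) ^ p.2 := by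
    rw [List.sum_toFinset _ (List.Nodup.of_map _ h)]
    rfl
  rw [h1]
  have h2 : ∑ m ∈ S, (1/2 : ℝ) ^ (r m) = ∑ p ∈ S.image (fun m => (m, r m)), (1/2 : ℝ) ^ p.2 := by
    rw [Finset.sum_image]
    intro a _ b _ hab
    exact (Prod.mk.inj hab).1
  rw [h2]
  apply Finset.sum_le_sum_of_subset_of_nonneg
  · intro p hp
    rw [Finset.mem_image] at hp
    obtain ⟨m, hm, rfl⟩ := hp
    exact List.mem_toFinset.2 (hr m hm)
  · intro _ _ _; positivity

lemma half_sum (s : Finset ℕ) : ∑ n ∈ s, (1/2 : ℝ) ^ (n / 2 + 3) ≤ 1 / 2 := by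
  have hsub : s ⊆ Finset.range (2 * (s.sup id + 1)) := by
    intro x hx
    rw [Finset.mem_range]
    have : x ≤ s.sup id := Finset.le_sup (f := id) hx
    omega
  have hsum : ∀ m : ℕ, ∑ n ∈ Finset.range (2 * m), (1/2 : ℝ) ^ (n / 2 + 3) =
      (1 / 4) * ∑ n ∈ Finset.range m, (1/2 : ℝ) ^ n := by
    intro m
    induction m with
    | zero => simp
    | succ m ih =>
      have e1 : 2 * (m + 1) = 2 * m + 1 + 1 := by ring
      rw [e1, Finset.sum_range_succ, Finset.sum_range_succ, ih, Finset.sum_range_succ]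
      have e2 : (2 * m + 1) / 2 = m := by omega
      have e3 : 2 * m / 2 = m := by omega
      rw [e2, e3, pow_add]
      ring
  calc ∑ n ∈ s, (1/2 : ℝ) ^ (n / 2 + 3) ≤
        ∑ n ∈ Finset.range (2 * (s.sup id + 1)), (1/2 : ℝ) ^ (n / 2 + 3) :=
        Finset.sum_le_sum_of_subset_of_nonneg hsub (fun _ _ _ => by positivity)
    _ = (1 / 4) * ∑ n ∈ Finset.range (s.sup id + 1), (1/2 : ℝ) ^ n := hsum _
    _ ≤ 1 / 2 := by
        have := geo_le (Finset.range (s.sup id + 1))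
        linarith

variable (G : ℕ → ℕ) {cmp : ℕ → ℕ → ℕ}

/-- the test for requests -/
noncomputable def reqT (cmp : ℕ → ℕ → ℕ) (β : List ℕ) (x w : ℕ) : Bool :=
  decide (x.unpair.1 + 2 ≤ x.unpair.2) ||
  (decide (w.unpair.2.unpair.1 ≤ β.length) &&
    (((tot (kE w.unpair.1) (runL cmp β w.unpair.1 w.unpair.2.unpair.1)).filter
      (fun p => decide (p = (x.unpair.1, w.unpair.2.unpair.2)))).length != 0 &&
    decide (w.unpair.2.unpair.2 + (w.unpair.1 / 2 + 3) ≤ x.unpair.2)))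

lemma reqT_p (hc : Primrec₂ cmp) : Primrec (fun q : (List ℕ × ℕ) × ℕ =>
    reqT cmp q.1.1 q.1.2 q.2) := by
  have m : Primrec (fun q : (List ℕ × ℕ) × ℕ => q.1.2.unpair.1) :=
    Primrec.fst.comp (Primrec.unpair.comp (Primrec.snd.comp Primrec.fst))
  have j : Primrec (fun q : (List ℕ × ℕ) × ℕ => q.1.2.unpair.2) :=
    Primrec.snd.comp (Primrec.unpair.comp (Primrec.snd.comp Primrec.fst))
  have e : Primrec (fun q : (List ℕ × ℕ) × ℕ => q.2.unpair.1) :=
    Primrec.fst.comp (Primrec.unpair.comp Primrec.snd)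
  have w2 : Primrec (fun q : (List ℕ × ℕ) × ℕ => q.2.unpair.2) :=
    Primrec.snd.comp (Primrec.unpair.comp Primrec.snd)
  have s : Primrec (fun q : (List ℕ × ℕ) × ℕ => q.2.unpair.2.unpair.1) :=
    Primrec.fst.comp (Primrec.unpair.comp w2)
  have r : Primrec (fun q : (List ℕ × ℕ) × ℕ => q.2.unpair.2.unpair.2) :=
    Primrec.snd.comp (Primrec.unpair.comp w2)
  have b : Primrec (fun q : (List ℕ × ℕ) × ℕ => q.1.1) := Primrec.fst.comp Primrec.fst
  have a1 := (Primrec.nat_le.comp (Primrec.nat_add.comp m (Primrec.const 2)) j).decide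
  have a2 := (Primrec.nat_le.comp s (Primrec.list_length.comp b)).decide
  have a3 := tot_p.comp (kE_p.comp e) ((runL_p hc).comp ((b.pair e).pair s))
  have a4 : Primrec₂ (fun (q : (List ℕ × ℕ) × ℕ) (p : ℕ × ℕ) =>
      decide (p = (q.1.2.unpair.1, q.2.unpair.2.unpair.2))) := by
    have h := Primrec.eq.comp (Primrec.snd (α := (List ℕ × ℕ) × ℕ) (β := ℕ × ℕ))
      ((m.comp Primrec.fst).pair (r.comp Primrec.fst))
    exact h.decide
  have a5 := (Primrec.eq.comp (Primrec.list_length.comp (filt_p a3 a4))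
    (Primrec.const 0)).not.decide
  have a6 := (Primrec.nat_le.comp (Primrec.nat_add.comp r (Primrec.nat_add.comp
    (Primrec.nat_div.comp e (Primrec.const 2)) (Primrec.const 3))) j).decide
  refine (Primrec.or.comp a1 (Primrec.and.comp a2 (Primrec.and.comp a5 a6))).of_eq ?_
  intro q
  unfold reqT
  simp only [bne, decide_not, beq_eq_decide]

lemma reqT_iff {m j : ℕ} : (∃ n w, reqT cmp (pre G n) (Nat.pair m j) w = true) ↔
    (m + 2 ≤ j ∨ ∃ e s r, (m, r) ∈ tot (kE e) (rn G cmp e s) ∧ r + (e / 2 + 3) ≤ j) := by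
  unfold reqT
  simp only [Nat.unpair_pair, Bool.or_eq_true, Bool.and_eq_true, decide_eq_true_eq, bne_iff_ne,
    ne_eq, List.length_eq_zero_iff, List.filter_eq_nil_iff, not_forall, not_not, pre_length]
  constructor
  · rintro ⟨n, w, h | ⟨h1, ⟨p, hp, h2⟩, h3⟩⟩
    · exact Or.inl h
    · right
      refine ⟨w.unpair.1, w.unpair.2.unpair.1, w.unpair.2.unpair.2, ?_, h3⟩
      rw [runL_eq _ h1, h2] at hp
      exact hp
  · rintro (h | ⟨e, s, r, h1, h2⟩)
    · exact ⟨0, 0, Or.inl h⟩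
    · refine ⟨s, Nat.pair e (Nat.pair s r), Or.inr ?_⟩
      simp only [Nat.unpair_pair]
      refine ⟨le_refl _, ⟨(m, r), ?_, rfl⟩, h2⟩
      rw [runL_eq _ (le_refl _)]
      exact h1

lemma req_ex (m : ℕ) : ∃ j, m + 2 ≤ j ∨ ∃ e s r, (m, r) ∈ tot (kE e) (rn G cmp e s) ∧
    r + (e / 2 + 3) ≤ j := ⟨m + 2, Or.inl (le_refl _)⟩

variable (cmp) in
noncomputable def hreq (m : ℕ) : ℕ :=
  open Classical in Nat.find (req_ex G (cmp := cmp) m)

lemma hreq_le {m j : ℕ} : hreq G cmp m ≤ j ↔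
    (m + 2 ≤ j ∨ ∃ e s r, (m, r) ∈ tot (kE e) (rn G cmp e s) ∧ r + (e / 2 + 3) ≤ j) := by
  classical
  unfold hreq
  constructor
  · intro h
    rcases Nat.find_spec (req_ex G (cmp := cmp) m) with h1 | ⟨e, s, r, h1, h2⟩
    · exact Or.inl (le_trans h1 h)
    · exact Or.inr ⟨e, s, r, h1, le_trans h2 h⟩
  · intro h
    exact Nat.find_min' (req_ex G (cmp := cmp) m) h

lemma hreq_up (hc : Primrec₂ cmp) : UpS G (hreq G cmp) := by
  obtain ⟨ψ, hψ, hd⟩ := upper_test' G (T := reqT cmp) (reqT_p hc).to_comp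
  refine ⟨ψ, hψ, fun m j => ?_⟩
  rw [hd, reqT_iff, hreq_le]

open Classical in
lemma hreq_kraft : Kraft (hreq G cmp) := by
  intro S
  have hwit : ∀ m, ¬ (m + 2 ≤ hreq G cmp m) → ∃ q : ℕ × (ℕ × ℕ),
      (m, q.2.2) ∈ tot (kE q.1) (rn G cmp q.1 q.2.1) ∧
      q.2.2 + (q.1 / 2 + 3) ≤ hreq G cmp m := by
    intro m hm
    rcases (hreq_le G).1 (le_refl (hreq G cmp m)) with h | ⟨e, s, r, h1, h2⟩
    · exact absurd h hm
    · exact ⟨(e, (s, r)), h1, h2⟩
  choose! q hq using hwit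
  have e1 : ∑ m ∈ S.filter (fun m => m + 2 ≤ hreq G cmp m), (1/2 : ℝ) ^ (hreq G cmp m) ≤
      1 / 2 := by
    have e2 := geo_le (S.filter (fun m => m + 2 ≤ hreq G cmp m))
    calc ∑ m ∈ S.filter (fun m => m + 2 ≤ hreq G cmp m), (1/2 : ℝ) ^ (hreq G cmp m)
        ≤ ∑ m ∈ S.filter (fun m => m + 2 ≤ hreq G cmp m), (1 / 4) * (1/2 : ℝ) ^ m := by
          refine Finset.sum_le_sum (fun m hm => ?_)
          rw [Finset.mem_filter] at hm
          calc (1/2 : ℝ) ^ (hreq G cmp m) ≤ (1 / 2) ^ (m + 2) :=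
                pow_le_pow_of_le_one (by norm_num) (by norm_num) hm.2
            _ = (1 / 4) * (1/2 : ℝ) ^ m := by rw [pow_add]; ring
      _ = (1 / 4) * ∑ m ∈ S.filter (fun m => m + 2 ≤ hreq G cmp m), (1/2 : ℝ) ^ m :=
          (Finset.mul_sum _ _ _).symm
      _ ≤ 1 / 2 := by linarith
  have e3 : ∑ m ∈ S.filter (fun m => ¬ m + 2 ≤ hreq G cmp m), (1/2 : ℝ) ^ (hreq G cmp m) ≤
      1 / 2 := by
    set T := S.filter (fun m => ¬ m + 2 ≤ hreq G cmp m) with hT
    have hmem : ∀ m ∈ T, ¬ m + 2 ≤ hreq G cmp m := by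
      intro m hm
      rw [hT, Finset.mem_filter] at hm
      exact hm.2
    have e4 : ∀ e, ∑ m ∈ T.filter (fun m => (q m).1 = e), (1/2 : ℝ) ^ (q m).2.2 ≤ 1 := by
      intro e
      rcases (T.filter (fun m => (q m).1 = e)).eq_empty_or_nonempty with h0 | h0
      · rw [h0]; simp
      · obtain ⟨m0, hm0, hmax⟩ := Finset.exists_max_image _ (fun m => (q m).2.1) h0
        have h1 := run_tot_cost (kdG G) cmp e (kE e) (kE_two e) (q m0).2.1
        refine le_trans ?_ h1
        apply WW_finset (run_tot_nodup (kdG G) cmp e (kE e) (kE_two e) (q m0).2.1) _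
          (fun m => (q m).2.2)
        intro m hm
        have h2 := hmax m hm
        rw [Finset.mem_filter] at hm
        have h3 := (hq m (hmem m hm.1)).1
        rw [hm.2] at h3
        exact run_tot_mono (kdG G) cmp e (kE e) (kE_two e) h2 _ h3
    have e5 : ∑ m ∈ T, (1/2 : ℝ) ^ ((q m).1 / 2 + 3) * (1/2) ^ (q m).2.2 =
        ∑ e ∈ T.image (fun m => (q m).1), ∑ m ∈ T.filter (fun m => (q m).1 = e),
          (1/2 : ℝ) ^ ((q m).1 / 2 + 3) * (1/2) ^ (q m).2.2 :=
      (Finset.sum_fiberwise_of_maps_to (fun m hm => Finset.mem_image_of_mem _ hm) _).symm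
    calc ∑ m ∈ T, (1/2 : ℝ) ^ (hreq G cmp m)
        ≤ ∑ m ∈ T, (1/2 : ℝ) ^ ((q m).1 / 2 + 3) * (1/2) ^ (q m).2.2 := by
          refine Finset.sum_le_sum (fun m hm => ?_)
          rw [← pow_add]
          apply pow_le_pow_of_le_one (by norm_num) (by norm_num)
          have := (hq m (hmem m hm)).2
          omega
      _ = _ := e5
      _ ≤ ∑ e ∈ T.image (fun m => (q m).1), (1/2 : ℝ) ^ (e / 2 + 3) := by
          refine Finset.sum_le_sum (fun e _ => ?_)
          have e6 : ∑ m ∈ T.filter (fun m => (q m).1 = e),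
              (1/2 : ℝ) ^ ((q m).1 / 2 + 3) * (1/2) ^ (q m).2.2 =
              (1/2 : ℝ) ^ (e / 2 + 3) *
              ∑ m ∈ T.filter (fun m => (q m).1 = e), (1/2 : ℝ) ^ (q m).2.2 := by
            rw [Finset.mul_sum]
            refine Finset.sum_congr rfl (fun m hm => ?_)
            rw [Finset.mem_filter] at hm
            rw [hm.2]
          rw [e6]
          have e7 := mul_le_mul_of_nonneg_left (e4 e)
            (show (0 : ℝ) ≤ (1/2 : ℝ) ^ (e / 2 + 3) by positivity)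
          linarith
      _ ≤ 1 / 2 := half_sum _
  have e5 := Finset.sum_filter_add_sum_filter_not S
    (fun m => m + 2 ≤ hreq G cmp m) (fun m => (1/2 : ℝ) ^ (hreq G cmp m))
  linarith

/-- the main goal is never reached -/
lemma never_fin {e s : ℕ} {x : Frame} (hx : rn G cmp e s = [x]) :
    big x.1.1 (EE (kdG G) e s (kE e) x.2.2.1) = false := by
  classical
  by_contra hb
  rw [Bool.not_eq_false, big_iff] at hb
  have hinv := (step_at (kE_two e) (show run (kdG G) cmp e (kE e) (kE e + 3) s = [x] from hx)).1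
  have hg : x.1.1 = 1 := hinv.low
  rw [hg, pow_one] at hb
  set D := EE (kdG G) e s (kE e) x.2.2.1 with hD
  have hndQ : ((tot (kE e) (rn G cmp e s)).map Prod.fst).Nodup :=
    run_tot_nodup (kdG G) cmp e (kE e) (kE_two e) s
  have hDsub : D.Sublist (tot (kE e) (rn G cmp e s)) := by
    have h1 : D.Sublist x.2.2.2 := EE_sub.trans hinv.top.sb
    have h2 : (x.2.2.2).Sublist (Qs [x]) := by
      rw [Qs_cons]; exact List.sublist_append_left _ _
    rw [hx]
    by_cases hk1 : kE e ≤ ([] : List Frame).length + 1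
    · rw [tot_one hk1]; exact (h1.trans h2).trans (List.sublist_cons_self _ _)
    · rw [tot_two hk1]; exact h1.trans h2
  have hnd : (D.map Prod.fst).Nodup := (hDsub.map Prod.fst).nodup hndQ
  -- the described versions
  let A : ℕ × ℕ → Finset ℕ := fun p =>
    (Finset.range (s + 1)).filter (fun t => newv (kdG G) t p.1 (p.2 + e) = true)
  have hA : ∀ p ∈ D, kE e ≤ (A p).card := by
    intro p hp
    have h1 := mem_EE hp
    rw [cnt_eq] at h1
    exact h1
  have hsum : ∑ z ∈ D.toFinset.sigma A, (1/2 : ℝ) ^ (KG G (Encodable.encode (str z.2 z.1.1))) ≤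
      1 := by
    have hinj : Set.InjOn (fun z : (_ : ℕ × ℕ) × ℕ => Encodable.encode (str z.2 z.1.1))
        (D.toFinset.sigma A) := by
      rintro ⟨p, t⟩ hz ⟨p', t'⟩ hz' he
      simp only [Finset.coe_sigma, Set.mem_sigma_iff, Finset.mem_coe, List.mem_toFinset] at hz hz'
      have h1 := Encodable.encode_injective he
      simp only at h1
      have h2 := congrArg List.length h1
      have h3 : ∀ t w, (str t w).length = w := by intro t w; unfold str; simp
      rw [h3, h3] at h2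
      have hpp : p = p' := by
        have := List.inj_on_of_nodup_map hnd hz.1 hz'.1 h2
        exact this
      subst hpp
      have h4 := (Finset.mem_filter.1 hz.2).2
      have h5 := (Finset.mem_filter.1 hz'.2).2
      rw [newv_iff] at h4 h5
      rcases lt_trichotomy t t' with h6 | h6 | h6
      · exact absurd h1 (h5.2 t h6 h4.1)
      · subst h6; rfl
      · exact absurd h1.symm (h4.2 t' h6 h5.1)
    have h6 := KG_Kraft G ((D.toFinset.sigma A).image
      (fun z : (_ : ℕ × ℕ) × ℕ => Encodable.encode (str z.2 z.1.1)))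
    rw [Finset.sum_image hinj] at h6
    exact h6
  rw [Finset.sum_sigma] at hsum
  have h1 : ∑ p ∈ D.toFinset, (kE e : ℝ) * (1/2) ^ e * (1/2) ^ p.2 ≤
      ∑ p ∈ D.toFinset, ∑ t ∈ A p, (1/2 : ℝ) ^ (KG G (Encodable.encode (str t p.1))) := by
    refine Finset.sum_le_sum (fun p hp => ?_)
    rw [List.mem_toFinset] at hp
    have h2 : ∑ t ∈ A p, (1/2 : ℝ) ^ (p.2 + e) ≤
        ∑ t ∈ A p, (1/2 : ℝ) ^ (KG G (Encodable.encode (str t p.1))) := by
      refine Finset.sum_le_sum (fun t ht => ?_)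
      have h3 := (Finset.mem_filter.1 ht).2
      rw [newv_iff] at h3
      exact pow_le_pow_of_le_one (by norm_num) (by norm_num) (kdG_KG h3.1)
    rw [Finset.sum_const, nsmul_eq_mul] at h2
    refine le_trans ?_ h2
    have h3 : (kE e : ℝ) ≤ ((A p).card : ℝ) := by exact_mod_cast hA p hp
    have h4 : (0:ℝ) ≤ (1/2) ^ (p.2 + e) := by positivity
    calc (kE e : ℝ) * (1/2) ^ e * (1/2) ^ p.2 = (kE e : ℝ) * (1/2) ^ (p.2 + e) := by
          rw [pow_add]; ring
      _ ≤ _ := mul_le_mul_of_nonneg_right h3 h4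
  rw [← Finset.mul_sum] at h1
  have h2 : ∑ p ∈ D.toFinset, (1/2 : ℝ) ^ p.2 = WW D := by
    rw [List.sum_toFinset _ (List.Nodup.of_map _ hnd)]
    rfl
  rw [h2] at h1
  have h3 : (kE e : ℝ) * (1/2) ^ e * (1/2) ≤ 1 := by
    have h4 : (0:ℝ) ≤ (kE e : ℝ) * (1/2) ^ e := by positivity
    have h5 := mul_le_mul_of_nonneg_left hb h4
    linarith
  have h4 : (kE e : ℝ) = 2 ^ (e + 1) + 1 := by unfold kE; push_cast; ring
  rw [h4] at h3
  have h5 : (2:ℝ) ^ e * (1/2) ^ e = 1 := by rw [← mul_pow]; norm_num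
  have h6 : (0:ℝ) < (1/2) ^ e := by positivity
  have h7 : ((2:ℝ) ^ (e + 1) + 1) * (1/2) ^ e * (1/2) = 1 + (1/2) ^ e * (1/2) := by
    rw [pow_succ]
    calc ((2:ℝ) ^ e * 2 + 1) * (1/2) ^ e * (1/2) = 2 ^ e * (1/2) ^ e + (1/2) ^ e * (1/2) := by ring
      _ = _ := by rw [h5]
  rw [h7] at h3
  linarith

theorem gold_ex (hc : Primrec₂ cmp) {c : ℕ}
    (hK : ∀ n, KG G (Encodable.encode (kstr n)) ≤ KG G n + c) :
    ∃ e s0 x0 base, Gold (kdG G) cmp e (kE e) s0 x0 base := by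
  obtain ⟨d, hd⟩ := KG_opt (hreq_up G hc) (hreq_kraft G (cmp := cmp))
  set e := 2 * (c + d + 3) with he
  obtain ⟨s0, x0, base, h1, h2, h3⟩ := exists_golden (kdG G) cmp e (kE_two e)
  refine ⟨e, s0, x0, base, kE_two e, h1, h2, h3, ?_, ?_⟩
  · rintro ⟨m, r⟩ ⟨s, hs⟩
    apply kdG_ev
    have h4 := hK m
    have h5 := hd m
    have h6 : hreq G cmp m ≤ r + (e / 2 + 3) := (hreq_le G).2 (Or.inr ⟨e, s, r, hs, le_refl _⟩)
    simp only
    omega
  · intro s x hx _
    exact never_fin G hx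

end Pool.Agent.Helper743.GR
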