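import Pool.Agent.Helper743.GRGold

set_option autoImplicit false

/-! A sequential golden run construction: every argument is certified at the golden run, and
there are few certified values. -/

namespace Pool.Agent.Helper743.GR

open Nat.Partrec (Code)
open Filter
open Pool.Agent.Helper743.AC (hl str)
open Pool.Agent.Helper743.PR (findIdx_range)

section gen

variable {kd : ℕ → ℕ → ℕ → Bool} {cmp : ℕ → ℕ → ℕ} {e k : ℕ}

/-- the data of a golden run -/
structure Gold (kd : ℕ → ℕ → ℕ → Bool) (cmp : ℕ → ℕ → ℕ) (e k s0 : ℕ) (x0 : Frame)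
    (base : List Frame) : Prop where
  hk : 2 ≤ k
  h0 : run kd cmp e k (k + 3) s0 = x0 :: base
  hmin : ∀ v, s0 ≤ v → base.length + 1 ≤ (run kd cmp e k (k + 3) v).length
  hinf : ∀ N, ∃ s, N ≤ s ∧ (run kd cmp e k (k + 3) s).length = base.length + 1
  hKT : ∀ p, (∃ s, p ∈ tot k (run kd cmp e k (k + 3) s)) → ∃ N, ∀ s, N ≤ s →
    kd s p.1 (p.2 + e) = true
  hNF : ∀ s x, run kd cmp e k (k + 3) s = [x] → ¬ k ≤ 1 →
    big x.1.1 (EE kd e s k x.2.2.1) = false

variable {s0 : ℕ} {x0 : Frame} {base : List Frame}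

lemma Gold.top (h : Gold kd cmp e k s0 x0 base) {s s' : ℕ} {x : Frame} (hs : s0 ≤ s)
    (hx : run kd cmp e k (k + 3) s = x :: base) (hs' : s ≤ s')
    (hl : (run kd cmp e k (k + 3) s').length = base.length + 1) :
    ∃ x', run kd cmp e k (k + 3) s' = x' :: base ∧ x'.1.1 = x.1.1 ∧ x.2.2.1 <:+ x'.2.2.1 := by
  obtain ⟨above, x', h1, h2, h3⟩ := track h.hk hx hs' (fun v hv _ => h.hmin v (by omega))
  have h4 : above = [] := by
    rw [h1, List.length_append] at hl
    simp only [List.length_cons] at hl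
    apply List.eq_nil_of_length_eq_zero
    omega
  subst h4
  exact ⟨x', h1, h2, h3⟩

lemma Gold.next (h : Gold kd cmp e k s0 x0 base) (N : ℕ) : ∃ s x, N ≤ s ∧ s0 ≤ s ∧
    run kd cmp e k (k + 3) s = x :: base ∧ x.1.1 = x0.1.1 := by
  obtain ⟨s, hs, hl⟩ := h.hinf (max N s0)
  obtain ⟨x, hx, h1, -⟩ := h.top (le_refl _) h.h0 (le_trans (le_max_right _ _) hs) hl
  exact ⟨s, x, le_trans (le_max_left _ _) hs, le_trans (le_max_right _ _) hs, hx, h1⟩

lemma Gold.no_drop (h : Gold kd cmp e k s0 x0 base) {s : ℕ} (hs : s0 ≤ s) {y : Frame}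
    {rest' : List Frame} (hb : base = y :: rest') {z : Frame}
    (h1 : run kd cmp e k (k + 3) (s + 1) = z :: rest') : False := by
  have h2 := h.hmin (s + 1) (by omega)
  rw [h1, hb] at h2
  simp only [List.length_cons] at h2
  omega

lemma Gold.not_lev (h : Gold kd cmp e k s0 x0 base) : ¬ k ≤ base.length + 1 := by
  intro hk1
  have hall : ∀ s, s0 ≤ s → run kd cmp e k (k + 3) s = x0 :: base := by
    intro s hs
    induction s, hs using Nat.le_induction with
    | base => exact h.h0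
    | succ m hm ih =>
      obtain ⟨-, hst⟩ := step_at h.hk ih
      generalize hg : run kd cmp e k (k + 3) (m + 1) = stk at hst ⊢
      cases hst with
      | ret1 y rest' hr _ _ => exact (h.no_drop hm hr hg).elim
      | ret2 y rest' hr _ _ => exact (h.no_drop hm hr hg).elim
      | push h1 _ _ _ => exact absurd hk1 h1
      | wait1 _ _ => rfl
      | deg _ _ => rfl
      | fin _ _ _ => rfl
      | wait2 _ _ _ => rfl
      | idle _ _ _ _ => rfl
  obtain ⟨N, hN⟩ := h.hKT (x0.2.1.2, x0.1.1) ⟨s0, by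
    rw [h.h0, tot_one hk1]; exact List.mem_cons_self⟩
  have h1 := hN (max N s0) (le_max_left _ _)
  obtain ⟨-, hst⟩ := step_at h.hk (hall (max N s0) (le_max_right _ _))
  have h2 := hall (max N s0 + 1) (le_trans (le_max_right _ _) (Nat.le_succ _))
  have hs : s0 ≤ max N s0 := le_max_right _ _
  generalize max N s0 = m at h1 hst h2 hs
  have hg := h2
  have hkk := h.hk
  generalize run kd cmp e k (k + 3) (m + 1) = stk at hst h2
  simp only at h1
  cases hst with
  | ret1 y rest' hr _ _ =>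
    rw [hr] at h2
    have h3 := congrArg List.length h2
    simp only [List.length_cons] at h3
    omega
  | ret2 y rest' hr h3 _ => exact h3 hk1
  | push h3 _ _ _ => exact h3 hk1
  | wait1 _ h3 => rw [h1] at h3; exact absurd h3 (by simp)
  | deg h3 h4 => rw [h4] at h3; simp only [List.length_nil] at h3; omega
  | fin h3 _ _ => exact h3 hk1
  | wait2 h3 _ _ => exact h3 hk1
  | idle h3 _ _ _ => exact h3 hk1

lemma Gold.not_big (h : Gold kd cmp e k s0 x0 base) {s : ℕ} {x : Frame} (hs : s0 ≤ s)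
    (hx : run kd cmp e k (k + 3) s = x :: base) :
    big x.1.1 (EE kd e s (k - base.length) x.2.2.1) = false := by
  have hlev := h.not_lev
  by_contra hb
  rw [Bool.not_eq_false] at hb
  obtain ⟨-, hst⟩ := step_at h.hk hx
  generalize hg : run kd cmp e k (k + 3) (s + 1) = stk at hst
  cases hst with
  | ret1 y rest' hr _ _ => exact (h.no_drop hs hr hg).elim
  | ret2 y rest' hr _ _ => exact (h.no_drop hs hr hg).elim
  | push _ h1 _ _ => rw [hb] at h1; exact absurd h1 (by simp)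
  | wait1 h1 _ => exact hlev h1
  | deg h1 _ => exact hlev h1
  | fin _ h1 _ =>
    subst h1
    have h2 := h.hNF s x hx (by simpa using hlev)
    simp only [List.length_nil, Nat.sub_zero] at hb
    rw [hb] at h2
    exact absurd h2 (by simp)
  | wait2 _ h1 _ => rw [hb] at h1; exact absurd h1 (by simp)
  | idle _ h1 _ _ => rw [hb] at h1; exact absurd h1 (by simp)

lemma run_tot_mem (hk : 2 ≤ k) {s : ℕ} {x : Frame} {rest : List Frame}
    (hx : run kd cmp e k (k + 3) s = x :: rest) {ρ : Rec} (hρ : ρ ∈ x.2.2.1) :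
    ρ.2 ∈ tot k (run kd cmp e k (k + 3) s) := by
  have hi := (step_at hk hx).1
  have h1 : ρ.2 ∈ x.2.2.2 := hi.top.sb.subset (List.mem_map_of_mem hρ)
  have h2 : ρ.2 ∈ Qs (x :: rest) := by
    rw [Qs_cons]; exact List.mem_append_left _ h1
  rw [hx]
  by_cases hk1 : k ≤ rest.length + 1
  · rw [tot_one hk1]; exact List.mem_cons_of_mem _ h2
  · rw [tot_two hk1]; exact h2

lemma Gold.act (h : Gold kd cmp e k s0 x0 base) {s : ℕ} {x : Frame} (hs : s0 ≤ s)
    (hx : run kd cmp e k (k + 3) s = x :: base) :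
    ∃ s', s ≤ s' ∧ run kd cmp e k (k + 3) s' = x :: base ∧
      pend kd cmp e s' (k - base.length) x.2.2.1 = false := by
  by_contra hne
  push Not at hne
  have hall : ∀ s', s ≤ s' → run kd cmp e k (k + 3) s' = x :: base := by
    intro s' hs'
    induction s', hs' using Nat.le_induction with
    | base => exact hx
    | succ m hm ih =>
      have hp := hne m hm ih
      obtain ⟨-, hst⟩ := step_at h.hk ih
      generalize hg : run kd cmp e k (k + 3) (m + 1) = stk at hst ⊢
      cases hst with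
      | ret1 y rest' hr _ _ => exact (h.no_drop (by omega) hr hg).elim
      | ret2 y rest' hr _ _ => exact (h.no_drop (by omega) hr hg).elim
      | push _ _ h1 _ => exact absurd h1 hp
      | wait1 _ _ => rfl
      | deg _ _ => rfl
      | fin _ _ _ => rfl
      | wait2 _ _ _ => rfl
      | idle _ _ _ _ => rfl
  have hN : ∃ N, ∀ ρ ∈ x.2.2.1, ∀ s', N ≤ s' → kd s' ρ.2.1 (ρ.2.2 + e) = true := by
    have h1 : ∀ ρ ∈ x.2.2.1, ∃ N, ∀ s', N ≤ s' → kd s' ρ.2.1 (ρ.2.2 + e) = true :=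
      fun ρ hρ => h.hKT ρ.2 ⟨s, run_tot_mem h.hk hx hρ⟩
    generalize x.2.2.1 = l at h1
    induction l with
    | nil => exact ⟨0, fun ρ hρ => by simp at hρ⟩
    | cons ρ l ih =>
      obtain ⟨N, hN⟩ := ih (fun ρ hρ => h1 ρ (List.mem_cons_of_mem _ hρ))
      obtain ⟨M, hM⟩ := h1 ρ List.mem_cons_self
      refine ⟨max N M, fun ρ' hρ' s' hs' => ?_⟩
      rcases List.mem_cons.1 hρ' with rfl | h2
      · exact hM s' (le_trans (le_max_right _ _) hs')
      · exact hN ρ' h2 s' (le_trans (le_max_left _ _) hs')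
  obtain ⟨N, hN⟩ := hN
  have h1 := hall (max N s) (le_max_right _ _)
  have h2 := (step_at h.hk h1).1
  exact hne (max N s) (le_max_right _ _) h1
    (pend_false h2.top (fun ρ hρ => hN ρ hρ _ (le_max_left _ _)))

/-- properties of the computations -/
structure Comp (cmp val : ℕ → ℕ → ℕ) : Prop where
  c1 : ∀ s s' n, cmp s n ≤ s → s ≤ s' → str s' (cmp s n) = str s (cmp s n) →
    cmp s' n = cmp s n ∧ val s' n = val s n
  c2 : ∀ n, ∃ s1, ∀ s, s1 ≤ s → cmp s n ≤ s ∧ cmp s n = cmp s1 n ∧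
    str s (cmp s1 n) = str s1 (cmp s1 n)

variable {val : ℕ → ℕ → ℕ}

lemma nfilt_final (hc : Comp cmp val) {n s1 : ℕ}
    (h1 : ∀ s, s1 ≤ s → cmp s n ≤ s ∧ cmp s n = cmp s1 n ∧
      str s (cmp s1 n) = str s1 (cmp s1 n))
    {s s' : ℕ} {R L : List Rec} (hs : s1 ≤ s) (hs' : s ≤ s')
    (hR : ∀ ρ ∈ R, ρ.1.2 ≤ s ∧ cmp ρ.1.2 ρ.1.1 ≤ ρ.1.2) :
    WW (nfilt cmp s n R) ≤ WW (nfilt cmp s' n (L ++ R)) := by
  have h2 : WR (R.filter (fun ρ => decide (ρ.1.1 = n) && valid cmp s ρ.1)) ≤
      WR (R.filter (fun ρ => decide (ρ.1.1 = n) && valid cmp s' ρ.1)) := by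
    apply WR_filter_mono
    intro ρ hρ h3
    obtain ⟨h4, h5⟩ := hR ρ hρ
    obtain ⟨⟨n', t⟩, p⟩ := ρ
    rw [Bool.and_eq_true, decide_eq_true_eq] at *
    simp only at *
    obtain ⟨rfl, h6⟩ := h3
    refine ⟨rfl, ?_⟩
    rw [valid_iff] at *
    have h7 := (hc.c1 t s n' h5 h4 h6).1
    have h8 : cmp t n' = cmp s1 n' := by rw [← h7, (h1 s hs).2.1]
    rw [h8] at h6 ⊢
    rw [(h1 s' (by omega)).2.2, ← (h1 s hs).2.2, h6]
  have h3 : WW (nfilt cmp s' n (L ++ R)) =
      WR (L.filter (fun ρ => decide (ρ.1.1 = n) && valid cmp s' ρ.1)) +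
      WR (R.filter (fun ρ => decide (ρ.1.1 = n) && valid cmp s' ρ.1)) := by
    unfold nfilt WR
    rw [List.filter_append, List.map_append, WW_append]
  rw [h3]
  have h4 := WR_nonneg (L.filter (fun ρ => decide (ρ.1.1 = n) && valid cmp s' ρ.1))
  have h5 : WW (nfilt cmp s n R) =
    WR (R.filter (fun ρ => decide (ρ.1.1 = n) && valid cmp s ρ.1)) := rfl
  linarith

theorem Gold.sat (h : Gold kd cmp e k s0 x0 base) (hc : Comp cmp val) (n : ℕ) :
    ∃ N, ∀ s, N ≤ s → ∀ x, run kd cmp e k (k + 3) s = x :: base →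
      cmp s n ≤ s ∧ big (x.1.1 + (k + 3) + 1 + n) (nfilt cmp s n x.2.2.1) = true := by
  induction n using Nat.strong_induction_on with
  | _ n ih =>
  by_contra hne
  push Not at hne
  obtain ⟨s1, h1⟩ := hc.c2 n
  -- a common bound
  obtain ⟨M, hM⟩ : ∃ M, ∀ n', n' < n → ∀ s, M ≤ s → ∀ x,
      run kd cmp e k (k + 3) s = x :: base →
      cmp s n' ≤ s ∧ big (x.1.1 + (k + 3) + 1 + n') (nfilt cmp s n' x.2.2.1) = true := by
    have hgen : ∀ j, j ≤ n → ∃ M, ∀ n', n' < j → ∀ s, M ≤ s → ∀ x,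
        run kd cmp e k (k + 3) s = x :: base →
        cmp s n' ≤ s ∧ big (x.1.1 + (k + 3) + 1 + n') (nfilt cmp s n' x.2.2.1) = true := by
      intro j
      induction j with
      | zero => exact fun _ => ⟨0, fun n' hn' => by omega⟩
      | succ j ihj =>
        intro hj
        obtain ⟨M1, hM1⟩ := ihj (by omega)
        obtain ⟨M2, hM2⟩ := ih j (by omega)
        refine ⟨max M1 M2, fun n' hn' s hs x hx => ?_⟩
        rcases Nat.lt_succ_iff_lt_or_eq.1 hn' with h2 | rfl
        · exact hM1 n' h2 s (le_trans (le_max_left _ _) hs) x hx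
        · exact hM2 s (le_trans (le_max_right _ _) hs) x hx
    exact hgen n (le_refl _)
  set N0 := max (max s0 s1) (max n M) with hN0
  have hN1 : s0 ≤ N0 := le_trans (le_max_left _ _) (le_max_left _ _)
  have hN2 : s1 ≤ N0 := le_trans (le_max_right _ _) (le_max_left _ _)
  have hN3 : n ≤ N0 := le_trans (le_max_left _ _) (le_max_right _ _)
  have hN4 : M ≤ N0 := le_trans (le_max_right _ _) (le_max_right _ _)
  -- never satisfied
  have hnever : ∀ s, N0 ≤ s → ∀ x, run kd cmp e k (k + 3) s = x :: base →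
      big (x.1.1 + (k + 3) + 1 + n) (nfilt cmp s n x.2.2.1) = false := by
    intro s hs x hx
    by_contra hb
    rw [Bool.not_eq_false] at hb
    obtain ⟨s', hs', x', hx', h2⟩ := hne s
    have hl : (run kd cmp e k (k + 3) s').length = base.length + 1 := by rw [hx']; rfl
    obtain ⟨x'', hx'', hg, L, hL⟩ := h.top (by omega) hx hs' hl
    rw [hx'] at hx''
    obtain ⟨rfl, -⟩ := List.cons.inj hx''
    apply h2 (h1 s' (by omega)).1
    rw [big_iff] at hb ⊢
    rw [hg, ← hL]
    refine le_trans hb (nfilt_final hc h1 (by omega) hs' ?_)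
    intro ρ hρ
    have h3 := (step_at h.hk hx).1.top.rc ρ hρ
    exact ⟨h3.1, h3.2.1⟩
  -- repeated calls
  obtain ⟨sb, xb, hb1, hb2, hb3, -⟩ := h.next N0
  have hcalls : ∀ j : ℕ, ∃ s x, N0 ≤ s ∧ run kd cmp e k (k + 3) s = x :: base ∧
      x.1 = xb.1 ∧ (j : ℝ) * (1/2) ^ (xb.1.1 + (k + 3) + 1 + n + xb.1.2) ≤
        WW (nfilt cmp s n x.2.2.1) := by
    intro j
    induction j with
    | zero =>
      refine ⟨sb, xb, hb1, hb3, rfl, ?_⟩
      rw [Nat.cast_zero, zero_mul]
      exact WW_nonneg _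
    | succ j ihj =>
      obtain ⟨s, x, hs, hx, hx1, hw⟩ := ihj
      obtain ⟨s', hs', hx', hp⟩ := h.act (by omega) hx
      have hnb := h.not_big (by omega) hx'
      have hatt : att cmp s' (x.1.1 + (k + 3) + 1) x.2.2.1 = n := by
        unfold att
        apply findIdx_range (by omega)
        · rw [Bool.and_eq_true, decide_eq_true_eq, Bool.not_eq_true']
          exact ⟨(h1 s' (by omega)).1, hnever s' (by omega) x hx'⟩
        · intro j' hj'
          have h3 := hM j' hj' s' (by omega) x hx'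
          rw [h3.2]
          simp
      obtain ⟨hinv, hst⟩ := step_at h.hk hx'
      have hlev := h.not_lev
      -- the call
      have hcall : run kd cmp e k (k + 3) (s' + 1) =
          ((x.1.1 + (k + 3) + 1 + n + x.1.2, 0), ((0, s'), ([], []))) ::
          (x.1, ((n, s'), x.2.2)) :: base := by
        generalize hg : run kd cmp e k (k + 3) (s' + 1) = stk at hst ⊢
        cases hst with
        | ret1 y rest' hr _ _ => exact (h.no_drop (by omega) hr hg).elim
        | ret2 y rest' hr _ _ => exact (h.no_drop (by omega) hr hg).elim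
        | push _ _ _ _ => rw [hatt]
        | wait1 h2 _ => exact absurd h2 hlev
        | deg h2 _ => exact absurd h2 hlev
        | fin _ _ h2 => rw [hnb] at h2; exact absurd h2 (by simp)
        | wait2 _ _ h2 => rw [hp] at h2; exact absurd h2 (by simp)
        | idle _ _ _ h2 => rw [hatt] at h2; omega
      obtain ⟨s'', hs'', hl⟩ := h.hinf (s' + 1)
      obtain ⟨u, hu1, -, D, Q, hu3, hu4⟩ := first_return h.hk hcall hs'' (by omega)
      have hv : valid cmp u (n, s') = true := by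
        rw [valid_iff, (h1 s' (by omega)).2.1, (h1 u (by omega)).2.2, (h1 s' (by omega)).2.2]
      have hv' : valid cmp (u + 1) (n, s') = true := by
        rw [valid_iff, (h1 s' (by omega)).2.1, (h1 (u + 1) (by omega)).2.2,
          (h1 s' (by omega)).2.2]
      have hret : ret cmp u D Q (x.1, ((n, s'), x.2.2)) =
          (x.1, ((n, s'), (D.map (fun d => ((n, s'), d)) ++ x.2.2.1, Q ++ x.2.2.2))) := by
        unfold ret
        simp only
        rw [hv, cond_true]
      rw [hret] at hu3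
      refine ⟨u + 1, _, by omega, hu3, hx1, ?_⟩
      simp only
      have hsum : WW (nfilt cmp (u + 1) n (D.map (fun d => ((n, s'), d)) ++ x.2.2.1)) =
          WW D + WW (nfilt cmp (u + 1) n x.2.2.1) := by
        unfold nfilt
        rw [List.filter_append, List.map_append, WW_append]
        congr 1
        rw [List.filter_eq_self.2]
        · rw [List.map_map]
          congr 1
          exact List.map_id _
        · intro ρ hρ
          rw [List.mem_map] at hρ
          obtain ⟨d, _, rfl⟩ := hρ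
          rw [Bool.and_eq_true, decide_eq_true_eq]
          exact ⟨rfl, hv'⟩
      rw [hsum]
      have hmono : WW (nfilt cmp s n x.2.2.1) ≤ WW (nfilt cmp (u + 1) n x.2.2.1) := by
        have h3 := nfilt_final (L := []) hc h1 (s := s) (s' := u + 1) (R := x.2.2.1)
          (by omega) (by omega) (by
            intro ρ hρ
            have h3 := (step_at h.hk hx).1.top.rc ρ hρ
            exact ⟨h3.1, h3.2.1⟩)
        simpa using h3
      have hD : ((1:ℝ)/2) ^ (xb.1.1 + (k + 3) + 1 + n + xb.1.2) ≤ WW D := by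
        rw [← hx1]; exact hu4
      push_cast
      linarith
  obtain ⟨s, x, hs, hx, hx1, hw⟩ := hcalls (2 ^ xb.1.2)
  have h2 := hnever s hs x hx
  have h3 : big (x.1.1 + (k + 3) + 1 + n) (nfilt cmp s n x.2.2.1) = true := by
    rw [big_iff]
    refine le_trans (le_of_eq ?_) hw
    rw [hx1]
    push_cast
    rw [pow_add _ (xb.1.1 + (k + 3) + 1 + n) xb.1.2]
    have h4 : (2:ℝ) ^ xb.1.2 * (1/2) ^ xb.1.2 = 1 := by rw [← mul_pow]; norm_num
    calc ((1:ℝ)/2) ^ (xb.1.1 + (k + 3) + 1 + n) =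
        ((2:ℝ) ^ xb.1.2 * (1/2) ^ xb.1.2) * (1/2) ^ (xb.1.1 + (k + 3) + 1 + n) := by
          rw [h4, one_mul]
      _ = _ := by ring
  rw [h2] at h3
  exact absurd h3 (by simp)

lemma WR_toFinset {l : List Rec} (h : l.Nodup) : WR l = ∑ ρ ∈ l.toFinset, (1/2 : ℝ) ^ ρ.2.2 := by
  rw [List.sum_toFinset _ h]
  unfold WR WW
  rw [List.map_map]
  rfl

/-- few certified values -/
theorem Gold.few (h : Gold kd cmp e k s0 x0 base) (hc : Comp cmp val) (n : ℕ) (Y : Finset ℕ)
    (hY : ∀ y ∈ Y, ∃ s x, s0 ≤ s ∧ run kd cmp e k (k + 3) s = x :: base ∧ cmp s n ≤ s ∧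
      val s n = y ∧ big (x.1.1 + (k + 3) + 1 + n) (nfilt cmp s n x.2.2.1) = true) :
    Y.card ≤ 2 ^ (k + 3 + 1 + n) := by
  classical
  rcases Y.eq_empty_or_nonempty with h0 | h0
  · rw [h0]; simp
  have : Inhabited Frame := ⟨x0⟩
  choose! sy xy hy using hY
  obtain ⟨yl, hyl, hmax⟩ := Finset.exists_max_image Y sy h0
  obtain ⟨hl1, hl2, hl3, hl4, hl5⟩ := hy yl hyl
  obtain ⟨S, hS1, hS2, hS3⟩ := h.act hl1 hl2
  have hinvl := (step_at h.hk hl2).1
  have hinvS := (step_at h.hk hS2).1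
  have hnb := h.not_big (by omega) hS2
  -- no duplicates
  have hnd : (xy yl).2.2.1.Nodup := by
    have h1 := run_tot_nodup kd cmp e k h.hk (sy yl)
    rw [hl2] at h1
    have hQ : ((xy yl).2.2.2).Sublist (tot k (xy yl :: base)) := by
      have h2 : ((xy yl).2.2.2).Sublist (Qs (xy yl :: base)) := by
        rw [Qs_cons]; exact List.sublist_append_left _ _
      by_cases hk1 : k ≤ base.length + 1
      · rw [tot_one hk1]; exact h2.trans (List.sublist_cons_self _ _)
      · rw [tot_two hk1]; exact h2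
    have h3 := (hinvl.top.sb.trans hQ).map Prod.fst
    have h4 := h3.nodup h1
    rw [List.map_map] at h4
    exact List.Nodup.of_map _ h4
  have hsuf : ∀ y ∈ Y, (xy y).2.2.1 <:+ (xy yl).2.2.1 ∧ (xy y).1.1 = (xy yl).1.1 := by
    intro y hyY
    obtain ⟨h1, h2, -⟩ := hy y hyY
    obtain ⟨x', h3, h4, h5⟩ := h.top h1 h2 (hmax y hyY) (by rw [hl2]; rfl)
    rw [hl2] at h3
    obtain ⟨rfl, -⟩ := List.cons.inj h3
    exact ⟨h5, h4.symm⟩
  -- validity determines the value
  have hval : ∀ y ∈ Y, ∀ ρ ∈ (xy y).2.2.1, ρ.1.1 = n → valid cmp (sy y) ρ.1 = true →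
      val ρ.1.2 n = y ∧ ρ.1.2 ≤ sy y := by
    intro y hyY ρ hρ hn hv
    obtain ⟨h1, h2, h3, h4, -⟩ := hy y hyY
    obtain ⟨h5, h6, -⟩ := (step_at h.hk h2).1.top.rc ρ hρ
    obtain ⟨⟨n', t⟩, p⟩ := ρ
    simp only at *
    subst hn
    rw [valid_iff] at hv
    exact ⟨by rw [← (hc.c1 t (sy y) n' h6 h5 hv).2]; exact h4, h5⟩
  let V : ℕ → Finset Rec := fun y => ((xy y).2.2.1.filter
    (fun ρ => decide (ρ.1.1 = n) && valid cmp (sy y) ρ.1)).toFinset
  have hVmem : ∀ y ρ, ρ ∈ V y ↔ ρ ∈ (xy y).2.2.1 ∧ ρ.1.1 = n ∧ valid cmp (sy y) ρ.1 = true := by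
    intro y ρ
    show ρ ∈ List.toFinset _ ↔ _
    rw [List.mem_toFinset, List.mem_filter, Bool.and_eq_true, decide_eq_true_eq]
  have hdisj : ∀ y ∈ Y.erase yl, ∀ y' ∈ Y.erase yl, y ≠ y' → Disjoint (V y) (V y') := by
    intro y h1 y' h2 hne
    rw [Finset.disjoint_left]
    intro ρ h3 h4
    rw [hVmem] at h3 h4
    have h5 := (hval y (Finset.mem_of_mem_erase h1) ρ h3.1 h3.2.1 h3.2.2).1
    have h6 := (hval y' (Finset.mem_of_mem_erase h2) ρ h4.1 h4.2.1 h4.2.2).1
    exact hne (h5.symm.trans h6)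
  have hsub : (Y.erase yl).biUnion V ⊆ ((xy yl).2.2.1.filter
      (fun ρ => decide (k - base.length ≤ cnt kd S ρ.2.1 (ρ.2.2 + e)))).toFinset := by
    intro ρ hρ
    rw [Finset.mem_biUnion] at hρ
    obtain ⟨y, h1, h2⟩ := hρ
    rw [hVmem] at h2
    have hyY := Finset.mem_of_mem_erase h1
    have h3 := hval y hyY ρ h2.1 h2.2.1 h2.2.2
    have hρl : ρ ∈ (xy yl).2.2.1 := (hsuf y hyY).1.subset h2.1
    rw [List.mem_toFinset, List.mem_filter, decide_eq_true_eq]
    refine ⟨hρl, ?_⟩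
    by_contra hcn
    push Not at hcn
    have h4 : valid cmp S ρ.1 = true := by
      by_contra h5
      unfold pend at hS3
      rw [decide_eq_false_iff_not, not_not, List.length_eq_zero_iff,
        List.filter_eq_nil_iff] at hS3
      apply hS3 ρ hρl
      rw [Bool.and_eq_true, Bool.not_eq_true', decide_eq_true_eq]
      exact ⟨by rw [← Bool.not_eq_true]; exact h5, hcn⟩
    have h5 : valid cmp (sy yl) ρ.1 = true :=
      valid_anti (le_trans h3.2 (hmax y hyY)) hS1 h4
    have h6 := (hval yl hyl ρ hρl h2.2.1 h5).1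
    exact (Finset.ne_of_mem_erase h1) (h3.1.symm.trans h6)
  have h1 : ((Y.erase yl).card : ℝ) * (1/2) ^ ((xy yl).1.1 + (k + 3) + 1 + n) ≤
      ∑ y ∈ Y.erase yl, ∑ ρ ∈ V y, (1/2 : ℝ) ^ ρ.2.2 := by
    rw [← nsmul_eq_mul]
    apply Finset.card_nsmul_le_sum
    intro y h1
    have hyY := Finset.mem_of_mem_erase h1
    obtain ⟨-, -, -, -, h2⟩ := hy y hyY
    rw [big_iff, (hsuf y hyY).2] at h2
    have h3 : ((xy y).2.2.1.filter
        (fun ρ => decide (ρ.1.1 = n) && valid cmp (sy y) ρ.1)).Nodup :=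
      (hnd.sublist (hsuf y hyY).1.sublist).filter _
    have h4 := WR_toFinset h3
    have h5 : WW (nfilt cmp (sy y) n (xy y).2.2.1) = WR ((xy y).2.2.1.filter
        (fun ρ => decide (ρ.1.1 = n) && valid cmp (sy y) ρ.1)) := rfl
    rw [h5, h4] at h2
    exact h2
  rw [← Finset.sum_biUnion hdisj] at h1
  have h2 : ∑ ρ ∈ (Y.erase yl).biUnion V, (1/2 : ℝ) ^ ρ.2.2 ≤
      ∑ ρ ∈ ((xy yl).2.2.1.filter
      (fun ρ => decide (k - base.length ≤ cnt kd S ρ.2.1 (ρ.2.2 + e)))).toFinset,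
      (1/2 : ℝ) ^ ρ.2.2 :=
    Finset.sum_le_sum_of_subset_of_nonneg hsub (fun _ _ _ => by positivity)
  rw [← WR_toFinset (hnd.filter _)] at h2
  have h3 : WW (EE kd e S (k - base.length) (xy yl).2.2.1) < (1/2) ^ (xy yl).1.1 := by
    by_contra h4
    push Not at h4
    rw [← big_iff, hnb] at h4
    exact absurd h4 (by simp)
  have h4 : WW (EE kd e S (k - base.length) (xy yl).2.2.1) = WR ((xy yl).2.2.1.filter
      (fun ρ => decide (k - base.length ≤ cnt kd S ρ.2.1 (ρ.2.2 + e)))) := rfl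
  have h5 : ((Y.erase yl).card : ℝ) * (1/2) ^ ((xy yl).1.1 + (k + 3) + 1 + n) <
      (1/2) ^ (xy yl).1.1 := by linarith
  have h6 : ((1:ℝ)/2) ^ ((xy yl).1.1 + (k + 3) + 1 + n) =
      (1/2) ^ (xy yl).1.1 * (1/2) ^ (k + 3 + 1 + n) := by
    rw [← pow_add]; congr 1; ring
  rw [h6] at h5
  have h7 : (0:ℝ) < (1/2) ^ (xy yl).1.1 := by positivity
  have h8 : ((Y.erase yl).card : ℝ) * (1/2) ^ (k + 3 + 1 + n) < 1 := by
    by_contra h9
    push Not at h9
    have := mul_le_mul_of_nonneg_left h9 h7.le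
    linarith
  have h9 : (2:ℝ) ^ (k + 3 + 1 + n) * (1/2) ^ (k + 3 + 1 + n) = 1 := by
    rw [← mul_pow]; norm_num
  have h10 : ((Y.erase yl).card : ℝ) < 2 ^ (k + 3 + 1 + n) := by
    by_contra h11
    push Not at h11
    have := mul_le_mul_of_nonneg_right h11 (show (0:ℝ) ≤ (1/2) ^ (k + 3 + 1 + n) by positivity)
    linarith
  have h11 : (Y.erase yl).card < 2 ^ (k + 3 + 1 + n) := by exact_mod_cast h10
  rw [Finset.card_erase_of_mem hyl] at h11
  omega

end gen

end Pool.Agent.Helper743.GR
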