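import Pool.Agent.Helper743.GRInv2

set_option autoImplicit false

/-! A sequential golden run construction: preservation of the invariants. -/

namespace Pool.Agent.Helper743.GR

open Nat.Partrec (Code)
open Filter
open Pool.Agent.Helper743.AC (hl str)

section gen

variable {kd : ℕ → ℕ → ℕ → Bool} {cmp : ℕ → ℕ → ℕ} {e k a : ℕ}

/-- cases of a step -/
inductive Step (kd : ℕ → ℕ → ℕ → Bool) (cmp : ℕ → ℕ → ℕ) (e k a s : ℕ) (x : Frame)
    (rest : List Frame) : List Frame → Prop
  /-- a request is described -/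
  | ret1 (y : Frame) (rest' : List Frame) : rest = y :: rest' → k ≤ rest.length + 1 →
      kd s x.2.1.2 (x.1.1 + e) = true →
      Step kd cmp e k a s x rest
        (ret cmp s [(x.2.1.2, x.1.1)] [(x.2.1.2, x.1.1)] y :: rest')
  /-- waiting for the description of a request -/
  | wait1 : k ≤ rest.length + 1 → kd s x.2.1.2 (x.1.1 + e) = false →
      Step kd cmp e k a s x rest (x :: rest)
  /-- degenerate case -/
  | deg : k ≤ rest.length + 1 → rest = [] → Step kd cmp e k a s x rest (x :: rest)
  /-- the goal is reached -/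
  | ret2 (y : Frame) (rest' : List Frame) : rest = y :: rest' → ¬ k ≤ rest.length + 1 →
      big x.1.1 (EE kd e s (k - rest.length) x.2.2.1) = true →
      Step kd cmp e k a s x rest
        (ret cmp s (EE kd e s (k - rest.length) x.2.2.1) x.2.2.2 y :: rest')
  /-- the main goal is reached -/
  | fin : ¬ k ≤ rest.length + 1 → rest = [] →
      big x.1.1 (EE kd e s (k - rest.length) x.2.2.1) = true →
      Step kd cmp e k a s x rest (x :: rest)
  /-- waiting for descriptions -/
  | wait2 : ¬ k ≤ rest.length + 1 →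
      big x.1.1 (EE kd e s (k - rest.length) x.2.2.1) = false →
      pend kd cmp e s (k - rest.length) x.2.2.1 = true →
      Step kd cmp e k a s x rest (x :: rest)
  /-- calling a subprocedure -/
  | push : ¬ k ≤ rest.length + 1 →
      big x.1.1 (EE kd e s (k - rest.length) x.2.2.1) = false →
      pend kd cmp e s (k - rest.length) x.2.2.1 = false →
      att cmp s (x.1.1 + a + 1) x.2.2.1 ≤ s →
      Step kd cmp e k a s x rest
        (((x.1.1 + a + 1 + att cmp s (x.1.1 + a + 1) x.2.2.1 + x.1.2, 0), ((0, s), ([], []))) ::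
        (x.1, ((att cmp s (x.1.1 + a + 1) x.2.2.1, s), x.2.2)) :: rest)
  /-- nothing to do -/
  | idle : ¬ k ≤ rest.length + 1 →
      big x.1.1 (EE kd e s (k - rest.length) x.2.2.1) = false →
      pend kd cmp e s (k - rest.length) x.2.2.1 = false →
      ¬ att cmp s (x.1.1 + a + 1) x.2.2.1 ≤ s →
      Step kd cmp e k a s x rest (x :: rest)

lemma stp_Step (s : ℕ) (x : Frame) (rest : List Frame) :
    Step kd cmp e k a s x rest (stp kd cmp e k a s (x :: rest)) := by
  unfold stp
  simp only
  unfold stpc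
  by_cases h1 : k ≤ rest.length + 1
  · rw [decide_eq_true h1, cond_true]
    cases h2 : kd s x.2.1.2 (x.1.1 + e) with
    | false => exact Step.wait1 h1 h2
    | true =>
      rw [cond_true]
      unfold pop
      cases rest with
      | nil => exact Step.deg h1 rfl
      | cons y rest' => exact Step.ret1 y rest' rfl h1 h2
  · rw [decide_eq_false h1, cond_false]
    cases h2 : big x.1.1 (EE kd e s (k - rest.length) x.2.2.1) with
    | true =>
      rw [cond_true]
      unfold pop
      cases rest with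
      | nil => exact Step.fin h1 rfl h2
      | cons y rest' => exact Step.ret2 y rest' rfl h1 h2
    | false =>
      rw [cond_false]
      cases h3 : pend kd cmp e s (k - rest.length) x.2.2.1 with
      | true => exact Step.wait2 h1 h2 h3
      | false =>
        rw [cond_false]
        by_cases h4 : att cmp s (x.1.1 + a + 1) x.2.2.1 ≤ s
        · rw [decide_eq_true h4, cond_true]
          exact Step.push h1 h2 h3 h4
        · rw [decide_eq_false h4, cond_false]
          exact Step.idle h1 h2 h3 h4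

structure Inv (kd : ℕ → ℕ → ℕ → Bool) (cmp : ℕ → ℕ → ℕ) (e k a s : ℕ) (x : Frame)
    (rest : List Frame) : Prop where
  len : rest.length + 1 ≤ k
  top : FI kd cmp e a s (k - rest.length) x
  low : Low kd cmp e k a s x rest

lemma att_spec {s g : ℕ} {R : List Rec} (h : att cmp s g R ≤ s) :
    cmp s (att cmp s g R) ≤ s ∧ WW (nfilt cmp s (att cmp s g R) R) < (1/2) ^ (g + att cmp s g R) := by
  unfold att at *
  set p : ℕ → Bool := fun n => decide (cmp s n ≤ s) && !(big (g + n) (nfilt cmp s n R)) with hp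
  have h1 : (List.range (s + 1)).findIdx p < (List.range (s + 1)).length := by
    rw [List.length_range]; omega
  have h2 := List.findIdx_getElem (w := h1)
  rw [List.getElem_range] at h2
  rw [hp] at h2 ⊢
  simp only [Bool.and_eq_true, decide_eq_true_eq, Bool.not_eq_true'] at h2
  refine ⟨h2.1, ?_⟩
  by_contra h3
  push Not at h3
  rw [← big_iff] at h3
  rw [h2.2] at h3
  exact absurd h3 (by simp)

lemma mem_EE {s i : ℕ} {R : List Rec} {p : ℕ × ℕ} (h : p ∈ EE kd e s i R) :
    i ≤ cnt kd s p.1 (p.2 + e) := by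
  unfold EE at h
  rw [List.mem_map] at h
  obtain ⟨ρ, hρ, rfl⟩ := h
  rw [List.mem_filter, decide_eq_true_eq] at hρ
  exact hρ.2

lemma EE_sub {s i : ℕ} {R : List Rec} : (EE kd e s i R).Sublist (R.map Prod.snd) := by
  unfold EE
  exact List.filter_sublist.map _

/-- the weight of the records at the time of a call -/
lemma push_wr {s i : ℕ} {x : Frame} (hx : FI kd cmp e a s i x)
    (h1 : big x.1.1 (EE kd e s i x.2.2.1) = false)
    (h2 : pend kd cmp e s i x.2.2.1 = false) :
    WR x.2.2.1 ≤ (1/2) ^ x.1.1 * (1 + 3 * (1/2) ^ a) := by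
  have h3 : WW (EE kd e s i x.2.2.1) < (1/2) ^ x.1.1 := by
    by_contra h
    push Not at h
    rw [← big_iff, h1] at h
    exact absurd h (by simp)
  have h4 : ∀ ρ ∈ x.2.2.1, decide (i ≤ cnt kd s ρ.2.1 (ρ.2.2 + e)) = true ∨
      valid cmp s ρ.1 = true := by
    intro ρ hρ
    by_contra h
    push Not at h
    unfold pend at h2
    rw [decide_eq_false_iff_not, not_not, List.length_eq_zero_iff, List.filter_eq_nil_iff] at h2
    apply h2 ρ hρ
    rw [Bool.and_eq_true, Bool.not_eq_true', decide_eq_true_eq]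
    refine ⟨by rw [← Bool.not_eq_true]; exact h.2, ?_⟩
    have := h.1
    rw [ne_eq, decide_eq_true_eq] at this
    omega
  have h5 := WR_split x.2.2.1 (fun ρ => decide (i ≤ cnt kd s ρ.2.1 (ρ.2.2 + e)))
    (fun ρ => valid cmp s ρ.1) h4
  obtain ⟨B, hB⟩ : ∃ B, ∀ ρ ∈ x.2.2.1, ρ.1.1 < B := by
    refine ⟨x.2.2.1.toFinset.sup (fun ρ => ρ.1.1) + 1, fun ρ hρ => ?_⟩
    exact Nat.lt_succ_of_le (Finset.le_sup (f := fun ρ : Rec => ρ.1.1) (List.mem_toFinset.2 hρ))
  have h6 := WR_byn x.2.2.1 (fun ρ => valid cmp s ρ.1) B hB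
  have h7 : ∑ n ∈ Finset.range B, WR (x.2.2.1.filter
      (fun ρ => decide (ρ.1.1 = n) && valid cmp s ρ.1)) ≤
      ∑ n ∈ Finset.range B, 3 * (1/2 : ℝ) ^ (x.1.1 + a + 1 + n) :=
    Finset.sum_le_sum (fun n _ => hx.pr n)
  rw [← Finset.mul_sum] at h7
  have h8 := geo_sum_le B (x.1.1 + a)
  have h9 : WR (x.2.2.1.filter (fun ρ => decide (i ≤ cnt kd s ρ.2.1 (ρ.2.2 + e)))) =
    WW (EE kd e s i x.2.2.1) := rfl
  have h10 : ((1:ℝ)/2) ^ (x.1.1 + a) = (1/2) ^ x.1.1 * (1/2) ^ a := pow_add _ _ _
  rw [h10] at h8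
  nlinarith

lemma lev_le {s i : ℕ} {x : Frame} (hx : FI kd cmp e a s i x) (hl : lam a i ≤ 2) (hi : 1 ≤ i) :
    WW x.2.2.2 ≤ lam a i * (1/2) ^ x.1.1 := by
  refine le_trans hx.cp ?_
  have h1 : lam a (i - 1) ≤ 2 := le_trans (lam_mono (Nat.sub_le i 1)) hl
  have h2 := lam_step h1
  rw [Nat.sub_add_cancel hi] at h2
  have h3 : (0:ℝ) ≤ (1/2) ^ x.1.1 := by positivity
  calc lam a (i - 1) * ((1/2) ^ x.1.1 * (1 + 4 * (1/2) ^ a)) =
      (lam a (i - 1) * (1 + 4 * (1/2) ^ a)) * (1/2) ^ x.1.1 := by ring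
    _ ≤ _ := mul_le_mul_of_nonneg_right h2 h3

theorem step_inv {s : ℕ} {x : Frame} {rest stk : List Frame} (ha : a = k + 3)
    (h : Inv kd cmp e k a s x rest) (hs : Step kd cmp e k a s x rest stk) :
    ∃ x' rest', stk = x' :: rest' ∧ Inv kd cmp e k a (s + 1) x' rest' := by
  have hlam : ∀ i, i ≤ k → lam a i ≤ 2 := by
    intro i hi; rw [ha]; exact lam_two hi
  obtain ⟨hlen, htop, hlow⟩ := h
  have hsame : ∃ x' rest', x :: rest = x' :: rest' ∧ Inv kd cmp e k a (s + 1) x' rest' :=
    ⟨x, rest, rfl, hlen, htop.mono, hlow.mono⟩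
  -- returning
  have hret : ∀ (y : Frame) (rest' : List Frame) (D Q : List (ℕ × ℕ)), rest = y :: rest' →
      D.Sublist Q → WW Q ≤ lam a (k - rest.length) * (1/2) ^ x.1.1 → (1/2) ^ x.1.1 ≤ WW D →
      (∀ p ∈ D, k - rest.length ≤ cnt kd s p.1 (p.2 + e)) →
      (∀ p ∈ Q, y.2.1.2 ≤ p.1 ∧ p.1 < s + 1) →
      ∃ x' rest'', ret cmp s D Q y :: rest' = x' :: rest'' ∧
        Inv kd cmp e k a (s + 1) x' rest'' := by
    intro y rest' D Q hr hDQ hQ hD hcnt hq
    subst hr
    obtain ⟨hc, hy, hl⟩ := hlow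
    simp only [List.length_cons] at *
    have hi : k - rest'.length = (k - (rest'.length + 1)) + 1 := by omega
    rw [hc.gl] at hQ hD
    refine ⟨_, _, rfl, by omega, ?_, ?_⟩
    · rw [hi] at hy ⊢
      exact ret_FI (by omega) (hlam _ (by omega)) hy hc.wr hc.cl hc.pr hDQ hQ hD hcnt hq
    · refine (hl.mono).change ?_ ?_ ?_
      · unfold ret
        cases valid cmp s y.2.1 <;> rfl
      · unfold ret
        cases valid cmp s y.2.1 <;> exact le_refl _
      · intro p hp
        have h1 : p ∈ Q ++ y.2.2.2 := by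
          unfold ret at hp
          cases h2 : valid cmp s y.2.1 <;> rw [h2] at hp <;> exact hp
        rcases List.mem_append.1 h1 with h2 | h2
        · exact Or.inr (hq p h2).1
        · exact Or.inl h2
  cases hs with
  | ret1 y rest' hr hk hkd =>
    have h1 : k - rest.length = 1 := by omega
    have h2 := htop.lv (by omega)
    refine hret y rest' _ _ hr (List.Sublist.refl _) ?_ ?_ ?_ ?_
    · rw [WW_cons, WW_nil, add_zero, h1]
      have h3 := lam_one_le a 1
      have h4 : (0:ℝ) ≤ (1/2) ^ x.1.1 := by positivity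
      nlinarith
    · rw [WW_cons, WW_nil, add_zero]
    · intro p hp
      rw [List.mem_singleton] at hp
      subst hp
      rw [h1]
      exact cnt_pos hkd
    · intro p hp
      rw [List.mem_singleton] at hp
      subst hp
      subst hr
      exact ⟨hlow.1.tt, lt_of_lt_of_le h2.2.2 (Nat.le_succ s)⟩
  | wait1 hk hkd => exact hsame
  | deg hk hr => exact hsame
  | ret2 y rest' hr hk hb =>
    refine hret y rest' _ _ hr (EE_sub.trans htop.sb) ?_ ((big_iff _ _).1 hb)
      (fun p hp => mem_EE hp) ?_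
    · exact lev_le htop (hlam _ (by omega)) (by omega)
    · intro p hp
      subst hr
      exact ⟨hlow.1.qq p hp, lt_of_lt_of_le (htop.rq p hp) (Nat.le_succ s)⟩
  | fin hk hr hb => exact hsame
  | wait2 hk hb hp => exact hsame
  | idle hk hb hp hat => exact hsame
  | push hk hb hp hat =>
    obtain ⟨ha1, ha2⟩ := att_spec hat
    have hi : k - (rest.length + 1) = (k - rest.length) - 1 := by omega
    refine ⟨_, _, rfl, ?_, ?_, ?_, ?_, ?_⟩
    · simp only [List.length_cons]; omega
    · refine ⟨fun _ => ⟨rfl, rfl, ?_⟩, ?_, ?_, ?_, ?_, ?_, ?_, ?_⟩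
      · exact Nat.lt_succ_self s
      · exact Nat.le_succ s
      · intro ρ hρ; simp at hρ
      · simp
      · simp only [WW_nil]
        have := lam_one_le a (k - (List.length
          ((x.1, ((att cmp s (x.1.1 + a + 1) x.2.2.1, s), x.2.2)) :: rest)) - 1)
        positivity
      · simp
      · intro n
        have h1 : nfilt cmp (s + 1) n [] = [] := rfl
        simp only [h1, WW_nil]
        positivity
      · intro p hp; simp at hp
    · have hwr := push_wr htop hb hp
      refine ⟨?_, hwr, ?_, ?_, ?_, ?_⟩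
      · rfl
      · exact ha1
      · simp only
        exact le_trans (nfilt_anti (fun ρ hρ => (htop.rc ρ hρ).1)) ha2.le
      · exact le_refl _
      · intro p hp; simp at hp
    · have hm := htop.mono
      exact ⟨fun h => by omega, Nat.le_succ s, hm.rc, hm.co, hm.cp, hm.sb, hm.pr, hm.rq⟩
    · refine (hlow.mono).change rfl ?_ (fun p hp => Or.inl hp)
      exact htop.tl

end gen

end Pool.Agent.Helper743.GR
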