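import Pool.Agent.Helper743.GRStep

set_option autoImplicit false

/-! A sequential golden run construction: the total cost. -/

namespace Pool.Agent.Helper743.GR

open Nat.Partrec (Code)
open Filter
open Pool.Agent.Helper743.AC (hl str)

section gen

variable {kd : ℕ → ℕ → ℕ → Bool} {cmp : ℕ → ℕ → ℕ} {e k a : ℕ}

def Qs (stk : List Frame) : List (ℕ × ℕ) := (stk.map (fun x => x.2.2.2)).flatten

lemma Qs_cons (x : Frame) (stk : List Frame) : Qs (x :: stk) = x.2.2.2 ++ Qs stk := rfl

lemma tot_one {x : Frame} {rest : List Frame} (h : k ≤ rest.length + 1) :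
    tot k (x :: rest) = (x.2.1.2, x.1.1) :: Qs (x :: rest) := by
  unfold tot
  simp only
  rw [decide_eq_true h]
  rfl

lemma tot_two {x : Frame} {rest : List Frame} (h : ¬ k ≤ rest.length + 1) :
    tot k (x :: rest) = Qs (x :: rest) := by
  unfold tot
  simp only
  rw [decide_eq_false h]
  rfl

lemma ret_Q (s : ℕ) (D Q : List (ℕ × ℕ)) (y : Frame) : (ret cmp s D Q y).2.2.2 = Q ++ y.2.2.2 := by
  unfold ret
  cases valid cmp s y.2.1 <;> rfl

/-- the list of requests grows by at most one new request -/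
theorem tot_step {s : ℕ} {x : Frame} {rest stk : List Frame}
    (h : Inv kd cmp e k a s x rest) (hs : Step kd cmp e k a s x rest stk) :
    tot k stk = tot k (x :: rest) ∨ ∃ g, tot k stk = (s, g) :: tot k (x :: rest) := by
  have hlen := h.len
  cases hs with
  | ret1 y rest' hr hk hkd =>
    left
    have h2 := h.top.lv (by omega)
    rw [tot_one hk]
    subst hr
    simp only [List.length_cons] at *
    rw [tot_two (by omega), Qs_cons, Qs_cons, Qs_cons, ret_Q, h2.2.1]
    rfl
  | wait1 hk hkd => exact Or.inl rfl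
  | deg hk hr => exact Or.inl rfl
  | ret2 y rest' hr hk hb =>
    left
    rw [tot_two hk]
    subst hr
    simp only [List.length_cons] at *
    rw [tot_two (by omega), Qs_cons, Qs_cons, Qs_cons, ret_Q, List.append_assoc]
  | fin hk hr hb => exact Or.inl rfl
  | wait2 hk hb hp => exact Or.inl rfl
  | idle hk hb hp hat => exact Or.inl rfl
  | push hk hb hp hat =>
    rw [tot_two hk]
    by_cases h1 : k ≤ rest.length + 1 + 1
    · right
      rw [tot_one (by simpa using h1)]
      exact ⟨_, rfl⟩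
    · left
      rw [tot_two (by simpa using h1)]
      rfl

lemma low_Qs {s : ℕ} : ∀ {rest : List Frame} {x : Frame}, Low kd cmp e k a s x rest →
    ∀ p ∈ Qs rest, p.1 < s := by
  intro rest
  induction rest with
  | nil => intro x _ p hp; simp [Qs] at hp
  | cons y rest ih =>
    intro x h p hp
    rw [Qs_cons, List.mem_append] at hp
    rcases hp with hp | hp
    · exact h.2.1.rq p hp
    · exact ih h.2.2 p hp

lemma tot_lt {s : ℕ} {x : Frame} {rest : List Frame}
    (h : Inv kd cmp e k a s x rest) : ∀ p ∈ tot k (x :: rest), p.1 < s := by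
  intro p hp
  have hq : ∀ p ∈ Qs (x :: rest), p.1 < s := by
    intro p hp
    rw [Qs_cons, List.mem_append] at hp
    rcases hp with hp | hp
    · exact h.top.rq p hp
    · exact low_Qs h.low p hp
  by_cases hk : k ≤ rest.length + 1
  · rw [tot_one hk] at hp
    rcases List.mem_cons.1 hp with rfl | hp
    · have hlen := h.len
      exact (h.top.lv (by omega)).2.2
    · exact hq p hp
  · rw [tot_two hk] at hp
    exact hq p hp

lemma cost_low {s : ℕ} (ha : a = k + 3) : ∀ {rest : List Frame} {x : Frame} {c : ℝ},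
    Low kd cmp e k a s x rest → rest.length + 1 ≤ k →
    c ≤ lam a (k - rest.length) * (1/2) ^ x.1.1 → c + WW (Qs rest) ≤ lam a k * (1/2) := by
  intro rest
  induction rest with
  | nil =>
    intro x c h _ hc
    have h1 : x.1.1 = 1 := h
    rw [h1] at hc
    simpa [Qs] using hc
  | cons y rest ih =>
    intro x c h hlen hc
    obtain ⟨hci, hy, hl⟩ := h
    simp only [List.length_cons] at *
    rw [Qs_cons, WW_append, ← add_assoc]
    apply ih hl (by omega)
    have hi : k - rest.length = (k - (rest.length + 1)) + 1 := by omega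
    rw [hi] at hy ⊢
    have hco := hy.co
    rw [Nat.add_sub_cancel] at hco
    rw [hci.gl] at hc
    have h1 := parent_bound hco hci.wr hc
    refine le_trans h1 ?_
    have h2 : lam a (k - (rest.length + 1)) ≤ 2 := by rw [ha]; exact lam_two (by omega)
    have h3 := lam_step h2
    have h4 : (0:ℝ) ≤ (1/2) ^ y.1.1 := by positivity
    calc lam a (k - (rest.length + 1)) * ((1/2) ^ y.1.1 * (1 + 4 * (1/2) ^ a)) =
        (lam a (k - (rest.length + 1)) * (1 + 4 * (1/2) ^ a)) * (1/2) ^ y.1.1 := by ring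
      _ ≤ _ := mul_le_mul_of_nonneg_right h3 h4

theorem tot_cost {s : ℕ} {x : Frame} {rest : List Frame} (ha : a = k + 3)
    (h : Inv kd cmp e k a s x rest) : WW (tot k (x :: rest)) ≤ 1 := by
  have hk2 : lam a k ≤ 2 := by rw [ha]; exact lam_two (le_refl _)
  have hlen := h.len
  have hi : lam a (k - rest.length) ≤ 2 := by rw [ha]; exact lam_two (by omega)
  by_cases hk : k ≤ rest.length + 1
  · rw [tot_one hk, Qs_cons, (h.top.lv (by omega)).2.1, List.nil_append, WW_cons]
    have h1 := cost_low (c := (1/2) ^ x.1.1) ha h.low hlen (by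
      have h3 := lam_one_le a (k - rest.length)
      have h4 : (0:ℝ) ≤ (1/2) ^ x.1.1 := by positivity
      nlinarith)
    simp only
    linarith
  · rw [tot_two hk, Qs_cons, WW_append]
    have h1 := cost_low (c := WW x.2.2.2) ha h.low hlen (lev_le h.top hi (by omega))
    linarith

/-! the run -/

/-- the sequence of stacks -/
def run (kd : ℕ → ℕ → ℕ → Bool) (cmp : ℕ → ℕ → ℕ) (e k a s : ℕ) : List Frame :=
  Nat.rec init (fun s stk => stp kd cmp e k a s stk) s

lemma run_succ (kd : ℕ → ℕ → ℕ → Bool) (cmp : ℕ → ℕ → ℕ) (e k a s : ℕ) :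
    run kd cmp e k a (s + 1) = stp kd cmp e k a s (run kd cmp e k a s) := rfl

theorem run_inv (kd : ℕ → ℕ → ℕ → Bool) (cmp : ℕ → ℕ → ℕ) (e k : ℕ) (hk : 2 ≤ k) (s : ℕ) :
    ∃ x rest, run kd cmp e k (k + 3) s = x :: rest ∧ Inv kd cmp e k (k + 3) s x rest := by
  induction s with
  | zero =>
    refine ⟨_, _, rfl, ?_, ?_, ?_⟩
    · simp only [List.length_nil]; omega
    · refine ⟨fun h => ?_, le_refl _, ?_, ?_, ?_, ?_, ?_, ?_⟩
      · simp only [List.length_nil] at h; omega
      · intro ρ hρ; simp at hρ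
      · simp
      · simp only [WW_nil]
        have := lam_one_le (k + 3) (k - ([] : List Frame).length - 1)
        positivity
      · simp
      · intro n
        have h1 : nfilt cmp 0 n [] = [] := rfl
        simp only [h1, WW_nil]
        positivity
      · intro p hp; simp at hp
    · rfl
  | succ s ih =>
    obtain ⟨x, rest, h1, h2⟩ := ih
    obtain ⟨x', rest', h3, h4⟩ := step_inv rfl h2 (stp_Step s x rest)
    exact ⟨x', rest', by rw [run_succ, h1, h3], h4⟩

lemma run_tot_step (kd : ℕ → ℕ → ℕ → Bool) (cmp : ℕ → ℕ → ℕ) (e k : ℕ) (hk : 2 ≤ k) (s : ℕ) :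
    tot k (run kd cmp e k (k + 3) (s + 1)) = tot k (run kd cmp e k (k + 3) s) ∨
    ∃ g, tot k (run kd cmp e k (k + 3) (s + 1)) = (s, g) :: tot k (run kd cmp e k (k + 3) s) := by
  obtain ⟨x, rest, h1, h2⟩ := run_inv kd cmp e k hk s
  rw [run_succ, h1]
  exact tot_step h2 (stp_Step s x rest)

lemma run_tot_mono (kd : ℕ → ℕ → ℕ → Bool) (cmp : ℕ → ℕ → ℕ) (e k : ℕ) (hk : 2 ≤ k)
    {s s' : ℕ} (h : s ≤ s') : ∀ p ∈ tot k (run kd cmp e k (k + 3) s),
    p ∈ tot k (run kd cmp e k (k + 3) s') := by
  induction s', h using Nat.le_induction with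
  | base => exact fun p hp => hp
  | succ m _ ih =>
    intro p hp
    have h1 := ih p hp
    rcases run_tot_step kd cmp e k hk m with h2 | ⟨g, h2⟩
    · rw [h2]; exact h1
    · rw [h2]; exact List.mem_cons_of_mem _ h1

lemma run_tot_lt (kd : ℕ → ℕ → ℕ → Bool) (cmp : ℕ → ℕ → ℕ) (e k : ℕ) (hk : 2 ≤ k) (s : ℕ) :
    ∀ p ∈ tot k (run kd cmp e k (k + 3) s), p.1 < s := by
  obtain ⟨x, rest, h1, h2⟩ := run_inv kd cmp e k hk s
  rw [h1]
  exact tot_lt h2

lemma run_tot_nodup (kd : ℕ → ℕ → ℕ → Bool) (cmp : ℕ → ℕ → ℕ) (e k : ℕ) (hk : 2 ≤ k) (s : ℕ) :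
    ((tot k (run kd cmp e k (k + 3) s)).map Prod.fst).Nodup := by
  induction s with
  | zero =>
    have h1 : tot k (run kd cmp e k (k + 3) 0) = [] := by
      show tot k init = []
      unfold init
      rw [tot_two (by simp only [List.length_nil]; omega)]
      rfl
    rw [h1]; simp
  | succ s ih =>
    rcases run_tot_step kd cmp e k hk s with h2 | ⟨g, h2⟩
    · rw [h2]; exact ih
    · rw [h2, List.map_cons, List.nodup_cons]
      refine ⟨fun h => ?_, ih⟩
      rw [List.mem_map] at h
      obtain ⟨p, hp, h3⟩ := h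
      have h4 := run_tot_lt kd cmp e k hk s p hp
      simp only at h3
      omega

lemma run_tot_cost (kd : ℕ → ℕ → ℕ → Bool) (cmp : ℕ → ℕ → ℕ) (e k : ℕ) (hk : 2 ≤ k) (s : ℕ) :
    WW (tot k (run kd cmp e k (k + 3) s)) ≤ 1 := by
  obtain ⟨x, rest, h1, h2⟩ := run_inv kd cmp e k hk s
  rw [h1]
  exact tot_cost rfl h2

end gen

end Pool.Agent.Helper743.GR
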