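import Pool.Agent.Helper743.GRReq

set_option autoImplicit false

/-! If the halting problem is K-trivial relative to an oracle, then every function below the
halting problem has values of small complexity relative to the oracle. -/

namespace Pool.Agent.Helper743.GR

open Nat.Partrec (Code)
open Filter
open Pool.Agent.Helper743.PR (evT evR evT_p findIdx_range)
open Pool.Agent.Helper743.AC (hl str kstr str_p fsum_p pow_p geo_le)
open Pool.Agent.Helper743.KT (HitU HitU_p KG KG_le K0 KG_opt KG_Kraft UpS Kraft upper_test')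

variable (G : ℕ → ℕ) (cmp val : ℕ → ℕ → ℕ) (e s0 L g : ℕ)

/-- the records of the top frame -/
def topR (stk : List Frame) : List Rec := (stk.head?.map (fun x => x.2.2.1)).getD []

lemma topR_cons (x : Frame) (rest : List Frame) : topR (x :: rest) = x.2.2.1 := rfl

lemma topR_p : Primrec topR := by
  have h : Primrec₂ (fun (_ : List Frame) (x : Frame) => x.2.2.1) :=
    Primrec.fst.comp (Primrec.snd.comp (Primrec.snd.comp Primrec.snd))
  exact Primrec.option_getD.comp (Primrec.option_map Primrec.list_head? h) (Primrec.const [])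

/-- `y` is certified as a value on `n` at stage `s` -/
noncomputable def Crt (n y s : ℕ) : Prop :=
  s0 ≤ s ∧ (rn G cmp e s).length = L ∧ cmp s n ≤ s ∧ val s n = y + 1 ∧
    big (g + (kE e + 3) + 1 + n) (nfilt cmp s n (topR (rn G cmp e s))) = true

noncomputable def crtT (β : List ℕ) (n y s : ℕ) : Bool :=
  (decide (s0 ≤ s) && decide ((runL cmp β e s).length = L)) && ((decide (cmp s n ≤ s) &&
    decide (val s n = y + 1)) &&
    big (g + (kE e + 3) + 1 + n) (nfilt cmp s n (topR (runL cmp β e s))))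

lemma crtT_iff {N n y s : ℕ} (h : s ≤ N) :
    crtT cmp val e s0 L g (pre G N) n y s = true ↔ Crt G cmp val e s0 L g n y s := by
  unfold crtT Crt
  rw [runL_eq _ h]
  simp only [Bool.and_eq_true, decide_eq_true_eq]
  unfold rn
  tauto

/-- the test -/
noncomputable def trT (β : List ℕ) (x w : ℕ) : Bool :=
  decide (x.unpair.1 + 2 ≤ x.unpair.2) ||
  (decide (w ≤ β.length) && (crtT cmp val e s0 L g β x.unpair.1.unpair.1 x.unpair.1.unpair.2 w &&
    decide (2 * x.unpair.1.unpair.1 + (kE e + 6) ≤ x.unpair.2)))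

variable {cmp val}

lemma trT_p (hc : Primrec₂ cmp) (hv : Primrec₂ val) : Primrec (fun q : (List ℕ × ℕ) × ℕ =>
    trT cmp val e s0 L g q.1.1 q.1.2 q.2) := by
  have b : Primrec (fun q : (List ℕ × ℕ) × ℕ => q.1.1) := Primrec.fst.comp Primrec.fst
  have s : Primrec (fun q : (List ℕ × ℕ) × ℕ => q.2) := Primrec.snd
  have z : Primrec (fun q : (List ℕ × ℕ) × ℕ => q.1.2.unpair.1) :=
    Primrec.fst.comp (Primrec.unpair.comp (Primrec.snd.comp Primrec.fst))
  have j : Primrec (fun q : (List ℕ × ℕ) × ℕ => q.1.2.unpair.2) :=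
    Primrec.snd.comp (Primrec.unpair.comp (Primrec.snd.comp Primrec.fst))
  have n := Primrec.fst.comp (Primrec.unpair.comp z)
  have y := Primrec.snd.comp (Primrec.unpair.comp z)
  have a1 := (Primrec.nat_le.comp (Primrec.nat_add.comp z (Primrec.const 2)) j).decide
  have a2 := (Primrec.nat_le.comp s (Primrec.list_length.comp b)).decide
  have rl := (runL_p hc).comp ((b.pair (Primrec.const e)).pair s)
  have c1 := (Primrec.nat_le.comp (Primrec.const s0) s).decide
  have c2 := (Primrec.eq.comp (Primrec.list_length.comp rl) (Primrec.const L)).decide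
  have c3 := (Primrec.nat_le.comp (hc.comp s n) s).decide
  have c4 := (Primrec.eq.comp (hv.comp s n) (Primrec.succ.comp y)).decide
  have c5 := big_p.comp (Primrec.nat_add.comp (Primrec.const (g + (kE e + 3) + 1)) n)
    ((nfilt_p hc).comp ((s.pair n).pair (topR_p.comp rl)))
  have c := Primrec.and.comp (Primrec.and.comp c1 c2) (Primrec.and.comp (Primrec.and.comp c3 c4) c5)
  have a3 := (Primrec.nat_le.comp (Primrec.nat_add.comp (Primrec.nat_mul.comp (Primrec.const 2) n)
    (Primrec.const (kE e + 6))) j).decide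
  exact (Primrec.or.comp a1 (Primrec.and.comp a2 (Primrec.and.comp c a3))).of_eq
    (by intro q; rfl)

lemma trT_iff {z j : ℕ} : (∃ N w, trT cmp val e s0 L g (pre G N) (Nat.pair z j) w = true) ↔
    (z + 2 ≤ j ∨ ∃ s, Crt G cmp val e s0 L g z.unpair.1 z.unpair.2 s ∧
      2 * z.unpair.1 + (kE e + 6) ≤ j) := by
  unfold trT
  simp only [Nat.unpair_pair, Bool.or_eq_true, Bool.and_eq_true, decide_eq_true_eq, pre_length]
  constructor
  · rintro ⟨N, w, h | ⟨h1, h2, h3⟩⟩
    · exact Or.inl h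
    · exact Or.inr ⟨w, (crtT_iff G cmp val e s0 L g h1).1 h2, h3⟩
  · rintro (h | ⟨s, h1, h2⟩)
    · exact ⟨0, 0, Or.inl h⟩
    · exact ⟨s, s, Or.inr ⟨le_refl _, (crtT_iff G cmp val e s0 L g (le_refl _)).2 h1, h2⟩⟩

lemma tr_ex (z : ℕ) : ∃ j, z + 2 ≤ j ∨ ∃ s, Crt G cmp val e s0 L g z.unpair.1 z.unpair.2 s ∧
      2 * z.unpair.1 + (kE e + 6) ≤ j := ⟨z + 2, Or.inl (le_refl _)⟩

variable (cmp val) in
noncomputable def htr (z : ℕ) : ℕ :=
  open Classical in Nat.find (tr_ex G (cmp := cmp) (val := val) e s0 L g z)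

lemma htr_le {z j : ℕ} : htr G cmp val e s0 L g z ≤ j ↔
    (z + 2 ≤ j ∨ ∃ s, Crt G cmp val e s0 L g z.unpair.1 z.unpair.2 s ∧
      2 * z.unpair.1 + (kE e + 6) ≤ j) := by
  classical
  unfold htr
  constructor
  · intro h
    rcases Nat.find_spec (tr_ex G (cmp := cmp) (val := val) e s0 L g z) with h1 | ⟨s, h1, h2⟩
    · exact Or.inl (le_trans h1 h)
    · exact Or.inr ⟨s, h1, le_trans h2 h⟩
  · intro h
    exact Nat.find_min' (tr_ex G (cmp := cmp) (val := val) e s0 L g z) h

lemma htr_up (hc : Primrec₂ cmp) (hv : Primrec₂ val) : UpS G (htr G cmp val e s0 L g) := by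
  obtain ⟨ψ, hψ, hd⟩ := upper_test' G (T := trT cmp val e s0 L g)
    (trT_p e s0 L g hc hv).to_comp
  refine ⟨ψ, hψ, fun m j => ?_⟩
  rw [hd, trT_iff, htr_le]

open Classical in
lemma htr_kraft (hfew : ∀ n (Y : Finset ℕ), (∀ y ∈ Y, ∃ s, Crt G cmp val e s0 L g n y s) →
    Y.card ≤ 2 ^ (kE e + 3 + 1 + n)) : Kraft (htr G cmp val e s0 L g) := by
  intro S
  set h := htr G cmp val e s0 L g with hh
  have e1 : ∑ m ∈ S.filter (fun m => m + 2 ≤ h m), (1/2 : ℝ) ^ (h m) ≤ 1 / 2 := by
    have e2 := geo_le (S.filter (fun m => m + 2 ≤ h m))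
    calc ∑ m ∈ S.filter (fun m => m + 2 ≤ h m), (1/2 : ℝ) ^ (h m)
        ≤ ∑ m ∈ S.filter (fun m => m + 2 ≤ h m), (1 / 4) * (1/2 : ℝ) ^ m := by
          refine Finset.sum_le_sum (fun m hm => ?_)
          rw [Finset.mem_filter] at hm
          calc (1/2 : ℝ) ^ (h m) ≤ (1 / 2) ^ (m + 2) :=
                pow_le_pow_of_le_one (by norm_num) (by norm_num) hm.2
            _ = (1 / 4) * (1/2 : ℝ) ^ m := by rw [pow_add]; ring
      _ = (1 / 4) * ∑ m ∈ S.filter (fun m => m + 2 ≤ h m), (1/2 : ℝ) ^ m :=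
          (Finset.mul_sum _ _ _).symm
      _ ≤ 1 / 2 := by linarith
  have e3 : ∑ m ∈ S.filter (fun m => ¬ m + 2 ≤ h m), (1/2 : ℝ) ^ (h m) ≤ 1 / 2 := by
    set T := S.filter (fun m => ¬ m + 2 ≤ h m) with hT
    have hmem : ∀ m ∈ T, (∃ s, Crt G cmp val e s0 L g m.unpair.1 m.unpair.2 s) ∧
        2 * m.unpair.1 + (kE e + 6) ≤ h m := by
      intro m hm
      rw [hT, Finset.mem_filter] at hm
      rcases (htr_le G e s0 L g).1 (le_refl (h m)) with h1 | ⟨s, h1, h2⟩
      · exact absurd h1 hm.2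
      · exact ⟨⟨s, h1⟩, h2⟩
    have e4 : ∀ n, ∑ m ∈ T.filter (fun m => m.unpair.1 = n), (1/2 : ℝ) ^ (h m) ≤
        (1/4) * (1/2) ^ n := by
      intro n
      have h1 : ((T.filter (fun m => m.unpair.1 = n)).image (fun m => m.unpair.2)).card ≤
          2 ^ (kE e + 3 + 1 + n) := by
        apply hfew n
        intro y hy
        rw [Finset.mem_image] at hy
        obtain ⟨m, hm, rfl⟩ := hy
        rw [Finset.mem_filter] at hm
        have h2 := (hmem m hm.1).1
        rw [hm.2] at h2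
        exact h2
      rw [Finset.card_image_of_injOn] at h1
      · have h2 : ∑ m ∈ T.filter (fun m => m.unpair.1 = n), (1/2 : ℝ) ^ (h m) ≤
            ∑ m ∈ T.filter (fun m => m.unpair.1 = n), (1/2 : ℝ) ^ (2 * n + (kE e + 6)) := by
          refine Finset.sum_le_sum (fun m hm => ?_)
          rw [Finset.mem_filter] at hm
          have h3 := (hmem m hm.1).2
          rw [hm.2] at h3
          exact pow_le_pow_of_le_one (by norm_num) (by norm_num) h3
        rw [Finset.sum_const, nsmul_eq_mul] at h2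
        refine le_trans h2 ?_
        have h3 : (((T.filter (fun m => m.unpair.1 = n)).card : ℕ) : ℝ) ≤
            2 ^ (kE e + 3 + 1 + n) := by exact_mod_cast h1
        have h4 : (0:ℝ) ≤ (1/2) ^ (2 * n + (kE e + 6)) := by positivity
        refine le_trans (mul_le_mul_of_nonneg_right h3 h4) (le_of_eq ?_)
        have h5 : 2 * n + (kE e + 6) = (kE e + 3 + 1 + n) + (n + 2) := by ring
        rw [h5, pow_add (1/2:ℝ) (kE e + 3 + 1 + n) (n + 2), ← mul_assoc, ← mul_pow]
        norm_num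
        rw [pow_add]
        norm_num
        ring
      · intro m1 hm1 m2 hm2 heq
        rw [Finset.mem_coe, Finset.mem_filter] at hm1 hm2
        simp only at heq
        rw [← Nat.pair_unpair m1, ← Nat.pair_unpair m2, hm1.2, hm2.2, heq]
    have e5 : ∑ m ∈ T, (1/2 : ℝ) ^ (h m) =
        ∑ n ∈ T.image (fun m => m.unpair.1), ∑ m ∈ T.filter (fun m => m.unpair.1 = n),
          (1/2 : ℝ) ^ (h m) :=
      (Finset.sum_fiberwise_of_maps_to (fun m hm => Finset.mem_image_of_mem _ hm) _).symm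
    rw [e5]
    refine le_trans (Finset.sum_le_sum (fun n _ => e4 n)) ?_
    rw [← Finset.mul_sum]
    have := geo_le (T.image (fun m => m.unpair.1))
    linarith
  have e5 := Finset.sum_filter_add_sum_filter_not S
    (fun m => m + 2 ≤ h m) (fun m => (1/2 : ℝ) ^ (h m))
  linarith

/-- If the halting problem is K-trivial relative to `G`, then the values of every function which
is computable from the halting problem have small complexity relative to `G`. -/
theorem low_values {c : ℕ} (hK : ∀ n, KG G (Encodable.encode (kstr n)) ≤ KG G n + c)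
    {F : ℕ → ℕ} (hF : TR F K0) : ∃ d, ∀ n, KG G (Nat.pair n (F n)) ≤ 2 * n + d := by
  obtain ⟨ix, hcomp, hval⟩ := comp_c hF
  obtain ⟨e, s0, x0, base, hG⟩ := gold_ex G (cmpc_p ix) hK
  have hc := cmpc_p ix
  have hv := valc_p ix
  have hcrt : ∀ n y s, Crt G (cmpc ix) (valc ix) e s0 (base.length + 1) x0.1.1 n y s →
      ∃ x, s0 ≤ s ∧ run (kdG G) (cmpc ix) e (kE e) (kE e + 3) s = x :: base ∧ cmpc ix s n ≤ s ∧
      valc ix s n = y + 1 ∧
      big (x.1.1 + (kE e + 3) + 1 + n) (nfilt (cmpc ix) s n x.2.2.1) = true := by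
    rintro n y s ⟨h1, h2, h3, h4, h5⟩
    obtain ⟨x, hx, hg, -⟩ := hG.top (le_refl _) hG.h0 h1 h2
    unfold rn at h5
    rw [hx, topR_cons] at h5
    rw [← hg] at h5
    exact ⟨x, h1, hx, h3, h4, h5⟩
  have hfew : ∀ n (Y : Finset ℕ), (∀ y ∈ Y, ∃ s,
      Crt G (cmpc ix) (valc ix) e s0 (base.length + 1) x0.1.1 n y s) →
      Y.card ≤ 2 ^ (kE e + 3 + 1 + n) := by
    intro n Y hY
    have h1 := hG.few hcomp n (Y.image (fun y => y + 1)) (by
      intro y hy
      rw [Finset.mem_image] at hy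
      obtain ⟨y', hy', rfl⟩ := hy
      obtain ⟨s, hs⟩ := hY y' hy'
      obtain ⟨x, h1, h2, h3, h4, h5⟩ := hcrt n y' s hs
      exact ⟨s, x, h1, h2, h3, h4, h5⟩)
    rw [Finset.card_image_of_injective _ (fun a b h => Nat.succ_injective h)] at h1
    exact h1
  obtain ⟨d, hd⟩ := KG_opt (htr_up G e s0 (base.length + 1) x0.1.1 hc hv)
    (htr_kraft G e s0 (base.length + 1) x0.1.1 hfew)
  refine ⟨kE e + 6 + d, fun n => ?_⟩
  have h1 := hd (Nat.pair n (F n))
  obtain ⟨N, hN⟩ := hG.sat hcomp n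
  obtain ⟨s1, hs1⟩ := hval n
  obtain ⟨s, x, h2, h3, h4, h5⟩ := hG.next (max N s1)
  have h6 := hN s (le_trans (le_max_left _ _) h2) x h4
  have h7 := hs1 s (le_trans (le_max_right _ _) h2)
  have h8 : Crt G (cmpc ix) (valc ix) e s0 (base.length + 1) x0.1.1 n (F n) s := by
    refine ⟨h3, ?_, h6.1, h7, ?_⟩
    · unfold rn; rw [h4]; rfl
    · unfold rn; rw [h4, topR_cons, ← h5]; exact h6.2
  have h9 : htr G (cmpc ix) (valc ix) e s0 (base.length + 1) x0.1.1 (Nat.pair n (F n)) ≤
      2 * n + (kE e + 6) := by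
    rw [htr_le]
    right
    rw [Nat.unpair_pair]
    exact ⟨s, h8, le_refl _⟩
  omega

end Pool.Agent.Helper743.GR
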