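import Pool.Agent.Helper743.GRTrace

set_option autoImplicit false

/-! Majority votes against the values of small complexity. -/

namespace Pool.Agent.Helper743.GR

open Nat.Partrec (Code)
open Filter
open Pool.Agent.Helper743.AC (hl hl_p str kstr str_p fsum_p pow_p geo_le)
open Pool.Agent.Helper743.KT (HitU HitU_p KG KG_le K0 KG_opt KG_Kraft UpS Kraft upper_test')

/-- all binary strings of length `s` -/
def allb (s : ℕ) : List (List Bool) :=
  Nat.rec [[]] (fun _ l => l.map (fun β => β ++ [false]) ++ l.map (fun β => β ++ [true])) s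

lemma allb_succ (s : ℕ) : allb (s + 1) =
    (allb s).map (fun β => β ++ [false]) ++ (allb s).map (fun β => β ++ [true]) := rfl

lemma allb_p : Primrec allb := by
  have h : Primrec (fun q : ℕ × List (List Bool) =>
      q.2.map (fun β => β ++ [false]) ++ q.2.map (fun β => β ++ [true])) := by
    have h1 : ∀ b : Bool, Primrec (fun q : ℕ × List (List Bool) =>
        q.2.map (fun β => β ++ [b])) := by
      intro b
      have h2 : Primrec₂ (fun (_ : ℕ × List (List Bool)) (β : List Bool) => β ++ [b]) :=
        Primrec.list_concat.comp Primrec.snd (Primrec.const b)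
      exact Primrec.list_map Primrec.snd h2
    exact Primrec.list_append.comp (h1 false) (h1 true)
  exact Primrec.nat_rec₁ [[]] h

lemma allb_length (s : ℕ) : (allb s).length = 2 ^ s := by
  induction s with
  | zero => rfl
  | succ s ih => rw [allb_succ, List.length_append, List.length_map, List.length_map, ih]; ring

lemma mem_allb {s : ℕ} {β : List Bool} : β ∈ allb s ↔ β.length = s := by
  induction s generalizing β with
  | zero =>
    show β ∈ [[]] ↔ _
    rw [List.mem_singleton, List.length_eq_zero_iff]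
  | succ s ih =>
    rw [allb_succ, List.mem_append, List.mem_map, List.mem_map]
    constructor
    · rintro (⟨γ, h, rfl⟩ | ⟨γ, h, rfl⟩)
      · rw [List.length_append, ih.1 h]; rfl
      · rw [List.length_append, ih.1 h]; rfl
    · intro h
      have hne : β ≠ [] := by
        rintro rfl
        simp at h
      obtain ⟨γ, b, rfl⟩ : ∃ γ b, β = γ ++ [b] :=
        ⟨β.dropLast, β.getLast hne, (List.dropLast_append_getLast hne).symm⟩
      have h1 : γ.length = s := by simpa using h
      cases b
      · exact Or.inl ⟨γ, ih.2 h1, rfl⟩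
      · exact Or.inr ⟨γ, ih.2 h1, rfl⟩

lemma allb_nodup (s : ℕ) : (allb s).Nodup := by
  induction s with
  | zero => exact List.nodup_singleton _
  | succ s ih =>
    rw [allb_succ]
    have hinj : ∀ b : Bool, Function.Injective (fun β : List Bool => β ++ [b]) := by
      intro b β γ h
      exact List.append_cancel_right h
    refine List.Nodup.append (ih.map (hinj false)) (ih.map (hinj true)) ?_
    intro β h1 h2
    rw [List.mem_map] at h1 h2
    obtain ⟨γ, _, rfl⟩ := h1
    obtain ⟨γ', _, h3⟩ := h2
    have h4 := congrArg List.getLast? h3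
    simp at h4

/-- the string `β`, used as an oracle, shows that the complexity of `(n, τ)` is at most `3 n` -/
noncomputable def cer (β : List Bool) (n : ℕ) (τ : List Bool) : Bool :=
  open Classical in
  decide (∃ j ∈ List.range (β.length + 1),
    HitU ((β.take j).map Bool.toNat) (Nat.pair n (Encodable.encode τ)) (3 * n))

lemma cer_iff {β : List Bool} {n : ℕ} {τ : List Bool} : cer β n τ = true ↔
    ∃ j, j ≤ β.length ∧ HitU ((β.take j).map Bool.toNat) (Nat.pair n (Encodable.encode τ))
      (3 * n) := by
  unfold cer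
  refine Iff.trans (@decide_eq_true_iff _ (_)) ?_
  constructor
  · rintro ⟨j, hj, h⟩
    rw [List.mem_range] at hj
    exact ⟨j, by omega, h⟩
  · rintro ⟨j, hj, h⟩
    exact ⟨j, List.mem_range.2 (by omega), h⟩

lemma cer_p : Primrec (fun q : (List Bool × ℕ) × List Bool => cer q.1.1 q.1.2 q.2) := by
  classical
  have b : Primrec (fun z : ℕ × ((List Bool × ℕ) × List Bool) => z.2.1.1) :=
    Primrec.fst.comp (Primrec.fst.comp Primrec.snd)
  have n : Primrec (fun z : ℕ × ((List Bool × ℕ) × List Bool) => z.2.1.2) :=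
    Primrec.snd.comp (Primrec.fst.comp Primrec.snd)
  have t : Primrec (fun z : ℕ × ((List Bool × ℕ) × List Bool) => z.2.2) :=
    Primrec.snd.comp Primrec.snd
  have bt := Primrec.list_map (Primrec.list_take.comp (Primrec.fst (α := ℕ)
    (β := (List Bool × ℕ) × List Bool)) b) (toNat_p.comp Primrec.snd).to₂
  have nt := Primrec₂.natPair.comp n (Primrec.encode.comp t)
  have h1 : PrimrecRel (fun (j : ℕ) (q : (List Bool × ℕ) × List Bool) =>
      HitU ((q.1.1.take j).map Bool.toNat) (Nat.pair q.1.2 (Encodable.encode q.2))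
        (3 * q.1.2)) :=
    HitU_p.comp ((bt.pair nt).pair (Primrec.nat_mul.comp (Primrec.const 3) n))
  have h2 := h1.exists_mem_list.comp (Primrec.list_range.comp (Primrec.succ.comp
    (Primrec.list_length.comp (Primrec.fst.comp (Primrec.fst (α := List Bool × ℕ)
    (β := List Bool)))))) Primrec.id
  refine h2.decide.of_eq ?_
  intro q
  unfold cer
  simp only [id, Nat.succ_eq_add_one]

/-- few strings are certified by an oracle -/
lemma cer_few (β : List Bool) (n l : ℕ) :
    ((allb l).filter (fun τ => cer β n τ)).length ≤ 2 ^ (3 * n) := by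
  classical
  let G : ℕ → ℕ := fun i => ((β.map Bool.toNat)[i]?).getD 0
  have hG : ∀ j, j ≤ β.length → pre G j = (β.take j).map Bool.toNat := by
    intro j hj
    apply List.ext_getElem?
    intro i
    rw [pre_getElem?, List.getElem?_map, List.getElem?_take]
    by_cases h : i < j
    · have h3 : i < β.length := by omega
      rw [if_pos h, if_pos h, List.getElem?_eq_getElem h3]
      show some (((β.map Bool.toNat)[i]?).getD 0) = _
      rw [List.getElem?_map, List.getElem?_eq_getElem h3]
      rfl
    · rw [if_neg h, if_neg h]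
      rfl
  have h1 := List.toFinset_card_of_nodup ((allb_nodup l).filter (fun τ => cer β n τ))
  rw [← h1]
  set S := ((allb l).filter (fun τ => cer β n τ)).toFinset with hS
  have h2 : ∑ τ ∈ S, (1/2 : ℝ) ^ (3 * n) ≤ 1 := by
    have h3 := KG_Kraft G (S.image (fun τ => Nat.pair n (Encodable.encode τ)))
    rw [Finset.sum_image] at h3
    · refine le_trans (Finset.sum_le_sum (fun τ hτ => ?_)) h3
      rw [hS, List.mem_toFinset, List.mem_filter] at hτ
      obtain ⟨j, hj, h4⟩ := cer_iff.1 hτ.2
      rw [← hG j hj] at h4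
      exact pow_le_pow_of_le_one (by norm_num) (by norm_num) (KG_le.2 ⟨j, h4⟩)
    · intro τ _ τ' _ h
      exact Encodable.encode_injective (Nat.pair_eq_pair.1 h).2
  rw [Finset.sum_const, nsmul_eq_mul] at h2
  have h3 : (2:ℝ) ^ (3 * n) * (1/2) ^ (3 * n) = 1 := by rw [← mul_pow]; norm_num
  have h4 : (S.card : ℝ) ≤ 2 ^ (3 * n) := by
    by_contra h5
    push Not at h5
    have h6 : (0:ℝ) < (1/2) ^ (3 * n) := by positivity
    have := mul_lt_mul_of_pos_right h5 h6
    linarith
  exact_mod_cast h4

/-- the number of oracles which certify `τ` -/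
noncomputable def vot (n s : ℕ) (τ : List Bool) : ℕ := ((allb s).filter (fun β => cer β n τ)).length

lemma vot_p : Primrec (fun q : (ℕ × ℕ) × List Bool => vot q.1.1 q.1.2 q.2) := by
  have h1 : Primrec₂ (fun (q : (ℕ × ℕ) × List Bool) (β : List Bool) => cer β q.1.1 q.2) :=
    cer_p.comp ((Primrec.snd.pair (Primrec.fst.comp (Primrec.fst.comp Primrec.fst))).pair
      (Primrec.snd.comp Primrec.fst))
  exact Primrec.list_length.comp (filt_p (allb_p.comp (Primrec.snd.comp Primrec.fst)) h1)

lemma vot_sum (n s l : ℕ) : ∑ τ ∈ (allb l).toFinset, vot n s τ ≤ 2 ^ s * 2 ^ (3 * n) := by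
  classical
  have h1 : ∀ τ, vot n s τ = ∑ β ∈ (allb s).toFinset, if cer β n τ = true then 1 else 0 := by
    intro τ
    rw [Finset.sum_boole]
    unfold vot
    rw [← List.toFinset_card_of_nodup ((allb_nodup s).filter _), List.toFinset_filter]
    rfl
  rw [Finset.sum_congr rfl (fun τ _ => h1 τ), Finset.sum_comm]
  have h2 : ∀ β ∈ (allb s).toFinset, ∑ τ ∈ (allb l).toFinset,
      (if cer β n τ = true then 1 else 0) ≤ 2 ^ (3 * n) := by
    intro β _
    rw [Finset.sum_boole]
    have h3 := cer_few β n l
    rw [← List.toFinset_card_of_nodup ((allb_nodup l).filter _), List.toFinset_filter] at h3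
    exact h3
  refine le_trans (Finset.sum_le_sum h2) ?_
  rw [Finset.sum_const, List.toFinset_card_of_nodup (allb_nodup s), allb_length, smul_eq_mul]

/-- the index of the chosen string -/
noncomputable def ixv (n s : ℕ) : ℕ :=
  (allb (4 * n + 1)).findIdx (fun τ => decide (vot n s τ * 2 ^ (n + 1) ≤ 2 ^ s))

noncomputable def cho (n s : ℕ) : List Bool := ((allb (4 * n + 1))[ixv n s]?).getD []

lemma cho_p : Primrec₂ cho := by
  have l : Primrec (fun q : ℕ × ℕ => allb (4 * q.1 + 1)) :=
    allb_p.comp (Primrec.succ.comp (Primrec.nat_mul.comp (Primrec.const 4) Primrec.fst))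
  have h1 : Primrec₂ (fun (q : ℕ × ℕ) (τ : List Bool) =>
      decide (vot q.1 q.2 τ * 2 ^ (q.1 + 1) ≤ 2 ^ q.2)) := by
    have n : Primrec (fun q : (ℕ × ℕ) × List Bool => q.1.1) := Primrec.fst.comp Primrec.fst
    have s : Primrec (fun q : (ℕ × ℕ) × List Bool => q.1.2) := Primrec.snd.comp Primrec.fst
    exact (Primrec.nat_le.comp (Primrec.nat_mul.comp vot_p
      (pow_p.comp (Primrec.succ.comp n))) (pow_p.comp s)).decide
  have h2 := Primrec.list_findIdx l h1
  exact Primrec.option_getD.comp (Primrec.list_getElem?.comp l h2) (Primrec.const [])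

lemma cho_spec (n s : ℕ) : (cho n s).length = 4 * n + 1 ∧ vot n s (cho n s) * 2 ^ (n + 1) ≤ 2 ^ s := by
  have hex : ∃ τ ∈ allb (4 * n + 1), vot n s τ * 2 ^ (n + 1) ≤ 2 ^ s := by
    by_contra hne
    push Not at hne
    have h1 := vot_sum n s (4 * n + 1)
    have h2 : (allb (4 * n + 1)).toFinset.card • (2 ^ s) <
        ∑ τ ∈ (allb (4 * n + 1)).toFinset, vot n s τ * 2 ^ (n + 1) := by
      rw [← Finset.sum_const]
      apply Finset.sum_lt_sum_of_nonempty
      · refine ⟨List.replicate (4 * n + 1) false, ?_⟩
        rw [List.mem_toFinset, mem_allb]; simp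
      · intro τ hτ
        exact hne τ (List.mem_toFinset.1 hτ)
    rw [← Finset.sum_mul, List.toFinset_card_of_nodup (allb_nodup _), allb_length,
      smul_eq_mul] at h2
    have h3 := Nat.mul_le_mul_right (2 ^ (n + 1)) h1
    have h4 : 2 ^ s * 2 ^ (3 * n) * 2 ^ (n + 1) = 2 ^ (4 * n + 1) * 2 ^ s := by
      have : 4 * n + 1 = 3 * n + (n + 1) := by ring
      rw [this, pow_add 2 (3 * n) (n + 1)]
      ring
    omega
  obtain ⟨τ, hτ1, hτ2⟩ := hex
  have h1 : ixv n s < (allb (4 * n + 1)).length := by
    unfold ixv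
    rw [List.findIdx_lt_length]
    exact ⟨τ, hτ1, decide_eq_true hτ2⟩
  have h2 : cho n s = (allb (4 * n + 1))[ixv n s]'h1 := by
    unfold cho
    rw [List.getElem?_eq_getElem h1]
    rfl
  rw [h2]
  refine ⟨mem_allb.1 (List.getElem_mem h1), ?_⟩
  have h3 := List.findIdx_getElem (w := h1)
  exact of_decide_eq_true h3

end Pool.Agent.Helper743.GR
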