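import Pool.Agent.Helper743.Oracle

set_option autoImplicit false

/-! The halting function, upper bounds avoiding a degree, and the dichotomy for a countable
family. -/

namespace Pool.Agent.Helper743

open Nat.Partrec (Code)

/-- the characteristic function of the halting problem -/
noncomputable def K (z : ℕ) : ℕ :=
  open Classical in
  if (Code.eval (Denumerable.ofNat Code z.unpair.1) z.unpair.2).Dom then 1 else 0

/-- the characteristic function of a set -/
noncomputable def chi (p : ℕ → Prop) (n : ℕ) : ℕ :=
  open Classical in if p n then 1 else 0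

lemma re_code {p : ℕ → Prop} (h : REPred p) :
    ∃ c : Code, ∀ n, p n ↔ (Code.eval c n).Dom := by
  obtain ⟨c, hc⟩ := Code.exists_code.1 h
  refine ⟨c, fun n => ?_⟩
  rw [hc]
  simp [Part.dom_iff_mem]

lemma chi_TR_K {p : ℕ → Prop} (h : REPred p) : TR (chi p) K := by
  obtain ⟨c, hc⟩ := re_code h
  have h1 : Computable (fun n : ℕ => Nat.pair (Encodable.encode c) n) :=
    Primrec₂.natPair.to_comp.comp (Computable.const _) Computable.id
  have h2 := (TR.refl K).comp (Computable.recT (O := {(K : ℕ →. ℕ)}) h1)
  have h3 : (fun n => K (Nat.pair (Encodable.encode c) n)) = chi p := by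
    funext n
    have key : (Code.eval (Denumerable.ofNat Code (Nat.pair (Encodable.encode c) n).unpair.1)
        (Nat.pair (Encodable.encode c) n).unpair.2).Dom ↔ p n := by
      rw [Nat.unpair_pair, Denumerable.ofNat_encode, hc]
    show K (Nat.pair (Encodable.encode c) n) = chi p n
    unfold K chi
    by_cases hp : p n
    · rw [if_pos hp, if_pos (key.2 hp)]
    · rw [if_neg hp, if_neg (fun h => hp (key.1 h))]
  rw [h3] at h2
  exact h2

lemma K_re : REPred (fun z : ℕ =>
    (Code.eval (Denumerable.ofNat Code z.unpair.1) z.unpair.2).Dom) := by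
  have : Partrec (fun z : ℕ => Code.eval (Denumerable.ofNat Code z.unpair.1) z.unpair.2) :=
    Code.eval_part.comp ((Computable.ofNat Code).comp
      (Computable.fst.comp Computable.unpair)) (Computable.snd.comp Computable.unpair)
  exact this.dom_re

lemma K_not_computable : ¬ Computable K := by
  intro h
  apply ComputablePred.halting_problem 0
  classical
  have h1 : Computable (fun c : Code => K (Nat.pair (Encodable.encode c) 0)) :=
    h.comp (Primrec₂.natPair.to_comp.comp Computable.encode (Computable.const 0))
  have h2 : Computable (fun n : ℕ => decide (n = 1)) :=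
    (PrimrecPred.decide (p := fun n : ℕ => n = 1) (Primrec.eq.comp Primrec.id
      (Primrec.const 1))).to_comp
  refine Computable.computablePred ((h2.comp h1).of_eq ?_)
  intro c
  rw [decide_eq_decide]
  unfold K
  simp only [Nat.unpair_pair, Denumerable.ofNat_encode]
  by_cases hd : (c.eval 0).Dom <;> simp [hd]

lemma TR_const {f : ℕ → ℕ} {g : ℕ → ℕ} (hg : Computable g) (h : TR f g) : Computable f := by
  have h1 : Nat.Partrec (fun n => Part.some (f n)) := by
    refine Nat.RecursiveIn.partrec_of_oracle (O := {(g : ℕ →. ℕ)}) ?_ h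
    intro k hk
    rw [Set.mem_singleton_iff] at hk
    subst hk
    exact Partrec.nat_iff.1 hg
  exact Partrec.nat_iff.2 h1

lemma TR_of_computable {f g : ℕ → ℕ} (hf : Computable f) : TR f g := Computable.recT hf

/-- finite variants -/
lemma recT_of_eventually {O : Set (ℕ →. ℕ)} {f g : ℕ → ℕ} (N : ℕ) (h : ∀ x, N ≤ x → f x = g x)
    (hg : RecT O g) : RecT O f := by
  have hc : Computable (fun z : ℕ => if z.unpair.1 < N then ((pre f N)[z.unpair.1]?).getD 0
      else z.unpair.2) := by
    have h1 : Primrec (fun z : ℕ => z.unpair.1) := Primrec.fst.comp Primrec.unpair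
    have h2 : Primrec (fun z : ℕ => z.unpair.2) := Primrec.snd.comp Primrec.unpair
    have h3 : Primrec (fun z : ℕ => ((pre f N)[z.unpair.1]?).getD 0) :=
      Primrec.option_getD.comp (Primrec.list_getElem?.comp (Primrec.const _) h1) (Primrec.const 0)
    exact (Primrec.ite (Primrec.nat_lt.comp h1 (Primrec.const N)) h3 h2).to_comp
  have h1 := (Computable.recT (O := O) hc).comp
    (RecT.pair (Computable.recT (O := O) Computable.id) hg)
  refine Nat.RecursiveIn.of_eq h1 ?_
  intro x
  congr 1
  simp only [Nat.unpair_pair, id]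
  by_cases hx : x < N
  · rw [if_pos hx, pre_getElem?, if_pos hx]; rfl
  · rw [if_neg hx, h x (by omega)]

section Upper

variable (A : ℕ → ℕ → ℕ) (Kf : ℕ → ℕ)

/-- the first `s` columns -/
def colB (s z : ℕ) : ℕ := if z.unpair.1 < s then A z.unpair.1 z.unpair.2 else 0

def Respects (s : ℕ) (σ τ : List ℕ) : Prop :=
  σ <+: τ ∧ ∀ z, z < τ.length → σ.length ≤ z → z.unpair.1 < s →
    τ[z]? = some (A z.unpair.1 z.unpair.2)

/-- the `s`-th candidate functional -/
def EE (s : ℕ) (σ : List ℕ) (x y : ℕ) : Prop :=
  Encodable.encode (some y) ∈ Code.eval (Denumerable.ofNat Code s) (Encodable.encode (σ, x))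

def Bad (s : ℕ) (τ : List ℕ) : Prop := ∃ x y, EE s τ x y ∧ y ≠ Kf x

open Classical in
noncomputable def nextU (s : ℕ) (σ : List ℕ) : List ℕ :=
  if h : ∃ τ, Respects A s σ τ ∧ σ.length < τ.length ∧ Bad Kf s τ then h.choose
  else σ ++ [colB A s σ.length]

noncomputable def seqU : ℕ → List ℕ
  | 0 => []
  | s+1 => nextU A Kf s (seqU s)

lemma nextU_respects (s : ℕ) (σ : List ℕ) : Respects A s σ (nextU A Kf s σ) ∧
    σ.length < (nextU A Kf s σ).length := by
  unfold nextU
  split
  next h => exact ⟨h.choose_spec.1, h.choose_spec.2.1⟩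
  next h =>
    refine ⟨⟨List.prefix_append _ _, ?_⟩, by simp⟩
    intro z hz hz2 hz3
    simp only [List.length_append, List.length_singleton] at hz
    have : z = σ.length := by omega
    subst this
    simp [colB, hz3]

lemma seqU_prefix {s t : ℕ} (h : s ≤ t) : seqU A Kf s <+: seqU A Kf t := by
  obtain ⟨k, rfl⟩ := Nat.exists_eq_add_of_le h
  induction k with
  | zero => simp
  | succ k ih =>
    exact (ih (by omega)).trans (nextU_respects A Kf (s+k) _).1.1

lemma seqU_length (s : ℕ) : s ≤ (seqU A Kf s).length := by
  induction s with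
  | zero => simp
  | succ s ih =>
    have := (nextU_respects A Kf s (seqU A Kf s)).2
    show s + 1 ≤ (nextU A Kf s (seqU A Kf s)).length
    omega

noncomputable def GU (z : ℕ) : ℕ := ((seqU A Kf (z+1))[z]?).getD 0

lemma seqU_get {s z : ℕ} (h : z < (seqU A Kf s).length) :
    (seqU A Kf s)[z]? = some (GU A Kf z) := by
  have hz : z < (seqU A Kf (z+1)).length := lt_of_lt_of_le (Nat.lt_succ_self z) (seqU_length _ _ _)
  have h1 : (seqU A Kf (z+1))[z]? = some (GU A Kf z) := by
    unfold GU
    rw [List.getElem?_eq_getElem hz]; simp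
  rcases Nat.le_total s (z+1) with hle | hle
  · obtain ⟨ρ, hρ⟩ := seqU_prefix A Kf hle
    rw [← hρ, List.getElem?_append_left h] at h1
    exact h1
  · obtain ⟨ρ, hρ⟩ := seqU_prefix A Kf hle
    rw [← hρ, List.getElem?_append_left hz]
    exact h1

lemma seqU_eq_pre (s : ℕ) : seqU A Kf s = pre (GU A Kf) (seqU A Kf s).length := by
  apply pre_eq_of_prefix
  intro i hi
  have := seqU_get A Kf hi
  rw [List.getElem?_eq_getElem hi] at this
  exact Option.some.inj this

lemma GU_respects {s z : ℕ} (h1 : (seqU A Kf s).length ≤ z) (h2 : z.unpair.1 < s) :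
    GU A Kf z = A z.unpair.1 z.unpair.2 := by
  -- find the stage at which z is added
  have hex : ∃ t, z < (seqU A Kf t).length :=
    ⟨z+1, lt_of_lt_of_le (Nat.lt_succ_self z) (seqU_length _ _ _)⟩
  classical
  have hsp := Nat.find_spec hex
  have hmin := fun m => Nat.find_min (m := m) hex
  obtain ⟨t, ht⟩ : ∃ t, Nat.find hex = t + 1 := by
    cases h : Nat.find hex with
    | zero => rw [h] at hsp; simp [seqU] at hsp
    | succ t => exact ⟨t, rfl⟩
  rw [ht] at hsp
  have h3 : ¬ z < (seqU A Kf t).length := hmin t (by omega)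
  have h4 : s ≤ t := by
    by_contra hlt
    push Not at hlt
    have := (seqU_prefix A Kf (show t + 1 ≤ s by omega)).length_le
    omega
  have h5 := (nextU_respects A Kf t (seqU A Kf t)).1.2 z hsp (by omega) (by omega)
  have h6 : (nextU A Kf t (seqU A Kf t))[z]? = some (GU A Kf z) := seqU_get A Kf hsp
  rw [h6] at h5
  exact Option.some.inj h5

lemma TR_GU (n : ℕ) : TR (A n) (GU A Kf) := by
  have h1 : Computable (fun x : ℕ => Nat.pair n x) :=
    Primrec₂.natPair.to_comp.comp (Computable.const _) Computable.id
  have h2 := (TR.refl (GU A Kf)).comp (Computable.recT (O := {(GU A Kf : ℕ →. ℕ)}) h1)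
  refine recT_of_eventually (seqU A Kf (n+1)).length ?_ h2
  intro x hx
  have h3 : (seqU A Kf (n+1)).length ≤ Nat.pair n x := le_trans hx (Nat.right_le_pair n x)
  have := GU_respects A Kf h3 (by simp)
  rw [this]; simp

variable {A Kf}

lemma colB_TR (hA : ∀ n, TR (A n) (A (n+1))) (s : ℕ) (k : ℕ) (hk : k ≤ s) :
    TR (colB A k) (A s) := by
  have hmono : ∀ d n, TR (A n) (A (n+d)) := by
    intro d
    induction d with
    | zero => intro n; exact TR.refl _
    | succ d ih => intro n; exact (ih n).trans (hA _)
  induction k with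
  | zero =>
    have : colB A 0 = fun _ => 0 := by funext z; simp [colB]
    rw [this]
    exact TR_of_computable (Computable.const 0)
  | succ k ih =>
    have h1 := ih (by omega)
    have h2 : TR (A k) (A s) := by
      obtain ⟨d, rfl⟩ := Nat.exists_eq_add_of_le (show k ≤ s by omega)
      exact hmono d k
    have hc : Computable (fun z : ℕ => if z.unpair.1.unpair.1 = k then z.unpair.2.unpair.1
        else z.unpair.2.unpair.2) := by
      have u1 : Primrec (fun z : ℕ => z.unpair.1) := Primrec.fst.comp Primrec.unpair
      have u2 : Primrec (fun z : ℕ => z.unpair.2) := Primrec.snd.comp Primrec.unpair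
      exact (Primrec.ite (Primrec.eq.comp (u1.comp u1) (Primrec.const k)) (u1.comp u2)
        (u2.comp u2)).to_comp
    have u2 : Computable (fun z : ℕ => z.unpair.2) := Computable.snd.comp Computable.unpair
    have h3 : RecT {(A s : ℕ →. ℕ)} (fun z => Nat.pair z (Nat.pair (A k z.unpair.2) (colB A k z))) :=
      RecT.pair (Computable.recT Computable.id)
        (RecT.pair (RecT.comp h2 (Computable.recT u2)) h1)
    have h4 := (Computable.recT (O := {(A s : ℕ →. ℕ)}) hc).comp h3
    refine Nat.RecursiveIn.of_eq h4 ?_
    intro z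
    congr 1
    simp only [Nat.unpair_pair, colB]
    by_cases hz : z.unpair.1 = k
    · simp [hz]
    · simp only [hz, if_false]
      by_cases hz2 : z.unpair.1 < k
      · rw [if_pos hz2, if_pos (by omega)]
      · rw [if_neg hz2, if_neg (by omega)]

theorem GU_avoids (hA : ∀ n, TR (A n) (A (n+1))) (hK : ∀ n, ¬ TR Kf (A n)) :
    ¬ TR Kf (GU A Kf) := by
  intro hTR
  obtain ⟨ev, hev, hmono, hcor⟩ := use_principle (GU A Kf) _ hTR
  -- code of ev
  have hpart : Nat.Partrec (fun z => Part.some (Encodable.encode
      (ev ((Encodable.decode (α := List ℕ × ℕ) z).getD ([], 0)).1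
        ((Encodable.decode (α := List ℕ × ℕ) z).getD ([], 0)).2))) := by
    have h0 : Computable (fun z : ℕ => (Encodable.decode (α := List ℕ × ℕ) z).getD ([], 0)) :=
      Computable.option_getD Computable.decode (Computable.const _)
    exact Partrec.nat_iff.1 (Computable.encode.comp
      (hev.comp (Computable.fst.comp h0) (Computable.snd.comp h0)))
  obtain ⟨c, hc⟩ := Code.exists_code.1 hpart
  have hEE : ∀ σ x y, EE (Encodable.encode c) σ x y ↔ ev σ x = some y := by
    intro σ x y
    unfold EE
    rw [Denumerable.ofNat_encode, hc]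
    simp only [Encodable.encodek, Option.getD_some, Part.mem_some_iff]
    rw [Encodable.encode_inj]
    exact eq_comm
  set s := Encodable.encode c with hs
  set σ := seqU A Kf s with hσ
  by_cases hbad : ∃ τ, Respects A s σ τ ∧ σ.length < τ.length ∧ Bad Kf s τ
  · have h1 : seqU A Kf (s+1) = hbad.choose := by
      show nextU A Kf s σ = _
      unfold nextU
      rw [dif_pos hbad]
    obtain ⟨x, y, h2, h3⟩ := hbad.choose_spec.2.2
    rw [← h1, hEE] at h2
    have h4 := seqU_eq_pre A Kf (s+1)
    have h5 : y ∈ Part.some (Kf x) := (hcor x y).2 ⟨_, by rw [← h4]; exact h2⟩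
    rw [Part.mem_some_iff] at h5
    exact h3 h5
  · apply hK s
    refine TR.trans ?_ (colB_TR hA s s (le_refl s))
    -- certificate computation
    let chk : List ℕ → List ℕ → Prop := fun β τ =>
      τ.take σ.length = σ ∧ σ.length < τ.length ∧ τ.length ≤ β.length ∧
        ∀ z ∈ List.range τ.length, (σ.length ≤ z ∧ z.unpair.1 < s) → τ[z]? = β[z]?
    have hchk : PrimrecRel chk := by
      have r1 : PrimrecRel (fun (z : ℕ) (q : List ℕ × List ℕ) =>
          (σ.length ≤ z ∧ z.unpair.1 < s) → q.2[z]? = q.1[z]?) := by
        have a1 : PrimrecRel (fun (z : ℕ) (q : List ℕ × List ℕ) =>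
            (σ.length ≤ z ∧ z.unpair.1 < s)) :=
          (Primrec.nat_le.comp (Primrec.const _) Primrec.fst).and
            (Primrec.nat_lt.comp (Primrec.fst.comp (Primrec.unpair.comp Primrec.fst))
              (Primrec.const _))
        have a2 : PrimrecRel (fun (z : ℕ) (q : List ℕ × List ℕ) => q.2[z]? = q.1[z]?) :=
          Primrec.eq.comp (Primrec.list_getElem?.comp (Primrec.snd.comp Primrec.snd) Primrec.fst)
            (Primrec.list_getElem?.comp (Primrec.fst.comp Primrec.snd) Primrec.fst)
        exact (PrimrecPred.or a1.not a2).of_eq (by intro z; simp only [imp_iff_not_or])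
      have r2 : PrimrecRel (fun (β τ : List ℕ) => ∀ z ∈ List.range τ.length,
          (σ.length ≤ z ∧ z.unpair.1 < s) → τ[z]? = β[z]?) :=
        PrimrecPred.of_eq (r1.forall_mem_list.comp
          (Primrec.list_range.comp (Primrec.list_length.comp Primrec.snd)) Primrec.id)
          (by intro q; rfl)
      have r3 : PrimrecRel (fun (β τ : List ℕ) => τ.take σ.length = σ) :=
        Primrec.eq.comp (Primrec.list_take.comp (Primrec.const _) Primrec.snd) (Primrec.const _)
      have r4 : PrimrecRel (fun (β τ : List ℕ) => σ.length < τ.length) :=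
        Primrec.nat_lt.comp (Primrec.const _) (Primrec.list_length.comp Primrec.snd)
      have r5 : PrimrecRel (fun (β τ : List ℕ) => τ.length ≤ β.length) :=
        Primrec.nat_le.comp (Primrec.list_length.comp Primrec.snd)
          (Primrec.list_length.comp Primrec.fst)
      exact PrimrecPred.and r3 (PrimrecPred.and r4 (PrimrecPred.and r5 r2))
    classical
    let p : List ℕ → ℕ → ℕ → Option ℕ := fun β x w =>
      bif decide (chk β ((Encodable.decode (α := List ℕ) w).getD []))
        then ev ((Encodable.decode (α := List ℕ) w).getD []) x else none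
    refine cert (TR.refl (colB A s)) p ?_ Kf ?_ ?_
    · have d1 : Computable (fun q : (List ℕ × ℕ) × ℕ =>
          (Encodable.decode (α := List ℕ) q.2).getD []) :=
        Computable.option_getD (Computable.decode.comp Computable.snd) (Computable.const [])
      have d2 : Computable (fun q : (List ℕ × ℕ) × ℕ =>
          decide (chk q.1.1 ((Encodable.decode (α := List ℕ) q.2).getD []))) :=
        (hchk.decide.to_comp).comp (Computable.fst.comp Computable.fst) d1
      exact Computable.cond d2 (hev.comp d1 (Computable.snd.comp Computable.fst))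
        (Computable.const none)
    · intro x
      obtain ⟨n, hn⟩ := (hcor x (Kf x)).1 (Part.mem_some _)
      let m := max n (σ.length + 1)
      have hm : ev (pre (GU A Kf) m) x = some (Kf x) :=
        hmono _ _ _ _ (pre_prefix _ (le_max_left _ _)) hn
      refine ⟨m, Encodable.encode (pre (GU A Kf) m), ?_⟩
      have hchk2 : chk (pre (colB A s) m) (pre (GU A Kf) m) := by
        refine ⟨?_, by simp [m], by simp, ?_⟩
        · have h1 : σ <+: pre (GU A Kf) m := by
            rw [hσ, seqU_eq_pre A Kf s]
            exact pre_prefix _ (by simp [m, σ])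
          exact (List.prefix_iff_eq_take.1 h1).symm
        · intro z hz hz2
          simp only [pre_length, List.mem_range] at hz
          rw [pre_getElem?, pre_getElem?, if_pos hz, if_pos hz, GU_respects A Kf hz2.1 hz2.2]
          simp [colB, hz2.2]
      show (bif decide _ then _ else _ : Option ℕ).isSome = true
      rw [Encodable.encodek, Option.getD_some, decide_eq_true hchk2, hm]
      rfl
    · intro x n w y hp
      change (bif decide _ then _ else _ : Option ℕ) = some y at hp
      set τ := (Encodable.decode (α := List ℕ) w).getD [] with hτ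
      by_cases hc2 : chk (pre (colB A s) n) τ
      · rw [decide_eq_true hc2, cond_true] at hp
        by_contra hne
        apply hbad
        obtain ⟨c1, c2, c3, c4⟩ := hc2
        refine ⟨τ, ⟨?_, ?_⟩, c2, x, y, (hEE _ _ _).2 hp, hne⟩
        · rw [List.prefix_iff_eq_take]; exact c1.symm
        · intro z hz hz1 hz2
          rw [c4 z (List.mem_range.2 hz) ⟨hz1, hz2⟩, pre_getElem?]
          rw [pre_length] at c3
          rw [if_pos (by omega)]
          simp [colB, hz2]
      · rw [decide_eq_false hc2, cond_false] at hp
        simp at hp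

end Upper

/-- The dichotomy: for a countable family of functions and a noncomputable `Kf` there is `G` not
computing `Kf` such that every member of the family is computed by `G` or joins `G` above `Kf`. -/
theorem dichotomy (Kf : ℕ → ℕ) (hK : ¬ Computable Kf) (W : ℕ → ℕ → ℕ) :
    ∃ G : ℕ → ℕ, ¬ TR Kf G ∧ ∀ i, TR (W i) G ∨ TR Kf (join G (W i)) := by
  classical
  let A : ℕ → ℕ → ℕ := fun n => Nat.rec (fun _ => 0)
    (fun i B => if TR Kf (join B (W i)) then B else join B (W i)) n
  have hA0 : A 0 = fun _ => 0 := rfl
  have hAs : ∀ n, A (n+1) = if TR Kf (join (A n) (W n)) then A n else join (A n) (W n) :=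
    fun n => rfl
  have hAm : ∀ n, TR (A n) (A (n+1)) := by
    intro n
    rw [hAs]
    split
    · exact TR.refl _
    · exact TR_join_left _ _
  have hAK : ∀ n, ¬ TR Kf (A n) := by
    intro n
    induction n with
    | zero => rw [hA0]; exact fun h => hK (TR_const (Computable.const 0) h)
    | succ n ih =>
      rw [hAs]
      split
      next h => exact ih
      next h => exact h
  refine ⟨GU A Kf, GU_avoids hAm hAK, fun i => ?_⟩
  by_cases h : TR Kf (join (A i) (W i))
  · right
    refine TR.trans h (TR_join ((TR_GU A Kf i).trans (TR_join_left _ _)) (TR_join_right _ _))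
  · left
    have h1 : A (i+1) = join (A i) (W i) := by rw [hAs, if_neg h]
    have h2 : TR (W i) (A (i+1)) := by rw [h1]; exact TR_join_right _ _
    exact h2.trans (TR_GU A Kf (i+1))

end Pool.Agent.Helper743
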