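import Pool.Agent.Helper743.PRMain

set_option autoImplicit false

namespace Pool.Agent.Helper743.PR

open Nat.Partrec (Code)
open Filter

/-- the `i`-th c.e. set -/
noncomputable def WW (i n : ℕ) : ℕ := K (Nat.pair i n)

lemma K_eq (z : ℕ) : K z = (open Classical in if ∃ t, hlt' z t = true then 1 else 0) := by
  classical
  obtain ⟨t0, h0⟩ := Kt_lim z
  have h1 := h0 t0 (le_refl _)
  by_cases h : ∃ t, hlt' z t = true
  · rw [if_pos h]
    obtain ⟨t, ht⟩ := h
    have h2 := h0 (max t0 t) (le_max_left _ _)
    rw [← h2]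
    unfold Kt
    rw [hlt'_mono (le_max_right t0 t) ht]; rfl
  · rw [if_neg h, ← h1]
    push Not at h
    unfold Kt
    rw [Bool.eq_false_iff.2 (h t0)]; rfl

lemma K_one {z : ℕ} : K z = 1 ↔ ∃ t, hlt' z t = true := by
  classical
  rw [K_eq]
  by_cases h : ∃ t, hlt' z t = true
  · simp [h]
  · rw [if_neg h]; simp [h]

attribute [local irreducible] hlt' evT

section caseA

variable (r : Rc) (i T b0 : ℕ)

def outM (i q : ℕ) (ρ : List ℕ) : Prop := ∃ m ∈ ρ, hlt' (Nat.pair i q) (zz m) = true

lemma outM_p : PrimrecPred (fun q : (ℕ × ℕ) × List ℕ => outM q.1.1 q.1.2 q.2) := by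
  have h1 : PrimrecRel (fun (m : ℕ) (q : ℕ × ℕ) => hlt' (Nat.pair q.1 q.2) (zz m) = true) :=
    Primrec.eq.comp (hlt'_primrec.comp (Primrec₂.natPair.comp (Primrec.fst.comp Primrec.snd)
      (Primrec.snd.comp Primrec.snd)) (zz_p.comp Primrec.fst)) (Primrec.const true)
  exact h1.exists_mem_list.comp Primrec.snd Primrec.fst

attribute [local irreducible] okT

noncomputable def pD (β : List ℕ) (q w : ℕ) : Option ℕ :=
  open Classical in
  bif decide (b0 ≤ β.length) && decide (okT w.unpair.2 r (i + 1) β (q + 1 + T) (LS w.unpair.1))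
  then some (bif decide (outM i q (LS w.unpair.1)) then 1 else 0) else none

lemma pD_c : Computable (fun q : (List ℕ × ℕ) × ℕ => pD r i T b0 q.1.1 q.1.2 q.2) := by
  classical
  have u1 : Primrec (fun q : (List ℕ × ℕ) × ℕ => q.2.unpair.1) :=
    Primrec.fst.comp (Primrec.unpair.comp Primrec.snd)
  have u2 : Primrec (fun q : (List ℕ × ℕ) × ℕ => q.2.unpair.2) :=
    Primrec.snd.comp (Primrec.unpair.comp Primrec.snd)
  have b : Primrec (fun q : (List ℕ × ℕ) × ℕ => q.1.1) := Primrec.fst.comp Primrec.fst
  have x : Primrec (fun q : (List ℕ × ℕ) × ℕ => q.1.2) := Primrec.snd.comp Primrec.fst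
  have c1 : PrimrecPred (fun q : (List ℕ × ℕ) × ℕ => b0 ≤ q.1.1.length) :=
    Primrec.nat_le.comp (Primrec.const b0) (Primrec.list_length.comp b)
  have x1 : Primrec (fun q : (List ℕ × ℕ) × ℕ => q.1.2 + 1 + T) :=
    Primrec.nat_add.comp (Primrec.succ.comp x) (Primrec.const T)
  have rho := LS_p.comp u1
  have c2 := okT_p.comp ((((u2.pair (Primrec.const (i + 1))).pair (x1.pair b)).pair
    (Primrec.const r)).pair rho)
  have c3 := outM_p.comp (((Primrec.const i).pair x).pair rho)
  have d1 := Primrec.cond c3.decide (Primrec.const 1) (Primrec.const 0)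
  have d2 := Primrec.cond (Primrec.and.comp c1.decide c2.decide) (Primrec.option_some.comp d1)
    (Primrec.const none)
  exact d2.to_comp

end caseA

theorem case_A {k i : ℕ} (h : Wt k i) : TR (WW i) GG := by
  classical
  obtain ⟨c, hc⟩ := Wt_label h
  refine cert (TR.refl GG) (pD (PP k) i (TT k) (sg (TT k)).length) (pD_c _ _ _ _) _ ?_ ?_
  · intro q
    obtain ⟨ρ, t, ht⟩ := Wt_pos h (q + 1 + TT k) (by omega)
    refine ⟨(sg (q + 1 + TT k)).length, Nat.pair (Encodable.encode ρ) t, ?_⟩
    rw [← sg_eq_pre]
    unfold pD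
    rw [Nat.unpair_pair]
    simp only
    rw [LS_encode, decide_eq_true ht,
      decide_eq_true (sg_mono (show TT k ≤ q + 1 + TT k by omega)).length_le]
    rfl
  · intro q n w v hv
    unfold pD at hv
    by_cases h1 : (sg (TT k)).length ≤ (pre GG n).length
    · by_cases h2 : okT w.unpair.2 (PP k) (i + 1) (pre GG n) (q + 1 + TT k) (LS w.unpair.1)
      · rw [decide_eq_true h1, decide_eq_true h2] at hv
        have hv' := Option.some.inj hv
        rw [← hv']
        -- there is a relevant marker
        have hrel : ∃ m ∈ LS w.unpair.1, lab m = c ∧ q < nn m ∧ ¬ ∃ t, irrT t i m := by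
          by_contra hall
          push Not at hall
          apply Wt_neg h (TT k) (le_refl _)
          rw [pre_length] at h1
          obtain ⟨ρ, hρ, hm⟩ := pre_split h1
          -- a common stage for the irrelevance of all markers
          have hst : ∀ᶠ t in atTop, ∀ m ∈ LS w.unpair.1, lab m = c → irrT t i m := by
            apply ev_list
            intro m hm'
            by_cases hl : lab m = c
            · have h3 := ((h2.2 m hm').1.1)
              obtain ⟨t, ht⟩ := hall m hm' hl (by omega)
              filter_upwards [eventually_ge_atTop t] with t' ht' _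
              exact irrT_mono ht' ht
            · exact Eventually.of_forall (fun t hl' => absurd hl' hl)
          obtain ⟨t, ht1, ht2⟩ := (hst.and (eventually_ge_atTop w.unpair.2)).exists
          refine ⟨ρ ++ LS w.unpair.1, t, ?_, ?_⟩
          · rw [← List.append_assoc, ← hρ, evT_mono ht2 h2.1]
            exact h2.1
          · intro m hm'
            rcases List.mem_append.1 hm' with hm' | hm'
            · obtain ⟨i', hi', rfl⟩ := hm m hm'
              obtain ⟨g1, g2⟩ := entry_ok (le_refl (TT k)) hi'
              have h5 := h.1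
              subst h5
              exact mOK_of_bn (le_refl _) g1 g2
            · obtain ⟨⟨g1, g2⟩, g3⟩ := h2.2 m hm'
              refine ⟨⟨by omega, g2⟩, ?_⟩
              intro j hj hcnd
              by_cases hji : j = i
              · subst hji
                apply ht1 m hm'
                have h6 := hcnd.2
                rw [hc] at h6
                exact (Option.some.inj (Option.some.inj h6)).symm
              · have h7 := hcnd.1
                exact irrT_mono ht2 (g3 j hj ⟨by omega, hcnd.2⟩)
        obtain ⟨m, hm1, hm2, hm3, hm4⟩ := hrel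
        unfold WW
        by_cases hK : ∃ t, hlt' (Nat.pair i q) t = true
        · rw [K_one.2 hK]
          have hout : outM i q (LS w.unpair.1) := by
            refine ⟨m, hm1, ?_⟩
            by_contra hne
            rw [Bool.not_eq_true] at hne
            obtain ⟨t, ht⟩ := hK
            apply hm4
            refine ⟨t, ?_⟩
            unfold irrT
            exact ⟨q, List.mem_range.2 hm3, hne, ht⟩
          rw [decide_eq_true hout]; rfl
        · have hout : ¬ outM i q (LS w.unpair.1) := by
            rintro ⟨m', _, hm'⟩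
            exact hK ⟨_, hm'⟩
          rw [decide_eq_false hout, K_eq, if_neg hK]; rfl
      · rw [decide_eq_false h2, Bool.and_false] at hv
        simp at hv
    · rw [decide_eq_false h1, Bool.false_and] at hv
      simp at hv

section caseB

variable (i c b0 : ℕ)

def setOK (i : ℕ) (β : List ℕ) (m : ℕ) : Prop :=
  ∀ u ∈ List.range (nn m), ((β[u]?).getD 0).unpair.2 = 1 → hlt' (Nat.pair i u) (zz m) = true

lemma setOK_p : PrimrecPred (fun q : (ℕ × List ℕ) × ℕ => setOK q.1.1 q.1.2 q.2) := by
  have a1 : PrimrecRel (fun (u : ℕ) (q : (ℕ × List ℕ) × ℕ) =>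
      ((q.1.2[u]?).getD 0).unpair.2 = 1) :=
    Primrec.eq.comp (Primrec.snd.comp (Primrec.unpair.comp (Primrec.option_getD.comp
      (Primrec.list_getElem?.comp (Primrec.snd.comp (Primrec.fst.comp Primrec.snd)) Primrec.fst)
      (Primrec.const 0)))) (Primrec.const 1)
  have a2 : PrimrecRel (fun (u : ℕ) (q : (ℕ × List ℕ) × ℕ) =>
      hlt' (Nat.pair q.1.1 u) (zz q.2) = true) :=
    Primrec.eq.comp (hlt'_primrec.comp (Primrec₂.natPair.comp (Primrec.fst.comp
      (Primrec.fst.comp Primrec.snd)) Primrec.fst) (zz_p.comp (Primrec.snd.comp Primrec.snd)))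
      (Primrec.const true)
  have a3 : PrimrecRel (fun (u : ℕ) (q : (ℕ × List ℕ) × ℕ) =>
      ((q.1.2[u]?).getD 0).unpair.2 = 1 → hlt' (Nat.pair q.1.1 u) (zz q.2) = true) :=
    (PrimrecPred.or a1.not a2).of_eq (by intro z; simp only [imp_iff_not_or])
  exact a3.forall_mem_list.comp (Primrec.list_range.comp (nn_p.comp Primrec.snd)) Primrec.id

attribute [local irreducible] setOK

def bOK (i c b0 : ℕ) (β : List ℕ) (q w m : ℕ) : Prop :=
  (b0 ≤ w ∧ w < β.length) ∧ (lab m = c ∧ q < nn m) ∧ nn m ≤ β.length ∧ setOK i β m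

lemma bOK_p : PrimrecPred (fun q : (List ℕ × ℕ) × (ℕ × ℕ) =>
    bOK i c b0 q.1.1 q.1.2 q.2.1 q.2.2) := by
  have b : Primrec (fun q : (List ℕ × ℕ) × (ℕ × ℕ) => q.1.1) := Primrec.fst.comp Primrec.fst
  have x : Primrec (fun q : (List ℕ × ℕ) × (ℕ × ℕ) => q.1.2) := Primrec.snd.comp Primrec.fst
  have w : Primrec (fun q : (List ℕ × ℕ) × (ℕ × ℕ) => q.2.1) := Primrec.fst.comp Primrec.snd
  have m : Primrec (fun q : (List ℕ × ℕ) × (ℕ × ℕ) => q.2.2) := Primrec.snd.comp Primrec.snd
  have c1 : PrimrecPred (fun q : (List ℕ × ℕ) × (ℕ × ℕ) => b0 ≤ q.2.1) :=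
    Primrec.nat_le.comp (Primrec.const b0) w
  have c2 : PrimrecPred (fun q : (List ℕ × ℕ) × (ℕ × ℕ) => q.2.1 < q.1.1.length) :=
    Primrec.nat_lt.comp w (Primrec.list_length.comp b)
  have c3 : PrimrecPred (fun q : (List ℕ × ℕ) × (ℕ × ℕ) => lab q.2.2 = c) :=
    Primrec.eq.comp (lab_p.comp m) (Primrec.const c)
  have c4 : PrimrecPred (fun q : (List ℕ × ℕ) × (ℕ × ℕ) => q.1.2 < nn q.2.2) :=
    Primrec.nat_lt.comp x (nn_p.comp m)
  have c5 : PrimrecPred (fun q : (List ℕ × ℕ) × (ℕ × ℕ) => nn q.2.2 ≤ q.1.1.length) :=
    Primrec.nat_le.comp (nn_p.comp m) (Primrec.list_length.comp b)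
  have c6 := setOK_p.comp (((Primrec.const i).pair b).pair m)
  exact PrimrecPred.and (PrimrecPred.and c1 c2) (PrimrecPred.and (PrimrecPred.and c3 c4)
    (PrimrecPred.and c5 c6))

noncomputable def pE (β : List ℕ) (q w : ℕ) : Option ℕ :=
  open Classical in
  bif decide (bOK i c b0 β q w ((β[w]?).getD 0).unpair.1)
  then some (bif hlt' q (zz ((β[w]?).getD 0).unpair.1) then 1 else 0) else none

lemma pE_c : Computable (fun q : (List ℕ × ℕ) × ℕ => pE i c b0 q.1.1 q.1.2 q.2) := by
  classical
  have b : Primrec (fun q : (List ℕ × ℕ) × ℕ => q.1.1) := Primrec.fst.comp Primrec.fst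
  have x : Primrec (fun q : (List ℕ × ℕ) × ℕ => q.1.2) := Primrec.snd.comp Primrec.fst
  have w : Primrec (fun q : (List ℕ × ℕ) × ℕ => q.2) := Primrec.snd
  have m : Primrec (fun q : (List ℕ × ℕ) × ℕ => ((q.1.1[q.2]?).getD 0).unpair.1) :=
    Primrec.fst.comp (Primrec.unpair.comp (Primrec.option_getD.comp
      (Primrec.list_getElem?.comp b w) (Primrec.const 0)))
  have h1 := (bOK_p i c b0).comp ((b.pair x).pair (w.pair m))
  have h2 := hlt'_primrec.comp x (zz_p.comp m)
  have h3 := Primrec.cond h2 (Primrec.const 1) (Primrec.const 0)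
  have h4 := Primrec.cond h1.decide (Primrec.option_some.comp h3) (Primrec.const none)
  exact h4.to_comp

end caseB

/-- records below a record with the label `c` at position `i` still carry or forbid it -/
lemma label_prop {s i c k1 : ℕ} (hs : TT k1 ≤ s) (hc : (PP k1).1.1[i]? = some (some c)) :
    ∀ (d : ℕ) (r : Rc), (pa s)[k1 + d]? = some r →
      r.1.1[i]? = some (some c) ∨ some c ∈ r.1.2 := by
  have hchild : ∀ (r : Rc) (x : ℕ), (r.1.1[i]? = some (some c) ∨ some c ∈ r.1.2) →
      (childIB (some r) x).1[i]? = some (some c) ∨ some c ∈ (childIB (some r) x).2 := by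
    intro r x hr
    rw [childIB_some]
    rcases hr with hr | hr
    · rcases Nat.lt_or_ge i r.2.2 with h | h
      · left
        have hl : i < r.1.1.length := (List.getElem?_eq_some_iff.1 hr).1
        rw [List.getElem?_append_left (by rw [List.length_take]; omega), List.getElem?_take,
          if_pos h, hr]
      · right
        unfold bn
        rw [List.mem_append]
        right
        have : (r.1.1.drop r.2.2)[i - r.2.2]? = some (some c) := by
          rw [List.getElem?_drop, ← hr]
          congr 1
          omega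
        exact List.mem_of_getElem? this
    · right
      unfold bn
      rw [List.mem_append]
      left; exact hr
  intro d
  induction d with
  | zero =>
    intro r hr
    rw [Nat.add_zero, PP_spec hs] at hr
    left
    rw [← Option.some.inj hr]; exact hc
  | succ d ih =>
    intro r hr
    have hl := (List.getElem?_eq_some_iff.1 hr).1
    have h1 : (pa s)[k1 + d]? = some ((pa s)[k1 + d]'(by omega)) :=
      List.getElem?_eq_getElem (by omega)
    have h2 := ih _ h1
    have h3 := (inv s _ _ hr).chain
    have e0 : k1 + (d + 1) - 1 = k1 + d := by omega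
    rw [if_neg (by omega), e0, h1] at h3
    have h4 := hchild _ r.2.1 h2
    rw [← h3] at h4
    exact h4

lemma label_new {s i c k1 : ℕ} (hs : TT k1 ≤ s) (hc : (PP k1).1.1[i]? = some (some c))
    (hall : ∀ r ∈ pa s, badR s (sg s) r = false) :
    (newIB s).1[i]? = some (some c) ∨ some c ∈ (newIB s).2 := by
  -- apply the previous lemma at the next stage
  obtain ⟨ρ, st, e1, e2, e3, e4, e5, e6⟩ := new_entries hall
  have hk : k1 < (pa s).length := (List.getElem?_eq_some_iff.1 (PP_spec hs)).1
  have h1 : (pa (s + 1))[k1 + ((pa s).length - k1)]? = some (newIB s, (s, st)) := by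
    have : k1 + ((pa s).length - k1) = (pa s).length := by omega
    rw [this, e2]; simp
  exact label_prop (show TT k1 ≤ s + 1 by omega) hc _ _ h1

theorem case_B {i c k1 : ℕ} (h : ∀ k, k1 ≤ k → (PP k).1.1[i]? = some (some c)) :
    TR K (join GG (WW i)) := by
  classical
  have hentry : ∀ n, (sg (TT k1)).length ≤ n → lab (GG n) = c →
      (∃ t, irrT t i (GG n)) ∨ (∀ u, u < nn (GG n) → (∃ t, hlt' u t = true) →
        hlt' u (zz (GG n)) = true) := by
    intro n hn hl
    obtain ⟨u, hu, hall, h1⟩ := entry hn
    have hlab := label_new hu (h k1 (le_refl _)) hall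
    rcases h1 with ⟨c', hc1, hc2⟩ | ⟨h2, h3, h4⟩
    · right
      rw [hc2, nn_mk, zz_mk]
      intro v hv hh
      apply mdR_spec _ v _ hh
      nlinarith
    · left
      rw [hl] at h3 h4
      rcases hlab with h5 | h5
      · exact h4 i h5
      · exact absurd h5 h3
  refine cert (TR.refl (join GG (WW i))) (pE i c (sg (TT k1)).length) (pE_c _ _ _) _ ?_ ?_
  · intro q
    -- a late marker
    set k := k1 + TT k1 + q + i + 1 with hk
    have hx := PP_x_ge k
    have hmem : some c ∈ (PP k).1.1 := List.mem_of_getElem? (h k (by omega))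
    have hmk := PP_mrk k c hmem
    obtain ⟨d, hd⟩ := List.mem_iff_getElem?.1 hmk
    rw [List.getElem?_drop] at hd
    set x := (PP k).2.1 with hxx
    have hlt := (List.getElem?_eq_some_iff.1 hd).1
    rw [sg_get hlt] at hd
    have hG := Option.some.inj hd
    set w := (sg x).length + d with hw
    have hb0 : (sg (TT k1)).length ≤ w := by
      have := (sg_mono (show TT k1 ≤ x by omega)).length_le
      omega
    refine ⟨max (w + 1) x, w, ?_⟩
    have h1 : (pre (join GG (WW i)) (max (w + 1) x))[w]? = some (join GG (WW i) w) := by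
      rw [pre_getElem?, if_pos (lt_of_lt_of_le (Nat.lt_succ_self w) (le_max_left _ _))]
    have hb : bOK i c (sg (TT k1)).length (pre (join GG (WW i)) (max (w + 1) x)) q w
        (((pre (join GG (WW i)) (max (w + 1) x))[w]?).getD 0).unpair.1 := by
      rw [h1]
      simp only [Option.getD_some, join, Nat.unpair_pair]
      rw [hG]
      refine ⟨⟨hb0, ?_⟩, ⟨lab_mk _ _ _, ?_⟩, ?_, ?_⟩
      · rw [pre_length]
        exact lt_of_lt_of_le (Nat.lt_succ_self w) (le_max_left _ _)
      · rw [nn_mk]; omega
      · rw [nn_mk, pre_length]; exact le_max_right _ _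
      · intro u hu hh
        rw [nn_mk, List.mem_range] at hu
        rw [pre_getElem?, if_pos (lt_of_lt_of_le hu (le_max_right _ _))] at hh
        simp only [Option.getD_some, join, Nat.unpair_pair] at hh
        rw [zz_mk]
        apply mdR_spec
        · have h5 := Nat.pair_lt_max_add_one_sq i u
          refine lt_of_lt_of_le h5 ?_
          apply Nat.pow_le_pow_left
          have : max i u ≤ x := by
            apply max_le
            · omega
            · omega
          omega
        · exact K_one.1 hh
    unfold pE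
    rw [decide_eq_true hb]
    rfl
  · intro q n w v hv
    unfold pE at hv
    by_cases hb : bOK i c (sg (TT k1)).length (pre (join GG (WW i)) n) q w
        (((pre (join GG (WW i)) n)[w]?).getD 0).unpair.1
    · rw [decide_eq_true hb] at hv
      have hv' := Option.some.inj hv
      obtain ⟨⟨b1, b2⟩, ⟨b3, b4⟩, b5, b6⟩ := hb
      rw [pre_length] at b2 b5
      rw [pre_getElem?, if_pos b2] at b3 b4 b5 b6 hv'
      simp only [Option.getD_some, join, Nat.unpair_pair] at b3 b4 b5 b6 hv'
      rw [← hv']
      rcases hentry w b1 b3 with ⟨t, ht⟩ | hgood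
      · exfalso
        unfold irrT at ht
        obtain ⟨u, hu, h1, h2⟩ := ht
        unfold setOK at b6
        have h3 := b6 u hu
        rw [List.mem_range] at hu
        rw [pre_getElem?, if_pos (by omega)] at h3
        simp only [Option.getD_some, join, Nat.unpair_pair] at h3
        have h4 := h3 (K_one.2 ⟨t, h2⟩)
        rw [h1] at h4
        simp at h4
      · by_cases hK : ∃ t, hlt' q t = true
        · rw [K_one.2 hK, hgood q b4 hK]; rfl
        · have h5 : hlt' q (zz (GG w)) = false := by
            rw [← Bool.not_eq_true]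
            exact fun h => hK ⟨_, h⟩
          rw [h5, K_eq, if_neg hK]; rfl
    · rw [decide_eq_false hb] at hv
      simp at hv

/-- There is a function `G` below the halting problem, not computing it, which joins every
computably enumerable set that it does not compute above the halting problem. -/
theorem main : ∃ G : ℕ → ℕ, TR G K ∧ ¬ TR K G ∧ ∀ i, TR (WW i) G ∨ TR K (join G (WW i)) := by
  refine ⟨GG, limC_GG.TR_K, K_not_TR, fun i => ?_⟩
  by_cases h : ∃ k, Wt k i
  · obtain ⟨k, hk⟩ := h
    left; exact case_A hk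
  · push Not at h
    obtain ⟨c, k1, hc⟩ := final_label h
    right; exact case_B hc

end Pool.Agent.Helper743.PR
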