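import Pool.Agent.Helper743.KTOpt
import Pool.Agent.Helper743.PRMain2

set_option autoImplicit false

/-! passing between functions and sets as oracles; the halting problem -/

namespace Pool.Agent.Helper743.KT

open Nat.Partrec (Code)

noncomputable def K0 (n : ℕ) : ℕ :=
  open Classical in if (Code.eval (Denumerable.ofNat Code n) n).Dom then 1 else 0

lemma K_TR_K0 : TR K K0 := by
  have h1 : Primrec (fun z : ℕ => Encodable.encode (Code.comp (Denumerable.ofNat Code z.unpair.1)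
      (Code.const z.unpair.2))) :=
    Primrec.encode.comp (Code.primrec₂_comp.comp ((Primrec.ofNat Code).comp
      (Primrec.fst.comp Primrec.unpair)) (Code.primrec_const.comp
        (Primrec.snd.comp Primrec.unpair)))
  have h2 := (TR.refl K0).comp (Computable.recT (O := {(K0 : ℕ →. ℕ)}) h1.to_comp)
  refine Nat.RecursiveIn.of_eq h2 ?_
  intro z
  congr 1
  unfold K0 K
  beta_reduce
  rw [Denumerable.ofNat_encode]
  have h3 : Code.eval (Code.comp (Denumerable.ofNat Code z.unpair.1) (Code.const z.unpair.2))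
      (Encodable.encode (Code.comp (Denumerable.ofNat Code z.unpair.1)
        (Code.const z.unpair.2))) =
      Code.eval (Denumerable.ofNat Code z.unpair.1) z.unpair.2 := by
    simp only [Code.eval, Code.eval_const]
    exact Part.bind_some _ _
  rw [h3]

lemma K0_TR_K : TR K0 K := by
  have h1 : Primrec (fun n : ℕ => Nat.pair n n) := Primrec₂.natPair.comp Primrec.id Primrec.id
  have h2 := (TR.refl K).comp (Computable.recT (O := {(K : ℕ →. ℕ)}) h1.to_comp)
  refine Nat.RecursiveIn.of_eq h2 ?_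
  intro z
  congr 1
  unfold K0 K
  beta_reduce
  rw [Nat.unpair_pair]

/-- the graph of a function, as a set -/
def gr (G : ℕ → ℕ) (z : ℕ) : Bool := decide (G z.unpair.1 = z.unpair.2)

lemma gr_TR (G : ℕ → ℕ) : TR (fun n => (gr G n).toNat) G := by
  have h1 : Primrec (fun z : ℕ => if z.unpair.1 = z.unpair.2 then 1 else 0) :=
    Primrec.ite (Primrec.eq.comp (Primrec.fst.comp Primrec.unpair)
      (Primrec.snd.comp Primrec.unpair)) (Primrec.const 1) (Primrec.const 0)
  have h2 : TR (fun z => Nat.pair (G z.unpair.1) z.unpair.2) G :=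
    RecT.pair ((TR.refl G).comp (Computable.recT (Computable.fst.comp Computable.unpair)))
      (Computable.recT (Computable.snd.comp Computable.unpair))
  have h3 := (Computable.recT (O := {(G : ℕ →. ℕ)}) h1.to_comp).comp h2
  refine Nat.RecursiveIn.of_eq h3 ?_
  intro z
  congr 1
  unfold gr
  beta_reduce
  rw [Nat.unpair_pair]
  by_cases h : G z.unpair.1 = z.unpair.2 <;> simp [h]

lemma TR_gr (G : ℕ → ℕ) : TR G (fun n => (gr G n).toNat) := by
  have h1 : Primrec (fun m : ℕ => 1 - m) := Primrec.nat_sub.comp (Primrec.const 1) Primrec.id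
  have h2 := (Computable.recT (O := {((fun n => (gr G n).toNat : ℕ → ℕ) : ℕ →. ℕ)})
    h1.to_comp).comp (TR.refl (fun n => (gr G n).toNat))
  have hex : ∀ a, ∃ n, (fun z => 1 - (gr G z).toNat) (Nat.pair a n) = 0 := by
    intro a
    refine ⟨G a, ?_⟩
    simp [gr]
  refine Nat.RecursiveIn.of_eq (RecT.find h2 hex) ?_
  intro a
  congr 1
  have h3 := Nat.find_spec (hex a)
  simp only [gr, Nat.unpair_pair] at h3
  by_contra hne
  have h4 : decide (G a = Nat.find (hex a)) = false := by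
    rw [decide_eq_false_iff_not]
    exact fun h => hne h.symm
  simp only [gr, Nat.unpair_pair] at hne h4
  rw [h4] at h3
  simp at h3

lemma UpS_of_TR {G G' f : ℕ → ℕ} (h : TR G G') (hf : UpS G f) : UpS G' f := by
  obtain ⟨φ, hφ, hd⟩ := hf
  refine ⟨φ, Nat.RecursiveIn.subst hφ ?_, hd⟩
  intro g hg
  have hg' := Set.mem_singleton_iff.1 hg
  subst hg'
  exact h

/-- optimal functions for an oracle -/
def Opt (G κ : ℕ → ℕ) : Prop :=
  UpS G κ ∧ Kraft κ ∧ ∀ f, UpS G f → Kraft f → ∃ c, ∀ n, κ n ≤ f n + c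

lemma Opt_KG (G : ℕ → ℕ) : Opt G (KG G) := ⟨KG_UpS G, KG_Kraft G, fun _ h1 h2 => KG_opt h1 h2⟩

lemma Opt_of_TR {G G' κ : ℕ → ℕ} (h1 : TR G G') (h2 : TR G' G) (h : Opt G κ) : Opt G' κ :=
  ⟨UpS_of_TR h1 h.1, h.2.1, fun f hf hk => h.2.2 f (UpS_of_TR h2 hf) hk⟩

/-- K-triviality, for the optimal function `KG` -/
lemma triv_KG {G : ℕ → ℕ} {X : ℕ → List Bool}
    (H : ∀ (f : ℕ → ℕ) (φ : ℕ →. ℕ), Nat.RecursiveIn {(G : ℕ →. ℕ)} φ →
      (∀ n k : ℕ, (φ (Nat.pair n k)).Dom ↔ f n ≤ k) →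
      (∀ s : Finset ℕ, ∑ n ∈ s, (1/2 : ℝ) ^ (f n) ≤ 1) →
      ∃ h : List Bool → ℕ,
      (∃ ψ : ℕ →. ℕ, Nat.RecursiveIn {(G : ℕ →. ℕ)} ψ ∧
        ∀ σ : List Bool, ∀ k : ℕ, (ψ (Nat.pair (Encodable.encode σ) k)).Dom ↔ h σ ≤ k) ∧
      (∀ s : Finset (List Bool), ∑ σ ∈ s, (1/2 : ℝ) ^ (h σ) ≤ 1) ∧
      ∃ c : ℕ, ∀ n : ℕ, h (X n) ≤ f n + c) :
    ∃ c, ∀ n, KG G (Encodable.encode (X n)) ≤ KG G n + c := by
  obtain ⟨φ, hφ, hd⟩ := KG_UpS G
  obtain ⟨h, h1, h2, c, h3⟩ := H (KG G) φ hφ hd (KG_Kraft G)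
  obtain ⟨H', e1, e2, e3⟩ := extend_h h1 h2
  obtain ⟨d, hd'⟩ := KG_opt e1 e2
  refine ⟨c + 1 + d, fun n => ?_⟩
  have a1 := hd' (Encodable.encode (X n))
  rw [e3] at a1
  have a2 := h3 n
  omega

/-- the halting problem is K-trivial relative to the constructed function -/
lemma halting_triv (a : ℕ) : ∃ c, ∀ n, KG (AC.GG a) (Encodable.encode (AC.kstr n)) ≤
    KG (AC.GG a) n + c :=
  triv_KG (fun f φ h1 h2 h3 => AC.trivial_rel a f φ h1 h2 h3)

/-- the set constructed in the previous file is K-trivial -/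
lemma inA_triv : ∃ c, ∀ n, KG (fun m => m) (Encodable.encode (XA n)) ≤ KG (fun m => m) n + c :=
  triv_KG (fun f φ h1 h2 h3 => trivial_rel ast (fun m => m) ast_p ast_len tot_bdd XA ast_lim
    f φ h1 h2 h3)

lemma kstr_eq (n : ℕ) : AC.kstr n = List.ofFn (fun i : Fin n =>
    open Classical in decide ((Code.eval (Denumerable.ofNat Code (i : ℕ)) (i : ℕ)).Dom)) := by
  classical
  unfold AC.kstr
  apply List.ext_getElem
  · simp
  · intro i hi1 hi2
    rw [List.getElem_ofFn]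
    simp only [List.getElem_map, List.getElem_range]
    rw [decide_eq_decide]
    have h5 : (∃ t, AC.hl i t = true) ↔ K (Nat.pair i i) = 1 := by
      unfold AC.hl
      exact PR.K_one.symm
    rw [h5]
    unfold K
    rw [Nat.unpair_pair]
    by_cases h6 : (Nat.Partrec.Code.eval (Denumerable.ofNat Nat.Partrec.Code i) i).Dom
    · simp [h6]
    · simp [h6]

end Pool.Agent.Helper743.KT
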