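import Pool.Agent.Helper743.KTFin

set_option autoImplicit false

/-! the halting problem is not K-trivial -/

namespace Pool.Agent.Helper743.KT

open Nat.Partrec (Code)
open Filter
open Pool.Agent.Helper743.AC (fsum_p pow_p geo_le kstr DBl DBl_p DBl_encode)
open Pool.Agent.Helper743.PR (findIdx_range)

lemma upper_test' (G : ℕ → ℕ) {T : List ℕ → ℕ → ℕ → Bool}
    (hT : Computable (fun q : (List ℕ × ℕ) × ℕ => T q.1.1 q.1.2 q.2)) :
    ∃ ψ : ℕ →. ℕ, Nat.RecursiveIn {(G : ℕ →. ℕ)} ψ ∧
      ∀ x, (ψ x).Dom ↔ ∃ n w, T (pre G n) x w = true := by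
  have l1 : Computable (fun q : List ℕ × ℕ => q.1.length.unpair.1) :=
    (Primrec.fst.comp (Primrec.unpair.comp (Primrec.list_length.comp Primrec.fst))).to_comp
  have l2 : Computable (fun q : List ℕ × ℕ => q.1.length.unpair.2) :=
    (Primrec.snd.comp (Primrec.unpair.comp (Primrec.list_length.comp Primrec.fst))).to_comp
  have l3 : Computable (fun q : List ℕ × ℕ => q.1.take q.1.length.unpair.1) :=
    (Primrec.list_take.comp (Primrec.fst.comp (Primrec.unpair.comp (Primrec.list_length.comp
      Primrec.fst))) Primrec.fst).to_comp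
  have h0 := hT.comp ((l3.pair Computable.snd).pair l2)
  have h : Computable₂ (fun (β : List ℕ) (x : ℕ) =>
      T (β.take β.length.unpair.1) x β.length.unpair.2) := h0
  obtain ⟨ψ, hψ, hd⟩ := upper_test G h
  refine ⟨ψ, hψ, fun x => ?_⟩
  rw [hd]
  constructor
  · rintro ⟨n, hn⟩
    rw [pre_length, AC.pre_take G (Nat.unpair_left_le n)] at hn
    exact ⟨_, _, hn⟩
  · rintro ⟨n, w, hn⟩
    refine ⟨Nat.pair n w, ?_⟩
    rw [pre_length, Nat.unpair_pair, AC.pre_take G (Nat.left_le_pair n w)]
    exact hn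

/-- computable functions increase complexity by at most a constant -/
lemma KG_comp (G : ℕ → ℕ) {F : ℕ → ℕ} (hF : Computable F) :
    ∃ c, ∀ x, KG G (F x) ≤ KG G x + c := by
  classical
  have hex : ∀ y, ∃ k, y + 2 ≤ k ∨ ∃ x, F x = y ∧ KG G x + 1 ≤ k :=
    fun y => ⟨y + 2, Or.inl (le_refl _)⟩
  let f : ℕ → ℕ := fun y => Nat.find (hex y)
  have hfle : ∀ y k, f y ≤ k ↔ (y + 2 ≤ k ∨ ∃ x, F x = y ∧ KG G x + 1 ≤ k) := by
    intro y k
    constructor
    · intro h
      rcases Nat.find_spec (hex y) with h1 | ⟨x, h1, h2⟩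
      · exact Or.inl (le_trans h1 h)
      · exact Or.inr ⟨x, h1, le_trans h2 h⟩
    · intro h
      exact Nat.find_min' (hex y) h
  have h1 : UpS G f := by
    have hT : Computable (fun q : (List ℕ × ℕ) × ℕ =>
        (decide (q.1.2.unpair.1 + 2 ≤ q.1.2.unpair.2) ||
          (decide (F q.2 = q.1.2.unpair.1) && (decide (1 ≤ q.1.2.unpair.2) &&
            decide (HitU q.1.1 q.2 (q.1.2.unpair.2 - 1)))))) := by
      have y : Primrec (fun q : (List ℕ × ℕ) × ℕ => q.1.2.unpair.1) :=
        Primrec.fst.comp (Primrec.unpair.comp (Primrec.snd.comp Primrec.fst))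
      have k : Primrec (fun q : (List ℕ × ℕ) × ℕ => q.1.2.unpair.2) :=
        Primrec.snd.comp (Primrec.unpair.comp (Primrec.snd.comp Primrec.fst))
      have a1 := (Primrec.nat_le.comp (Primrec.nat_add.comp y (Primrec.const 2)) k).decide.to_comp
      have a2 : Computable (fun q : (List ℕ × ℕ) × ℕ => decide (F q.2 = q.1.2.unpair.1)) := by
        have h : PrimrecRel (fun a b : ℕ => a = b) := Primrec.eq
        exact h.decide.to_comp.comp (hF.comp Computable.snd) y.to_comp
      have a3 := (Primrec.nat_le.comp (Primrec.const 1) k).decide.to_comp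
      have a4 := (HitU_p.comp (((Primrec.fst.comp Primrec.fst).pair
        (Primrec.snd (α := List ℕ × ℕ) (β := ℕ))).pair
        (Primrec.nat_sub.comp k (Primrec.const 1)))).decide.to_comp
      exact Primrec.or.to_comp.comp a1 (Primrec.and.to_comp.comp a2
        (Primrec.and.to_comp.comp a3 a4))
    obtain ⟨ψ, hψ, hd⟩ := upper_test' G
      (T := fun β x w => (decide (x.unpair.1 + 2 ≤ x.unpair.2) ||
          (decide (F w = x.unpair.1) && (decide (1 ≤ x.unpair.2) &&
            decide (HitU β w (x.unpair.2 - 1)))))) hT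
    refine ⟨ψ, hψ, fun y k => ?_⟩
    rw [hd, hfle]
    simp only [Nat.unpair_pair, Bool.or_eq_true, Bool.and_eq_true, decide_eq_true_eq]
    constructor
    · rintro ⟨n, w, h | ⟨h2, h3, h4⟩⟩
      · exact Or.inl h
      · have h5 : KG G w ≤ k - 1 := KG_le.2 ⟨n, h4⟩
        exact Or.inr ⟨w, h2, by omega⟩
    · rintro (h | ⟨w, h2, h3⟩)
      · exact ⟨0, 0, Or.inl h⟩
      · obtain ⟨n, hn⟩ := KG_le.1 (show KG G w ≤ k - 1 by omega)
        exact ⟨n, w, Or.inr ⟨h2, by omega, hn⟩⟩
  have h2 : Kraft f := by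
    intro s
    have hch : ∀ y, ¬ (y + 2 ≤ f y) → ∃ x, F x = y ∧ KG G x + 1 ≤ f y := by
      intro y hy
      rcases (hfle y (f y)).1 (le_refl _) with h | h
      · exact absurd h hy
      · exact h
    choose! X hX using hch
    have e1 : ∑ y ∈ s.filter (fun y => y + 2 ≤ f y), (1/2 : ℝ) ^ (f y) ≤ 1 / 2 := by
      have e2 := geo_le (s.filter (fun y => y + 2 ≤ f y))
      calc ∑ y ∈ s.filter (fun y => y + 2 ≤ f y), (1/2 : ℝ) ^ (f y)
          ≤ ∑ y ∈ s.filter (fun y => y + 2 ≤ f y), (1 / 4) * (1/2 : ℝ) ^ y := by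
            refine Finset.sum_le_sum (fun y hy => ?_)
            rw [Finset.mem_filter] at hy
            calc (1/2 : ℝ) ^ (f y) ≤ (1 / 2) ^ (y + 2) :=
                  pow_le_pow_of_le_one (by norm_num) (by norm_num) hy.2
              _ = (1 / 4) * (1/2 : ℝ) ^ y := by rw [pow_add]; ring
        _ = (1 / 4) * ∑ y ∈ s.filter (fun y => y + 2 ≤ f y), (1/2 : ℝ) ^ y :=
            (Finset.mul_sum _ _ _).symm
        _ ≤ 1 / 2 := by linarith
    have e3 : ∑ y ∈ s.filter (fun y => ¬ y + 2 ≤ f y), (1/2 : ℝ) ^ (f y) ≤ 1 / 2 := by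
      set S := s.filter (fun y => ¬ y + 2 ≤ f y) with hS
      have hmem : ∀ y ∈ S, ¬ y + 2 ≤ f y := by
        intro y hy
        rw [hS, Finset.mem_filter] at hy
        exact hy.2
      have hinj : Set.InjOn X S := by
        intro y hy y' hy' h
        rw [← (hX y (hmem y hy)).1, ← (hX y' (hmem y' hy')).1, h]
      have e4 := KG_Kraft G (S.image X)
      rw [Finset.sum_image hinj] at e4
      calc ∑ y ∈ S, (1/2 : ℝ) ^ (f y) ≤ ∑ y ∈ S, (1/2) * (1/2 : ℝ) ^ (KG G (X y)) := by
            refine Finset.sum_le_sum (fun y hy => ?_)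
            calc (1/2 : ℝ) ^ (f y) ≤ (1/2) ^ (KG G (X y) + 1) :=
                  pow_le_pow_of_le_one (by norm_num) (by norm_num) (hX y (hmem y hy)).2
              _ = _ := by rw [pow_succ]; ring
        _ = (1/2) * ∑ y ∈ S, (1/2 : ℝ) ^ (KG G (X y)) := (Finset.mul_sum _ _ _).symm
        _ ≤ 1 / 2 := by linarith
    have e5 := Finset.sum_filter_add_sum_filter_not s
      (fun y => y + 2 ≤ f y) (fun y => (1/2 : ℝ) ^ (f y))
    linarith
  obtain ⟨c, hc⟩ := KG_opt h1 h2
  refine ⟨c + 1, fun x => ?_⟩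
  have h3 := hc (F x)
  have h4 : f (F x) ≤ KG G x + 1 := (hfle _ _).2 (Or.inr ⟨x, rfl, le_refl _⟩)
  omega

/-- a simple upper bound -/
lemma KG_half (G : ℕ → ℕ) : ∃ c, ∀ n, KG G n ≤ n / 2 + c := by
  have h1 : UpS G (fun n => n / 2 + 3) := by
    have hT : Computable₂ (fun (_ : List ℕ) (x : ℕ) =>
        decide (x.unpair.1 / 2 + 3 ≤ x.unpair.2)) := by
      have y : Primrec (fun q : List ℕ × ℕ => q.2.unpair.1) :=
        Primrec.fst.comp (Primrec.unpair.comp Primrec.snd)
      have k : Primrec (fun q : List ℕ × ℕ => q.2.unpair.2) :=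
        Primrec.snd.comp (Primrec.unpair.comp Primrec.snd)
      exact (Primrec.nat_le.comp (Primrec.nat_add.comp (Primrec.nat_div.comp y
        (Primrec.const 2)) (Primrec.const 3)) k).decide.to_comp
    obtain ⟨ψ, hψ, hd⟩ := upper_test G hT
    refine ⟨ψ, hψ, fun n k => ?_⟩
    rw [hd]
    simp only [Nat.unpair_pair, decide_eq_true_eq]
    exact ⟨fun ⟨_, h⟩ => h, fun h => ⟨0, h⟩⟩
  have h2 : Kraft (fun n => n / 2 + 3) := by
    intro s
    -- compare with even and odd parts
    have hsub : s ⊆ Finset.range (2 * (s.sup id + 1)) := by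
      intro x hx
      rw [Finset.mem_range]
      have : x ≤ s.sup id := Finset.le_sup (f := id) hx
      omega
    have hsum : ∀ m : ℕ, ∑ n ∈ Finset.range (2 * m), (1/2 : ℝ) ^ (n / 2 + 3) =
        (1 / 4) * ∑ n ∈ Finset.range m, (1/2 : ℝ) ^ n := by
      intro m
      induction m with
      | zero => simp
      | succ m ih =>
        have e1 : 2 * (m + 1) = 2 * m + 1 + 1 := by ring
        rw [e1, Finset.sum_range_succ, Finset.sum_range_succ, ih, Finset.sum_range_succ]
        have e2 : (2 * m + 1) / 2 = m := by omega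
        have e3 : 2 * m / 2 = m := by omega
        rw [e2, e3, pow_add]
        ring
    calc ∑ n ∈ s, (1/2 : ℝ) ^ (n / 2 + 3) ≤
          ∑ n ∈ Finset.range (2 * (s.sup id + 1)), (1/2 : ℝ) ^ (n / 2 + 3) :=
          Finset.sum_le_sum_of_subset_of_nonneg hsub (fun _ _ _ => by positivity)
      _ = (1 / 4) * ∑ n ∈ Finset.range (s.sup id + 1), (1/2 : ℝ) ^ n := hsum _
      _ ≤ 1 := by
          have := geo_le (Finset.range (s.sup id + 1))
          linarith
  obtain ⟨c, hc⟩ := KG_opt h1 h2
  exact ⟨3 + c, fun n => by have := hc n; omega⟩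

/-- complexity relative to a computable oracle -/
noncomputable def kap (n : ℕ) : ℕ := KG (fun m => m) n

lemma kap_re : REPred (fun z : ℕ => kap z.unpair.2 ≤ z.unpair.1) := by
  classical
  have hT : Computable₂ (fun (z : ℕ) (n : ℕ) =>
      decide (HitU (List.range n) z.unpair.2 z.unpair.1)) := by
    have h1 := HitU_p.comp (((Primrec.list_range.comp (Primrec.snd (α := ℕ) (β := ℕ))).pair
      (Primrec.snd.comp (Primrec.unpair.comp Primrec.fst))).pair
      (Primrec.fst.comp (Primrec.unpair.comp Primrec.fst)))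
    have h2 : Primrec (fun q : ℕ × ℕ =>
        decide (HitU (List.range q.2) q.1.unpair.2 q.1.unpair.1)) := h1.decide
    exact h2.to_comp
  have h6 := (Partrec.rfind hT.partrec₂).dom_re
  refine h6.of_eq ?_
  intro z
  refine Iff.trans (Nat.rfind_dom (p := fun n => (Part.some
    (decide (HitU (List.range n) z.unpair.2 z.unpair.1)) : Part Bool))) ?_
  unfold kap
  rw [KG_le]
  constructor
  · rintro ⟨s, hs, _⟩
    rw [Part.mem_some_iff] at hs
    refine ⟨s, ?_⟩
    rw [pre_id]
    exact of_decide_eq_true hs.symm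
  · rintro ⟨s, hs⟩
    rw [pre_id] at hs
    exact ⟨s, by rw [decide_eq_true hs]; exact Part.mem_some _, fun {m} _ => trivial⟩

theorem halting_not_triv : ¬ ∃ c, ∀ n, kap (Encodable.encode (kstr n)) ≤ kap n + c := by
  classical
  rintro ⟨c, hc⟩
  obtain ⟨code, hcode⟩ := re_code kap_re
  -- the number asking whether the complexity of `y` is at most `n`
  let Q : ℕ → ℕ → ℕ := fun n y => Encodable.encode (Code.comp code (Code.const (Nat.pair n y)))
  have hQp : Primrec₂ Q := by
    have h1 : Primrec (fun q : ℕ × ℕ => Encodable.encode (Code.comp code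
        (Code.const (Nat.pair q.1 q.2)))) :=
      Primrec.encode.comp (Code.primrec₂_comp.comp (Primrec.const code)
        (Code.primrec_const.comp (Primrec₂.natPair.comp Primrec.fst Primrec.snd)))
    exact h1
  have hQ : ∀ n y, (∃ t, AC.hl (Q n y) t = true) ↔ kap y ≤ n := by
    intro n y
    have h5 : (∃ t, AC.hl (Q n y) t = true) ↔ K (Nat.pair (Q n y) (Q n y)) = 1 := by
      unfold AC.hl
      exact PR.K_one.symm
    rw [h5]
    unfold K
    rw [Nat.unpair_pair]
    have h3 : Code.eval (Denumerable.ofNat Code (Q n y)) (Q n y) =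
        Code.eval code (Nat.pair n y) := by
      show Code.eval (Denumerable.ofNat Code (Encodable.encode _)) _ = _
      rw [Denumerable.ofNat_encode]
      simp only [Code.eval, Code.eval_const]
      exact Part.bind_some _ _
    simp only
    rw [h3]
    have h4 := hcode (Nat.pair n y)
    rw [Nat.unpair_pair] at h4
    simp only at h4
    rw [h4]
    by_cases h6 : (Code.eval code (Nat.pair n y)).Dom
    · simp [h6]
    · simp [h6]
  let g : ℕ → ℕ := fun n => n + 1 + ∑ m ∈ Finset.range (n + 1),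
    ∑ y ∈ Finset.range (2 ^ m + 1), Q m y
  have hgp : Primrec g := by
    have h1 : Primrec₂ (fun (_ : ℕ) (m : ℕ) => ∑ y ∈ Finset.range (2 ^ m + 1), Q m y) := by
      have h := fsum_p (α := ℕ × ℕ) (f := fun q y => Q q.2 y) (n := fun q => 2 ^ q.2 + 1)
        (Primrec.succ.comp (pow_p.comp Primrec.snd))
        (hQp.comp (Primrec.snd.comp Primrec.fst) Primrec.snd)
      exact h
    exact Primrec.nat_add.comp (Primrec.succ.comp Primrec.id)
      (fsum_p (Primrec.succ.comp Primrec.id) h1)
  have hgmono : StrictMono g := by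
    apply strictMono_nat_of_lt_succ
    intro n
    show n + 1 + ∑ m ∈ Finset.range (n + 1), ∑ y ∈ Finset.range (2 ^ m + 1), Q m y <
      n + 1 + 1 + ∑ m ∈ Finset.range (n + 1 + 1), ∑ y ∈ Finset.range (2 ^ m + 1), Q m y
    rw [Finset.sum_range_succ (n := n + 1)]
    omega
  have hgQ : ∀ n y, y ≤ 2 ^ n → Q n y < g n := by
    intro n y hy
    have h1 : Q n y ≤ ∑ y ∈ Finset.range (2 ^ n + 1), Q n y :=
      Finset.single_le_sum (f := fun y => Q n y) (fun _ _ => Nat.zero_le _)
        (Finset.mem_range.2 (by omega))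
    have h2 : ∑ y ∈ Finset.range (2 ^ n + 1), Q n y ≤
        ∑ m ∈ Finset.range (n + 1), ∑ y ∈ Finset.range (2 ^ m + 1), Q m y :=
      Finset.single_le_sum (f := fun m => ∑ y ∈ Finset.range (2 ^ m + 1), Q m y)
        (fun _ _ => Nat.zero_le _) (Finset.mem_range.2 (by omega))
    show Q n y < n + 1 + _
    omega
  -- the decoder
  let nn : ℕ → ℕ := fun x => (List.range ((DBl x).length + 1)).findIdx
    (fun n => decide (g n = (DBl x).length))
  let F : ℕ → ℕ := fun x => (List.range (2 ^ nn x + 1)).findIdx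
    (fun y => decide ((DBl x)[Q (nn x) y]? = some false))
  have hFp : Primrec F := by
    have d : Primrec (fun x : ℕ => (DBl x).length) := Primrec.list_length.comp DBl_p
    have h1 : Primrec nn := by
      have h : Primrec₂ (fun (x n : ℕ) => decide (g n = (DBl x).length)) :=
        (Primrec.eq.comp (hgp.comp Primrec.snd) (d.comp Primrec.fst)).decide
      exact Primrec.list_findIdx (Primrec.list_range.comp (Primrec.succ.comp d)) h
    have h2 : Primrec₂ (fun (x y : ℕ) => decide ((DBl x)[Q (nn x) y]? = some false)) :=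
      (Primrec.eq.comp (Primrec.list_getElem?.comp (DBl_p.comp Primrec.fst)
        (hQp.comp (h1.comp Primrec.fst) Primrec.snd)) (Primrec.const (some false))).decide
    exact Primrec.list_findIdx (Primrec.list_range.comp (Primrec.succ.comp (pow_p.comp h1))) h2
  have hF : ∀ n, n < kap (F (Encodable.encode (kstr (g n)))) := by
    intro n
    have hlen : (kstr (g n)).length = g n := by unfold kstr; simp
    have hnn : nn (Encodable.encode (kstr (g n))) = n := by
      show (List.range ((DBl _).length + 1)).findIdx _ = n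
      rw [DBl_encode, hlen]
      apply findIdx_range
      · have : n ≤ g n := hgmono.le_apply
        omega
      · exact decide_eq_true rfl
      · intro j hj
        exact decide_eq_false (hgmono hj).ne
    -- there is a number of large complexity
    have hbig : ∃ y, y ≤ 2 ^ n ∧ n < kap y := by
      by_contra hne
      push Not at hne
      have h1 := KG_Kraft (fun m => m) (Finset.range (2 ^ n + 1))
      have h2 : ∑ y ∈ Finset.range (2 ^ n + 1), (1/2 : ℝ) ^ n ≤
          ∑ y ∈ Finset.range (2 ^ n + 1), (1/2 : ℝ) ^ (KG (fun m => m) y) := by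
        refine Finset.sum_le_sum (fun y hy => ?_)
        rw [Finset.mem_range] at hy
        exact pow_le_pow_of_le_one (by norm_num) (by norm_num) (hne y (by omega))
      rw [Finset.sum_const, Finset.card_range, nsmul_eq_mul] at h2
      push_cast at h2
      have h3 : (2 : ℝ) ^ n * (1 / 2) ^ n = 1 := by rw [← mul_pow]; norm_num
      have h4 : (0 : ℝ) < (1 / 2) ^ n := by positivity
      nlinarith
    have hget : ∀ y, y ≤ 2 ^ n → ((kstr (g n))[Q n y]? = some false ↔ n < kap y) := by
      intro y hy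
      have h1 := hgQ n y hy
      unfold kstr
      rw [List.getElem?_map, List.getElem?_range h1]
      simp only [Option.map_some, Option.some.injEq, decide_eq_false_iff_not]
      rw [hQ]
      omega
    have hFeq : F (Encodable.encode (kstr (g n))) = Nat.find hbig := by
      show (List.range (2 ^ nn _ + 1)).findIdx _ = _
      rw [hnn, DBl_encode]
      have hs := Nat.find_spec hbig
      apply findIdx_range
      · omega
      · rw [decide_eq_true_eq]
        exact (hget _ hs.1).2 hs.2
      · intro j hj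
        rw [decide_eq_false_iff_not]
        intro h
        have hj2 : j ≤ 2 ^ n := by omega
        exact Nat.find_min hbig hj ⟨hj2, (hget j hj2).1 h⟩
    rw [hFeq]
    exact (Nat.find_spec hbig).2
  obtain ⟨c1, hc1⟩ := KG_comp (fun m => m) hFp.to_comp
  obtain ⟨c2, hc2⟩ := KG_comp (fun m => m) hgp.to_comp
  obtain ⟨c3, hc3⟩ := KG_half (fun m => m)
  set n := 2 * (c + c1 + c2 + c3 + 1) with hn
  have e1 := hF n
  have e2 := hc1 (Encodable.encode (kstr (g n)))
  have e3 := hc (g n)
  have e4 := hc2 n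
  have e5 := hc3 n
  unfold kap at e1 e3
  have e6 : n / 2 = c + c1 + c2 + c3 + 1 := by omega
  omega

/-- a function relative to which the halting problem is K-trivial is not computable -/
lemma not_comp_of_triv {G : ℕ → ℕ} (h : ∃ c, ∀ n, KG G (Encodable.encode (kstr n)) ≤
    KG G n + c) : ¬ Computable G := by
  intro hG
  obtain ⟨c, hc⟩ := h
  have h1 : Opt (fun m => m) (KG G) :=
    Opt_of_TR (TR_of_computable hG) (TR_of_computable Computable.id) (Opt_KG G)
  obtain ⟨d1, hd1⟩ := h1.2.2 (KG (fun m => m)) (KG_UpS _) (KG_Kraft _)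
  obtain ⟨d2, hd2⟩ := KG_opt h1.1 h1.2.1
  apply halting_not_triv
  refine ⟨c + d1 + d2, fun n => ?_⟩
  have a1 := hc n
  have a2 := hd1 n
  have a3 := hd2 (Encodable.encode (kstr n))
  unfold kap
  omega

end Pool.Agent.Helper743.KT
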