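import Pool.Agent.Helper743.KTSet

set_option autoImplicit false

/-! optimal upper semicomputable functions relative to an oracle -/

namespace Pool.Agent.Helper743.KT

open Nat.Partrec (Code)
open Filter
open Pool.Agent.Helper743.AC (wN massN kk wR massR MR wN_p massN_p wN_cast massN_cast
  mass_le_iff wR_mono wR_nonneg massR_mono MR_mono MR_le MR_nonneg fsum_p pow_p geo_le lst
  lst_concat kk_p conv conv_pre pre_conv ev_code kk_le_iff DBl DBl_p DBl_encode)
open Pool.Agent.Helper743.PR (ev_list LS LS_p LS_encode)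

/-- `{(n,k) : f n ≤ k}` is c.e. relative to the function `G` -/
def UpS (G : ℕ → ℕ) (f : ℕ → ℕ) : Prop :=
  ∃ φ : ℕ →. ℕ, Nat.RecursiveIn {(G : ℕ →. ℕ)} φ ∧ ∀ n k, (φ (Nat.pair n k)).Dom ↔ f n ≤ k

def Kraft (f : ℕ → ℕ) : Prop := ∀ s : Finset ℕ, ∑ n ∈ s, (1/2 : ℝ) ^ (f n) ≤ 1

lemma upper_test (G : ℕ → ℕ) {T : List ℕ → ℕ → Bool} (hT : Computable₂ T) :
    ∃ ψ : ℕ →. ℕ, Nat.RecursiveIn {(G : ℕ →. ℕ)} ψ ∧
      ∀ x, (ψ x).Dom ↔ ∃ n, T (pre G n) x = true := by
  classical
  have b : Computable (fun z : ℕ => LS z.unpair.2) :=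
    LS_p.to_comp.comp (Computable.snd.comp Computable.unpair)
  have z1 : Computable (fun z : ℕ => z.unpair.1.unpair.1) :=
    Computable.fst.comp (Computable.unpair.comp (Computable.fst.comp Computable.unpair))
  have h2 : Computable (fun z : ℕ => cond (T (LS z.unpair.2) z.unpair.1.unpair.1) 0 1) :=
    Computable.cond (hT.comp b z1) (Computable.const 0) (Computable.const 1)
  have h3 : TR (fun z => Nat.pair z (Encodable.encode (pre G z.unpair.2))) G :=
    RecT.pair (Computable.recT Computable.id) ((recT_pre (TR.refl G)).comp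
      (Computable.recT (Computable.snd.comp Computable.unpair)))
  have h4 := (Computable.recT (O := {(G : ℕ →. ℕ)}) h2).comp h3
  have h5 : TR (fun z => cond (T (pre G z.unpair.2) z.unpair.1) 0 1) G := by
    refine Nat.RecursiveIn.of_eq h4 ?_
    intro z
    congr 1
    simp only [Nat.unpair_pair]
    rw [LS_encode]
  refine ⟨_, Nat.RecursiveIn.rfind h5, fun x => ?_⟩
  rw [Part.dom_iff_mem]
  constructor
  · rintro ⟨n, hn⟩
    have hn' := Nat.mem_rfind.1 hn
    refine ⟨n, ?_⟩
    have h1 := hn'.1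
    simp only [Part.map_eq_map, Part.map_some, Part.mem_some_iff, Nat.unpair_pair] at h1
    cases h6 : T (pre G n) x with
    | true => rfl
    | false => rw [h6] at h1; simp at h1
  · intro hn
    have h2 := Nat.find_spec hn
    refine ⟨Nat.find hn, Nat.mem_rfind.2 ⟨?_, ?_⟩⟩
    · simp only [Part.map_eq_map, Part.map_some, Part.mem_some_iff, Nat.unpair_pair]
      rw [h2]; rfl
    · intro m hm'
      have h3 := Nat.find_min hn hm'
      rw [Bool.not_eq_true] at h3
      simp only [Part.map_eq_map, Part.map_some, Part.mem_some_iff, Nat.unpair_pair]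
      rw [h3]; rfl

/-- passing from strings to numbers -/
lemma extend_h {G : ℕ → ℕ} {h : List Bool → ℕ}
    (h1 : ∃ ψ : ℕ →. ℕ, Nat.RecursiveIn {(G : ℕ →. ℕ)} ψ ∧
        ∀ σ : List Bool, ∀ k : ℕ, (ψ (Nat.pair (Encodable.encode σ) k)).Dom ↔ h σ ≤ k)
    (h2 : ∀ s : Finset (List Bool), ∑ σ ∈ s, (1/2 : ℝ) ^ (h σ) ≤ 1) :
    ∃ H : ℕ → ℕ, UpS G H ∧ Kraft H ∧ ∀ σ : List Bool, H (Encodable.encode σ) = h σ + 1 := by
  classical
  obtain ⟨ψ, hψ, hd⟩ := h1
  obtain ⟨ev, hev, -, hcor⟩ := use_principle G _ hψ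
  let H : ℕ → ℕ := fun m => if Encodable.encode (DBl m) = m then h (DBl m) + 1 else m + 3
  have hH : ∀ σ : List Bool, H (Encodable.encode σ) = h σ + 1 := by
    intro σ
    show (if _ then _ else _) = _
    rw [DBl_encode, if_pos rfl]
  refine ⟨H, ?_, ?_, hH⟩
  · have hT : Computable₂ (fun (β : List ℕ) (x : ℕ) =>
        cond (decide (Encodable.encode (DBl x.unpair.1) = x.unpair.1))
          (decide (1 ≤ x.unpair.2) && (ev β (Nat.pair x.unpair.1 (x.unpair.2 - 1))).isSome)
          (decide (x.unpair.1 + 3 ≤ x.unpair.2))) := by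
      have m : Primrec (fun q : List ℕ × ℕ => q.2.unpair.1) :=
        Primrec.fst.comp (Primrec.unpair.comp Primrec.snd)
      have k : Primrec (fun q : List ℕ × ℕ => q.2.unpair.2) :=
        Primrec.snd.comp (Primrec.unpair.comp Primrec.snd)
      have a1 := (Primrec.eq.comp (Primrec.encode.comp (DBl_p.comp m)) m).decide.to_comp
      have a2 := (Primrec.nat_le.comp (Primrec.const 1) k).decide.to_comp
      have a3 := (Primrec.nat_le.comp (Primrec.nat_add.comp m (Primrec.const 3)) k).decide.to_comp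
      have a4 : Computable (fun q : List ℕ × ℕ =>
          ev q.1 (Nat.pair q.2.unpair.1 (q.2.unpair.2 - 1))) :=
        hev.comp Computable.fst (Primrec₂.natPair.to_comp.comp m.to_comp
          (Primrec.nat_sub.comp k (Primrec.const 1)).to_comp)
      have a5 := Primrec.option_isSome.to_comp.comp a4
      exact Computable.cond a1 (Primrec.and.to_comp.comp a2 a5) a3
    obtain ⟨ψ', hψ', hd'⟩ := upper_test G hT
    refine ⟨ψ', hψ', fun m k => ?_⟩
    rw [hd']
    simp only [Nat.unpair_pair]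
    show _ ↔ (if _ then _ else _) ≤ k
    by_cases hm : Encodable.encode (DBl m) = m
    · rw [if_pos hm]
      simp only [decide_eq_true hm, cond_true, Bool.and_eq_true, decide_eq_true_eq]
      have h3 := hd (DBl m) (k - 1)
      rw [hm] at h3
      constructor
      · rintro ⟨n, hk, hs⟩
        rw [Option.isSome_iff_exists] at hs
        obtain ⟨y, hy⟩ := hs
        have h4 := h3.1 (Part.dom_iff_mem.2 ⟨y, (hcor _ _).2 ⟨n, hy⟩⟩)
        omega
      · intro hk
        obtain ⟨y, hy⟩ := Part.dom_iff_mem.1 (h3.2 (by omega))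
        obtain ⟨n, hn⟩ := (hcor _ _).1 hy
        exact ⟨n, by omega, by rw [hn]; rfl⟩
    · rw [if_neg hm]
      simp only [decide_eq_false hm, cond_false, decide_eq_true_eq]
      exact ⟨fun ⟨_, h⟩ => h, fun h => ⟨0, h⟩⟩
  · intro s
    have e1 : ∑ m ∈ s.filter (fun m => Encodable.encode (DBl m) = m), (1/2 : ℝ) ^ (H m) ≤
        1 / 2 := by
      have hinj : Set.InjOn DBl (s.filter (fun m => Encodable.encode (DBl m) = m)) := by
        intro a ha b hb hab
        rw [Finset.mem_coe, Finset.mem_filter] at ha hb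
        rw [← ha.2, ← hb.2, hab]
      have e2 := h2 ((s.filter (fun m => Encodable.encode (DBl m) = m)).image DBl)
      rw [Finset.sum_image hinj] at e2
      calc ∑ m ∈ s.filter (fun m => Encodable.encode (DBl m) = m), (1/2 : ℝ) ^ (H m)
          = ∑ m ∈ s.filter (fun m => Encodable.encode (DBl m) = m),
            (1 / 2) * (1/2 : ℝ) ^ (h (DBl m)) := by
            refine Finset.sum_congr rfl (fun m hm => ?_)
            rw [Finset.mem_filter] at hm
            show (1/2 : ℝ) ^ (if _ then _ else _) = _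
            rw [if_pos hm.2, pow_succ, mul_comm]
        _ = (1 / 2) * ∑ m ∈ s.filter (fun m => Encodable.encode (DBl m) = m),
            (1/2 : ℝ) ^ (h (DBl m)) := (Finset.mul_sum _ _ _).symm
        _ ≤ 1 / 2 := by linarith
    have e3 : ∑ m ∈ s.filter (fun m => ¬ Encodable.encode (DBl m) = m), (1/2 : ℝ) ^ (H m) ≤
        1 / 4 := by
      have e4 := geo_le (s.filter (fun m => ¬ Encodable.encode (DBl m) = m))
      calc ∑ m ∈ s.filter (fun m => ¬ Encodable.encode (DBl m) = m), (1/2 : ℝ) ^ (H m)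
          = ∑ m ∈ s.filter (fun m => ¬ Encodable.encode (DBl m) = m),
            (1 / 8) * (1/2 : ℝ) ^ m := by
            refine Finset.sum_congr rfl (fun m hm => ?_)
            rw [Finset.mem_filter] at hm
            show (1/2 : ℝ) ^ (if _ then _ else _) = _
            rw [if_neg hm.2, pow_add]
            ring
        _ = (1 / 8) * ∑ m ∈ s.filter (fun m => ¬ Encodable.encode (DBl m) = m),
            (1/2 : ℝ) ^ m := (Finset.mul_sum _ _ _).symm
        _ ≤ 1 / 4 := by linarith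
    have e5 := Finset.sum_filter_add_sum_filter_not s
      (fun m => Encodable.encode (DBl m) = m) (fun m => (1/2 : ℝ) ^ (H m))
    linarith

/-- universal requests along a string -/
def HitU (β : List ℕ) (m k : ℕ) : Prop :=
  m + 2 ≤ k ∨ ∃ e ∈ List.range (β.length + 1),
    (massN β.length e β ≤ 2 ^ β.length ∧ m ≤ β.length) ∧
    (kk e β m ≤ β.length ∧ kk e β m + e + 2 ≤ k)

attribute [local irreducible] massN kk

lemma HitU_p : PrimrecPred (fun q : (List ℕ × ℕ) × ℕ => HitU q.1.1 q.1.2 q.2) := by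
  have h1 : PrimrecPred (fun q : (List ℕ × ℕ) × ℕ => q.1.2 + 2 ≤ q.2) :=
    Primrec.nat_le.comp (Primrec.nat_add.comp (Primrec.snd.comp Primrec.fst)
      (Primrec.const 2)) Primrec.snd
  have e : Primrec (fun z : ℕ × ((List ℕ × ℕ) × ℕ) => z.1) := Primrec.fst
  have b : Primrec (fun z : ℕ × ((List ℕ × ℕ) × ℕ) => z.2.1.1) :=
    Primrec.fst.comp (Primrec.fst.comp Primrec.snd)
  have m : Primrec (fun z : ℕ × ((List ℕ × ℕ) × ℕ) => z.2.1.2) :=
    Primrec.snd.comp (Primrec.fst.comp Primrec.snd)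
  have k : Primrec (fun z : ℕ × ((List ℕ × ℕ) × ℕ) => z.2.2) := Primrec.snd.comp Primrec.snd
  have bl := Primrec.list_length.comp b
  have a1 := Primrec.nat_le.comp (massN_p.comp ((bl.pair e).pair b)) (pow_p.comp bl)
  have a2 := Primrec.nat_le.comp m bl
  have kq := kk_p.comp ((e.pair b).pair m)
  have a3 := Primrec.nat_le.comp kq bl
  have a4 := Primrec.nat_le.comp (Primrec.nat_add.comp (Primrec.nat_add.comp kq e)
    (Primrec.const 2)) k
  have h2 : PrimrecRel (fun (e : ℕ) (q : (List ℕ × ℕ) × ℕ) =>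
      (massN q.1.1.length e q.1.1 ≤ 2 ^ q.1.1.length ∧ q.1.2 ≤ q.1.1.length) ∧
      (kk e q.1.1 q.1.2 ≤ q.1.1.length ∧ kk e q.1.1 q.1.2 + e + 2 ≤ q.2)) :=
    PrimrecPred.and (PrimrecPred.and a1 a2) (PrimrecPred.and a3 a4)
  have h3 := h2.exists_mem_list.comp (Primrec.list_range.comp (Primrec.succ.comp
    (Primrec.list_length.comp (Primrec.fst.comp (Primrec.fst (α := List ℕ × ℕ) (β := ℕ))))))
    Primrec.id
  exact PrimrecPred.or h1 h3

lemma HitU_mono {β : List ℕ} {m k k' : ℕ} (h : k ≤ k') (hh : HitU β m k) : HitU β m k' := by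
  rcases hh with h1 | ⟨e, he, h1, h2, h3⟩
  · exact Or.inl (le_trans h1 h)
  · exact Or.inr ⟨e, he, h1, h2, le_trans h3 h⟩

lemma HitU_ex (G : ℕ → ℕ) (m : ℕ) : ∃ k, ∃ n, HitU (pre G n) m k :=
  ⟨m + 2, 0, Or.inl (le_refl _)⟩

/-- prefix-free complexity relative to `G` -/
noncomputable def KG (G : ℕ → ℕ) (m : ℕ) : ℕ := open Classical in Nat.find (HitU_ex G m)

lemma KG_le {G : ℕ → ℕ} {m k : ℕ} : KG G m ≤ k ↔ ∃ n, HitU (pre G n) m k := by
  classical
  unfold KG
  constructor
  · intro h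
    obtain ⟨n, hn⟩ := Nat.find_spec (HitU_ex G m)
    exact ⟨n, HitU_mono h hn⟩
  · intro h
    exact Nat.find_min' (HitU_ex G m) h

lemma KG_UpS (G : ℕ → ℕ) : UpS G (KG G) := by
  classical
  have hT : Computable₂ (fun (β : List ℕ) (x : ℕ) => decide (HitU β x.unpair.1 x.unpair.2)) := by
    have h1 := HitU_p.comp (((Primrec.fst (α := List ℕ) (β := ℕ)).pair
      (Primrec.fst.comp (Primrec.unpair.comp Primrec.snd))).pair
      (Primrec.snd.comp (Primrec.unpair.comp Primrec.snd)))
    have h2 : Primrec (fun q : List ℕ × ℕ => decide (HitU q.1 q.2.unpair.1 q.2.unpair.2)) :=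
      h1.decide
    exact h2.to_comp
  obtain ⟨ψ, hψ, hd⟩ := upper_test G hT
  refine ⟨ψ, hψ, fun m k => ?_⟩
  rw [hd, KG_le]
  simp only [Nat.unpair_pair, decide_eq_true_eq]

open Classical in
lemma KG_Kraft (G : ℕ → ℕ) : Kraft (KG G) := by
  intro s
  -- the numbers whose complexity is given by a functional
  have hwit : ∀ m, (¬ m + 2 ≤ KG G m) → ∃ q : ℕ × ℕ, massR q.1 (pre G q.2) ≤ 1 ∧ m ≤ q.2 ∧
      (1/2 : ℝ) ^ (KG G m) ≤ (1/4) * (1/2) ^ q.1 * wR q.1 (pre G q.2) m := by
    intro m hm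
    obtain ⟨n, hn⟩ := KG_le.1 (le_refl (KG G m))
    rcases hn with h1 | ⟨e, he, ⟨h1, h2⟩, h3, h4⟩
    · exact absurd h1 hm
    · refine ⟨(e, n), ?_, by rw [pre_length] at h2; exact h2, ?_⟩
      · exact (mass_le_iff (by rw [pre_length])).1 h1
      · have h5 : wR e (pre G n) m = (1 / 2) ^ (kk e (pre G n) m) := by
          unfold wR
          rw [if_pos h3]
        simp only
        rw [h5]
        have h6 : ((1 : ℝ) / 2) ^ (KG G m) ≤ (1 / 2) ^ (kk e (pre G n) m + e + 2) :=
          pow_le_pow_of_le_one (by norm_num) (by norm_num) h4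
        rw [pow_add, pow_add] at h6
        calc ((1 : ℝ) / 2) ^ (KG G m) ≤ _ := h6
          _ = _ := by ring
  choose! q hq using hwit
  have e1 : ∑ m ∈ s.filter (fun m => m + 2 ≤ KG G m), (1/2 : ℝ) ^ (KG G m) ≤ 1 / 2 := by
    have e2 := geo_le (s.filter (fun m => m + 2 ≤ KG G m))
    calc ∑ m ∈ s.filter (fun m => m + 2 ≤ KG G m), (1/2 : ℝ) ^ (KG G m)
        ≤ ∑ m ∈ s.filter (fun m => m + 2 ≤ KG G m), (1 / 4) * (1/2 : ℝ) ^ m := by
          refine Finset.sum_le_sum (fun m hm => ?_)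
          rw [Finset.mem_filter] at hm
          calc (1/2 : ℝ) ^ (KG G m) ≤ (1 / 2) ^ (m + 2) :=
                pow_le_pow_of_le_one (by norm_num) (by norm_num) hm.2
            _ = (1 / 4) * (1/2 : ℝ) ^ m := by rw [pow_add]; ring
      _ = (1 / 4) * ∑ m ∈ s.filter (fun m => m + 2 ≤ KG G m), (1/2 : ℝ) ^ m :=
          (Finset.mul_sum _ _ _).symm
      _ ≤ 1 / 2 := by linarith
  have e3 : ∑ m ∈ s.filter (fun m => ¬ m + 2 ≤ KG G m), (1/2 : ℝ) ^ (KG G m) ≤ 1 / 2 := by
    set S := s.filter (fun m => ¬ m + 2 ≤ KG G m) with hS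
    have hmem : ∀ m ∈ S, ¬ m + 2 ≤ KG G m := by
      intro m hm
      rw [hS, Finset.mem_filter] at hm
      exact hm.2
    have e4 : ∀ e, ∑ m ∈ S.filter (fun m => (q m).1 = e), wR (q m).1 (pre G (q m).2) m ≤ 1 := by
      intro e
      rcases (S.filter (fun m => (q m).1 = e)).eq_empty_or_nonempty with h0 | h0
      · rw [h0]; simp
      · obtain ⟨m0, hm0, hmax⟩ := Finset.exists_max_image _ (fun m => (q m).2) h0
        have hm0' := hm0
        rw [Finset.mem_filter] at hm0'
        have h1 := (hq m0 (hmem m0 hm0'.1)).1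
        rw [hm0'.2] at h1
        calc ∑ m ∈ S.filter (fun m => (q m).1 = e), wR (q m).1 (pre G (q m).2) m
            ≤ ∑ m ∈ S.filter (fun m => (q m).1 = e), wR e (pre G (q m0).2) m := by
              refine Finset.sum_le_sum (fun m hm => ?_)
              have h2 := hmax m hm
              rw [Finset.mem_filter] at hm
              rw [hm.2]
              exact wR_mono (pre_prefix G h2) m
          _ ≤ massR e (pre G (q m0).2) := by
              unfold massR
              apply Finset.sum_le_sum_of_subset_of_nonneg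
              · intro m hm
                have h2 := hmax m hm
                rw [Finset.mem_filter] at hm
                have h3 := (hq m (hmem m hm.1)).2.1
                rw [Finset.mem_range, pre_length]
                omega
              · intro m _ _
                exact wR_nonneg _ _ _
          _ ≤ 1 := h1
    have e5 : ∑ m ∈ S, (1/4 : ℝ) * (1/2) ^ (q m).1 * wR (q m).1 (pre G (q m).2) m =
        ∑ e ∈ S.image (fun m => (q m).1), ∑ m ∈ S.filter (fun m => (q m).1 = e),
          (1/4 : ℝ) * (1/2) ^ (q m).1 * wR (q m).1 (pre G (q m).2) m :=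
      (Finset.sum_fiberwise_of_maps_to (fun m hm => Finset.mem_image_of_mem _ hm) _).symm
    calc ∑ m ∈ S, (1/2 : ℝ) ^ (KG G m)
        ≤ ∑ m ∈ S, (1/4 : ℝ) * (1/2) ^ (q m).1 * wR (q m).1 (pre G (q m).2) m :=
          Finset.sum_le_sum (fun m hm => (hq m (hmem m hm)).2.2)
      _ = _ := e5
      _ ≤ ∑ e ∈ S.image (fun m => (q m).1), (1/4 : ℝ) * (1/2) ^ e := by
          refine Finset.sum_le_sum (fun e _ => ?_)
          have e6 : ∑ m ∈ S.filter (fun m => (q m).1 = e),
              (1/4 : ℝ) * (1/2) ^ (q m).1 * wR (q m).1 (pre G (q m).2) m =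
              (1/4 : ℝ) * (1/2) ^ e *
              ∑ m ∈ S.filter (fun m => (q m).1 = e), wR (q m).1 (pre G (q m).2) m := by
            rw [Finset.mul_sum]
            refine Finset.sum_congr rfl (fun m hm => ?_)
            rw [Finset.mem_filter] at hm
            rw [hm.2]
          rw [e6]
          have e7 := mul_le_mul_of_nonneg_left (e4 e)
            (show (0 : ℝ) ≤ (1/4 : ℝ) * (1/2) ^ e by positivity)
          linarith
      _ = (1/4) * ∑ e ∈ S.image (fun m => (q m).1), (1/2 : ℝ) ^ e :=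
          (Finset.mul_sum _ _ _).symm
      _ ≤ 1 / 2 := by
          have := geo_le (S.image (fun m => (q m).1))
          linarith
  have e5 := Finset.sum_filter_add_sum_filter_not s
    (fun m => m + 2 ≤ KG G m) (fun m => (1/2 : ℝ) ^ (KG G m))
  linarith

lemma KG_opt {G f : ℕ → ℕ} (h1 : UpS G f) (h2 : Kraft f) : ∃ c, ∀ n, KG G n ≤ f n + c := by
  classical
  obtain ⟨φ, hφ, hdom⟩ := h1
  obtain ⟨ev, hev, hmono, hcor⟩ := use_principle G _ hφ
  obtain ⟨i, he⟩ := ev_code hev
  have hc1 : ∀ {n w k}, conv i (pre G n) (Nat.pair w k) → f w ≤ k := by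
    intro n w k h
    obtain ⟨j, y, hy⟩ := conv_pre he h
    have h1 : y ∈ φ (Nat.pair w k) := (hcor _ _).2 ⟨j, hy⟩
    exact (hdom w k).1 (Part.dom_iff_mem.2 ⟨y, h1⟩)
  have hc2 : ∀ w, ∀ᶠ n in atTop, conv i (pre G n) (Nat.pair w (f w)) := by
    intro w
    obtain ⟨y, hy⟩ := Part.dom_iff_mem.1 ((hdom w (f w)).2 (le_refl _))
    obtain ⟨j, hj⟩ := (hcor _ _).1 hy
    exact pre_conv he hj
  have hk1 : ∀ {n w}, kk i (pre G n) w ≤ n → f w ≤ kk i (pre G n) w := by
    intro n w h
    obtain ⟨k, hk, hc⟩ := (kk_le_iff (i := i) (w := w) (by rw [pre_length]; exact h)).1 (le_refl _)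
    exact le_trans (hc1 hc) hk
  have hk2 : ∀ w, ∀ᶠ n in atTop, kk i (pre G n) w = f w ∧ f w ≤ n := by
    intro w
    filter_upwards [hc2 w, eventually_ge_atTop (f w)] with n h1 h2
    have h3 : kk i (pre G n) w ≤ f w :=
      (kk_le_iff (by rw [pre_length]; exact h2)).2 ⟨f w, le_refl _, h1⟩
    exact ⟨le_antisymm h3 (hk1 (le_trans h3 h2)), h2⟩
  have hm : ∀ n, massR i (pre G n) ≤ 1 := by
    intro n
    refine le_trans ?_ (h2 (Finset.range ((pre G n).length + 1)))
    unfold massR
    refine Finset.sum_le_sum (fun w _ => ?_)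
    unfold wR
    by_cases h1 : kk i (pre G n) w ≤ (pre G n).length
    · rw [if_pos h1]
      apply pow_le_pow_of_le_one (by norm_num) (by norm_num)
      rw [pre_length] at h1
      exact hk1 h1
    · rw [if_neg h1]; positivity
  refine ⟨i + 2, fun n => ?_⟩
  rw [KG_le]
  obtain ⟨N, ⟨h3, h4⟩, h5⟩ := ((hk2 n).and (eventually_ge_atTop (max n i))).exists
  refine ⟨N, Or.inr ⟨i, ?_, ⟨?_, ?_⟩, ?_, ?_⟩⟩
  · rw [pre_length, List.mem_range]
    have := le_trans (le_max_right n i) h5
    omega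
  · exact (mass_le_iff (le_refl _)).2 (hm N)
  · rw [pre_length]; exact le_trans (le_max_left _ _) h5
  · rw [pre_length, h3]; exact h4
  · rw [h3]; omega

end Pool.Agent.Helper743.KT
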