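import Pool.Agent.Helper743.KTGen

set_option autoImplicit false

/-! a noncomputable c.e. K-trivial set -/

namespace Pool.Agent.Helper743.KT

open Nat.Partrec (Code)
open Filter
open Pool.Agent.Helper743.AC (wN massN kk wR massR MR wN_p massN_p wN_cast massN_cast
  mass_le_iff wR_mono wR_nonneg massR_mono MR_mono MR_le MR_nonneg fsum_p pow_p geo_le lst
  lst_concat)
open Pool.Agent.Helper743.PR (ev_list)

/-- the cost of changing at `x` -/
noncomputable def dN (L i x : ℕ) : ℕ :=
  if massN L i (List.range L) ≤ 2 ^ L then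
    ∑ w ∈ Finset.range (L + 1), if x < w then wN L i (List.range L) w else 0
  else 0

noncomputable def dR (L i x : ℕ) : ℝ :=
  if massR i (List.range L) ≤ 1 then
    ∑ w ∈ Finset.range (L + 1), if x < w then wR i (List.range L) w else 0
  else 0

lemma dN_cast (L i x : ℕ) : (dN L i x : ℝ) = 2 ^ L * dR L i x := by
  have hL : (List.range L).length ≤ L := by simp
  unfold dN dR
  by_cases h1 : massR i (List.range L) ≤ 1
  · rw [if_pos h1, if_pos ((mass_le_iff hL).2 h1), Finset.mul_sum]
    push_cast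
    refine Finset.sum_congr rfl (fun w _ => ?_)
    by_cases h2 : x < w
    · rw [if_pos h2, if_pos h2]; exact wN_cast hL
    · rw [if_neg h2, if_neg h2]; simp
  · rw [if_neg h1, if_neg (fun h2 => h1 ((mass_le_iff hL).1 h2))]; simp

attribute [local irreducible] wN massN

lemma dN_p : Primrec (fun q : (ℕ × ℕ) × ℕ => dN q.1.1 q.1.2 q.2) := by
  have L : Primrec (fun q : (ℕ × ℕ) × ℕ => q.1.1) := Primrec.fst.comp Primrec.fst
  have i : Primrec (fun q : (ℕ × ℕ) × ℕ => q.1.2) := Primrec.snd.comp Primrec.fst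
  have r := Primrec.list_range.comp L
  have h1 := Primrec.nat_le.comp (massN_p.comp ((L.pair i).pair r)) (pow_p.comp L)
  have h2 : PrimrecPred (fun z : ((ℕ × ℕ) × ℕ) × ℕ => z.1.2 < z.2) :=
    Primrec.nat_lt.comp (Primrec.snd.comp Primrec.fst) Primrec.snd
  have h3 := wN_p.comp ((((L.comp (Primrec.fst (α := (ℕ × ℕ) × ℕ) (β := ℕ))).pair
    (i.comp Primrec.fst)).pair (r.comp Primrec.fst)).pair Primrec.snd)
  have h4 := Primrec.ite h2 h3 (Primrec.const 0)
  have h5 := fsum_p (Primrec.succ.comp L) h4.to₂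
  have h6 := Primrec.ite h1 h5 (Primrec.const 0)
  refine h6.of_eq ?_
  intro q
  unfold dN
  rfl

attribute [local irreducible] dN

def evz (t e x : ℕ) : Option ℕ := Code.evaln t (Denumerable.ofNat Code e) x

lemma evz_p : Primrec (fun q : (ℕ × ℕ) × ℕ => evz q.1.1 q.1.2 q.2) := by
  have h : Primrec (fun q : (ℕ × ℕ) × ℕ =>
      Code.evaln q.1.1 (Denumerable.ofNat Code q.1.2) q.2) :=
    Code.primrec_evaln.comp (((Primrec.fst.comp Primrec.fst).pair ((Primrec.ofNat Code).comp
      (Primrec.snd.comp Primrec.fst))).pair Primrec.snd)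
  exact h

abbrev St := List ℕ × List ℕ

def xt (t : ℕ) : ℕ := Nat.pair t.unpair.1 t.unpair.2.unpair.1

lemma xt_p : Primrec xt := Primrec₂.natPair.comp (Primrec.fst.comp Primrec.unpair)
  (Primrec.fst.comp (Primrec.unpair.comp (Primrec.snd.comp Primrec.unpair)))

def cnd (t : ℕ) (u : St) : Prop :=
  (t.unpair.1 ∉ u.2 ∧ evz t t.unpair.1 (xt t) = some 0) ∧
    ∀ i ∈ List.range (t.unpair.1 + 1), 2 ^ t.unpair.1 * dN (t + 1) i (xt t) ≤ 2 ^ (t + 1)

attribute [local irreducible] evz xt

lemma cnd_p : PrimrecPred (fun q : ℕ × St => cnd q.1 q.2) := by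
  have t : Primrec (fun q : ℕ × St => q.1) := Primrec.fst
  have e : Primrec (fun q : ℕ × St => q.1.unpair.1) := Primrec.fst.comp (Primrec.unpair.comp t)
  have x : Primrec (fun q : ℕ × St => xt q.1) := xt_p.comp t
  have u2 : Primrec (fun q : ℕ × St => q.2.2) := Primrec.snd.comp Primrec.snd
  have h1 : PrimrecRel (fun (b c : ℕ) => b = c) := Primrec.eq
  have h2 : PrimrecPred (fun q : ℕ × St => ∃ b ∈ q.2.2, b = q.1.unpair.1) :=
    h1.exists_mem_list.comp u2 e
  have h3 : PrimrecPred (fun q : ℕ × St => q.1.unpair.1 ∉ q.2.2) :=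
    h2.not.of_eq (by intro q; simp)
  have h4 : PrimrecPred (fun q : ℕ × St => evz q.1 q.1.unpair.1 (xt q.1) = some 0) :=
    Primrec.eq.comp (evz_p.comp ((t.pair e).pair x)) (Primrec.const (some 0))
  have s1 : Primrec (fun z : ℕ × ℕ => z.2 + 1) := Primrec.succ.comp Primrec.snd
  have h5 := Primrec.nat_mul.comp (pow_p.comp (Primrec.fst.comp (Primrec.unpair.comp
    (Primrec.snd (α := ℕ) (β := ℕ))))) (dN_p.comp ((s1.pair Primrec.fst).pair
      (xt_p.comp Primrec.snd)))
  have h6 : PrimrecRel (fun (i : ℕ) (t : ℕ) =>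
      2 ^ t.unpair.1 * dN (t + 1) i (xt t) ≤ 2 ^ (t + 1)) :=
    Primrec.nat_le.comp h5 (pow_p.comp s1)
  have h7 : PrimrecPred (fun q : ℕ × St => ∀ i ∈ List.range (q.1.unpair.1 + 1),
      2 ^ q.1.unpair.1 * dN (q.1 + 1) i (xt q.1) ≤ 2 ^ (q.1 + 1)) :=
    h6.forall_mem_list.comp (Primrec.list_range.comp (Primrec.succ.comp e)) t
  exact PrimrecPred.and (PrimrecPred.and h3 h4) h7

attribute [local irreducible] cnd

noncomputable def stp (t : ℕ) (u : St) : St :=
  open Classical in if cnd t u then (xt t :: u.1, t.unpair.1 :: u.2) else u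

lemma stp_p : Primrec (fun q : ℕ × St => stp q.1 q.2) := by
  classical
  have t : Primrec (fun q : ℕ × St => q.1) := Primrec.fst
  have e : Primrec (fun q : ℕ × St => q.1.unpair.1) := Primrec.fst.comp (Primrec.unpair.comp t)
  have h1 := (Primrec.list_cons.comp (xt_p.comp t) (Primrec.fst.comp Primrec.snd)).pair
    (Primrec.list_cons.comp e (Primrec.snd.comp (Primrec.snd (α := ℕ) (β := St))))
  have h2 := Primrec.ite cnd_p h1 Primrec.snd
  refine h2.of_eq ?_
  intro q
  unfold stp
  rfl

attribute [local irreducible] stp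

noncomputable def run (t : ℕ) : St := Nat.rec ([], []) (fun t u => stp t u) t

lemma run_p : Primrec run := by
  have h1 : Primrec₂ (fun (_ : ℕ) (z : ℕ × St) => stp z.1 z.2) :=
    (stp_p.comp Primrec.snd).to₂
  have h2 := Primrec.nat_rec' (Primrec.id (α := ℕ)) (Primrec.const (([], []) : St)) h1
  exact h2

lemma run_pos {t : ℕ} (h : cnd t (run t)) :
    run (t + 1) = (xt t :: (run t).1, t.unpair.1 :: (run t).2) := by
  show stp t (run t) = _
  unfold stp
  rw [if_pos h]

lemma run_neg {t : ℕ} (h : ¬ cnd t (run t)) : run (t + 1) = run t := by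
  show stp t (run t) = _
  unfold stp
  rw [if_neg h]

noncomputable def ast (t w : ℕ) : List Bool :=
  (List.range w).map (fun p => decide (p ∈ (run t).1))

lemma ast_p : Primrec₂ ast := by
  have h1 : PrimrecRel (fun (b c : ℕ) => b = c) := Primrec.eq
  have h2 : PrimrecPred (fun q : (ℕ × ℕ) × ℕ => ∃ b ∈ (run q.1.1).1, b = q.2) :=
    h1.exists_mem_list.comp (Primrec.fst.comp (run_p.comp (Primrec.fst.comp Primrec.fst)))
      Primrec.snd
  have h3 : PrimrecPred (fun q : (ℕ × ℕ) × ℕ => q.2 ∈ (run q.1.1).1) :=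
    h2.of_eq (by intro q; simp)
  have h4 : Primrec₂ (fun (q : ℕ × ℕ) (p : ℕ) => decide (p ∈ (run q.1).1)) := h3.decide
  exact Primrec.list_map (Primrec.list_range.comp (Primrec.snd (α := ℕ) (β := ℕ))) h4

lemma ast_len (t w : ℕ) : (ast t w).length = w := by unfold ast; simp

/-- membership in the set -/
def inA (p : ℕ) : Prop := ∃ t, p ∈ (run t).1

lemma run_mono {s t : ℕ} (h : s ≤ t) :
    (∀ p ∈ (run s).1, p ∈ (run t).1) ∧ (∀ e ∈ (run s).2, e ∈ (run t).2) := by
  induction t, h using Nat.le_induction with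
  | base => exact ⟨fun p hp => hp, fun e he => he⟩
  | succ t _ ih =>
    by_cases h1 : cnd t (run t)
    · rw [run_pos h1]
      exact ⟨fun p hp => List.mem_cons_of_mem _ (ih.1 p hp),
        fun e he => List.mem_cons_of_mem _ (ih.2 e he)⟩
    · rw [run_neg h1]; exact ih

noncomputable def XA (n : ℕ) : List Bool :=
  open Classical in (List.range n).map (fun p => decide (inA p))

lemma ast_lim (n : ℕ) : ∀ᶠ N in atTop, ast N n = XA n := by
  classical
  have h1 : ∀ᶠ N in atTop, ∀ p ∈ List.range n, (p ∈ (run N).1 ↔ inA p) := by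
    apply ev_list
    intro p _
    by_cases h : inA p
    · obtain ⟨t, ht⟩ := h
      filter_upwards [eventually_ge_atTop t] with N hN
      exact ⟨fun h => ⟨N, h⟩, fun _ => (run_mono hN).1 p ht⟩
    · exact Eventually.of_forall (fun N => ⟨fun h' => ⟨N, h'⟩, fun h' => absurd h' h⟩)
  filter_upwards [h1] with N hN
  unfold ast XA
  apply List.map_congr_left
  intro p hp
  rw [decide_eq_decide]
  exact hN p hp

/-! costs -/

lemma dR_le {e L i x : ℕ} (h : 2 ^ e * dN L i x ≤ 2 ^ L) : dR L i x ≤ (1 / 2) ^ e := by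
  have h1 : ((2 ^ e * dN L i x : ℕ) : ℝ) ≤ ((2 ^ L : ℕ) : ℝ) := by exact_mod_cast h
  push_cast at h1
  rw [dN_cast] at h1
  have h2 : (0 : ℝ) < 2 ^ e := by positivity
  have h3 : (0 : ℝ) < 2 ^ L := by positivity
  have h4 : (2 : ℝ) ^ e * (1 / 2) ^ e = 1 := by rw [← mul_pow]; norm_num
  have h5 : 2 ^ e * 2 ^ L * dR L i x ≤ 2 ^ e * 2 ^ L * ((1 / 2) ^ e) := by
    calc 2 ^ e * 2 ^ L * dR L i x = 2 ^ e * (2 ^ L * dR L i x) := by ring
      _ ≤ 2 ^ L := h1
      _ = 2 ^ L * (2 ^ e * (1 / 2) ^ e) := by rw [h4, mul_one]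
      _ = _ := by ring
  exact le_of_mul_le_mul_left h5 (by positivity)

lemma le_dN {e L i x : ℕ} (h : dR L i x ≤ (1 / 2) ^ e) : 2 ^ e * dN L i x ≤ 2 ^ L := by
  have h4 : (2 : ℝ) ^ e * (1 / 2) ^ e = 1 := by rw [← mul_pow]; norm_num
  have h1 : ((2 ^ e * dN L i x : ℕ) : ℝ) ≤ ((2 ^ L : ℕ) : ℝ) := by
    push_cast
    rw [dN_cast]
    calc (2 : ℝ) ^ e * (2 ^ L * dR L i x) ≤ 2 ^ e * (2 ^ L * (1 / 2) ^ e) := by
          apply mul_le_mul_of_nonneg_left _ (by positivity)
          exact mul_le_mul_of_nonneg_left h (by positivity)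
      _ = 2 ^ L * (2 ^ e * (1 / 2) ^ e) := by ring
      _ = 2 ^ L := by rw [h4, mul_one]
  exact_mod_cast h1

lemma pre_id (n : ℕ) : pre (fun m => m) n = List.range n := by
  unfold pre; simp

lemma ast_eq_of_le {t w : ℕ} (h : w ≤ xt t) : ast t w = ast (t + 1) w := by
  unfold ast
  apply List.map_congr_left
  intro p hp
  rw [List.mem_range] at hp
  rw [decide_eq_decide]
  by_cases h1 : cnd t (run t)
  · rw [run_pos h1]
    simp only [List.mem_cons]
    constructor
    · exact fun h => Or.inr h
    · rintro (h2 | h2)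
      · omega
      · exact h2
  · rw [run_neg h1]

lemma ast_eq_neg {t w : ℕ} (h : ¬ cnd t (run t)) : ast t w = ast (t + 1) w := by
  unfold ast
  rw [run_neg h]

lemma cost_neg {i t : ℕ} (h : ¬ cnd t (run t)) : cR ast i (List.range (t + 1)) (t + 1) = 0 := by
  unfold cR
  have hl : lst (List.range (t + 1)) = t := by rw [List.range_succ, lst_concat]
  split_ifs
  · apply Finset.sum_eq_zero
    intro w _
    rw [hl, if_pos (ast_eq_neg h)]
  · rfl

lemma cost_pos {i t : ℕ} : cR ast i (List.range (t + 1)) (t + 1) ≤ dR (t + 1) i (xt t) := by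
  have hl : lst (List.range (t + 1)) = t := by rw [List.range_succ, lst_concat]
  unfold cR dR
  split_ifs
  · rw [List.length_range]
    refine Finset.sum_le_sum (fun w _ => ?_)
    rw [hl]
    by_cases h1 : xt t < w
    · rw [if_pos h1]
      split_ifs
      · exact wR_nonneg _ _ _
      · exact le_refl _
    · rw [if_neg h1, if_pos (ast_eq_of_le (by omega))]
  · exact le_refl _

lemma dd_mem {s e : ℕ} (h : e ∈ (run s).2) : ∃ s', cnd s' (run s') ∧ s'.unpair.1 = e := by
  induction s with
  | zero => have h' : e ∈ ([] : List ℕ) := h; simp at h'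
  | succ s ih =>
    by_cases h1 : cnd s (run s)
    · rw [run_pos h1, List.mem_cons] at h
      rcases h with h | h
      · exact ⟨s, h1, h.symm⟩
      · exact ih h
    · rw [run_neg h1] at h; exact ih h

lemma acts_once (e : ℕ) : ∀ᶠ s in atTop, ¬ (cnd s (run s) ∧ s.unpair.1 = e) := by
  by_cases h : ∃ s, cnd s (run s) ∧ s.unpair.1 = e
  · obtain ⟨s, h1, h2⟩ := h
    filter_upwards [eventually_gt_atTop s] with s' hs'
    rintro ⟨h3, h4⟩
    unfold cnd at h3
    apply h3.1.1
    rw [h4, ← h2]
    apply (run_mono hs').2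
    rw [run_pos h1]
    exact List.mem_cons_self
  · push Not at h
    exact Eventually.of_forall (fun s hs => h s hs.1 hs.2)

lemma acts_late (i : ℕ) : ∃ s0, ∀ s, s0 ≤ s → cnd s (run s) → i ≤ s.unpair.1 := by
  have h := ev_list (L := List.range i)
    (P := fun s e => ¬ (cnd s (run s) ∧ s.unpair.1 = e)) (fun e _ => acts_once e)
  obtain ⟨s0, h0⟩ := eventually_atTop.1 h
  refine ⟨s0, fun s hs hact => ?_⟩
  by_contra hlt
  push Not at hlt
  exact h0 s hs s.unpair.1 (List.mem_range.2 hlt) ⟨hact, rfl⟩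

noncomputable def tt (i s : ℕ) : ℝ := totR ast i (List.range (s + 1))

lemma tt_succ (i s : ℕ) : tt i (s + 1) = tt i s + cR ast i (List.range (s + 1)) (s + 1) := by
  unfold tt
  rw [List.range_succ (n := s + 1), totR_concat]

lemma tt_late {i s0 : ℕ} (h0 : ∀ s, s0 ≤ s → cnd s (run s) → i ≤ s.unpair.1) (s : ℕ)
    (hs : s0 ≤ s) : tt i s ≤ tt i s0 + ∑ e ∈ (run s).2.toFinset, ((1 : ℝ) / 2) ^ e := by
  induction s, hs using Nat.le_induction with
  | base =>
    have : 0 ≤ ∑ e ∈ (run s0).2.toFinset, ((1 : ℝ) / 2) ^ e :=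
      Finset.sum_nonneg (fun e _ => by positivity)
    linarith
  | succ s hs ih =>
    rw [tt_succ]
    by_cases h1 : cnd s (run s)
    · have h1' := h1
      unfold cnd at h1'
      rw [run_pos h1, List.toFinset_cons, Finset.sum_insert (by
        rw [List.mem_toFinset]; exact h1'.1.1)]
      have h2 := h1'.2 i (List.mem_range.2 (by have := h0 s hs h1; omega))
      have h3 := dR_le h2
      have h4 := cost_pos (i := i) (t := s)
      linarith
    · rw [run_neg h1]
      have := cost_neg (i := i) h1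
      linarith

lemma totR_mono_range {i s t : ℕ} (h : s ≤ t) : tt i s ≤ tt i t := by
  induction t, h using Nat.le_induction with
  | base => exact le_refl _
  | succ t _ ih =>
    rw [tt_succ]
    have := cR_nonneg ast i (List.range (t + 1)) (t + 1)
    linarith

lemma tot_bdd (i : ℕ) : ∃ C : ℝ, ∀ n, totR ast i (pre (fun m => m) n) ≤ C := by
  obtain ⟨s0, h0⟩ := acts_late i
  refine ⟨tt i s0 + 2, fun n => ?_⟩
  rw [pre_id]
  have h1 : totR ast i (List.range n) ≤ tt i n := by
    unfold tt
    rw [List.range_succ, totR_concat]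
    have := cR_nonneg ast i (List.range n) n
    linarith
  have h2 := totR_mono_range (i := i) (le_max_left n s0)
  have h3 := tt_late h0 (max n s0) (le_max_right _ _)
  have h4 := geo_le (run (max n s0)).2.toFinset
  linarith

lemma M_tail (i : ℕ) {ε : ℝ} (hε : 0 < ε) : ∃ N, ∀ n, N ≤ n →
    MR i (List.range n) ≤ MR i (List.range N) + ε := by
  have hb : BddAbove (Set.range (fun n => MR i (List.range n))) := by
    refine ⟨1, ?_⟩
    rintro _ ⟨n, rfl⟩
    exact MR_le _ _
  obtain ⟨N, hN⟩ := exists_lt_of_lt_ciSup (f := fun n => MR i (List.range n))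
    (show (⨆ n, MR i (List.range n)) - ε < ⨆ n, MR i (List.range n) by linarith)
  refine ⟨N, fun n _ => ?_⟩
  have h1 := le_ciSup hb n
  linarith

lemma range_prefix {m n : ℕ} (h : m ≤ n) : List.range m <+: List.range n := by
  have := pre_prefix (fun m => m) h
  rwa [pre_id, pre_id] at this

lemma M_tails (e : ℕ) : ∃ N, ∀ m n, N ≤ m → m ≤ n → ∀ i, i ≤ e →
    MR i (List.range n) ≤ MR i (List.range m) + (1 / 2) ^ e := by
  have hε : (0 : ℝ) < (1 / 2) ^ e := by positivity
  choose f hf using fun i => M_tail i hε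
  refine ⟨(Finset.range (e + 1)).sup f, fun m n hm hmn i hi => ?_⟩
  have h0 : f i ≤ m := le_trans (Finset.le_sup (f := f) (Finset.mem_range.2 (by omega))) hm
  have h1 := hf i n (le_trans h0 hmn)
  have h2 := MR_mono (i := i) (range_prefix h0)
  linarith

lemma dR_small {i N x L : ℕ} {ε : ℝ} (hx : N ≤ x) (hL : N ≤ L) (hε : 0 ≤ ε)
    (h : MR i (List.range L) ≤ MR i (List.range N) + ε) : dR L i x ≤ ε := by
  unfold dR
  split_ifs with h1
  · have h2 : MR i (List.range L) = massR i (List.range L) := min_eq_left h1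
    have h3 : MR i (List.range N) ≤ massR i (List.range N) := min_le_left _ _
    have h4 : ∑ w ∈ Finset.range (L + 1), (if x < w then wR i (List.range L) w else 0) +
        massR i (List.range N) ≤ massR i (List.range L) := by
      have h5 : massR i (List.range N) ≤ ∑ w ∈ Finset.range (L + 1),
          (if w ≤ N then wR i (List.range L) w else 0) := by
        have h6 : ∑ w ∈ Finset.range (N + 1), wR i (List.range L) w =
            ∑ w ∈ Finset.range (N + 1), (if w ≤ N then wR i (List.range L) w else 0) := by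
          refine Finset.sum_congr rfl (fun w hw => ?_)
          rw [Finset.mem_range] at hw
          rw [if_pos (by omega)]
        calc massR i (List.range N) = ∑ w ∈ Finset.range (N + 1), wR i (List.range N) w := by
              unfold massR; rw [List.length_range]
          _ ≤ ∑ w ∈ Finset.range (N + 1), wR i (List.range L) w :=
              Finset.sum_le_sum (fun w _ => wR_mono (range_prefix hL) w)
          _ = _ := h6
          _ ≤ _ := by
              apply Finset.sum_le_sum_of_subset_of_nonneg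
              · exact Finset.range_mono (by omega)
              · intro w _ _
                split_ifs
                · exact wR_nonneg _ _ _
                · exact le_refl _
      calc _ ≤ ∑ w ∈ Finset.range (L + 1), (if x < w then wR i (List.range L) w else 0) +
            ∑ w ∈ Finset.range (L + 1), (if w ≤ N then wR i (List.range L) w else 0) := by
            linarith
        _ = ∑ w ∈ Finset.range (L + 1), ((if x < w then wR i (List.range L) w else 0) +
            (if w ≤ N then wR i (List.range L) w else 0)) := Finset.sum_add_distrib.symm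
        _ ≤ massR i (List.range L) := by
            unfold massR
            rw [List.length_range]
            refine Finset.sum_le_sum (fun w _ => ?_)
            have h8 := wR_nonneg i (List.range L) w
            by_cases h7 : w ≤ N
            · rw [if_pos h7, if_neg (by omega)]; linarith
            · rw [if_neg h7]
              split_ifs <;> linarith
    linarith
  · exact hε

/-- the characteristic function -/
noncomputable def chiA (p : ℕ) : ℕ := chi inA p

lemma inA_acts {p : ℕ} (h : inA p) : ∃ t, cnd t (run t) ∧ xt t = p := by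
  obtain ⟨t, ht⟩ := h
  induction t with
  | zero => have h' : p ∈ ([] : List ℕ) := ht; simp at h'
  | succ t ih =>
    by_cases h1 : cnd t (run t)
    · rw [run_pos h1, List.mem_cons] at ht
      rcases ht with ht | ht
      · exact ⟨t, h1, ht.symm⟩
      · exact ih ht
    · rw [run_neg h1] at ht; exact ih ht

lemma xt_eq (e k m : ℕ) : xt (Nat.pair e (Nat.pair k m)) = Nat.pair e k := by
  unfold xt; simp

theorem not_computable : ¬ Computable chiA := by
  classical
  intro hcomp
  obtain ⟨c, hc⟩ := Code.exists_code.1 (Partrec.nat_iff.1 hcomp)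
  set e := Encodable.encode c with he
  have hval : ∀ t x v, evz t e x = some v → v = chiA x := by
    intro t x v h
    unfold evz at h
    rw [he, Denumerable.ofNat_encode] at h
    have h1 : v ∈ Code.eval c x := Code.evaln_sound (by rw [Option.mem_def]; exact h)
    rw [hc] at h1
    exact Part.mem_some_iff.1 h1
  have hex : ∀ x, ∃ t0, ∀ t, t0 ≤ t → evz t e x = some (chiA x) := by
    intro x
    have h1 : chiA x ∈ Code.eval c x := by rw [hc]; exact Part.mem_some _
    obtain ⟨t0, ht0⟩ := Code.evaln_complete.1 h1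
    refine ⟨t0, fun t ht => ?_⟩
    unfold evz
    rw [he, Denumerable.ofNat_encode]
    exact Code.evaln_mono ht ht0
  -- the requirement never acts
  have hnever : ∀ s, cnd s (run s) → s.unpair.1 ≠ e := by
    intro s hs h1
    have hs' := hs
    unfold cnd at hs'
    have h2 := hs'.1.2
    rw [h1] at h2
    have h3 := hval _ _ _ h2
    have h4 : inA (xt s) := ⟨s + 1, by rw [run_pos hs]; exact List.mem_cons_self⟩
    unfold chiA chi at h3
    rw [if_pos h4] at h3
    exact absurd h3 (by norm_num)
  have hzero : ∀ k, chiA (Nat.pair e k) = 0 := by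
    intro k
    unfold chiA
    rw [chi_eq_zero]
    intro hin
    obtain ⟨t, h1, h2⟩ := inA_acts hin
    apply hnever t h1
    have h3 : (xt t).unpair.1 = t.unpair.1 := by unfold xt; simp
    rw [h2, Nat.unpair_pair] at h3
    exact h3.symm
  obtain ⟨N, hN⟩ := M_tails e
  obtain ⟨t0, ht0⟩ := hex (Nat.pair e N)
  set t := Nat.pair e (Nat.pair N t0) with htd
  have ht1 : t0 ≤ t := le_trans (Nat.right_le_pair N t0) (Nat.right_le_pair e _)
  have ht2 : N ≤ t := le_trans (Nat.left_le_pair N t0) (Nat.right_le_pair e _)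
  have hue : t.unpair.1 = e := by rw [htd, Nat.unpair_pair]
  have hxt : xt t = Nat.pair e N := by rw [htd, xt_eq]
  apply hnever t _ hue
  unfold cnd
  rw [hue, hxt]
  refine ⟨⟨?_, ?_⟩, ?_⟩
  · intro hmem
    obtain ⟨s', h1, h2⟩ := dd_mem hmem
    exact hnever s' h1 h2
  · rw [ht0 t ht1, hzero]
  · intro i hi
    apply le_dN
    apply dR_small (N := N) (Nat.right_le_pair e N) (by omega) (by positivity)
    exact hN N (t + 1) (le_refl _) (by omega) i (by have := List.mem_range.1 hi; omega)

theorem inA_re : REPred inA := by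
  have h1 : PrimrecRel (fun (b c : ℕ) => b = c) := Primrec.eq
  have h2 : PrimrecPred (fun q : ℕ × ℕ => ∃ b ∈ (run q.2).1, b = q.1) :=
    h1.exists_mem_list.comp (Primrec.fst.comp (run_p.comp Primrec.snd)) Primrec.fst
  have h3 : PrimrecPred (fun q : ℕ × ℕ => q.1 ∈ (run q.2).1) :=
    h2.of_eq (by intro q; simp)
  have h4 : Primrec₂ (fun (p : ℕ) (t : ℕ) => decide (p ∈ (run t).1)) := h3.decide
  have h5 : Computable₂ (fun (p : ℕ) (t : ℕ) => decide (p ∈ (run t).1)) := h4.to_comp
  have h6 := (Partrec.rfind h5.partrec₂).dom_re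
  refine h6.of_eq ?_
  intro p
  refine Iff.trans (Nat.rfind_dom (p := fun t => (Part.some (decide (p ∈ (run t).1)) :
    Part Bool))) ?_
  constructor
  · rintro ⟨s, hs, _⟩
    rw [Part.mem_some_iff] at hs
    exact ⟨s, of_decide_eq_true hs.symm⟩
  · rintro ⟨s, hs⟩
    exact ⟨s, by rw [decide_eq_true hs]; exact Part.mem_some _, fun {m} _ => trivial⟩

end Pool.Agent.Helper743.KT
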