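import Pool.Agent.Helper743.PRMain2
import Pool.Agent.Helper743.FC

set_option autoImplicit false

/-! Copies of the natural numbers with a binary relation. -/

namespace Pool.Agent.Helper743.LO

open Nat.Partrec (Code)
open Pool.Agent.Helper743.PR (WW)

/-- the relation -/
def RR (G : ℕ → ℕ) (l : List ℕ) : Prop :=
  ∃ x y, l = [x, y] ∧ (y = x + 1 ∨ (x = y ∧ G x.unpair.1 = x.unpair.2))

/-- characteristic function of the image -/
noncomputable def im (G : ℕ → ℕ) (f : ℕ → ℕ) (k : ℕ) : ℕ :=
  open Classical in
  if ∃ l : List ℕ, Encodable.encode (l.map f) = k ∧ RR G l then 1 else 0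

lemma im_pair {G f : ℕ → ℕ} (hf : Function.Injective f) (x y : ℕ) :
    im G f (Encodable.encode [f x, f y]) = 1 ↔
      (y = x + 1 ∨ (x = y ∧ G x.unpair.1 = x.unpair.2)) := by
  classical
  have key : (∃ l : List ℕ, Encodable.encode (l.map f) = Encodable.encode [f x, f y] ∧ RR G l) ↔
      (y = x + 1 ∨ (x = y ∧ G x.unpair.1 = x.unpair.2)) := by
    constructor
    · rintro ⟨l, h1, x', y', rfl, h2⟩
      rw [Encodable.encode_inj] at h1
      simp only [List.map_cons, List.map_nil, List.cons.injEq, and_true] at h1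
      rw [hf h1.1, hf h1.2] at h2
      exact h2
    · intro h
      exact ⟨[x, y], rfl, x, y, rfl, h⟩
  unfold im
  by_cases h : ∃ l : List ℕ, Encodable.encode (l.map f) = Encodable.encode [f x, f y] ∧ RR G l
  · rw [if_pos h]; exact iff_of_true rfl (key.1 h)
  · rw [if_neg h]; exact iff_of_false (by omega) (fun h' => h (key.2 h'))

lemma im_zero_or (G f : ℕ → ℕ) (k : ℕ) : im G f k = 0 ∨ im G f k = 1 := by
  unfold im
  split
  · right; rfl
  · left; rfl

/-- a function with a graph decided by a function is found by search -/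
lemma search {O : Set (ℕ →. ℕ)} {p : ℕ → ℕ → ℕ} {g : ℕ → ℕ}
    (hp : RecT O (fun z => p z.unpair.1 z.unpair.2)) (h1 : ∀ a, p a (g a) = 0)
    (h2 : ∀ a n, p a n = 0 → n = g a) : RecT O g := by
  have hex : ∀ a, ∃ n, (fun z : ℕ => p z.unpair.1 z.unpair.2) (Nat.pair a n) = 0 := by
    intro a
    refine ⟨g a, ?_⟩
    simp only [Nat.unpair_pair]
    exact h1 a
  have h3 := RecT.find hp hex
  refine Nat.RecursiveIn.of_eq h3 ?_
  intro a
  congr 1
  have h4 : p (Nat.pair a (Nat.find (hex a))).unpair.1
      (Nat.pair a (Nat.find (hex a))).unpair.2 = 0 := Nat.find_spec (hex a)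
  rw [Nat.unpair_pair] at h4
  exact h2 a _ h4

lemma u1_c : Computable (fun n : ℕ => n.unpair.1) := Computable.fst.comp Computable.unpair
lemma u2_c : Computable (fun n : ℕ => n.unpair.2) := Computable.snd.comp Computable.unpair

lemma neq_c : Computable (fun z : ℕ => if z.unpair.1 = z.unpair.2 then 0 else 1) :=
  (Primrec.ite (Primrec.eq.comp (Primrec.fst.comp Primrec.unpair)
      (Primrec.snd.comp Primrec.unpair)) (Primrec.const 0) (Primrec.const 1)).to_comp

/-- the inverse of a bijection -/
lemma inv_recT {O : Set (ℕ →. ℕ)} {f : ℕ ≃ ℕ} (hf : RecT O f) : RecT O f.symm := by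
  have h1 : RecT O (fun z => Nat.pair (f z.unpair.2) z.unpair.1) :=
    RecT.pair (hf.comp (Computable.recT u2_c)) (Computable.recT u1_c)
  have h2 := (Computable.recT (O := O) neq_c).comp h1
  simp only [Nat.unpair_pair] at h2
  refine search (p := fun a n => if f n = a then 0 else 1) h2 ?_ ?_
  · intro a; simp
  · intro a n h
    by_cases h5 : f n = a
    · rw [Equiv.eq_symm_apply]; exact h5
    · simp [h5] at h

lemma enc2_c : Computable (fun z : ℕ => Encodable.encode [z.unpair.1, z.unpair.2]) := by
  have u1 : Primrec (fun n : ℕ => n.unpair.1) := Primrec.fst.comp Primrec.unpair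
  have u2 : Primrec (fun n : ℕ => n.unpair.2) := Primrec.snd.comp Primrec.unpair
  exact (Primrec.encode.comp (Primrec.list_cons.comp u1 (Primrec.list_cons.comp u2
    (Primrec.const [])))).to_comp

theorem im_TR (G : ℕ → ℕ) (f : ℕ ≃ ℕ) : TR (im G f) (join G f) := by
  classical
  have hG : RecT {((join G f : ℕ → ℕ) : ℕ →. ℕ)} G := TR_join_left G f
  have hf : RecT {((join G f : ℕ → ℕ) : ℕ →. ℕ)} f := TR_join_right G f
  have hi := inv_recT hf
  have hls : Primrec (fun k : ℕ => (Encodable.decode (α := List ℕ) k).getD []) :=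
    Primrec.option_getD.comp Primrec.decode (Primrec.const [])
  have ha : Computable (fun k : ℕ => ((((Encodable.decode (α := List ℕ) k).getD [])[0]?).getD 0)) :=
    (Primrec.option_getD.comp (Primrec.list_getElem?.comp hls (Primrec.const 0))
      (Primrec.const 0)).to_comp
  have hb : Computable (fun k : ℕ => ((((Encodable.decode (α := List ℕ) k).getD [])[1]?).getD 0)) :=
    (Primrec.option_getD.comp (Primrec.list_getElem?.comp hls (Primrec.const 1))
      (Primrec.const 0)).to_comp
  have u1 : Primrec (fun n : ℕ => n.unpair.1) := Primrec.fst.comp Primrec.unpair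
  have u2 : Primrec (fun n : ℕ => n.unpair.2) := Primrec.snd.comp Primrec.unpair
  have hx := hi.comp (Computable.recT ha)
  have hy := hi.comp (Computable.recT hb)
  have hg := hG.comp ((Computable.recT (O := {((join G f : ℕ → ℕ) : ℕ →. ℕ)}) u1.to_comp).comp hx)
  have hall := RecT.pair (Computable.recT (O := {((join G f : ℕ → ℕ) : ℕ →. ℕ)}) Computable.id)
    (RecT.pair hx (RecT.pair hy hg))
  -- the final decision
  have hH : Computable (fun z : ℕ =>
      if ((Encodable.decode (α := List ℕ) z.unpair.1).getD []).length = 2 ∧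
        (z.unpair.2.unpair.2.unpair.1 = z.unpair.2.unpair.1 + 1 ∨
          (z.unpair.2.unpair.1 = z.unpair.2.unpair.2.unpair.1 ∧
            z.unpair.2.unpair.2.unpair.2 = z.unpair.2.unpair.1.unpair.2)) then 1 else 0) := by
    have v1 : Primrec (fun z : ℕ => z.unpair.2.unpair.1) := u1.comp u2
    have v2 : Primrec (fun z : ℕ => z.unpair.2.unpair.2.unpair.1) := u1.comp (u2.comp u2)
    have v3 : Primrec (fun z : ℕ => z.unpair.2.unpair.2.unpair.2) := u2.comp (u2.comp u2)
    have c1 : PrimrecPred (fun z : ℕ =>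
        ((Encodable.decode (α := List ℕ) z.unpair.1).getD []).length = 2) :=
      Primrec.eq.comp (Primrec.list_length.comp (hls.comp u1)) (Primrec.const 2)
    have c2 : PrimrecPred (fun z : ℕ =>
        z.unpair.2.unpair.2.unpair.1 = z.unpair.2.unpair.1 + 1) :=
      Primrec.eq.comp v2 (Primrec.succ.comp v1)
    have c3 : PrimrecPred (fun z : ℕ =>
        z.unpair.2.unpair.1 = z.unpair.2.unpair.2.unpair.1) := Primrec.eq.comp v1 v2
    have c4 : PrimrecPred (fun z : ℕ =>
        z.unpair.2.unpair.2.unpair.2 = z.unpair.2.unpair.1.unpair.2) :=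
      Primrec.eq.comp v3 (u2.comp v1)
    have c5 := PrimrecPred.and c1 (PrimrecPred.or c2 (PrimrecPred.and c3 c4))
    exact (Primrec.ite c5 (Primrec.const 1) (Primrec.const 0)).to_comp
  have h2 := (Computable.recT (O := {((join G f : ℕ → ℕ) : ℕ →. ℕ)}) hH).comp hall
  refine Nat.RecursiveIn.of_eq h2 ?_
  intro k
  congr 1
  simp only [Nat.unpair_pair, id]
  unfold im
  apply if_congr _ rfl rfl
  obtain ⟨L, hL⟩ : ∃ L : List ℕ, Encodable.encode L = k :=
    ⟨Denumerable.ofNat (List ℕ) k, by exact Denumerable.encode_ofNat k⟩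
  subst hL
  simp only [Encodable.encodek, Option.getD_some]
  constructor
  · rintro ⟨h1, h3⟩
    match L, h1 with
    | [a, b], _ =>
      simp only [List.getElem?_cons_zero, List.getElem?_cons_succ, Option.getD_some] at h3
      refine ⟨[f.symm a, f.symm b], by simp, f.symm a, f.symm b, rfl, ?_⟩
      exact h3
  · rintro ⟨l, h1, x, y, rfl, h3⟩
    rw [Encodable.encode_inj] at h1
    rw [← h1]
    simp only [List.map_cons, List.map_nil, List.length_cons, List.length_nil,
      List.getElem?_cons_zero, List.getElem?_cons_succ, Option.getD_some, Equiv.symm_apply_apply]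
    exact ⟨trivial, h3⟩

/-- iteration -/
lemma iter_recT {O : Set (ℕ →. ℕ)} {h f : ℕ → ℕ} (hh : RecT O h) (hf : ∀ n, f (n + 1) = h (f n)) :
    RecT O f := by
  have h1 : RecT O (fun z => h z.unpair.2.unpair.2) :=
    hh.comp (Computable.recT (u2_c.comp u2_c))
  have h2 : RecT O (fun _ => f 0) := Computable.recT (Computable.const _)
  have h3 := RecT.prec h2 h1
  have h4 : RecT O (fun n => Nat.pair 0 n) :=
    Computable.recT (Primrec₂.natPair.to_comp.comp (Computable.const 0) Computable.id)
  have h5 := h3.comp h4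
  refine Nat.RecursiveIn.of_eq h5 ?_
  intro n
  congr 1
  simp only [Nat.unpair_pair]
  induction n with
  | zero => rfl
  | succ n ih =>
    rw [hf n, ← ih]

/-- the isomorphism is computable from the image -/
theorem f_TR_im (G : ℕ → ℕ) (f : ℕ ≃ ℕ) : TR f (im G f) := by
  classical
  -- successor function of the copy
  let h : ℕ → ℕ := fun a => f (f.symm a + 1)
  have hh : RecT {((im G f : ℕ → ℕ) : ℕ →. ℕ)} h := by
    have hc : Computable (fun z : ℕ => if (z.unpair.1 = 1 ∧ z.unpair.2.unpair.1 ≠ z.unpair.2.unpair.2)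
        then 0 else 1) := by
      have u1 : Primrec (fun n : ℕ => n.unpair.1) := Primrec.fst.comp Primrec.unpair
      have u2 : Primrec (fun n : ℕ => n.unpair.2) := Primrec.snd.comp Primrec.unpair
      exact (Primrec.ite (PrimrecPred.and (Primrec.eq.comp u1 (Primrec.const 1))
        (Primrec.eq.comp (u1.comp u2) (u2.comp u2)).not) (Primrec.const 0)
        (Primrec.const 1)).to_comp
    have h1 : RecT {((im G f : ℕ → ℕ) : ℕ →. ℕ)}
        (fun z => Nat.pair (im G f (Encodable.encode [z.unpair.1, z.unpair.2])) z) :=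
      RecT.pair ((TR.refl (im G f)).comp (Computable.recT enc2_c))
        (Computable.recT Computable.id)
    have h2 := (Computable.recT (O := {((im G f : ℕ → ℕ) : ℕ →. ℕ)}) hc).comp h1
    simp only [Nat.unpair_pair] at h2
    refine search (p := fun a b => if (im G f (Encodable.encode [a, b]) = 1 ∧ a ≠ b) then 0 else 1)
      h2 ?_ ?_
    · intro a
      have h3 : im G f (Encodable.encode [a, h a]) = 1 ∧ a ≠ h a := by
        constructor
        · have h4 := (im_pair (G := G) f.injective (f.symm a) (f.symm a + 1)).2 (Or.inl rfl)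
          rw [Equiv.apply_symm_apply] at h4
          exact h4
        · intro h4
          have h5 : f.symm a = f.symm a + 1 := by
            rw [Equiv.symm_apply_eq]
            exact h4
          omega
      exact if_pos h3
    · intro a b hb
      by_cases h3 : im G f (Encodable.encode [a, b]) = 1 ∧ a ≠ b
      · obtain ⟨h4, h5⟩ := h3
        have h6 : im G f (Encodable.encode [f (f.symm a), f (f.symm b)]) = 1 := by
          rw [Equiv.apply_symm_apply, Equiv.apply_symm_apply]; exact h4
        rw [im_pair f.injective] at h6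
        rcases h6 with h6 | h6
        · show b = f (f.symm a + 1)
          rw [← h6, Equiv.apply_symm_apply]
        · exact absurd (f.symm.injective h6.1) h5
      · have hb' : (if (im G f (Encodable.encode [a, b]) = 1 ∧ a ≠ b) then 0 else 1) = 0 := hb
        rw [if_neg h3] at hb'
        omega
  refine iter_recT hh ?_
  intro n
  show f (n + 1) = f (f.symm (f n) + 1)
  rw [Equiv.symm_apply_apply]

theorem G_TR_im (G : ℕ → ℕ) (f : ℕ ≃ ℕ) : TR G (im G f) := by
  classical
  have hf := f_TR_im G f
  have hc : Computable (fun z : ℕ => if z = 1 then 0 else 1) :=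
    (Primrec.ite (Primrec.eq.comp Primrec.id (Primrec.const 1)) (Primrec.const 0)
      (Primrec.const 1)).to_comp
  have h1 : RecT {((im G f : ℕ → ℕ) : ℕ →. ℕ)} (fun z => Nat.pair (f z) (f z)) := RecT.pair hf hf
  have h2 := (Computable.recT (O := {((im G f : ℕ → ℕ) : ℕ →. ℕ)}) hc).comp
    ((TR.refl (im G f)).comp ((Computable.recT enc2_c).comp h1))
  simp only [Nat.unpair_pair] at h2
  have h3 : RecT {((im G f : ℕ → ℕ) : ℕ →. ℕ)} (fun z => (fun n j =>
      if im G f (Encodable.encode [f (Nat.pair n j), f (Nat.pair n j)]) = 1 then 0 else 1)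
      z.unpair.1 z.unpair.2) := by
    refine Nat.RecursiveIn.of_eq h2 ?_
    intro z
    congr 1
    simp only [Nat.pair_unpair]
  refine search (p := fun n j =>
      if im G f (Encodable.encode [f (Nat.pair n j), f (Nat.pair n j)]) = 1 then 0 else 1) h3 ?_ ?_
  · intro n
    have h4 : im G f (Encodable.encode [f (Nat.pair n (G n)), f (Nat.pair n (G n))]) = 1 := by
      rw [im_pair f.injective]
      right
      simp
    exact if_pos h4
  · intro n j hj
    by_cases h4 : im G f (Encodable.encode [f (Nat.pair n j), f (Nat.pair n j)]) = 1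
    · rw [im_pair f.injective] at h4
      rcases h4 with h4 | h4
      · omega
      · have := h4.2
        simp only [Nat.unpair_pair] at this
        exact this.symm
    · have hj' : (if im G f (Encodable.encode [f (Nat.pair n j), f (Nat.pair n j)]) = 1
        then 0 else 1) = 0 := hj
      rw [if_neg h4] at hj'
      omega

/-! copies -/

section copy

variable (lt : ℕ → ℕ → Prop) (f : ℕ ≃ ℕ)

/-- pairs which are not adjacent -/
def NA (z : ℕ) : Prop := ∃ c, lt z.unpair.1 c ∧ lt c z.unpair.2

variable {lt f}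

lemma NA_re (hlt : ComputablePred (fun p : ℕ × ℕ => lt p.1 p.2)) : REPred (NA lt) := by
  classical
  have hd : Computable (fun p : ℕ × ℕ => decide (lt p.1 p.2)) := hlt.decide
  have f1 : Computable (fun q : ℕ × ℕ => q.1) := Computable.fst
  have f2 : Computable (fun q : ℕ × ℕ => q.2) := Computable.snd
  have h1 := hd.comp ((u1_c.comp f1).pair f2)
  have h2 := hd.comp (f2.pair (u2_c.comp f1))
  have h0 := Primrec.and.to_comp.comp h1 h2
  have h3 : Computable₂ (fun z c : ℕ => decide (lt z.unpair.1 c) && decide (lt c z.unpair.2)) :=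
    h0
  refine (Partrec.rfind h3.partrec₂).dom_re.of_eq ?_
  intro z
  refine Iff.trans (Nat.rfind_dom (p := fun c => (Part.some (decide (lt z.unpair.1 c) &&
    decide (lt c z.unpair.2)) : Part Bool))) ?_
  constructor
  · rintro ⟨c, hc, _⟩
    rw [Part.mem_some_iff] at hc
    have hc' := hc.symm
    rw [Bool.and_eq_true, decide_eq_true_eq, decide_eq_true_eq] at hc'
    exact ⟨c, hc'⟩
  · rintro ⟨c, h1, h2⟩
    exact ⟨c, by rw [decide_eq_true h1, decide_eq_true h2]; exact Part.mem_some _,
      fun {m} _ => trivial⟩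

lemma NA_iff (hiso : ∀ x y, x < y ↔ lt (f x) (f y)) (z : ℕ) :
    NA lt z ↔ f.symm z.unpair.1 + 1 < f.symm z.unpair.2 := by
  constructor
  · rintro ⟨c, h1, h2⟩
    have e1 : lt (f (f.symm z.unpair.1)) (f (f.symm c)) := by simpa using h1
    have e2 : lt (f (f.symm c)) (f (f.symm z.unpair.2)) := by simpa using h2
    rw [← hiso] at e1 e2
    omega
  · intro h
    refine ⟨f (f.symm z.unpair.1 + 1), ?_, ?_⟩
    · have : lt (f (f.symm z.unpair.1)) (f (f.symm z.unpair.1 + 1)) := by
        rw [← hiso]; omega
      rwa [Equiv.apply_symm_apply] at this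
    · have : lt (f (f.symm z.unpair.1 + 1)) (f (f.symm z.unpair.2)) := by
        rw [← hiso]; omega
      rwa [Equiv.apply_symm_apply] at this

lemma chi_NA_TR (hiso : ∀ x y, x < y ↔ lt (f x) (f y)) : TR (chi (NA lt)) f := by
  classical
  have hi := inv_recT (TR.refl (f : ℕ → ℕ))
  have h1 := RecT.pair (hi.comp (Computable.recT u1_c)) (hi.comp (Computable.recT u2_c))
  have hc : Computable (fun z : ℕ => if z.unpair.1 + 1 < z.unpair.2 then 1 else 0) := by
    have u1 : Primrec (fun n : ℕ => n.unpair.1) := Primrec.fst.comp Primrec.unpair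
    have u2 : Primrec (fun n : ℕ => n.unpair.2) := Primrec.snd.comp Primrec.unpair
    exact (Primrec.ite (Primrec.nat_lt.comp (Primrec.succ.comp u1) u2) (Primrec.const 1)
      (Primrec.const 0)).to_comp
  have h2 := (Computable.recT (O := {((f : ℕ → ℕ) : ℕ →. ℕ)}) hc).comp h1
  refine Nat.RecursiveIn.of_eq h2 ?_
  intro z
  congr 1
  simp only [Nat.unpair_pair]
  unfold chi
  exact if_congr (NA_iff hiso z).symm rfl rfl

lemma f_TR_NA (hlt : ComputablePred (fun p : ℕ × ℕ => lt p.1 p.2))
    (hiso : ∀ x y, x < y ↔ lt (f x) (f y)) : TR f (chi (NA lt)) := by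
  classical
  have hd : Computable (fun p : ℕ × ℕ => decide (lt p.1 p.2)) := hlt.decide
  let h : ℕ → ℕ := fun a => f (f.symm a + 1)
  have hh : RecT {((chi (NA lt) : ℕ → ℕ) : ℕ →. ℕ)} h := by
    have hc : Computable (fun z : ℕ => bif (decide (lt z.unpair.2.unpair.1 z.unpair.2.unpair.2) &&
        decide (z.unpair.1 = 0)) then 0 else 1) := by
      have c1 : Computable (fun z : ℕ => decide (lt z.unpair.2.unpair.1 z.unpair.2.unpair.2)) :=
        hd.comp ((u1_c.comp u2_c).pair (u2_c.comp u2_c))
      have c2 : Computable (fun z : ℕ => decide (z.unpair.1 = 0)) := by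
        have : PrimrecPred (fun z : ℕ => z.unpair.1 = 0) :=
          Primrec.eq.comp (Primrec.fst.comp Primrec.unpair) (Primrec.const 0)
        exact this.decide.to_comp
      exact Computable.cond (Primrec.and.to_comp.comp c1 c2) (Computable.const 0)
        (Computable.const 1)
    have h1 : RecT {((chi (NA lt) : ℕ → ℕ) : ℕ →. ℕ)}
        (fun z => Nat.pair (chi (NA lt) z) z) :=
      RecT.pair (TR.refl _) (Computable.recT Computable.id)
    have h2 := (Computable.recT (O := {((chi (NA lt) : ℕ → ℕ) : ℕ →. ℕ)}) hc).comp h1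
    simp only [Nat.unpair_pair] at h2
    have h3 : RecT {((chi (NA lt) : ℕ → ℕ) : ℕ →. ℕ)} (fun z => (fun a b =>
        bif (decide (lt a b) && decide (chi (NA lt) (Nat.pair a b) = 0)) then 0 else 1)
        z.unpair.1 z.unpair.2) := by
      refine Nat.RecursiveIn.of_eq h2 ?_
      intro z
      congr 1
      simp only [Nat.pair_unpair]
    have hchar : ∀ a b, (lt a b ∧ chi (NA lt) (Nat.pair a b) = 0) ↔ b = h a := by
      intro a b
      rw [chi_eq_zero, NA_iff hiso]
      simp only [Nat.unpair_pair]
      have e1 : lt a b ↔ f.symm a < f.symm b := by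
        rw [hiso]; simp
      rw [e1]
      constructor
      · rintro ⟨h4, h5⟩
        have h6 : f.symm b = f.symm a + 1 := by omega
        show b = f (f.symm a + 1)
        rw [← h6, Equiv.apply_symm_apply]
      · rintro rfl
        have h6 : f.symm (f (f.symm a + 1)) = f.symm a + 1 := Equiv.symm_apply_apply _ _
        show f.symm a < f.symm (f (f.symm a + 1)) ∧ ¬ f.symm a + 1 < f.symm (f (f.symm a + 1))
        rw [h6]; omega
    refine search (p := fun a b => bif (decide (lt a b) &&
      decide (chi (NA lt) (Nat.pair a b) = 0)) then 0 else 1) h3 ?_ ?_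
    · intro a
      have h4 := (hchar a (h a)).2 rfl
      rw [decide_eq_true h4.1, decide_eq_true h4.2]; rfl
    · intro a b hb
      rw [← hchar]
      by_contra hne
      have h5 : (decide (lt a b) && decide (chi (NA lt) (Nat.pair a b) = 0)) = false := by
        rw [← Bool.not_eq_true, Bool.and_eq_true, decide_eq_true_eq, decide_eq_true_eq]
        exact hne
      simp only [h5, cond_false] at hb
      omega
  refine iter_recT hh ?_
  intro n
  show f (n + 1) = f (f.symm (f n) + 1)
  rw [Equiv.symm_apply_apply]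

lemma NA_index (hlt : ComputablePred (fun p : ℕ × ℕ => lt p.1 p.2)) :
    ∃ i, WW i = chi (NA lt) := by
  classical
  obtain ⟨c, hc⟩ := re_code (NA_re hlt)
  refine ⟨Encodable.encode c, ?_⟩
  funext n
  unfold WW K chi
  rw [Nat.unpair_pair]
  simp only [Denumerable.ofNat_encode]
  exact if_congr (hc n).symm rfl rfl

theorem copy_cases {G : ℕ → ℕ} (hG : ∀ i, TR (WW i) G ∨ TR K (join G (WW i)))
    (hlt : ComputablePred (fun p : ℕ × ℕ => lt p.1 p.2))
    (hiso : ∀ x y, x < y ↔ lt (f x) (f y)) : TR f K ∧ (TR f G ∨ TR K (join G f)) := by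
  obtain ⟨i, hi⟩ := NA_index hlt
  refine ⟨(f_TR_NA hlt hiso).trans (chi_TR_K (NA_re hlt)), ?_⟩
  rcases hG i with h | h
  · left
    rw [hi] at h
    exact (f_TR_NA hlt hiso).trans h
  · right
    rw [hi] at h
    exact h.trans (TR_join (TR_join_left G f) ((chi_NA_TR hiso).trans (TR_join_right G f)))

end copy

end Pool.Agent.Helper743.LO
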