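import Pool.Agent.Helper743.LO

set_option autoImplicit false

namespace Pool.Agent.Helper743.LO

open Nat.Partrec (Code)
open Pool.Agent.Helper743.PR (WW)

/-- the position of a number in the complete copy -/
def key (n : ℕ) : ℕ := if n % 2 = 0 then n else 2 * g (n / 2) + 1

lemma key_p : Primrec key :=
  Primrec.ite (Primrec.eq.comp (Primrec.nat_mod.comp Primrec.id (Primrec.const 2))
    (Primrec.const 0)) Primrec.id
    (Primrec.succ.comp (Primrec.nat_mul.comp (Primrec.const 2)
      (g_primrec.comp (Primrec.nat_div.comp Primrec.id (Primrec.const 2)))))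

lemma key_inj : Function.Injective key := by
  intro a b h
  unfold key at h
  by_cases ha : a % 2 = 0
  · rw [if_pos ha] at h
    by_cases hb : b % 2 = 0
    · rw [if_pos hb] at h; exact h
    · rw [if_neg hb] at h; omega
  · rw [if_neg ha] at h
    by_cases hb : b % 2 = 0
    · rw [if_pos hb] at h; omega
    · rw [if_neg hb] at h
      have h1 : g (a / 2) = g (b / 2) := by omega
      have := g_inj h1
      omega

lemma key_infinite : (Set.range key).Infinite := Set.infinite_range_of_injective key_inj

noncomputable def kf : ℕ ≃ ℕ :=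
  haveI : Infinite (Set.range key) := key_infinite.to_subtype
  (Nat.Subtype.orderIsoOfNat (Set.range key)).toEquiv.trans (Equiv.ofInjective key key_inj).symm

lemma key_kf (x : ℕ) :
    haveI : Infinite (Set.range key) := key_infinite.to_subtype
    key (kf x) = (Nat.Subtype.orderIsoOfNat (Set.range key) x : ℕ) := by
  haveI : Infinite (Set.range key) := key_infinite.to_subtype
  have h := Equiv.apply_ofInjective_symm key_inj (Nat.Subtype.orderIsoOfNat (Set.range key) x)
  exact h

lemma kf_iso (x y : ℕ) : x < y ↔ key (kf x) < key (kf y) := by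
  haveI : Infinite (Set.range key) := key_infinite.to_subtype
  rw [key_kf, key_kf]
  have h := (Nat.Subtype.orderIsoOfNat (Set.range key)).lt_iff_lt (x := x) (y := y)
  rw [← h]
  rfl

lemma kf_symm_iso (a b : ℕ) : kf.symm a < kf.symm b ↔ key a < key b := by
  rw [kf_iso]
  simp

lemma key_lt_computable : ComputablePred (fun p : ℕ × ℕ => key p.1 < key p.2) := by
  have h : PrimrecPred (fun p : ℕ × ℕ => key p.1 < key p.2) :=
    Primrec.nat_lt.comp (key_p.comp Primrec.fst) (key_p.comp Primrec.snd)
  exact h.computablePred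

lemma between (k : ℕ) : (∃ u, g u = 2 * k + 1) ↔
    kf.symm (4 * k + 4) ≠ kf.symm (4 * k + 2) + 1 := by
  have k1 : key (4 * k + 2) = 4 * k + 2 := by unfold key; rw [if_pos (by omega)]
  have k2 : key (4 * k + 4) = 4 * k + 4 := by unfold key; rw [if_pos (by omega)]
  constructor
  · rintro ⟨u, hu⟩ h
    have k3 : key (2 * u + 1) = 4 * k + 3 := by
      unfold key
      rw [if_neg (by omega)]
      have : (2 * u + 1) / 2 = u := by omega
      rw [this, hu]; omega
    have h1 : kf.symm (4 * k + 2) < kf.symm (2 * u + 1) := by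
      rw [kf_symm_iso, k1, k3]; omega
    have h2 : kf.symm (2 * u + 1) < kf.symm (4 * k + 4) := by
      rw [kf_symm_iso, k2, k3]; omega
    omega
  · intro h
    have h0 : kf.symm (4 * k + 2) < kf.symm (4 * k + 4) := by
      rw [kf_symm_iso, k1, k2]; omega
    set c := kf (kf.symm (4 * k + 2) + 1) with hc
    have hcs : kf.symm c = kf.symm (4 * k + 2) + 1 := by rw [hc, Equiv.symm_apply_apply]
    have h1 : key (4 * k + 2) < key c := by rw [← kf_symm_iso, hcs]; omega
    have h2 : key c < key (4 * k + 4) := by rw [← kf_symm_iso, hcs]; omega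
    rw [k1] at h1
    rw [k2] at h2
    have h3 : key c = 4 * k + 3 := by omega
    unfold key at h3
    by_cases h4 : c % 2 = 0
    · rw [if_pos h4] at h3; omega
    · rw [if_neg h4] at h3
      exact ⟨c / 2, by omega⟩

theorem K_TR_kf : TR K kf := by
  classical
  have hi := inv_recT (TR.refl (kf : ℕ → ℕ))
  have c1 : Computable (fun k : ℕ => 4 * k + 4) :=
    (Primrec.nat_add.comp (Primrec.nat_mul.comp (Primrec.const 4) Primrec.id)
      (Primrec.const 4)).to_comp
  have c2 : Computable (fun k : ℕ => 4 * k + 2) :=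
    (Primrec.nat_add.comp (Primrec.nat_mul.comp (Primrec.const 4) Primrec.id)
      (Primrec.const 2)).to_comp
  have h1 := RecT.pair (hi.comp (Computable.recT c1)) (hi.comp (Computable.recT c2))
  have hc : Computable (fun z : ℕ => if z.unpair.1 = z.unpair.2 + 1 then 0 else 1) := by
    have u1 : Primrec (fun n : ℕ => n.unpair.1) := Primrec.fst.comp Primrec.unpair
    have u2 : Primrec (fun n : ℕ => n.unpair.2) := Primrec.snd.comp Primrec.unpair
    exact (Primrec.ite (Primrec.eq.comp u1 (Primrec.succ.comp u2)) (Primrec.const 0)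
      (Primrec.const 1)).to_comp
  have h2 := (Computable.recT (O := {((kf : ℕ → ℕ) : ℕ →. ℕ)}) hc).comp h1
  refine Nat.RecursiveIn.of_eq h2 ?_
  intro k
  congr 1
  simp only [Nat.unpair_pair]
  unfold K
  by_cases h : (Code.eval (Denumerable.ofNat Code k.unpair.1) k.unpair.2).Dom
  · rw [if_pos h]
    rw [dom_iff, hlt_iff, between] at h
    rw [if_neg h]
  · rw [if_neg h]
    rw [dom_iff, hlt_iff, between, not_not] at h
    rw [if_pos h]

/-- all facts about the relation -/
theorem summary : ∃ G : ℕ → ℕ, ¬ TR K G ∧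
    (∀ (lt : ℕ → ℕ → Prop), ComputablePred (fun p : ℕ × ℕ => lt p.1 p.2) →
      ∀ f : ℕ ≃ ℕ, (∀ x y, x < y ↔ lt (f x) (f y)) →
        TR (im G f) K ∧
        ((TR (im G f) G ∧ TR G (im G f)) ∨
          (TR (im G f) (join G K) ∧ TR (join G K) (im G f)))) ∧
    TR (im G (Equiv.refl ℕ)) G ∧ TR K (im G kf) := by
  obtain ⟨G, hG1, hG2, hG3⟩ := PR.main
  refine ⟨G, hG2, ?_, ?_, ?_⟩
  · intro lt hlt f hiso
    obtain ⟨h1, h2⟩ := copy_cases hG3 hlt hiso
    have him := im_TR G f
    refine ⟨him.trans (TR_join hG1 h1), ?_⟩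
    rcases h2 with h2 | h2
    · left
      exact ⟨him.trans (TR_join (TR.refl G) h2), G_TR_im G f⟩
    · right
      refine ⟨him.trans (TR_join (TR_join_left G K) (h1.trans (TR_join_right G K))), ?_⟩
      have h3 : TR (join G f) (im G f) := TR_join (G_TR_im G f) (f_TR_im G f)
      exact TR_join (G_TR_im G f) (h2.trans h3)
  · refine (im_TR G (Equiv.refl ℕ)).trans (TR_join (TR.refl G) ?_)
    exact TR_of_computable Computable.id
  · exact K_TR_kf.trans (f_TR_im G kf)

end Pool.Agent.Helper743.LO
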