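import Pool.Agent.Helper743.Ideal

set_option autoImplicit false

/-! The limit lemma, for total functions. -/

namespace Pool.Agent.Helper743

open Nat.Partrec (Code)

/-- limits of computable functions -/
def LimC (f : ℕ → ℕ) : Prop :=
  ∃ g : ℕ → ℕ → ℕ, Computable₂ g ∧ ∀ k, ∃ s0, ∀ s, s0 ≤ s → g k s = f k

/-- the stage approximation of a Boolean valued test of halting -/
def hlt' (k t : ℕ) : Bool :=
  (Code.evaln t (Denumerable.ofNat Code k.unpair.1) k.unpair.2).isSome

lemma chi_eq_zero {p : ℕ → Prop} {n : ℕ} : chi p n = 0 ↔ ¬ p n := by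
  unfold chi
  by_cases h : p n
  · simp [h]
  · simp [h]

theorem LimC.TR_K {f : ℕ → ℕ} (h : LimC f) : TR f K := by
  classical
  obtain ⟨g, hg, hlim⟩ := h
  -- instability is c.e.
  let p : ℕ → Prop := fun z => ∃ s, z.unpair.2 ≤ s ∧ g z.unpair.1 s ≠ g z.unpair.1 z.unpair.2
  have hp : REPred p := by
    have h1 : Computable₂ (fun (z s : ℕ) =>
        decide (z.unpair.2 ≤ s ∧ g z.unpair.1 s ≠ g z.unpair.1 z.unpair.2)) := by
      have u1 : Computable (fun q : ℕ × ℕ => q.1.unpair.1) :=
        (Computable.fst.comp Computable.unpair).comp Computable.fst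
      have u2 : Computable (fun q : ℕ × ℕ => q.1.unpair.2) :=
        (Computable.snd.comp Computable.unpair).comp Computable.fst
      have a1 : Computable (fun q : ℕ × ℕ => decide (q.1.unpair.2 ≤ q.2)) := by
        have h : PrimrecRel (fun a b : ℕ => a ≤ b) := Primrec.nat_le
        exact h.decide.to_comp.comp u2 Computable.snd
      have a2 : Computable (fun q : ℕ × ℕ =>
          decide (g q.1.unpair.1 q.2 = g q.1.unpair.1 q.1.unpair.2)) := by
        have h : PrimrecRel (fun a b : ℕ => a = b) := Primrec.eq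
        exact h.decide.to_comp.comp (hg.comp u1 Computable.snd) (hg.comp u1 u2)
      have a3 := Primrec.and.to_comp.comp a1 (Primrec.not.to_comp.comp a2)
      refine a3.of_eq ?_
      intro q
      simp
    have h2 := (Partrec.rfind h1.partrec₂).dom_re
    refine h2.of_eq ?_
    intro z
    refine Iff.trans (Nat.rfind_dom (p := fun s => (Part.some (decide (z.unpair.2 ≤ s ∧
      g z.unpair.1 s ≠ g z.unpair.1 z.unpair.2)) : Part Bool))) ?_
    constructor
    · rintro ⟨s, hs, _⟩
      rw [Part.mem_some_iff] at hs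
      exact ⟨s, of_decide_eq_true hs.symm⟩
    · rintro ⟨s, hs⟩
      exact ⟨s, by rw [decide_eq_true hs]; exact Part.mem_some _, fun {m} _ => trivial⟩
  have h1 : TR (chi p) K := chi_TR_K hp
  have hex : ∀ a, ∃ n, chi p (Nat.pair a n) = 0 := by
    intro a
    obtain ⟨s0, hs0⟩ := hlim a
    refine ⟨s0, ?_⟩
    rw [chi_eq_zero]
    rintro ⟨s, hs1, hs2⟩
    rw [Nat.unpair_pair] at hs1 hs2
    simp only at hs1 hs2
    rw [hs0 s hs1, hs0 s0 (le_refl _)] at hs2
    exact hs2 rfl
  have h2 : RecT {(K : ℕ →. ℕ)} (fun a => Nat.find (hex a)) := RecT.find h1 hex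
  have h3 : RecT {(K : ℕ →. ℕ)} (fun a => Nat.pair a (Nat.find (hex a))) :=
    RecT.pair (Computable.recT Computable.id) h2
  have hg' : Computable (fun z : ℕ => g z.unpair.1 z.unpair.2) :=
    hg.comp (Computable.fst.comp Computable.unpair) (Computable.snd.comp Computable.unpair)
  have h4 := (Computable.recT (O := {(K : ℕ →. ℕ)}) hg').comp h3
  refine Nat.RecursiveIn.of_eq h4 ?_
  intro a
  congr 1
  simp only [Nat.unpair_pair]
  obtain ⟨s0, hs0⟩ := hlim a
  have h5 := Nat.find_spec (hex a)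
  rw [chi_eq_zero] at h5
  by_contra hne
  apply h5
  refine ⟨max s0 (Nat.find (hex a)), ?_, ?_⟩
  · rw [Nat.unpair_pair]; exact le_max_right _ _
  · rw [Nat.unpair_pair]
    simp only
    rw [hs0 _ (le_max_left _ _)]
    exact fun h => hne h.symm

/-- approximations of the halting function -/
def Kt (t k : ℕ) : ℕ := bif hlt' k t then 1 else 0

lemma Kt_lim (k : ℕ) : ∃ t0, ∀ t, t0 ≤ t → Kt t k = K k := by
  classical
  by_cases h : (Code.eval (Denumerable.ofNat Code k.unpair.1) k.unpair.2).Dom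
  · rw [Part.dom_iff_mem] at h
    obtain ⟨y, hy⟩ := h
    obtain ⟨t0, ht0⟩ := Code.evaln_complete.1 hy
    refine ⟨t0, fun t ht => ?_⟩
    have h1 : hlt' k t = true := by
      unfold hlt'
      rw [Option.isSome_iff_exists]
      exact ⟨y, Code.evaln_mono ht ht0⟩
    unfold Kt K
    rw [h1, if_pos (Part.dom_iff_mem.2 ⟨y, hy⟩)]; rfl
  · refine ⟨0, fun t _ => ?_⟩
    have h1 : hlt' k t = false := by
      rw [← Bool.not_eq_true]
      intro hh
      apply h
      unfold hlt' at hh
      rw [Option.isSome_iff_exists] at hh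
      obtain ⟨a, ha⟩ := hh
      exact Part.dom_iff_mem.2 ⟨a, Code.evaln_complete.2 ⟨t, ha⟩⟩
    unfold Kt K
    rw [h1, if_neg h]; rfl

lemma hlt'_primrec : Primrec₂ hlt' := by
  have h : Primrec (fun p : ℕ × ℕ =>
      Code.evaln p.2 (Denumerable.ofNat Code p.1.unpair.1) p.1.unpair.2) :=
    Code.primrec_evaln.comp (((Primrec.snd).pair ((Primrec.ofNat Code).comp
      (Primrec.fst.comp (Primrec.unpair.comp Primrec.fst)))).pair
      (Primrec.snd.comp (Primrec.unpair.comp Primrec.fst)))
  exact Primrec.option_isSome.comp h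

lemma Kt_primrec : Primrec₂ Kt := by
  have h : Primrec (fun p : ℕ × ℕ => hlt' p.2 p.1) := hlt'_primrec.comp Primrec.snd Primrec.fst
  exact Primrec.cond h (Primrec.const 1) (Primrec.const 0)

lemma Kt_pre_lim (n : ℕ) : ∃ t0, ∀ t, t0 ≤ t → pre (Kt t) n = pre K n := by
  induction n with
  | zero => exact ⟨0, fun t _ => rfl⟩
  | succ n ih =>
    obtain ⟨t0, h0⟩ := ih
    obtain ⟨t1, h1⟩ := Kt_lim n
    refine ⟨max t0 t1, fun t ht => ?_⟩
    rw [pre_succ, pre_succ, h0 t (le_trans (le_max_left _ _) ht),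
      h1 t (le_trans (le_max_right _ _) ht)]

theorem LimC.of_TR_K {f : ℕ → ℕ} (h : TR f K) : LimC f := by
  obtain ⟨ev, hev, hmono, hcor⟩ := use_principle K _ h
  have hpre : Computable (fun t : ℕ => pre (Kt t) t) := by
    have h1 : Primrec (fun t : ℕ => (List.range t).map (fun u => Kt t u)) :=
      Primrec.list_map Primrec.list_range (Kt_primrec.comp Primrec.fst Primrec.snd)
    exact h1.to_comp.of_eq (by intro q; rfl)
  refine ⟨fun x t => (ev (pre (Kt t) t) x).getD 0, ?_, ?_⟩
  · exact Computable.option_getD (hev.comp (hpre.comp Computable.snd) Computable.fst)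
      (Computable.const 0)
  · intro x
    obtain ⟨n, hn⟩ := (hcor x (f x)).1 (Part.mem_some _)
    obtain ⟨t0, h0⟩ := Kt_pre_lim n
    refine ⟨max t0 n, fun t ht => ?_⟩
    have h1 : ev (pre (Kt t) n) x = some (f x) := by
      rw [h0 t (le_trans (le_max_left _ _) ht)]; exact hn
    have h2 := hmono _ _ _ _ (pre_prefix (Kt t) (le_trans (le_max_right _ _) ht)) h1
    simp only [h2, Option.getD_some]

end Pool.Agent.Helper743
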