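import Mathlib

set_option autoImplicit false

/-! Oracle computability toolkit: closure properties, use principle, certificates. -/

namespace Pool.Agent.Helper743

open Nat.Partrec (Code)

/-- a total function is recursive in the set of oracles `O` -/
def RecT (O : Set (ℕ →. ℕ)) (f : ℕ → ℕ) : Prop :=
  Nat.RecursiveIn O (fun n => Part.some (f n))

lemma Computable.recT {O : Set (ℕ →. ℕ)} {f : ℕ → ℕ} (hf : Computable f) : RecT O f := by
  have h : Nat.Partrec (fun n => Part.some (f n)) := Partrec.nat_iff.1 hf
  exact h.recursiveIn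

lemma RecT.comp {O : Set (ℕ →. ℕ)} {f g : ℕ → ℕ} (hf : RecT O f) (hg : RecT O g) :
    RecT O (fun n => f (g n)) := by
  refine (Nat.RecursiveIn.comp hf hg).of_eq ?_
  intro n
  simp

lemma RecT.pair {O : Set (ℕ →. ℕ)} {f g : ℕ → ℕ} (hf : RecT O f) (hg : RecT O g) :
    RecT O (fun n => Nat.pair (f n) (g n)) := by
  refine (Nat.RecursiveIn.pair hf hg).of_eq ?_
  intro n
  simp [Seq.seq]

lemma RecT.prec {O : Set (ℕ →. ℕ)} {f h : ℕ → ℕ} (hf : RecT O f) (hh : RecT O h) :
    RecT O (fun p => Nat.rec (f p.unpair.1)
      (fun y ih => h (Nat.pair p.unpair.1 (Nat.pair y ih))) p.unpair.2) := by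
  refine (Nat.RecursiveIn.prec hf hh).of_eq ?_
  intro p
  simp only
  generalize p.unpair.1 = a
  generalize p.unpair.2 = n
  induction n with
  | zero => rfl
  | succ n ih => simp only [ih]; simp

lemma RecT.find {O : Set (ℕ →. ℕ)} {p : ℕ → ℕ} (hp : RecT O p)
    (hex : ∀ a, ∃ n, p (Nat.pair a n) = 0) :
    RecT O (fun a => Nat.find (hex a)) := by
  refine (Nat.RecursiveIn.rfind hp).of_eq ?_
  intro a
  have : (Nat.rfind fun n => (fun m => decide (m = 0)) <$> (Part.some (p (Nat.pair a n)))) =
      Part.some (Nat.find (hex a)) := by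
    refine Part.eq_some_iff.2 (Nat.mem_rfind.2 ⟨?_, ?_⟩)
    · simp [Nat.find_spec (hex a)]
    · intro m hm
      have := Nat.find_min (hex a) hm
      simp [this]
  exact this

lemma RecT.subst {O O' : Set (ℕ →. ℕ)} {f : ℕ → ℕ} (hf : RecT O f)
    (h : ∀ g ∈ O, Nat.RecursiveIn O' g) : RecT O' f := Nat.RecursiveIn.subst hf h

/-- `f` is Turing reducible to `g`, for total functions -/
def TR (f g : ℕ → ℕ) : Prop := RecT {(g : ℕ →. ℕ)} f

lemma TR_iff {f g : ℕ → ℕ} : TR f g ↔ TuringReducible (f : ℕ →. ℕ) (g : ℕ →. ℕ) := by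
  unfold TR RecT TuringReducible
  rw [RecursiveIn.iff_nat]
  rfl

lemma TR.refl (f : ℕ → ℕ) : TR f f := Nat.RecursiveIn.oracle _ rfl

lemma TR.trans {f g h : ℕ → ℕ} (h1 : TR f g) (h2 : TR g h) : TR f h := by
  refine RecT.subst h1 ?_
  intro k hk
  rw [Set.mem_singleton_iff] at hk
  subst hk
  exact h2

lemma TR.of_recT {O : Set (ℕ →. ℕ)} {f g : ℕ → ℕ} (h : TR f g) (hg : RecT O g) : RecT O f := by
  refine RecT.subst h ?_
  intro k hk
  rw [Set.mem_singleton_iff] at hk
  subst hk
  exact hg

/-- join of two functions -/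
def join (f g : ℕ → ℕ) : ℕ → ℕ := fun n => Nat.pair (f n) (g n)

lemma TR_join_left (f g : ℕ → ℕ) : TR f (join f g) := by
  have h1 : Computable (fun n : ℕ => n.unpair.1) := Computable.fst.comp Computable.unpair
  have := (Computable.recT (O := {((join f g : ℕ → ℕ) : ℕ →. ℕ)}) h1).comp (TR.refl (join f g))
  have h2 : (fun n => (join f g n).unpair.1) = f := by funext n; simp [join]
  rw [h2] at this
  exact this

lemma TR_join_right (f g : ℕ → ℕ) : TR g (join f g) := by
  have h1 : Computable (fun n : ℕ => n.unpair.2) := Computable.snd.comp Computable.unpair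
  have := (Computable.recT (O := {((join f g : ℕ → ℕ) : ℕ →. ℕ)}) h1).comp (TR.refl (join f g))
  have h2 : (fun n => (join f g n).unpair.2) = g := by funext n; simp [join]
  rw [h2] at this
  exact this

lemma TR_join {f g h : ℕ → ℕ} (h1 : TR f h) (h2 : TR g h) : TR (join f g) h :=
  RecT.pair h1 h2

/-! prefixes -/

def pre (G : ℕ → ℕ) (n : ℕ) : List ℕ := (List.range n).map G

@[simp] lemma pre_length (G : ℕ → ℕ) (n : ℕ) : (pre G n).length = n := by simp [pre]

lemma pre_succ (G : ℕ → ℕ) (n : ℕ) : pre G (n+1) = pre G n ++ [G n] := by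
  simp [pre, List.range_succ]

lemma pre_getElem? (G : ℕ → ℕ) (n x : ℕ) : (pre G n)[x]? = if x < n then some (G x) else none := by
  unfold pre
  by_cases h : x < n <;> simp [h]

lemma pre_prefix (G : ℕ → ℕ) {n m : ℕ} (h : n ≤ m) : pre G n <+: pre G m := by
  obtain ⟨k, rfl⟩ := Nat.exists_eq_add_of_le h
  induction k with
  | zero => simp
  | succ k ih =>
    rw [← Nat.add_assoc, pre_succ]
    exact (ih (by omega)).trans (List.prefix_append _ _)

lemma pre_eq_of_prefix {G : ℕ → ℕ} {σ : List ℕ} (h : ∀ i (hi : i < σ.length), σ[i] = G i) :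
    σ = pre G σ.length := by
  apply List.ext_getElem
  · simp
  · intro i h1 h2
    rw [h i h1]
    simp [pre]

lemma recT_pre {O : Set (ℕ →. ℕ)} {G : ℕ → ℕ} (hG : RecT O G) :
    RecT O (fun n => Encodable.encode (pre G n)) := by
  -- primitive recursion on n
  have hstep : Computable (fun z : ℕ => Encodable.encode
      (((Encodable.decode (α := List ℕ) z.unpair.1).getD []) ++ [z.unpair.2])) := by
    have h1 : Computable (fun z : ℕ => (Encodable.decode (α := List ℕ) z.unpair.1).getD []) :=
      Computable.option_getD (Computable.decode.comp (Computable.fst.comp Computable.unpair))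
        (Computable.const [])
    exact Computable.encode.comp
      (Computable.list_concat.comp h1 (Computable.snd.comp Computable.unpair))
  have c1 : Computable (fun z : ℕ => z.unpair.2.unpair.2) :=
    Computable.snd.comp (Computable.unpair.comp (Computable.snd.comp Computable.unpair))
  have c2 : Computable (fun z : ℕ => z.unpair.2.unpair.1) :=
    Computable.fst.comp (Computable.unpair.comp (Computable.snd.comp Computable.unpair))
  have h1 : RecT O (fun z => Nat.pair z.unpair.2.unpair.2 (G z.unpair.2.unpair.1)) :=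
    RecT.pair (Computable.recT c1) (hG.comp (Computable.recT c2))
  have h2 := (Computable.recT (O := O) hstep).comp h1
  have h3 := RecT.prec (Computable.recT (O := O) (Computable.const (Encodable.encode ([] : List ℕ)))) h2
  have h4 := h3.comp (RecT.pair (Computable.recT (O := O) (Computable.const 0))
    (Computable.recT (O := O) Computable.id))
  refine Nat.RecursiveIn.of_eq h4 ?_
  intro n
  congr 1
  simp only [Nat.unpair_pair, id]
  induction n with
  | zero => rfl
  | succ n ih =>
    change Encodable.encode (((Encodable.decode (α := List ℕ) (Nat.rec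
      (Encodable.encode ([] : List ℕ)) (fun y ih =>
        Encodable.encode ((Encodable.decode (α := List ℕ) ih).getD [] ++ [G y])) n)).getD [])
        ++ [G n]) = _
    rw [ih]
    simp [pre_succ]

/-- certificate lemma: a total function computed by a computable verifier of certificates
relative to prefixes of an oracle. -/
theorem cert {O : Set (ℕ →. ℕ)} {G : ℕ → ℕ} (hG : RecT O G)
    (p : List ℕ → ℕ → ℕ → Option ℕ)
    (hp : Computable (fun q : (List ℕ × ℕ) × ℕ => p q.1.1 q.1.2 q.2)) (f : ℕ → ℕ)
    (hex : ∀ x, ∃ n w, (p (pre G n) x w).isSome)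
    (hs : ∀ x n w y, p (pre G n) x w = some y → y = f x) : RecT O f := by
  -- combined check: input z = pair x (pair n w)
  let q : ℕ → Option ℕ := fun z =>
    p (pre G z.unpair.2.unpair.1) z.unpair.1 z.unpair.2.unpair.2
  have hq : RecT O (fun z => Encodable.encode (q z)) := by
    have h1 : Computable (fun z : ℕ => Encodable.encode
        (p ((Encodable.decode (α := List ℕ) z.unpair.1).getD []) z.unpair.2.unpair.1
          z.unpair.2.unpair.2)) := by
      have a1 : Computable (fun z : ℕ => (Encodable.decode (α := List ℕ) z.unpair.1).getD []) :=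
        Computable.option_getD (Computable.decode.comp (Computable.fst.comp Computable.unpair))
          (Computable.const [])
      have a2 : Computable (fun z : ℕ => z.unpair.2.unpair.1) :=
        Computable.fst.comp (Computable.unpair.comp (Computable.snd.comp Computable.unpair))
      have a3 : Computable (fun z : ℕ => z.unpair.2.unpair.2) :=
        Computable.snd.comp (Computable.unpair.comp (Computable.snd.comp Computable.unpair))
      exact Computable.encode.comp (hp.comp ((a1.pair a2).pair a3))
    have b1 : Computable (fun z : ℕ => z.unpair.2.unpair.1) :=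
      Computable.fst.comp (Computable.unpair.comp (Computable.snd.comp Computable.unpair))
    have b2 : Computable (fun z : ℕ => Nat.pair z.unpair.1 z.unpair.2.unpair.2) :=
      Primrec₂.natPair.to_comp.comp (Computable.fst.comp Computable.unpair)
        (Computable.snd.comp (Computable.unpair.comp (Computable.snd.comp Computable.unpair)))
    have h2 : RecT O (fun z => Nat.pair (Encodable.encode (pre G z.unpair.2.unpair.1))
        (Nat.pair z.unpair.1 z.unpair.2.unpair.2)) :=
      RecT.pair ((recT_pre hG).comp (Computable.recT b1)) (Computable.recT b2)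
    have h3 := (Computable.recT (O := O) h1).comp h2
    refine Nat.RecursiveIn.of_eq h3 ?_
    intro z
    simp [q]
  -- search
  have hs1 : Computable (fun z : ℕ => if z = 0 then 1 else 0) := by
    have : Primrec (fun z : ℕ => if z = 0 then 1 else 0) :=
      Primrec.ite (Primrec.eq.comp Primrec.id (Primrec.const 0)) (Primrec.const 1) (Primrec.const 0)
    exact this.to_comp
  have hsearch : RecT O (fun z => if Encodable.encode (q z) = 0 then 1 else 0) :=
    (Computable.recT (O := O) hs1).comp hq
  have hex' : ∀ a, ∃ n, (fun z => if Encodable.encode (q z) = 0 then 1 else 0) (Nat.pair a n)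
      = 0 := by
    intro a
    obtain ⟨n, w, hnw⟩ := hex a
    refine ⟨Nat.pair n w, ?_⟩
    simp only
    rw [if_neg]
    simp only [q, Nat.unpair_pair]
    rw [Option.isSome_iff_exists] at hnw
    obtain ⟨y, hy⟩ := hnw
    rw [hy]; simp
  have hfind := RecT.find hsearch hex'
  have hout : Computable (fun z : ℕ => ((Encodable.decode (α := Option ℕ) z).getD none).getD 0) := by
    exact Computable.option_getD (Computable.option_getD Computable.decode (Computable.const none))
      (Computable.const 0)
  have h5 := (Computable.recT (O := O) hout).comp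
    (hq.comp (RecT.pair (Computable.recT (O := O) Computable.id) hfind))
  refine Nat.RecursiveIn.of_eq h5 ?_
  intro x
  congr 1
  have hsp := Nat.find_spec (hex' x)
  simp only at hsp
  set m := Nat.find (hex' x) with hm
  simp only [id]
  cases hqz : q (Nat.pair x m) with
  | none => rw [hqz] at hsp; simp at hsp
  | some y =>
    simp only [Encodable.encodek, Option.getD_some]
    have : p (pre G m.unpair.1) x m.unpair.2 = some y := by
      have := hqz
      simp only [q, Nat.unpair_pair] at this
      exact this
    exact hs x _ _ y this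

/-! the use principle -/

/-- auxiliary search for `rfind` -/
def rfAux (ev : List ℕ → ℕ → Option ℕ) (σ : List ℕ) (a : ℕ) : ℕ → Option (Option ℕ)
  | 0 => some none
  | k+1 => (rfAux ev σ a k).bind (fun r =>
      Option.casesOn r ((ev σ (Nat.pair a k)).map (fun v => if v = 0 then some k else none))
        (fun m => some (some m)))

lemma rfAux_none (ev : List ℕ → ℕ → Option ℕ) (σ : List ℕ) (a k : ℕ) :
    rfAux ev σ a k = some none ↔ ∀ j < k, ∃ v, v ≠ 0 ∧ ev σ (Nat.pair a j) = some v := by
  induction k with
  | zero => simp [rfAux]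
  | succ k ih =>
    unfold rfAux
    constructor
    · intro h
      rw [Option.bind_eq_some_iff] at h
      obtain ⟨r, hr, h2⟩ := h
      cases r with
      | some m => simp at h2
      | none =>
        simp only [Option.map_eq_some_iff] at h2
        obtain ⟨v, hv, h3⟩ := h2
        intro j hj
        rcases Nat.lt_succ_iff_lt_or_eq.1 hj with h4 | h4
        · exact ih.1 hr j h4
        · subst h4
          refine ⟨v, ?_, hv⟩
          rintro rfl
          simp at h3
    · intro h
      have h1 := ih.2 (fun j hj => h j (by omega))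
      rw [h1]
      obtain ⟨v, hv, hev⟩ := h k (by omega)
      simp [hev, hv]

lemma rfAux_some (ev : List ℕ → ℕ → Option ℕ) (σ : List ℕ) (a k m : ℕ) :
    rfAux ev σ a k = some (some m) ↔ m < k ∧ ev σ (Nat.pair a m) = some 0 ∧
      ∀ j < m, ∃ v, v ≠ 0 ∧ ev σ (Nat.pair a j) = some v := by
  induction k with
  | zero => simp [rfAux]
  | succ k ih =>
    constructor
    · intro h
      unfold rfAux at h
      rw [Option.bind_eq_some_iff] at h
      obtain ⟨r, hr, h2⟩ := h
      cases r with
      | some m' =>
        simp only [Option.some.injEq] at h2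
        subst h2
        obtain ⟨h3, h4⟩ := ih.1 hr
        exact ⟨by omega, h4⟩
      | none =>
        simp only [Option.map_eq_some_iff] at h2
        obtain ⟨v, hv, h3⟩ := h2
        by_cases hv0 : v = 0
        · subst hv0
          simp only [if_true, Option.some.injEq] at h3
          subst h3
          exact ⟨by omega, hv, (rfAux_none ev σ a k).1 hr⟩
        · simp [hv0] at h3
    · rintro ⟨h1, h2, h3⟩
      unfold rfAux
      rcases Nat.lt_succ_iff_lt_or_eq.1 h1 with h4 | h4
      · rw [ih.2 ⟨h4, h2, h3⟩]; simp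
      · subst h4
        rw [(rfAux_none ev σ a m).2 h3]
        simp [h2]

lemma rfAux_computable {ev : List ℕ → ℕ → Option ℕ} (hev : Computable₂ ev) :
    Computable (fun q : List ℕ × ℕ => (rfAux ev q.1 q.2 q.1.length)) := by
  have hstep : Computable₂ (fun (q : List ℕ × ℕ) (z : ℕ × Option (Option ℕ)) =>
      z.2.bind (fun r => (Option.casesOn r
        ((ev q.1 (Nat.pair q.2 z.1)).map (fun v => if v = 0 then some z.1 else none))
        (fun m => some (some m)) : Option (Option ℕ)))) := by
    have g1 : Computable (fun w : (List ℕ × ℕ) × (ℕ × Option (Option ℕ)) => w.2.2) :=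
      Computable.snd.comp Computable.snd
    have g2 : Computable₂ (fun (w : (List ℕ × ℕ) × (ℕ × Option (Option ℕ))) (r : Option ℕ) =>
        (Option.casesOn r
        ((ev w.1.1 (Nat.pair w.1.2 w.2.1)).map (fun v => if v = 0 then some w.2.1 else none))
        (fun m => some (some m)) : Option (Option ℕ))) := by
      have hr : Computable (fun z : ((List ℕ × ℕ) × (ℕ × Option (Option ℕ))) × Option ℕ => z.2) :=
        Computable.snd
      have hq1 : Computable (fun z : ((List ℕ × ℕ) × (ℕ × Option (Option ℕ))) × Option ℕ =>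
          z.1.1.1) := Computable.fst.comp (Computable.fst.comp Computable.fst)
      have hq2 : Computable (fun z : ((List ℕ × ℕ) × (ℕ × Option (Option ℕ))) × Option ℕ =>
          z.1.1.2) := Computable.snd.comp (Computable.fst.comp Computable.fst)
      have hk : Computable (fun z : ((List ℕ × ℕ) × (ℕ × Option (Option ℕ))) × Option ℕ =>
          z.1.2.1) := Computable.fst.comp (Computable.snd.comp Computable.fst)
      have he : Computable (fun z : ((List ℕ × ℕ) × (ℕ × Option (Option ℕ))) × Option ℕ =>
          ev z.1.1.1 (Nat.pair z.1.1.2 z.1.2.1)) :=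
        hev.comp hq1 (Primrec₂.natPair.to_comp.comp hq2 hk)
      have hm : Computable (fun z : ((List ℕ × ℕ) × (ℕ × Option (Option ℕ))) × Option ℕ =>
          (ev z.1.1.1 (Nat.pair z.1.1.2 z.1.2.1)).map
            (fun v => if v = 0 then some z.1.2.1 else none)) := by
        refine Computable.option_map he ?_
        have hc : Primrec (fun w : (((List ℕ × ℕ) × (ℕ × Option (Option ℕ))) × Option ℕ) × ℕ =>
            if w.2 = 0 then some w.1.1.2.1 else none) :=
          Primrec.ite (Primrec.eq.comp Primrec.snd (Primrec.const 0))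
            (Primrec.option_some.comp (Primrec.fst.comp (Primrec.snd.comp
              (Primrec.fst.comp Primrec.fst)))) (Primrec.const none)
        exact hc.to_comp
      have hs : Computable₂ (fun (_ : ((List ℕ × ℕ) × (ℕ × Option (Option ℕ))) × Option ℕ)
          (m : ℕ) => (some (some m) : Option (Option ℕ))) := by
        have h0 : Primrec (fun z : (((List ℕ × ℕ) × (ℕ × Option (Option ℕ))) × Option ℕ) × ℕ =>
            (some (some z.2) : Option (Option ℕ))) :=
          Primrec.option_some.comp (Primrec.option_some.comp Primrec.snd)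
        exact h0.to_comp
      exact Computable.option_casesOn hr hm hs
    exact Computable.option_bind g1 g2
  have h := Computable.nat_rec (Computable.list_length.comp Computable.fst)
      (Computable.const (some none)) hstep
  refine h.of_eq ?_
  intro q
  generalize q.1.length = n
  induction n with
  | zero => rfl
  | succ n ih =>
    unfold rfAux
    rw [← ih]

/-- auxiliary recursion for `prec` -/
def precAux (e1 e2 : List ℕ → ℕ → Option ℕ) (σ : List ℕ) (a : ℕ) : ℕ → Option ℕ
  | 0 => e1 σ a
  | k+1 => (precAux e1 e2 σ a k).bind (fun i => e2 σ (Nat.pair a (Nat.pair k i)))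

lemma precAux_mono {e1 e2 : List ℕ → ℕ → Option ℕ}
    (m1 : ∀ σ τ x y, σ <+: τ → e1 σ x = some y → e1 τ x = some y)
    (m2 : ∀ σ τ x y, σ <+: τ → e2 σ x = some y → e2 τ x = some y)
    {σ τ : List ℕ} (hst : σ <+: τ) (a n y : ℕ) :
    precAux e1 e2 σ a n = some y → precAux e1 e2 τ a n = some y := by
  induction n generalizing y with
  | zero => exact m1 _ _ _ _ hst
  | succ n ih =>
    intro h
    rw [precAux, Option.bind_eq_some_iff] at h ⊢
    obtain ⟨i, hi, h⟩ := h
    exact ⟨i, ih _ hi, m2 _ _ _ _ hst h⟩

lemma precAux_computable {e1 e2 : List ℕ → ℕ → Option ℕ} (c1 : Computable₂ e1)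
    (c2 : Computable₂ e2) :
    Computable (fun q : List ℕ × ℕ => precAux e1 e2 q.1 q.2.unpair.1 q.2.unpair.2) := by
  have ha : Computable (fun q : List ℕ × ℕ => q.2.unpair.1) :=
    Computable.fst.comp (Computable.unpair.comp Computable.snd)
  have hn : Computable (fun q : List ℕ × ℕ => q.2.unpair.2) :=
    Computable.snd.comp (Computable.unpair.comp Computable.snd)
  have h0 : Computable (fun q : List ℕ × ℕ => e1 q.1 q.2.unpair.1) :=
    c1.comp Computable.fst ha
  have hstep : Computable₂ (fun (q : List ℕ × ℕ) (z : ℕ × Option ℕ) =>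
      z.2.bind (fun i => e2 q.1 (Nat.pair q.2.unpair.1 (Nat.pair z.1 i)))) := by
    have g1 : Computable (fun w : (List ℕ × ℕ) × (ℕ × Option ℕ) => w.2.2) :=
      Computable.snd.comp Computable.snd
    have g2 : Computable₂ (fun (w : (List ℕ × ℕ) × (ℕ × Option ℕ)) (i : ℕ) =>
        e2 w.1.1 (Nat.pair w.1.2.unpair.1 (Nat.pair w.2.1 i))) := by
      have k1 : Computable (fun v : ((List ℕ × ℕ) × (ℕ × Option ℕ)) × ℕ => v.1.1.1) :=
        Computable.fst.comp (Computable.fst.comp Computable.fst)
      have k2 : Computable (fun v : ((List ℕ × ℕ) × (ℕ × Option ℕ)) × ℕ => v.1.1.2.unpair.1) :=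
        ha.comp (Computable.fst.comp Computable.fst)
      have k3 : Computable (fun v : ((List ℕ × ℕ) × (ℕ × Option ℕ)) × ℕ => v.1.2.1) :=
        Computable.fst.comp (Computable.snd.comp Computable.fst)
      have k4 : Computable (fun v : ((List ℕ × ℕ) × (ℕ × Option ℕ)) × ℕ => v.2) :=
        Computable.snd
      exact c2.comp k1 (Primrec₂.natPair.to_comp.comp k2 (Primrec₂.natPair.to_comp.comp k3 k4))
    exact Computable.option_bind g1 g2
  have := Computable.nat_rec hn h0 hstep
  refine this.of_eq ?_
  intro q
  generalize q.2.unpair.2 = n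
  induction n with
  | zero => rfl
  | succ n ih =>
    rw [precAux, ← ih]

theorem use_principle (G : ℕ → ℕ) (f : ℕ →. ℕ) (h : Nat.RecursiveIn {(G : ℕ →. ℕ)} f) :
    ∃ ev : List ℕ → ℕ → Option ℕ, Computable₂ ev ∧
      (∀ σ τ x y, σ <+: τ → ev σ x = some y → ev τ x = some y) ∧
      (∀ x y, y ∈ f x ↔ ∃ n, ev (pre G n) x = some y) := by
  induction h with
  | zero =>
    refine ⟨fun _ _ => some 0, Computable.const _, fun _ _ _ _ _ h => h, fun x y => ?_⟩
    show y ∈ Part.some 0 ↔ _
    simp [eq_comm]
  | succ =>
    refine ⟨fun _ x => some (x+1), Computable.option_some.comp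
      (Computable.succ.comp Computable.snd), fun _ _ _ _ _ h => h, fun x y => ?_⟩
    show y ∈ Part.some (x+1) ↔ _
    simp [eq_comm]
  | left =>
    refine ⟨fun _ x => some x.unpair.1, Computable.option_some.comp
      (Computable.fst.comp (Computable.unpair.comp Computable.snd)),
      fun _ _ _ _ _ h => h, fun x y => ?_⟩
    show y ∈ Part.some _ ↔ _
    simp [eq_comm]
  | right =>
    refine ⟨fun _ x => some x.unpair.2, Computable.option_some.comp
      (Computable.snd.comp (Computable.unpair.comp Computable.snd)),
      fun _ _ _ _ _ h => h, fun x y => ?_⟩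
    show y ∈ Part.some _ ↔ _
    simp [eq_comm]
  | oracle g hg =>
    rw [Set.mem_singleton_iff] at hg
    subst hg
    refine ⟨fun σ x => σ[x]?, Computable.list_getElem?, ?_, fun x y => ?_⟩
    · intro σ τ x y hst h
      obtain ⟨ρ, rfl⟩ := hst
      change (σ ++ ρ)[x]? = some y
      rw [List.getElem?_append_left]
      · exact h
      · exact (List.getElem?_eq_some_iff.1 h).1
    · show y ∈ Part.some (G x) ↔ _
      constructor
      · intro hy
        rw [Part.mem_some_iff] at hy
        refine ⟨x+1, ?_⟩
        change (pre G (x+1))[x]? = some y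
        rw [pre_getElem?]; simp [hy]
      · rintro ⟨n, hn⟩
        change (pre G n)[x]? = some y at hn
        rw [pre_getElem?] at hn
        by_cases hx : x < n
        · simp [hx] at hn; simp [hn]
        · simp [hx] at hn
  | pair _ _ ihf ihh =>
    obtain ⟨e1, c1, m1, s1⟩ := ihf
    obtain ⟨e2, c2, m2, s2⟩ := ihh
    refine ⟨fun σ x => (e1 σ x).bind (fun a => (e2 σ x).map (fun b => Nat.pair a b)), ?_, ?_, ?_⟩
    · refine Computable.option_bind c1 ?_
      refine Computable.option_map (c2.comp (Computable.fst.comp Computable.fst)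
        (Computable.snd.comp Computable.fst)) ?_
      exact Primrec₂.natPair.to_comp.comp (Computable.snd.comp Computable.fst) Computable.snd
    · intro σ τ x y hst h
      rw [Option.bind_eq_some_iff] at h ⊢
      obtain ⟨a, ha, h⟩ := h
      rw [Option.map_eq_some_iff] at h
      obtain ⟨b, hb, hy⟩ := h
      exact ⟨a, m1 _ _ _ _ hst ha, by rw [m2 _ _ _ _ hst hb]; simp [hy]⟩
    · intro x y
      simp only [Seq.seq, Part.mem_bind_iff, Part.map_eq_map, Part.mem_map_iff]
      constructor
      · rintro ⟨_, ⟨a, ha, rfl⟩, b, hb, rfl⟩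
        obtain ⟨n, hn⟩ := (s1 _ _).1 ha
        obtain ⟨m, hm⟩ := (s2 _ _).1 hb
        refine ⟨max n m, ?_⟩
        rw [m1 _ _ _ _ (pre_prefix G (le_max_left n m)) hn,
          m2 _ _ _ _ (pre_prefix G (le_max_right n m)) hm]
        simp
      · rintro ⟨n, hn⟩
        rw [Option.bind_eq_some_iff] at hn
        obtain ⟨a, ha, hn⟩ := hn
        rw [Option.map_eq_some_iff] at hn
        obtain ⟨b, hb, hy⟩ := hn
        exact ⟨_, ⟨a, (s1 _ _).2 ⟨n, ha⟩, rfl⟩, b, (s2 _ _).2 ⟨n, hb⟩, hy⟩
  | @comp f' h' _ _ ihf ihh =>
    obtain ⟨e1, c1, m1, s1⟩ := ihf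
    obtain ⟨e2, c2, m2, s2⟩ := ihh
    refine ⟨fun σ x => (e2 σ x).bind (fun a => e1 σ a), ?_, ?_, ?_⟩
    · refine Computable.option_bind c2 ?_
      exact c1.comp (Computable.fst.comp Computable.fst) Computable.snd
    · intro σ τ x y hst h
      rw [Option.bind_eq_some_iff] at h ⊢
      obtain ⟨a, ha, h⟩ := h
      exact ⟨a, m2 _ _ _ _ hst ha, m1 _ _ _ _ hst h⟩
    · intro x y
      refine Iff.trans Part.mem_bind_iff ?_
      constructor
      · rintro ⟨a, ha, hy⟩
        obtain ⟨n, hn⟩ := (s2 _ _).1 ha
        obtain ⟨m, hm⟩ := (s1 _ _).1 hy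
        refine ⟨max n m, ?_⟩
        change (e2 (pre G (max n m)) x).bind (fun a => e1 (pre G (max n m)) a) = some y
        rw [m2 _ _ _ _ (pre_prefix G (le_max_left n m)) hn]
        exact m1 _ _ _ _ (pre_prefix G (le_max_right n m)) hm
      · rintro ⟨n, hn⟩
        rw [Option.bind_eq_some_iff] at hn
        obtain ⟨a, ha, hn⟩ := hn
        exact ⟨a, (s2 _ _).2 ⟨n, ha⟩, (s1 _ _).2 ⟨n, hn⟩⟩
  | @prec f h _ _ ihf ihh =>
    obtain ⟨e1, c1, m1, s1⟩ := ihf
    obtain ⟨e2, c2, m2, s2⟩ := ihh
    refine ⟨fun σ p => precAux e1 e2 σ p.unpair.1 p.unpair.2, ?_, ?_, ?_⟩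
    · exact precAux_computable c1 c2
    · intro σ τ x y hst
      exact precAux_mono m1 m2 hst _ _ _
    · intro x y
      simp only
      generalize x.unpair.1 = a
      generalize x.unpair.2 = n
      induction n generalizing y with
      | zero => exact s1 _ _
      | succ n ih =>
        simp only [Part.bind_eq_bind, Part.mem_bind_iff]
        constructor
        · rintro ⟨i, hi, hy⟩
          obtain ⟨k, hk⟩ := (ih _).1 hi
          obtain ⟨m, hm⟩ := (s2 _ _).1 hy
          refine ⟨max k m, ?_⟩
          rw [precAux, Option.bind_eq_some_iff]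
          refine ⟨i, ?_, m2 _ _ _ _ (pre_prefix G (le_max_right k m)) hm⟩
          exact precAux_mono m1 m2 (pre_prefix G (le_max_left k m)) _ _ _ hk
        · rintro ⟨k, hk⟩
          rw [precAux, Option.bind_eq_some_iff] at hk
          obtain ⟨i, hi, hk⟩ := hk
          exact ⟨i, (ih _).2 ⟨k, hi⟩, (s2 _ _).2 ⟨k, hk⟩⟩
  | @rfind f _ ihf =>
    obtain ⟨e1, c1, m1, s1⟩ := ihf
    refine ⟨fun σ a => (rfAux e1 σ a σ.length).bind id, ?_, ?_, ?_⟩
    · refine Computable.option_bind (rfAux_computable c1) ?_
      exact Computable.snd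
    · intro σ τ x y hst h
      rw [Option.bind_eq_some_iff] at h ⊢
      obtain ⟨r, hr, h⟩ := h
      simp only [id] at h
      subst h
      rw [rfAux_some] at hr
      refine ⟨some y, ?_, rfl⟩
      rw [rfAux_some]
      refine ⟨lt_of_lt_of_le hr.1 hst.length_le, m1 _ _ _ _ hst hr.2.1, fun j hj => ?_⟩
      obtain ⟨v, hv, h⟩ := hr.2.2 j hj
      exact ⟨v, hv, m1 _ _ _ _ hst h⟩
    · intro x y
      refine Iff.trans Nat.mem_rfind ?_
      constructor
      · rintro ⟨h1, h2⟩
        -- collect finitely many computations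
        have hall : ∀ j, j ≤ y → ∃ n v, e1 (pre G n) (Nat.pair x j) = some v ∧
            (j < y → v ≠ 0) ∧ (j = y → v = 0) := by
          intro j hj
          rcases Nat.lt_or_ge j y with hlt | hge
          · have := h2 hlt
            simp only [Part.map_eq_map, Part.mem_map_iff] at this
            obtain ⟨v, hv, hv0⟩ := this
            obtain ⟨n, hn⟩ := (s1 _ _).1 hv
            exact ⟨n, v, hn, fun _ => by simpa using hv0, fun h => by omega⟩
          · have hjy : j = y := by omega
            subst hjy
            simp only [Part.map_eq_map, Part.mem_map_iff] at h1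
            obtain ⟨v, hv, hv0⟩ := h1
            obtain ⟨n, hn⟩ := (s1 _ _).1 hv
            exact ⟨n, v, hn, fun h => by omega, fun _ => by simpa using hv0⟩
        have hbound : ∀ m, m ≤ y → ∃ N, ∀ j, j ≤ m → ∃ v, e1 (pre G N) (Nat.pair x j) = some v ∧
            (j < y → v ≠ 0) ∧ (j = y → v = 0) := by
          intro m
          induction m with
          | zero =>
            intro _
            obtain ⟨n, v, h⟩ := hall 0 (by omega)
            refine ⟨n, fun j hj => ?_⟩
            have : j = 0 := by omega
            subst this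
            exact ⟨v, h⟩
          | succ m ih =>
            intro hm
            obtain ⟨N, hN⟩ := ih (by omega)
            obtain ⟨n, v, h⟩ := hall (m+1) hm
            refine ⟨max N n, fun j hj => ?_⟩
            rcases Nat.lt_or_ge j (m+1) with hlt | hge
            · obtain ⟨v', h'⟩ := hN j (by omega)
              exact ⟨v', m1 _ _ _ _ (pre_prefix G (le_max_left N n)) h'.1, h'.2⟩
            · have : j = m+1 := by omega
              subst this
              exact ⟨v, m1 _ _ _ _ (pre_prefix G (le_max_right N n)) h.1, h.2⟩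
        obtain ⟨N, hN⟩ := hbound y (le_refl y)
        refine ⟨max N (y+1), ?_⟩
        rw [Option.bind_eq_some_iff]
        refine ⟨some y, ?_, rfl⟩
        rw [rfAux_some]
        refine ⟨by simp, ?_, fun j hj => ?_⟩
        · obtain ⟨v, hv, _, hv0⟩ := hN y (le_refl y)
          rw [m1 _ _ _ _ (pre_prefix G (le_max_left N (y+1))) hv, hv0 rfl]
        · obtain ⟨v, hv, hv0, _⟩ := hN j (by omega)
          exact ⟨v, hv0 hj, m1 _ _ _ _ (pre_prefix G (le_max_left N (y+1))) hv⟩
      · rintro ⟨n, hn⟩
        rw [Option.bind_eq_some_iff] at hn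
        obtain ⟨r, hr, hn⟩ := hn
        simp only [id] at hn
        subst hn
        rw [rfAux_some] at hr
        constructor
        · simp only [Part.map_eq_map, Part.mem_map_iff]
          exact ⟨0, (s1 _ _).2 ⟨n, hr.2.1⟩, by simp⟩
        · intro m hm
          simp only [Part.map_eq_map, Part.mem_map_iff]
          obtain ⟨v, hv, h⟩ := hr.2.2 m hm
          exact ⟨v, (s1 _ _).2 ⟨n, h⟩, by simp [hv]⟩

end Pool.Agent.Helper743
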