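import Pool.Agent.Helper743.Lim

set_option autoImplicit false

/-! A function below the halting problem which joins every computably enumerable set that it does
not compute above the halting problem: definitions and effectiveness. -/

namespace Pool.Agent.Helper743.PR

open Nat.Partrec (Code)
open Filter

/-- records: active labels, forbidden labels, witness, state -/
abbrev Rc := (List (Option ℕ) × List (Option ℕ)) × (ℕ × ℕ)

abbrev St := List ℕ × List Rc

def lab (m : ℕ) : ℕ := m.unpair.1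
def nn (m : ℕ) : ℕ := m.unpair.2.unpair.1
def zz (m : ℕ) : ℕ := m.unpair.2.unpair.2
def mk (c n z : ℕ) : ℕ := Nat.pair c (Nat.pair n z)

@[simp] lemma lab_mk (c n z : ℕ) : lab (mk c n z) = c := by simp [lab, mk]
@[simp] lemma nn_mk (c n z : ℕ) : nn (mk c n z) = n := by simp [nn, mk]
@[simp] lemma zz_mk (c n z : ℕ) : zz (mk c n z) = z := by simp [zz, mk]

lemma lab_p : Primrec lab := Primrec.fst.comp Primrec.unpair
lemma nn_p : Primrec nn := Primrec.fst.comp (Primrec.unpair.comp (Primrec.snd.comp Primrec.unpair))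
lemma zz_p : Primrec zz := Primrec.snd.comp (Primrec.unpair.comp (Primrec.snd.comp Primrec.unpair))

lemma mk_p : Primrec (fun q : ℕ × (ℕ × ℕ) => mk q.1 q.2.1 q.2.2) :=
  Primrec₂.natPair.comp Primrec.fst (Primrec₂.natPair.comp (Primrec.fst.comp Primrec.snd)
    (Primrec.snd.comp Primrec.snd))

/-- the marker `m` has been seen at stage `t` to be irrelevant for the `j`-th c.e. set -/
def irrT (t j m : ℕ) : Prop :=
  ∃ u ∈ List.range (nn m), hlt' (Nat.pair j u) (zz m) = false ∧ hlt' (Nat.pair j u) t = true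

def evT (t e : ℕ) (τ : List ℕ) (x : ℕ) : ℕ :=
  (Code.evaln t (Denumerable.ofNat Code e) (Encodable.encode (τ, x))).getD 0

/-- the marker with label `c` is constrained by position `j` -/
def cnd (l : ℕ) (I : List (Option ℕ)) (c j : ℕ) : Prop := l ≤ j ∧ I[j]? = some (some c)

def irrA (t l : ℕ) (I : List (Option ℕ)) (m : ℕ) : Prop :=
  ∀ j ∈ List.range I.length, cnd l I (lab m) j → irrT t j m

def mOK (t l : ℕ) (I B : List (Option ℕ)) (s m : ℕ) : Prop :=
  (s ≤ nn m ∧ some (lab m) ∉ B) ∧ irrA t l I m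

def okT (t : ℕ) (r : Rc) (l : ℕ) (σ : List ℕ) (s : ℕ) (ρ : List ℕ) : Prop :=
  evT t r.1.1.length (σ ++ ρ) r.2.1 ≠ 0 ∧ ∀ m ∈ ρ, mOK t l r.1.1 r.1.2 s m

lemma hlt'_mono {k s t : ℕ} (h : s ≤ t) (hs : hlt' k s = true) : hlt' k t = true := by
  unfold hlt' at *
  rw [Option.isSome_iff_exists] at *
  obtain ⟨a, ha⟩ := hs
  exact ⟨a, Code.evaln_mono h ha⟩

lemma irrT_mono {t t' j m : ℕ} (h : t ≤ t') (hi : irrT t j m) : irrT t' j m := by
  obtain ⟨u, hu, h1, h2⟩ := hi
  exact ⟨u, hu, h1, hlt'_mono h h2⟩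

lemma evT_mono {t t' e : ℕ} {τ : List ℕ} {x : ℕ} (h : t ≤ t') (he : evT t e τ x ≠ 0) :
    evT t' e τ x = evT t e τ x := by
  unfold evT at *
  cases h1 : Code.evaln t (Denumerable.ofNat Code e) (Encodable.encode (τ, x)) with
  | none => rw [h1] at he; simp at he
  | some v =>
    have h2 : v ∈ Code.evaln t' (Denumerable.ofNat Code e) (Encodable.encode (τ, x)) :=
      Code.evaln_mono h h1
    rw [Option.mem_def] at h2
    rw [h2]

lemma okT_mono {t t' : ℕ} {r : Rc} {l : ℕ} {σ : List ℕ} {s : ℕ} {ρ : List ℕ} (h : t ≤ t')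
    (ho : okT t r l σ s ρ) : okT t' r l σ s ρ := by
  refine ⟨?_, fun m hm => ⟨(ho.2 m hm).1, fun j hj hc => irrT_mono h ((ho.2 m hm).2 j hj hc)⟩⟩
  rw [evT_mono h ho.1]; exact ho.1

/-! primitive recursiveness -/

lemma irrT_p : PrimrecPred (fun q : ℕ × (ℕ × ℕ) => irrT q.1 q.2.1 q.2.2) := by
  have hpair : Primrec (fun z : ℕ × (ℕ × (ℕ × ℕ)) => Nat.pair z.2.2.1 z.1) :=
    Primrec₂.natPair.comp (Primrec.fst.comp (Primrec.snd.comp Primrec.snd)) Primrec.fst
  have hz : Primrec (fun z : ℕ × (ℕ × (ℕ × ℕ)) => zz z.2.2.2) :=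
    zz_p.comp (Primrec.snd.comp (Primrec.snd.comp Primrec.snd))
  have ht : Primrec (fun z : ℕ × (ℕ × (ℕ × ℕ)) => z.2.1) := Primrec.fst.comp Primrec.snd
  have h1 : PrimrecRel (fun (u : ℕ) (q : ℕ × (ℕ × ℕ)) =>
      hlt' (Nat.pair q.2.1 u) (zz q.2.2) = false) :=
    Primrec.eq.comp (hlt'_primrec.comp hpair hz) (Primrec.const false)
  have h2 : PrimrecRel (fun (u : ℕ) (q : ℕ × (ℕ × ℕ)) =>
      hlt' (Nat.pair q.2.1 u) q.1 = true) :=
    Primrec.eq.comp (hlt'_primrec.comp hpair ht) (Primrec.const true)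
  have h3 : PrimrecRel (fun (u : ℕ) (q : ℕ × (ℕ × ℕ)) =>
      hlt' (Nat.pair q.2.1 u) (zz q.2.2) = false ∧ hlt' (Nat.pair q.2.1 u) q.1 = true) :=
    PrimrecPred.and h1 h2
  exact h3.exists_mem_list.comp (Primrec.list_range.comp (nn_p.comp (Primrec.snd.comp Primrec.snd)))
    Primrec.id

lemma evT_p : Primrec (fun q : (ℕ × ℕ) × (List ℕ × ℕ) => evT q.1.1 q.1.2 q.2.1 q.2.2) := by
  have h1 : Primrec (fun q : (ℕ × ℕ) × (List ℕ × ℕ) =>
      Code.evaln q.1.1 (Denumerable.ofNat Code q.1.2) (Encodable.encode q.2)) :=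
    Code.primrec_evaln.comp (((Primrec.fst.comp Primrec.fst).pair ((Primrec.ofNat Code).comp
      (Primrec.snd.comp Primrec.fst))).pair (Primrec.encode.comp Primrec.snd))
  exact Primrec.option_getD.comp h1 (Primrec.const 0)

attribute [local irreducible] hlt' evT irrT

lemma cnd_p : PrimrecPred (fun q : (ℕ × List (Option ℕ)) × (ℕ × ℕ) =>
    cnd q.1.1 q.1.2 q.2.1 q.2.2) := by
  have a1 : PrimrecPred (fun q : (ℕ × List (Option ℕ)) × (ℕ × ℕ) => q.1.1 ≤ q.2.2) :=
    Primrec.nat_le.comp (Primrec.fst.comp Primrec.fst) (Primrec.snd.comp Primrec.snd)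
  have a2 : PrimrecPred (fun q : (ℕ × List (Option ℕ)) × (ℕ × ℕ) =>
      q.1.2[q.2.2]? = some (some q.2.1)) :=
    Primrec.eq.comp (Primrec.list_getElem?.comp (Primrec.snd.comp Primrec.fst)
      (Primrec.snd.comp Primrec.snd))
      (Primrec.option_some.comp (Primrec.option_some.comp (Primrec.fst.comp Primrec.snd)))
  exact PrimrecPred.and a1 a2

lemma irrA_p : PrimrecPred (fun q : (ℕ × ℕ) × (List (Option ℕ) × ℕ) =>
    irrA q.1.1 q.1.2 q.2.1 q.2.2) := by
  have a1 : PrimrecRel (fun (j : ℕ) (q : (ℕ × ℕ) × (List (Option ℕ) × ℕ)) =>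
      cnd q.1.2 q.2.1 (lab q.2.2) j) :=
    cnd_p.comp (((Primrec.snd.comp (Primrec.fst.comp Primrec.snd)).pair
      (Primrec.fst.comp (Primrec.snd.comp Primrec.snd))).pair
      ((lab_p.comp (Primrec.snd.comp (Primrec.snd.comp Primrec.snd))).pair Primrec.fst))
  have a2 : PrimrecRel (fun (j : ℕ) (q : (ℕ × ℕ) × (List (Option ℕ) × ℕ)) =>
      irrT q.1.1 j q.2.2) :=
    irrT_p.comp ((Primrec.fst.comp (Primrec.fst.comp Primrec.snd)).pair
      (Primrec.fst.pair (Primrec.snd.comp (Primrec.snd.comp Primrec.snd))))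
  have a3 : PrimrecRel (fun (j : ℕ) (q : (ℕ × ℕ) × (List (Option ℕ) × ℕ)) =>
      cnd q.1.2 q.2.1 (lab q.2.2) j → irrT q.1.1 j q.2.2) :=
    (PrimrecPred.or a1.not a2).of_eq (by intro z; simp only [imp_iff_not_or])
  exact a3.forall_mem_list.comp
    (Primrec.list_range.comp (Primrec.list_length.comp (Primrec.fst.comp Primrec.snd)))
    Primrec.id

attribute [local irreducible] irrA

lemma mOK_p : PrimrecPred (fun q : (ℕ × ℕ) × ((List (Option ℕ) × List (Option ℕ)) × (ℕ × ℕ)) =>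
    mOK q.1.1 q.1.2 q.2.1.1 q.2.1.2 q.2.2.1 q.2.2.2) := by
  have x1 : Primrec (fun q : (ℕ × ℕ) × ((List (Option ℕ) × List (Option ℕ)) × (ℕ × ℕ)) =>
      q.2.2.1) := Primrec.fst.comp (Primrec.snd.comp Primrec.snd)
  have x2 : Primrec (fun q : (ℕ × ℕ) × ((List (Option ℕ) × List (Option ℕ)) × (ℕ × ℕ)) =>
      q.2.2.2) := Primrec.snd.comp (Primrec.snd.comp Primrec.snd)
  have x3 : Primrec (fun q : (ℕ × ℕ) × ((List (Option ℕ) × List (Option ℕ)) × (ℕ × ℕ)) =>
      q.2.1.1) := Primrec.fst.comp (Primrec.fst.comp Primrec.snd)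
  have x4 : Primrec (fun q : (ℕ × ℕ) × ((List (Option ℕ) × List (Option ℕ)) × (ℕ × ℕ)) =>
      q.2.1.2) := Primrec.snd.comp (Primrec.fst.comp Primrec.snd)
  have h3 : PrimrecPred (fun q : (ℕ × ℕ) × ((List (Option ℕ) × List (Option ℕ)) × (ℕ × ℕ)) =>
      q.2.2.1 ≤ nn q.2.2.2) := Primrec.nat_le.comp x1 (nn_p.comp x2)
  have b1 : PrimrecRel (fun (b : Option ℕ) (m : ℕ) => b = some (lab m)) :=
    Primrec.eq.comp Primrec.fst (Primrec.option_some.comp (lab_p.comp Primrec.snd))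
  have b2 : PrimrecPred (fun q : (ℕ × ℕ) × ((List (Option ℕ) × List (Option ℕ)) × (ℕ × ℕ)) =>
      ∃ b ∈ q.2.1.2, b = some (lab q.2.2.2)) := b1.exists_mem_list.comp x4 x2
  have h4 : PrimrecPred (fun q : (ℕ × ℕ) × ((List (Option ℕ) × List (Option ℕ)) × (ℕ × ℕ)) =>
      some (lab q.2.2.2) ∉ q.2.1.2) := b2.not.of_eq (by intro q; simp)
  have h5 : PrimrecPred (fun q : (ℕ × ℕ) × ((List (Option ℕ) × List (Option ℕ)) × (ℕ × ℕ)) =>
      irrA q.1.1 q.1.2 q.2.1.1 q.2.2.2) := irrA_p.comp (Primrec.fst.pair (x3.pair x2))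
  exact PrimrecPred.and (PrimrecPred.and h3 h4) h5

attribute [local irreducible] mOK

/-- parameters `(t, l, s, σ)` besides the record -/
abbrev Pa := (ℕ × ℕ) × (ℕ × List ℕ)

lemma rI : Primrec (fun r : Rc => r.1.1) := Primrec.fst.comp Primrec.fst
lemma rB : Primrec (fun r : Rc => r.1.2) := Primrec.snd.comp Primrec.fst
lemma rx : Primrec (fun r : Rc => r.2.1) := Primrec.fst.comp Primrec.snd
lemma rs : Primrec (fun r : Rc => r.2.2) := Primrec.snd.comp Primrec.snd

lemma okT_p : PrimrecPred (fun q : (Pa × Rc) × List ℕ =>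
    okT q.1.1.1.1 q.1.2 q.1.1.1.2 q.1.1.2.2 q.1.1.2.1 q.2) := by
  have y1 : Primrec (fun q : (Pa × Rc) × List ℕ => q.1.1.1.1) :=
    Primrec.fst.comp (Primrec.fst.comp (Primrec.fst.comp Primrec.fst))
  have y2 : Primrec (fun q : (Pa × Rc) × List ℕ => q.1.1.1.2) :=
    Primrec.snd.comp (Primrec.fst.comp (Primrec.fst.comp Primrec.fst))
  have y3 : Primrec (fun q : (Pa × Rc) × List ℕ => q.1.1.2.1) :=
    Primrec.fst.comp (Primrec.snd.comp (Primrec.fst.comp Primrec.fst))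
  have y4 : Primrec (fun q : (Pa × Rc) × List ℕ => q.1.1.2.2) :=
    Primrec.snd.comp (Primrec.snd.comp (Primrec.fst.comp Primrec.fst))
  have y5 : Primrec (fun q : (Pa × Rc) × List ℕ => q.1.2) := Primrec.snd.comp Primrec.fst
  have y6 : Primrec (fun q : (Pa × Rc) × List ℕ => q.2) := Primrec.snd
  have z1 := Primrec.list_length.comp (rI.comp y5)
  have z2 := Primrec.list_append.comp y4 y6
  have z3 := rx.comp y5
  have z4 := evT_p.comp ((y1.pair z1).pair (z2.pair z3))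
  have c1 : Primrec (fun q : (Pa × Rc) × List ℕ => evT q.1.1.1.1 q.1.2.1.1.length
      (q.1.1.2.2 ++ q.2) q.1.2.2.1) := z4
  have h7 : PrimrecPred (fun q : (Pa × Rc) × List ℕ => evT q.1.1.1.1 q.1.2.1.1.length
      (q.1.1.2.2 ++ q.2) q.1.2.2.1 ≠ 0) := (Primrec.eq.comp c1 (Primrec.const 0)).not
  have sn : Primrec (fun q : ℕ × ((Pa × Rc) × List ℕ) => q.2) := Primrec.snd
  have fs : Primrec (fun q : ℕ × ((Pa × Rc) × List ℕ) => q.1) := Primrec.fst
  have z5 := mOK_p.comp (((y1.comp sn).pair (y2.comp sn)).pair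
      (((rI.comp (y5.comp sn)).pair (rB.comp (y5.comp sn))).pair
        ((y3.comp sn).pair fs)))
  have h8 : PrimrecRel (fun (m : ℕ) (q : (Pa × Rc) × List ℕ) =>
      mOK q.1.1.1.1 q.1.1.1.2 q.1.2.1.1 q.1.2.1.2 q.1.1.2.1 m) := z5
  have h9 : PrimrecPred (fun q : (Pa × Rc) × List ℕ => ∀ m ∈ q.2,
      mOK q.1.1.1.1 q.1.1.1.2 q.1.2.1.1 q.1.2.1.2 q.1.1.2.1 m) :=
    h8.forall_mem_list.comp y6 Primrec.id
  exact PrimrecPred.and h7 h9

attribute [local irreducible] okT

def LS (w : ℕ) : List ℕ := (Encodable.decode (α := List ℕ) w).getD []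

lemma LS_p : Primrec LS := Primrec.option_getD.comp Primrec.decode (Primrec.const [])

lemma LS_encode (L : List ℕ) : LS (Encodable.encode L) = L := by simp [LS]

attribute [local irreducible] LS

def okP (a : Pa) (r : Rc) (w : ℕ) : Prop := okT a.1.1 r a.1.2 a.2.2 a.2.1 (LS w)

lemma okP_p : PrimrecPred (fun q : (Pa × Rc) × ℕ => okP q.1.1 q.1.2 q.2) := by
  have h := okT_p.comp ((Primrec.fst : Primrec (fun q : (Pa × Rc) × ℕ => q.1)).pair
    (LS_p.comp Primrec.snd))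
  exact h

attribute [local irreducible] okP

noncomputable instance okP_dec (a : Pa) (r : Rc) (w : ℕ) : Decidable (okP a r w) := Classical.propDecidable _

noncomputable def ccP (a : Pa) (r : Rc) : Bool :=
  open Classical in decide (∃ w ∈ List.range a.1.1, okP a r w)

lemma ccP_p : Primrec (fun q : Pa × Rc => ccP q.1 q.2) := by
  classical
  have h1 : PrimrecRel (fun (w : ℕ) (q : Pa × Rc) => okP q.1 q.2 w) :=
    okP_p.comp (Primrec.snd.pair Primrec.fst)
  have h2 : PrimrecPred (fun q : Pa × Rc => ∃ w ∈ List.range q.1.1.1, okP q.1 q.2 w) :=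
    h1.exists_mem_list.comp
      (Primrec.list_range.comp (Primrec.fst.comp (Primrec.fst.comp Primrec.fst))) Primrec.id
  exact h2.decide

noncomputable def exP (a : Pa) (r : Rc) : List ℕ :=
  LS ((List.range a.1.1).findIdx (fun w => decide (okP a r w)))

lemma exP_p : Primrec (fun q : Pa × Rc => exP q.1 q.2) := by
  have h1 : Primrec₂ (fun (q : Pa × Rc) (w : ℕ) => decide (okP q.1 q.2 w)) := okP_p.decide
  exact LS_p.comp (Primrec.list_findIdx
    (Primrec.list_range.comp (Primrec.fst.comp (Primrec.fst.comp Primrec.fst))) h1)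

attribute [local irreducible] ccP exP

/-- `cc` at `(t, l, σ, s)` -/
noncomputable def ccT (t l s : ℕ) (σ : List ℕ) (r : Rc) : Bool := ccP ((t, l), (s, σ)) r

noncomputable def nstT (t s : ℕ) (σ : List ℕ) (r : Rc) : ℕ :=
  (List.range r.1.1.length).findIdx (fun l => ccT t (l + 1) s σ r)

noncomputable def badT (t s : ℕ) (σ : List ℕ) (r : Rc) : Bool :=
  decide (r.2.2 < r.1.1.length) && !ccT t (r.2.2 + 1) s σ r

lemma ccT_p : Primrec (fun q : ((ℕ × ℕ) × (ℕ × List ℕ)) × Rc =>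
    ccT q.1.1.1 q.1.1.2 q.1.2.1 q.1.2.2 q.2) := ccP_p

attribute [local irreducible] ccT

lemma nstT_p : Primrec (fun q : ((ℕ × ℕ) × List ℕ) × Rc => nstT q.1.1.1 q.1.1.2 q.1.2 q.2) := by
  have h1 : Primrec₂ (fun (q : ((ℕ × ℕ) × List ℕ) × Rc) (l : ℕ) =>
      ccT q.1.1.1 (l + 1) q.1.1.2 q.1.2 q.2) :=
    ccT_p.comp ((((Primrec.fst.comp (Primrec.fst.comp (Primrec.fst.comp Primrec.fst))).pair
      (Primrec.succ.comp Primrec.snd)).pair
      ((Primrec.snd.comp (Primrec.fst.comp (Primrec.fst.comp Primrec.fst))).pair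
        (Primrec.snd.comp (Primrec.fst.comp Primrec.fst)))).pair (Primrec.snd.comp Primrec.fst))
  exact Primrec.list_findIdx
    (Primrec.list_range.comp (Primrec.list_length.comp (rI.comp Primrec.snd))) h1

lemma badT_p : Primrec (fun q : ((ℕ × ℕ) × List ℕ) × Rc => badT q.1.1.1 q.1.1.2 q.1.2 q.2) := by
  have h1 : Primrec (fun (q : ((ℕ × ℕ) × List ℕ) × Rc) =>
      ccT q.1.1.1 (q.2.2.2 + 1) q.1.1.2 q.1.2 q.2) :=
    ccT_p.comp ((((Primrec.fst.comp (Primrec.fst.comp Primrec.fst)).pair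
      (Primrec.succ.comp (rs.comp Primrec.snd))).pair
      ((Primrec.snd.comp (Primrec.fst.comp Primrec.fst)).pair
        (Primrec.snd.comp Primrec.fst))).pair Primrec.snd)
  have h2 : PrimrecPred (fun (q : ((ℕ × ℕ) × List ℕ) × Rc) => q.2.2.2 < q.2.1.1.length) :=
    Primrec.nat_lt.comp (rs.comp Primrec.snd) (Primrec.list_length.comp (rI.comp Primrec.snd))
  exact Primrec.and.comp h2.decide (Primrec.not.comp h1)

attribute [local irreducible] nstT badT

noncomputable def mdT (t N : ℕ) : ℕ :=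
  open Classical in (List.range t).findIdx
    (fun z => decide (∀ u ∈ List.range N, hlt' u t = true → hlt' u z = true))

lemma mdT_p : Primrec (fun q : ℕ × ℕ => mdT q.1 q.2) := by
  classical
  have h1 : PrimrecRel (fun (u : ℕ) (q : ℕ × ℕ) => hlt' u q.1 = true → hlt' u q.2 = true) := by
    have a1 : PrimrecRel (fun (u : ℕ) (q : ℕ × ℕ) => hlt' u q.1 = true) :=
      Primrec.eq.comp (hlt'_primrec.comp Primrec.fst (Primrec.fst.comp Primrec.snd))
        (Primrec.const true)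
    have a2 : PrimrecRel (fun (u : ℕ) (q : ℕ × ℕ) => hlt' u q.2 = true) :=
      Primrec.eq.comp (hlt'_primrec.comp Primrec.fst (Primrec.snd.comp Primrec.snd))
        (Primrec.const true)
    exact (PrimrecPred.or a1.not a2).of_eq (by intro z; simp only [imp_iff_not_or])
  have h2 : PrimrecPred (fun q : (ℕ × ℕ) × ℕ => ∀ u ∈ List.range q.1.2,
      hlt' u q.1.1 = true → hlt' u q.2 = true) :=
    h1.forall_mem_list.comp (Primrec.list_range.comp (Primrec.snd.comp Primrec.fst))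
      ((Primrec.fst.comp Primrec.fst).pair Primrec.snd)
  have h3 : Primrec₂ (fun (q : ℕ × ℕ) (z : ℕ) => decide (∀ u ∈ List.range q.2,
      hlt' u q.1 = true → hlt' u z = true)) := h2.decide
  exact Primrec.list_findIdx (Primrec.list_range.comp Primrec.fst) h3

attribute [local irreducible] mdT

end Pool.Agent.Helper743.PR
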