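import Pool.Agent.Helper743.PRInv2

set_option autoImplicit false

namespace Pool.Agent.Helper743.PR

open Nat.Partrec (Code)
open Filter

/-- the first `k` records do not change from stage `T` on -/
def Stb (k T : ℕ) : Prop :=
  ∀ s, T ≤ s → ∀ j, j < k → (pa s)[j]? = (pa T)[j]? ∧ j < (pa s).length

lemma Stb.mono {k T T' : ℕ} (h : Stb k T) (hT : T ≤ T') : Stb k T' := by
  intro s hs j hj
  refine ⟨?_, (h s (le_trans hT hs) j hj).2⟩
  rw [(h s (le_trans hT hs) j hj).1, (h T' hT j hj).1]

lemma stb_bad {k T s : ℕ} (h : Stb k T) (hs : T ≤ s) {j : ℕ} {r : Rc}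
    (h1 : (pa s)[j]? = some r) (h2 : badR s (sg s) r = true)
    (h5 : pa (s + 1) = (pa s).take j ++ [(r.1, (r.2.1, nstR s (sg s) r))]) : k ≤ j := by
  by_contra hlt
  push Not at hlt
  have e1 := (h s hs j hlt).1
  have e2 := (h (s + 1) (by omega) j hlt).1
  have hjl : j < (pa s).length := (List.getElem?_eq_some_iff.1 h1).1
  have hlen : ((pa s).take j).length = j := by rw [List.length_take]; omega
  rw [← e1, h5, List.getElem?_append_right (by omega), hlen, Nat.sub_self, h1] at e2
  have e3 : (r.1, (r.2.1, nstR s (sg s) r)) = r := by simpa using e2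
  have e4 := nst_gt h2
  have e5 : nstR s (sg s) r = r.2.2 := congrArg (fun z : Rc => z.2.2) e3
  omega

lemma pa_succ_push {s : ℕ} (hall : ∀ r ∈ pa s, badR s (sg s) r = false) :
    ∃ r, pa (s + 1) = pa s ++ [r] := by
  obtain ⟨ρ, st, e1, e2, _⟩ := new_entries hall
  exact ⟨_, e2⟩

/-- the change of the `k`-th record in one step -/
lemma step_at {k T s : ℕ} (h : Stb k T) (hs : T ≤ s) {r : Rc} (hr : (pa s)[k]? = some r) :
    (pa (s + 1))[k]? = some r ∨ ∃ st, r.2.2 < st ∧ (pa (s + 1))[k]? = some (r.1, (r.2.1, st)) := by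
  have hk : k < (pa s).length := (List.getElem?_eq_some_iff.1 hr).1
  rcases step_cases s with ⟨j, r0, h1, h2, h3, h4, h5⟩ | ⟨hall, _⟩
  · have hkj := stb_bad h hs h1 h2 h5
    have hjl : j < (pa s).length := (List.getElem?_eq_some_iff.1 h1).1
    have hlen : ((pa s).take j).length = j := by rw [List.length_take]; omega
    rcases Nat.eq_or_lt_of_le hkj with he | hlt
    · right
      subst he
      rw [hr] at h1
      have := Option.some.inj h1
      subst this
      refine ⟨nstR s (sg s) r, nst_gt h2, ?_⟩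
      rw [h5, List.getElem?_append_right (by omega), hlen, Nat.sub_self]
      rfl
    · left
      rw [h5, List.getElem?_append_left (by omega), List.getElem?_take, if_pos hlt, hr]
  · left
    obtain ⟨r', hr'⟩ := pa_succ_push hall
    rw [hr', List.getElem?_append_left hk, hr]

lemma stb_len {k T : ℕ} (h : Stb k T) : ∃ T', T ≤ T' ∧ ∀ s, T' ≤ s → k < (pa s).length := by
  have hstep : ∀ s, T ≤ s → k < (pa s).length → k < (pa (s + 1)).length := by
    intro s hs hl
    obtain ⟨r, hr⟩ : ∃ r, (pa s)[k]? = some r := ⟨_, List.getElem?_eq_getElem hl⟩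
    rcases step_at h hs hr with h1 | ⟨st, _, h1⟩
    · exact (List.getElem?_eq_some_iff.1 h1).1
    · exact (List.getElem?_eq_some_iff.1 h1).1
  have hall : ∀ T', T ≤ T' → k < (pa T').length → ∀ s, T' ≤ s → k < (pa s).length := by
    intro T' hT' hl s hs
    obtain ⟨d, rfl⟩ := Nat.exists_eq_add_of_le hs
    clear hs
    induction d with
    | zero => exact hl
    | succ d ih => exact hstep (T' + d) (by omega) ih
  by_cases hT : k < (pa T).length
  · exact ⟨T, le_refl _, hall T (le_refl _) hT⟩
  · have hk : (pa T).length = k := by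
      apply le_antisymm (by omega)
      by_contra hlt
      have h0 : (pa T).length < k := by omega
      have := (h T (le_refl _) (pa T).length h0).2
      omega
    refine ⟨T + 1, Nat.le_succ T, hall (T + 1) (Nat.le_succ T) ?_⟩
    rcases step_cases T with ⟨j, r0, h1, h2, h3, h4, h5⟩ | ⟨hall', _⟩
    · have hkj := stb_bad h (le_refl T) h1 h2 h5
      have hjl : j < (pa T).length := (List.getElem?_eq_some_iff.1 h1).1
      omega
    · obtain ⟨r', hr'⟩ := pa_succ_push hall'
      rw [hr', List.length_append, List.length_singleton]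
      omega

lemma stb_succ {k T : ℕ} (h : Stb k T) : ∃ T', Stb (k + 1) T' := by
  obtain ⟨T1, hT1, hlen⟩ := stb_len h
  have key : ∀ n s, T1 ≤ s → ∀ r, (pa s)[k]? = some r → r.1.1.length - r.2.2 = n →
      ∃ T', T1 ≤ T' ∧ ∀ s', T' ≤ s' → (pa s')[k]? = (pa T')[k]? := by
    intro n
    induction n using Nat.strong_induction_on with
    | _ n ih =>
      intro s hs r hr hn
      by_cases hst : ∀ s', s ≤ s' → (pa s')[k]? = (pa s)[k]?
      · exact ⟨s, hs, hst⟩
      · -- first change
        have hex : ∃ d, (pa (s + d + 1))[k]? ≠ some r := by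
          by_contra hall
          push Not at hall
          apply hst
          intro s' hs'
          obtain ⟨d, rfl⟩ := Nat.exists_eq_add_of_le hs'
          cases d with
          | zero => rfl
          | succ d => rw [hr]; exact hall d
        classical
        have hd := Nat.find_spec hex
        have hmin := fun m => Nat.find_min (m := m) hex
        set d := Nat.find hex with hdd
        have hprev : (pa (s + d))[k]? = some r := by
          cases h0 : d with
          | zero => exact hr
          | succ d' =>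
            have := hmin d' (by omega)
            rw [not_not] at this
            exact this
        rcases step_at h (by omega : T ≤ s + d) hprev with h1 | ⟨st, h1, h2⟩
        · exact absurd h1 hd
        · have R := inv (s + d + 1) k _ h2
          have hle := R.st_le
          simp only at hle
          refine ih (r.1.1.length - st) ?_ (s + d + 1) (by omega) _ h2 rfl
          omega
  obtain ⟨r, hr⟩ : ∃ r, (pa T1)[k]? = some r :=
    ⟨_, List.getElem?_eq_getElem (hlen T1 (le_refl _))⟩
  obtain ⟨T', hT', hc⟩ := key _ T1 (le_refl _) r hr rfl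
  refine ⟨T', ?_⟩
  intro s hs j hj
  rcases Nat.lt_succ_iff_lt_or_eq.1 hj with h1 | h1
  · exact (h.mono (le_trans hT1 hT')) s hs j h1
  · subst h1
    exact ⟨hc s hs, hlen s (le_trans hT' hs)⟩

lemma stb_ex (k : ℕ) : ∃ T, Stb k T := by
  induction k with
  | zero => exact ⟨0, fun s _ j hj => absurd hj (Nat.not_lt_zero _)⟩
  | succ k ih =>
    obtain ⟨T, hT⟩ := ih
    exact stb_succ hT

/-- a stage from which the records up to index `k` are final -/
noncomputable def TT (k : ℕ) : ℕ := (stb_ex (k + 1)).choose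

lemma TT_spec (k : ℕ) : Stb (k + 1) (TT k) := (stb_ex (k + 1)).choose_spec

/-- the final records -/
noncomputable def PP (k : ℕ) : Rc := ((pa (TT k))[k]?).getD (([], []), (0, 0))

lemma PP_spec {k s : ℕ} (hs : TT k ≤ s) : (pa s)[k]? = some (PP k) := by
  have h := TT_spec k s hs k (Nat.lt_succ_self k)
  have h2 := (TT_spec k (TT k) (le_refl _) k (Nat.lt_succ_self k)).2
  rw [h.1]
  unfold PP
  rw [List.getElem?_eq_getElem h2]
  rfl

lemma PP_spec' {k k' s : ℕ} (hs : TT k ≤ s) (hk : k' ≤ k) : (pa s)[k']? = some (PP k') := by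
  have h := TT_spec k s hs k' (by omega)
  have h1 := TT_spec k (max s (TT k')) (le_trans hs (le_max_left _ _)) k' (by omega)
  rw [h.1, ← h1.1]
  exact PP_spec (le_max_right _ _)

lemma PP_not_bad {k s : ℕ} (hs : TT k ≤ s) (hlt : (PP k).2.2 < (PP k).1.1.length) :
    CC ((PP k).2.2 + 1) s (sg s) (PP k) := by
  have hr := PP_spec hs
  rcases step_cases s with ⟨j, r0, h1, h2, h3, h4, h5⟩ | ⟨hall, _⟩
  · have hkj := stb_bad (TT_spec k) hs h1 h2 h5
    have := h3 k (by omega) _ hr
    rw [bad_false_iff] at this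
    exact this hlt
  · have := hall _ (List.mem_of_getElem? hr)
    rw [bad_false_iff] at this
    exact this hlt

lemma PP_neg (k : ℕ) : (∀ s, TT k ≤ s → ¬ CC (PP k).2.2 s (sg s) (PP k)) ∨
    (Pos (PP k) ∧ (PP k).2.2 = (PP k).1.1.length) := by
  by_cases h : Pos (PP k) ∧ (PP k).2.2 = (PP k).1.1.length
  · right; exact h
  · left
    intro s hs
    exact ((inv s k _ (PP_spec hs)).neg).resolve_right h

lemma PP_st_le (k : ℕ) : (PP k).2.2 ≤ (PP k).1.1.length :=
  (inv _ k _ (PP_spec (le_refl (TT k)))).st_le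

lemma PP_mrk (k : ℕ) : ∀ c : ℕ, some c ∈ (PP k).1.1 →
    mk c (PP k).2.1 (mdR (((PP k).2.1 + 1) ^ 2)) ∈
      (sg ((PP k).2.1 + 1)).drop (sg (PP k).2.1).length :=
  (inv _ k _ (PP_spec (le_refl (TT k)))).mrk

lemma PP_zero : (PP 0).1 = ([], []) := by
  have h := (inv _ 0 _ (PP_spec (le_refl (TT 0)))).chain
  rw [if_pos rfl, childIB_none] at h
  exact h

lemma PP_succ (k : ℕ) : (PP (k + 1)).1 = childIB (some (PP k)) (PP (k + 1)).2.1 := by
  have h := (inv _ (k + 1) _ (PP_spec (le_refl (TT (k + 1))))).chain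
  rw [if_neg (by omega), Nat.add_sub_cancel] at h
  rw [PP_spec' (le_refl _) (Nat.le_succ k)] at h
  exact h

lemma PP_x_lt (k : ℕ) : (PP k).2.1 < (PP (k + 1)).2.1 := by
  obtain ⟨r', h1, h2⟩ := (inv _ (k + 1) _ (PP_spec (le_refl (TT (k + 1))))).par (by omega)
  rw [Nat.add_sub_cancel, PP_spec' (le_refl _) (Nat.le_succ k)] at h1
  rw [Option.some.inj h1]
  exact h2

lemma PP_x_ge (k : ℕ) : k ≤ (PP k).2.1 := by
  induction k with
  | zero => omega
  | succ k ih =>
    have := PP_x_lt k
    omega

end Pool.Agent.Helper743.PR
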