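import Pool.Agent.Helper743.PRLim

set_option autoImplicit false

namespace Pool.Agent.Helper743.PR

open Nat.Partrec (Code)
open Filter

noncomputable def sg (s : ℕ) : List ℕ := (runR s).1
noncomputable def pa (s : ℕ) : List Rc := (runR s).2

/-- labels forbidden below a record -/
def bn (r : Rc) : List (Option ℕ) := r.1.2 ++ r.1.1.drop r.2.2

noncomputable def newIB (s : ℕ) : List (Option ℕ) × List (Option ℕ) := childIB (lastR (pa s)) s

noncomputable def newS (s : ℕ) : List ℕ := sg s ++ marks (newIB s).1 s (mdR ((s + 1) ^ 2))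

noncomputable def newR (s : ℕ) : Rc := (newIB s, (s, 0))

lemma childIB_some (r : Rc) (s : ℕ) : childIB (some r) s =
    (r.1.1.take r.2.2 ++ [if r.2.2 < r.1.1.length then none else some s], bn r) := rfl

lemma childIB_none (s : ℕ) : childIB none s = ([], []) := rfl

/-- the two kinds of stages -/
lemma step_cases (s : ℕ) :
    (∃ j r, (pa s)[j]? = some r ∧ badR s (sg s) r = true ∧
      (∀ j' < j, ∀ r', (pa s)[j']? = some r' → badR s (sg s) r' = false) ∧
      sg (s + 1) = sg s ∧
      pa (s + 1) = (pa s).take j ++ [(r.1, (r.2.1, nstR s (sg s) r))]) ∨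
    ((∀ r ∈ pa s, badR s (sg s) r = false) ∧
      ((CC 0 s (newS s) (newR s) ∧ sg (s + 1) = newS s ++ exR s (newS s) (newR s) ∧
        pa (s + 1) = pa s ++ [(newIB s, (s, (newIB s).1.length))]) ∨
      (¬ CC 0 s (newS s) (newR s) ∧ sg (s + 1) = newS s ∧
        pa (s + 1) = pa s ++ [(newIB s, (s, nstR s (newS s) (newR s)))]))) := by
  have hrun : runR (s + 1) = stepR s (runR s) := rfl
  cases h : (pa s)[(pa s).findIdx (badR s (sg s))]? with
  | some r =>
    left
    have hlt : (pa s).findIdx (badR s (sg s)) < (pa s).length := by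
      by_contra hge
      rw [List.getElem?_eq_none (by omega)] at h
      simp at h
    refine ⟨(pa s).findIdx (badR s (sg s)), r, h, ?_, ?_, ?_, ?_⟩
    · have h1 := List.findIdx_getElem (w := hlt)
      rw [List.getElem?_eq_getElem hlt] at h
      have h2 := Option.some.inj h
      rw [h2] at h1
      exact h1
    · intro j' hj' r' hr'
      have h1 := List.not_of_lt_findIdx hj'
      have h2 : j' < (pa s).length := by omega
      rw [List.getElem?_eq_getElem h2] at hr'
      have h3 := Option.some.inj hr'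
      rw [h3] at h1
      simpa using h1
    · show (runR (s + 1)).1 = (runR s).1
      rw [hrun]
      unfold stepR stepG
      have h' : (runR s).2[(runR s).2.findIdx (badR s (runR s).1)]? = some r := h
      rw [h']
      rfl
    · show (runR (s + 1)).2 = _
      rw [hrun]
      unfold stepR stepG
      have h' : (runR s).2[(runR s).2.findIdx (badR s (runR s).1)]? = some r := h
      rw [h']
      rfl
  | none =>
    right
    have hall : ∀ r ∈ pa s, badR s (sg s) r = false := by
      intro r hr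
      rw [List.getElem?_eq_none_iff] at h
      by_contra hb
      rw [Bool.not_eq_false] at hb
      have := List.findIdx_lt_length_of_exists ⟨r, hr, hb⟩
      omega
    refine ⟨hall, ?_⟩
    have hstep : runR (s + 1) = pushG (nstR s) (ccR 0 s) (exR s) (mdR ((s + 1) ^ 2)) s (runR s) := by
      rw [hrun]
      unfold stepR stepG
      have h' : (runR s).2[(runR s).2.findIdx (badR s (runR s).1)]? = none := h
      rw [h']
      rfl
    by_cases hc : CC 0 s (newS s) (newR s)
    · left
      have hc' : ccR 0 s (sig1 (mdR ((s + 1) ^ 2)) s (runR s)) (rec0 s (runR s)) = true := by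
        rw [ccR_iff]; exact hc
      refine ⟨hc, ?_, ?_⟩
      · show (runR (s + 1)).1 = _
        rw [hstep]
        unfold pushG
        rw [if_pos hc']
        rfl
      · show (runR (s + 1)).2 = _
        rw [hstep]
        unfold pushG
        rw [if_pos hc', if_pos hc']
        rfl
    · right
      have hc' : ¬ ccR 0 s (sig1 (mdR ((s + 1) ^ 2)) s (runR s)) (rec0 s (runR s)) = true := by
        rw [ccR_iff]; exact hc
      refine ⟨hc, ?_, ?_⟩
      · show (runR (s + 1)).1 = _
        rw [hstep]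
        unfold pushG
        rw [if_neg hc']
        rfl
      · show (runR (s + 1)).2 = _
        rw [hstep]
        unfold pushG
        rw [if_neg hc', if_neg hc']
        rfl

/-! facts on `CC` and `nstR` -/

lemma irrA_weaken {t l l' : ℕ} {I : List (Option ℕ)} {m : ℕ} (h : l ≤ l') (hi : irrA t l I m) :
    irrA t l' I m := fun j hj hc => hi j hj ⟨le_trans h hc.1, hc.2⟩

lemma mOK_weaken {t l l' s s' : ℕ} {I B : List (Option ℕ)} {m : ℕ} (h : l ≤ l') (hs : s' ≤ s)
    (hi : mOK t l I B s m) : mOK t l' I B s' m :=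
  ⟨⟨le_trans hs hi.1.1, hi.1.2⟩, irrA_weaken h hi.2⟩

lemma CC_weaken {l l' s s' : ℕ} {σ : List ℕ} {r : Rc} (h : l ≤ l') (hs : s' ≤ s)
    (hc : CC l s σ r) : CC l' s' σ r := by
  obtain ⟨ρ, t, ht⟩ := hc
  exact ⟨ρ, t, ht.1, fun m hm => mOK_weaken h hs (ht.2 m hm)⟩

lemma mOK_of_bn {t s s' st m : ℕ} {r : Rc} (hs : s ≤ s') (h1 : s' ≤ nn m)
    (h2 : some (lab m) ∉ r.1.2 ++ r.1.1.drop st) : mOK t st r.1.1 r.1.2 s m := by
  rw [List.mem_append, not_or] at h2
  refine ⟨⟨le_trans hs h1, h2.1⟩, ?_⟩
  intro j hj hc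
  exfalso
  apply h2.2
  have h3 := hc.2
  have : (r.1.1.drop st)[j - st]? = some (some (lab m)) := by
    rw [List.getElem?_drop]
    rw [← h3]
    congr 1
    have := hc.1
    omega
  exact List.mem_of_getElem? this

lemma CC_pull {l s s' : ℕ} {σ ρ0 : List ℕ} {r : Rc} (hs : s ≤ s')
    (h0 : ∀ m ∈ ρ0, s ≤ nn m ∧ some (lab m) ∉ r.1.2 ++ r.1.1.drop l)
    (hc : CC l s' (σ ++ ρ0) r) : CC l s σ r := by
  obtain ⟨ρ, t, ht⟩ := hc
  refine ⟨ρ0 ++ ρ, t, ?_, ?_⟩
  · rw [← List.append_assoc]; exact ht.1
  · intro m hm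
    rcases List.mem_append.1 hm with hm | hm
    · exact mOK_of_bn (le_refl s) (h0 m hm).1 (h0 m hm).2
    · exact mOK_weaken (le_refl l) hs (ht.2 m hm)

lemma nst_le (s : ℕ) (σ : List ℕ) (r : Rc) : nstR s σ r ≤ r.1.1.length := by
  have h := List.findIdx_le_length (p := fun l => ccR (l + 1) s σ r)
    (xs := List.range r.1.1.length)
  rw [List.length_range] at h
  exact h

lemma nst_lt {s : ℕ} {σ : List ℕ} {r : Rc} (h : nstR s σ r < r.1.1.length) :
    CC (nstR s σ r + 1) s σ r := by
  have hlt : (List.range r.1.1.length).findIdx (fun l => ccR (l + 1) s σ r) <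
      (List.range r.1.1.length).length := by
    rw [List.length_range]; exact h
  have h1 := List.findIdx_getElem (w := hlt)
  rw [ccR_iff, List.getElem_range] at h1
  exact h1

lemma nst_min {s l : ℕ} {σ : List ℕ} {r : Rc} (h : l < nstR s σ r) : ¬ CC (l + 1) s σ r := by
  have h1 := List.not_of_lt_findIdx (p := fun l => ccR (l + 1) s σ r)
    (xs := List.range r.1.1.length) h
  simp only [List.getElem_range] at h1
  rw [← ccR_iff]
  simpa using h1

lemma nst_neg {s : ℕ} {σ : List ℕ} {r : Rc} (h : ¬ CC 0 s σ r) : ¬ CC (nstR s σ r) s σ r := by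
  cases h1 : nstR s σ r with
  | zero => exact h
  | succ l => exact nst_min (by omega)

lemma bad_iff (s : ℕ) (σ : List ℕ) (r : Rc) :
    badR s σ r = true ↔ r.2.2 < r.1.1.length ∧ ¬ CC (r.2.2 + 1) s σ r := by
  unfold badR
  rw [Bool.and_eq_true, decide_eq_true_eq, Bool.not_eq_true', ← Bool.not_eq_true, ccR_iff]

lemma bad_false_iff (s : ℕ) (σ : List ℕ) (r : Rc) :
    badR s σ r = false ↔ (r.2.2 < r.1.1.length → CC (r.2.2 + 1) s σ r) := by
  rw [← Bool.not_eq_true, bad_iff]
  push Not
  rfl

/-- the state of a bad record increases -/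
lemma nst_gt {s : ℕ} {σ : List ℕ} {r : Rc} (h : badR s σ r = true) : r.2.2 < nstR s σ r := by
  rw [bad_iff] at h
  by_contra hle
  push Not at hle
  have h1 : nstR s σ r < r.1.1.length := lt_of_le_of_lt hle h.1
  exact h.2 (CC_weaken (by omega) (le_refl s) (nst_lt h1))

end Pool.Agent.Helper743.PR
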