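import Pool.Agent.Helper743.PRInv

set_option autoImplicit false

namespace Pool.Agent.Helper743.PR

open Nat.Partrec (Code)
open Filter

noncomputable def DD (s : ℕ) : ℕ :=
  evR (((lastR (pa (s + 1))).map (fun r => r.1.1.length)).getD 0) (sg (s + 1)) s

def Pos (r : Rc) : Prop :=
  evR r.1.1.length (sg (r.2.1 + 1)) r.2.1 ≠ 0 ∧
    DD r.2.1 = evR r.1.1.length (sg (r.2.1 + 1)) r.2.1

/-- invariants of the record `r` at index `j` of the stack at stage `s` -/
structure RI (s j : ℕ) (r : Rc) : Prop where
  x_lt : r.2.1 < s
  st_le : r.2.2 ≤ r.1.1.length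
  chain : r.1 = childIB (if j = 0 then none else (pa s)[j - 1]?) r.2.1
  par : j ≠ 0 → ∃ r', (pa s)[j - 1]? = some r' ∧ r'.2.1 < r.2.1
  cnt : ∀ c : ℕ, (r.1.1 ++ r.1.2).count (some c) ≤ 1
  le : ∀ c : ℕ, some c ∈ r.1.1 ++ r.1.2 → c ≤ r.2.1
  neg : ¬ CC r.2.2 s (sg s) r ∨ (Pos r ∧ r.2.2 = r.1.1.length)
  mrk : ∀ c : ℕ, some c ∈ r.1.1 →
    mk c r.2.1 (mdR ((r.2.1 + 1) ^ 2)) ∈ (sg (r.2.1 + 1)).drop (sg r.2.1).length

lemma lastR_append (p : List Rc) (r : Rc) : lastR (p ++ [r]) = some r := by
  unfold lastR
  rw [List.length_append, List.length_singleton, Nat.add_sub_cancel]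
  simp

lemma evR_ne {t e : ℕ} {τ : List ℕ} {x : ℕ} (h : evT t e τ x ≠ 0) :
    evR e τ x = evT t e τ x := by
  obtain ⟨t', h1, h2⟩ := ((evR_spec e τ x).and (eventually_ge_atTop t)).exists
  rw [← h1, evT_mono h2 h]

lemma evR_ex (e : ℕ) (τ : List ℕ) (x : ℕ) : ∃ t, evT t e τ x = evR e τ x :=
  (evR_spec e τ x).exists

lemma mem_marks {I : List (Option ℕ)} {s z m : ℕ} :
    m ∈ marks I s z ↔ ∃ c, some c ∈ I ∧ m = mk c s z := by
  unfold marks
  rw [List.mem_filterMap]
  constructor
  · rintro ⟨o, ho, h⟩
    rw [Option.map_eq_some_iff] at h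
    obtain ⟨c, rfl, h⟩ := h
    exact ⟨c, ho, h.symm⟩
  · rintro ⟨c, hc, h⟩
    exact ⟨some c, hc, by rw [h]; rfl⟩

lemma child_cnt {r : Rc} {s : ℕ} (hx : r.2.1 < s)
    (cnt : ∀ c : ℕ, (r.1.1 ++ r.1.2).count (some c) ≤ 1)
    (le : ∀ c : ℕ, some c ∈ r.1.1 ++ r.1.2 → c ≤ r.2.1) :
    (∀ c : ℕ, ((childIB (some r) s).1 ++ (childIB (some r) s).2).count (some c) ≤ 1) ∧
    (∀ c : ℕ, some c ∈ (childIB (some r) s).1 ++ (childIB (some r) s).2 → c ≤ s) := by
  have key : ∀ c : ℕ, ((childIB (some r) s).1 ++ (childIB (some r) s).2).count (some c) =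
      (r.1.1 ++ r.1.2).count (some c) +
        [if r.2.2 < r.1.1.length then (none : Option ℕ) else some s].count (some c) := by
    intro c
    rw [childIB_some]
    unfold bn
    simp only [List.count_append]
    have h := congrArg (List.count (some c)) (List.take_append_drop r.2.2 r.1.1)
    rw [List.count_append] at h
    omega
  have hnew : ∀ c : ℕ, [if r.2.2 < r.1.1.length then (none : Option ℕ) else some s].count (some c)
      = 0 ∨ (c = s ∧ [if r.2.2 < r.1.1.length then (none : Option ℕ) else some s].count (some c)
      ≤ 1) := by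
    intro c
    by_cases hc : c = s
    · right
      exact ⟨hc, (List.count_le_length).trans (by simp)⟩
    · left
      rw [List.count_eq_zero]
      intro h
      rw [List.mem_singleton] at h
      split at h
      · simp at h
      · exact hc (Option.some.inj h)
  constructor
  · intro c
    rw [key]
    rcases hnew c with h | ⟨h1, h2⟩
    · rw [h]; exact cnt c
    · have h3 : (r.1.1 ++ r.1.2).count (some c) = 0 := by
        rw [List.count_eq_zero]
        intro h
        have := le c h
        omega
      omega
  · intro c hc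
    rw [← List.count_pos_iff] at hc
    rw [key] at hc
    rcases hnew c with h | ⟨h1, h2⟩
    · rw [h, Nat.add_zero, List.count_pos_iff] at hc
      have := le c hc
      omega
    · omega

/-- the labels forbidden by a record are forbidden by the new record -/
lemma bn_sub {s : ℕ} (hch : ∀ (j : ℕ) (r : Rc), (pa s)[j]? = some r →
      r.1 = childIB (if j = 0 then none else (pa s)[j - 1]?) r.2.1) :
    ∀ (j : ℕ) (r : Rc), (pa s)[j]? = some r → ∀ c, c ∈ bn r → c ∈ (newIB s).2 := by
  have h1 : ∀ (k j : ℕ) (r r' : Rc), (pa s)[j]? = some r → (pa s)[j + k]? = some r' → ∀ c, c ∈ bn r →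
      c ∈ bn r' := by
    intro k
    induction k with
    | zero =>
      intro j r r' h1 h2 c hc
      rw [Nat.add_zero, h1] at h2
      rw [← Option.some.inj h2]; exact hc
    | succ k ih =>
      intro j r r' h1 h2 c hc
      have hlt : j + k < (pa s).length := by
        have := (List.getElem?_eq_some_iff.1 h2).1
        omega
      have h3 : (pa s)[j + k]? = some ((pa s)[j + k]) := List.getElem?_eq_getElem hlt
      have h4 := ih j r _ h1 h3 c hc
      have h5 := hch (j + (k + 1)) r' h2
      have e0 : j + (k + 1) - 1 = j + k := by omega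
      rw [if_neg (by omega), e0, h3, childIB_some] at h5
      unfold bn
      rw [List.mem_append]
      left
      rw [h5]
      exact h4
  intro j r hr c hc
  have hlt : j < (pa s).length := (List.getElem?_eq_some_iff.1 hr).1
  have hlast : (pa s)[(pa s).length - 1]? = some ((pa s)[(pa s).length - 1]) :=
    List.getElem?_eq_getElem (by omega)
  have e0 : j + ((pa s).length - 1 - j) = (pa s).length - 1 := by omega
  have h2 := h1 ((pa s).length - 1 - j) j r _ hr (by rw [e0]; exact hlast) c hc
  unfold newIB lastR
  rw [hlast, childIB_some]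
  exact h2

/-- description of the new entries at a stage where a record is added -/
lemma new_entries {s : ℕ} (hall : ∀ r ∈ pa s, badR s (sg s) r = false) :
    ∃ ρ st, sg (s + 1) = sg s ++ ρ ∧ pa (s + 1) = pa s ++ [(newIB s, (s, st))] ∧
      st ≤ (newIB s).1.length ∧
      (∀ c, some c ∈ (newIB s).1 → mk c s (mdR ((s + 1) ^ 2)) ∈ ρ) ∧
      (∀ m ∈ ρ, (∃ c, some c ∈ (newIB s).1 ∧ m = mk c s (mdR ((s + 1) ^ 2))) ∨
        (s ≤ nn m ∧ some (lab m) ∉ (newIB s).2 ∧
          ∀ j, (newIB s).1[j]? = some (some (lab m)) → ∃ t, irrT t j m)) ∧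
      (¬ CC st (s + 1) (sg (s + 1)) (newIB s, (s, st)) ∨
        ((∃ t, evT t (newIB s).1.length (sg (s + 1)) s ≠ 0) ∧ st = (newIB s).1.length)) := by
  rcases step_cases s with ⟨j, r, h1, h2, _⟩ | ⟨_, h | h⟩
  · have := hall r (List.mem_of_getElem? h1)
    rw [h2] at this
    simp at this
  · obtain ⟨h1, h2, h3⟩ := h
    obtain ⟨t, ht1, ht2⟩ := exR_spec h1
    refine ⟨marks (newIB s).1 s (mdR ((s + 1) ^ 2)) ++ exR s (newS s) (newR s),
      (newIB s).1.length, ?_, h3, le_refl _, ?_, ?_, ?_⟩
    · rw [h2, newS, List.append_assoc]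
    · intro c hc
      rw [List.mem_append]
      left
      rw [mem_marks]
      exact ⟨c, hc, rfl⟩
    · intro m hm
      rcases List.mem_append.1 hm with hm | hm
      · left; rw [mem_marks] at hm; exact hm
      · right
        obtain ⟨⟨g1, g2⟩, g3⟩ := ht2 m hm
        refine ⟨g1, g2, fun j hj => ⟨t, g3 j ?_ ⟨Nat.zero_le _, hj⟩⟩⟩
        rw [List.mem_range]
        exact (List.getElem?_eq_some_iff.1 hj).1
    · right
      refine ⟨⟨t, ?_⟩, rfl⟩
      rw [h2]
      exact ht1
  · obtain ⟨h1, h2, h3⟩ := h
    refine ⟨marks (newIB s).1 s (mdR ((s + 1) ^ 2)), nstR s (newS s) (newR s), ?_, h3,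
      nst_le s (newS s) (newR s), ?_, ?_, ?_⟩
    · rw [h2, newS]
    · intro c hc
      rw [mem_marks]
      exact ⟨c, hc, rfl⟩
    · intro m hm
      left; rw [mem_marks] at hm; exact hm
    · left
      intro hcc
      rw [h2] at hcc
      have h4 : CC (nstR s (newS s) (newR s)) s (newS s) (newR s) :=
        CC_weaken (le_refl _) (Nat.le_succ s) hcc
      exact nst_neg h1 h4

theorem inv (s : ℕ) : ∀ (j : ℕ) (r : Rc), (pa s)[j]? = some r → RI s j r := by
  induction s with
  | zero =>
    intro j r h
    have : pa 0 = [] := rfl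
    rw [this] at h
    simp at h
  | succ s ih =>
    rcases step_cases s with ⟨j0, r0, h1, h2, h3, h4, h5⟩ | ⟨hall, _⟩
    · have hlt : j0 < (pa s).length := (List.getElem?_eq_some_iff.1 h1).1
      have hlen : ((pa s).take j0).length = j0 := by rw [List.length_take]; omega
      have hprev : ∀ j, j < j0 → (pa (s + 1))[j]? = (pa s)[j]? := by
        intro j hj
        rw [h5, List.getElem?_append_left (by omega), List.getElem?_take, if_pos hj]
      intro j r hr
      rcases lt_trichotomy j j0 with hj | hj | hj
      · have hr' := hr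
        rw [hprev j hj] at hr
        have R := ih j r hr
        refine ⟨by have := R.x_lt; omega, R.st_le, ?_, ?_, R.cnt, R.le, ?_, R.mrk⟩
        · rw [R.chain]
          by_cases h0 : j = 0
          · rw [if_pos h0, if_pos h0]
          · rw [if_neg h0, if_neg h0, hprev (j - 1) (by omega)]
        · intro h0
          rw [hprev (j - 1) (by omega)]
          exact R.par h0
        · rcases R.neg with h | h
          · left
            rw [h4]
            exact fun hc => h (CC_weaken (le_refl _) (Nat.le_succ s) hc)
          · right; exact h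
      · subst hj
        have R := ih j r0 h1
        have hrr : r = (r0.1, (r0.2.1, nstR s (sg s) r0)) := by
          rw [h5, List.getElem?_append_right (by omega), hlen, Nat.sub_self] at hr
          simpa using hr.symm
        rw [hrr]
        have hn0 : ¬ CC 0 s (sg s) r0 := by
          intro hc
          rw [bad_iff] at h2
          exact h2.2 (CC_weaken (Nat.zero_le _) (le_refl s) hc)
        refine ⟨by have := R.x_lt; simp only; omega, nst_le _ _ _, ?_, ?_, R.cnt, R.le, ?_, R.mrk⟩
        · show r0.1 = _
          rw [R.chain]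
          by_cases h0 : j = 0
          · rw [if_pos h0, if_pos h0]
          · rw [if_neg h0, if_neg h0, hprev (j - 1) (by omega)]
        · intro h0
          rw [hprev (j - 1) (by omega)]
          exact R.par h0
        · left
          rw [h4]
          intro hc
          have h6 : CC (nstR s (sg s) r0) s (sg s) r0 :=
            CC_weaken (le_refl _) (Nat.le_succ s) hc
          exact nst_neg hn0 h6
      · exfalso
        have h6 := (List.getElem?_eq_some_iff.1 hr).1
        rw [h5, List.length_append, hlen, List.length_singleton] at h6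
        omega
    · obtain ⟨ρ, st, e1, e2, e3, e4, e5, e6⟩ := new_entries hall
      have hch : ∀ (j : ℕ) (r : Rc), (pa s)[j]? = some r →
          r.1 = childIB (if j = 0 then none else (pa s)[j - 1]?) r.2.1 :=
        fun j r hr => (ih j r hr).chain
      have hnewcnt : (∀ c : ℕ, ((newIB s).1 ++ (newIB s).2).count (some c) ≤ 1) ∧
          (∀ c : ℕ, some c ∈ (newIB s).1 ++ (newIB s).2 → c ≤ s) := by
        unfold newIB
        cases hl : lastR (pa s) with
        | none => simp [childIB_none]
        | some r =>
          have R := ih _ r hl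
          exact child_cnt R.x_lt R.cnt R.le
      have hρ : ∀ m ∈ ρ, s ≤ nn m ∧ some (lab m) ∉ (newIB s).2 := by
        intro m hm
        rcases e5 m hm with ⟨c, hc1, hc2⟩ | h
        · rw [hc2, nn_mk, lab_mk]
          refine ⟨le_refl s, fun hc3 => ?_⟩
          have h6 := hnewcnt.1 c
          rw [List.count_append] at h6
          have h7 := List.count_pos_iff.2 hc1
          have h8 := List.count_pos_iff.2 hc3
          omega
        · exact ⟨h.1, h.2.1⟩
      intro j r hr
      rcases lt_trichotomy j (pa s).length with hj | hj | hj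
      · have hprev : ∀ i, i < (pa s).length → (pa (s + 1))[i]? = (pa s)[i]? := by
          intro i hi
          rw [e2, List.getElem?_append_left hi]
        have hr' := hr
        rw [hprev j hj] at hr
        have R := ih j r hr
        refine ⟨by have := R.x_lt; omega, R.st_le, ?_, ?_, R.cnt, R.le, ?_, R.mrk⟩
        · rw [R.chain]
          by_cases h0 : j = 0
          · rw [if_pos h0, if_pos h0]
          · rw [if_neg h0, if_neg h0, hprev (j - 1) (by omega)]
        · intro h0
          rw [hprev (j - 1) (by omega)]
          exact R.par h0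
        · rcases R.neg with h | h
          · left
            rw [e1]
            intro hc
            refine h (CC_pull (Nat.le_succ s) ?_ hc)
            intro m hm
            refine ⟨(hρ m hm).1, fun h6 => (hρ m hm).2 ?_⟩
            exact bn_sub hch j r hr _ h6
          · right; exact h
      · subst hj
        have hrr : r = (newIB s, (s, st)) := by
          rw [e2, List.getElem?_append_right (le_refl _), Nat.sub_self] at hr
          simpa using hr.symm
        rw [hrr]
        have hlast : (if (pa s).length = 0 then none else (pa (s + 1))[(pa s).length - 1]?) =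
            lastR (pa s) := by
          unfold lastR
          by_cases h0 : (pa s).length = 0
          · rw [if_pos h0]
            rw [List.length_eq_zero_iff] at h0
            rw [h0]; rfl
          · rw [if_neg h0, e2, List.getElem?_append_left (by omega)]
        refine ⟨Nat.lt_succ_self s, e3, ?_, ?_, hnewcnt.1, hnewcnt.2, ?_, ?_⟩
        · show newIB s = _
          rw [hlast]; rfl
        · intro h0
          have h7 : (pa (s + 1))[(pa s).length - 1]? = (pa s)[(pa s).length - 1]? := by
            rw [e2, List.getElem?_append_left (by omega)]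
          rw [h7]
          have h8 : (pa s)[(pa s).length - 1]? = some ((pa s)[(pa s).length - 1]) :=
            List.getElem?_eq_getElem (by omega)
          exact ⟨_, h8, (ih _ _ h8).x_lt⟩
        · rcases e6 with h | ⟨⟨t, ht⟩, hst⟩
          · left; exact h
          · right
            have h9 : evR (newIB s).1.length (sg (s + 1)) s ≠ 0 := by
              rw [evR_ne ht]; exact ht
            refine ⟨⟨h9, ?_⟩, hst⟩
            show DD s = evR (newIB s).1.length (sg (s + 1)) s
            unfold DD
            rw [e2, lastR_append]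
            rfl
        · intro c hc
          show mk c s (mdR ((s + 1) ^ 2)) ∈ (sg (s + 1)).drop (sg s).length
          rw [e1, List.drop_left]
          exact e4 c hc
      · exfalso
        have h6 := (List.getElem?_eq_some_iff.1 hr).1
        rw [e2, List.length_append, List.length_singleton] at h6
        omega

end Pool.Agent.Helper743.PR
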