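import Pool.Agent.Helper743.PRFin

set_option autoImplicit false

namespace Pool.Agent.Helper743.PR

open Nat.Partrec (Code)
open Filter

/-- the final record `k` waits on position `i` -/
def Wt (k i : ℕ) : Prop := (PP k).2.2 = i ∧ i < (PP k).1.1.length

lemma Wt_neg {k i : ℕ} (h : Wt k i) : ∀ s, TT k ≤ s → ¬ CC i s (sg s) (PP k) := by
  rcases PP_neg k with h1 | h1
  · rw [h.1] at h1; exact h1
  · have := h.2
    have h2 := h.1
    rw [h1.2] at h2
    omega

lemma Wt_pos {k i : ℕ} (h : Wt k i) : ∀ s, TT k ≤ s → CC (i + 1) s (sg s) (PP k) := by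
  intro s hs
  have h1 := PP_not_bad hs (by rw [h.1]; exact h.2)
  rw [h.1] at h1
  exact h1

/-- the position waited on carries a label -/
lemma Wt_label {k i : ℕ} (h : Wt k i) : ∃ c, (PP k).1.1[i]? = some (some c) := by
  have h1 : (PP k).1.1[i]? = some ((PP k).1.1[i]'h.2) := List.getElem?_eq_getElem h.2
  cases h2 : (PP k).1.1[i]'h.2 with
  | some c => exact ⟨c, by rw [h1, h2]⟩
  | none =>
    exfalso
    rw [h2] at h1
    apply Wt_neg h (TT k) (le_refl _)
    obtain ⟨ρ, t, ht⟩ := Wt_pos h (TT k) (le_refl _)
    refine ⟨ρ, t, ht.1, fun m hm => ⟨(ht.2 m hm).1, ?_⟩⟩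
    intro j hj hc
    apply (ht.2 m hm).2 j hj
    refine ⟨?_, hc.2⟩
    have h3 : i ≠ j := by
      rintro rfl
      have := hc.2
      rw [h1] at this
      simp at this
    have := hc.1
    omega

lemma PP_I_succ (k : ℕ) : (PP (k + 1)).1.1 = (PP k).1.1.take (PP k).2.2 ++
    [if (PP k).2.2 < (PP k).1.1.length then none else some (PP (k + 1)).2.1] := by
  have h := congrArg Prod.fst (PP_succ k)
  rw [childIB_some] at h
  exact h

lemma PP_B_succ (k : ℕ) : (PP (k + 1)).1.2 = bn (PP k) := by
  have h := congrArg Prod.snd (PP_succ k)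
  rw [childIB_some] at h
  exact h

lemma PP_len_succ (k : ℕ) : (PP (k + 1)).1.1.length = (PP k).2.2 + 1 := by
  have h := PP_st_le k
  rw [PP_I_succ, List.length_append, List.length_take, List.length_singleton]
  omega

/-- positions below the state are kept -/
lemma PP_keep {k i : ℕ} (h : i < (PP k).2.2) : (PP (k + 1)).1.1[i]? = (PP k).1.1[i]? := by
  have h1 := PP_st_le k
  rw [PP_I_succ, List.getElem?_append_left (by rw [List.length_take]; omega),
    List.getElem?_take, if_pos h]

lemma st_cases (k : ℕ) : Wt k (PP k).2.2 ∨ (PP k).2.2 = (PP k).1.1.length := by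
  have h1 := PP_st_le k
  rcases Nat.lt_or_ge (PP k).2.2 (PP k).1.1.length with h | h
  · left; exact ⟨rfl, h⟩
  · right; omega

/-- each position is waited on finitely often -/
lemma Wt_fin (i : ℕ) : ∃ k0, ∀ k, k0 ≤ k → ∀ j, j ≤ i → ¬ Wt k j := by
  induction i using Nat.strong_induction_on with
  | _ i ih =>
    obtain ⟨k1, hk1⟩ : ∃ k1, ∀ k, k1 ≤ k → ∀ j, j < i → ¬ Wt k j := by
      cases i with
      | zero => exact ⟨0, fun k _ j hj => absurd hj (Nat.not_lt_zero _)⟩
      | succ i =>
        obtain ⟨k1, hk1⟩ := ih i (Nat.lt_succ_self i)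
        exact ⟨k1, fun k hk j hj => hk1 k hk j (by omega)⟩
    by_cases hex : ∃ k2, k1 ≤ k2 ∧ Wt k2 i
    · obtain ⟨k2, hk2, hw⟩ := hex
      have hnone : ∀ d, (PP (k2 + 1 + d)).1.1[i]? = some none := by
        intro d
        induction d with
        | zero =>
          have h1 := PP_st_le k2
          have h2 := hw.1
          rw [Nat.add_zero, PP_I_succ, List.getElem?_append_right
            (by rw [List.length_take]; omega), if_pos (by rw [hw.1]; exact hw.2)]
          have : i - ((PP k2).1.1.take (PP k2).2.2).length = 0 := by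
            rw [List.length_take]; omega
          rw [this]; rfl
        | succ d ihd =>
          have hlt : i < (PP (k2 + 1 + d)).1.1.length := (List.getElem?_eq_some_iff.1 ihd).1
          have h3 : i < (PP (k2 + 1 + d)).2.2 := by
            rcases st_cases (k2 + 1 + d) with h | h
            · by_contra hge
              push Not at hge
              rcases Nat.lt_or_ge (PP (k2 + 1 + d)).2.2 i with h4 | h4
              · exact hk1 (k2 + 1 + d) (by omega) _ h4 h
              · have h5 : (PP (k2 + 1 + d)).2.2 = i := by omega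
                rw [h5] at h
                obtain ⟨c, hc⟩ := Wt_label h
                rw [ihd] at hc
                simp at hc
            · omega
          rw [← Nat.add_assoc, PP_keep h3, ihd]
      refine ⟨k2 + 1, fun k hk j hj hwj => ?_⟩
      rcases Nat.lt_or_ge j i with h1 | h1
      · exact hk1 k (by omega) j h1 hwj
      · have : j = i := by omega
        subst this
        obtain ⟨c, hc⟩ := Wt_label hwj
        obtain ⟨d, rfl⟩ := Nat.exists_eq_add_of_le hk
        rw [hnone d] at hc
        simp at hc
    · push Not at hex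
      refine ⟨k1, fun k hk j hj => ?_⟩
      rcases Nat.lt_or_ge j i with h1 | h1
      · exact hk1 k hk j h1
      · have : j = i := by omega
        subst this
        exact hex k hk

/-- the number of positions is unbounded, and it stays above `i` from some point on -/
lemma len_gt (i : ℕ) : ∃ k1, (∀ k, k1 ≤ k → ∀ j, j ≤ i → ¬ Wt k j) ∧
    ∀ k, k1 ≤ k → i < (PP k).1.1.length := by
  obtain ⟨k0, hk0⟩ := Wt_fin i
  -- from `k0` on a short record has final state, so the length increases
  have hgrow : ∀ k, k0 ≤ k → (PP k).1.1.length ≤ i →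
      (PP (k + 1)).1.1.length = (PP k).1.1.length + 1 := by
    intro k hk hl
    rw [PP_len_succ]
    rcases st_cases k with h | h
    · exfalso
      exact hk0 k hk _ (by have := h.2; omega) h
    · omega
  have hstay : ∀ k, k0 ≤ k → i < (PP k).1.1.length → i < (PP (k + 1)).1.1.length := by
    intro k hk hl
    rw [PP_len_succ]
    rcases st_cases k with h | h
    · by_contra hge
      exact hk0 k hk _ (by omega) h
    · omega
  have hex : ∃ k, k0 ≤ k ∧ i < (PP k).1.1.length := by
    by_contra hall
    push Not at hall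
    have h1 : ∀ d, d ≤ (PP (k0 + d)).1.1.length := by
      intro d
      induction d with
      | zero => omega
      | succ d ih =>
        have := hgrow (k0 + d) (by omega) (hall _ (by omega))
        rw [← Nat.add_assoc, this]; omega
    have h2 := h1 (i + 1)
    have h3 := hall (k0 + (i + 1)) (by omega)
    omega
  obtain ⟨k1, hk1, hl⟩ := hex
  refine ⟨k1, fun k hk j hj => hk0 k (by omega) j hj, fun k hk => ?_⟩
  obtain ⟨d, rfl⟩ := Nat.exists_eq_add_of_le hk
  clear hk
  induction d with
  | zero => exact hl
  | succ d ih => exact hstay (k1 + d) (by omega) ih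

/-- a position which has been emptied has been waited on -/
lemma none_waited (i : ℕ) : ∀ k, (PP k).1.1[i]? = some none → ∃ k', Wt k' i := by
  intro k
  induction k with
  | zero =>
    intro h
    rw [PP_zero] at h
    simp at h
  | succ k ih =>
    intro h
    have h1 := PP_st_le k
    rcases Nat.lt_or_ge i (PP k).2.2 with h2 | h2
    · rw [PP_keep h2] at h
      exact ih h
    · have h3 : i < (PP (k + 1)).1.1.length := (List.getElem?_eq_some_iff.1 h).1
      rw [PP_len_succ] at h3
      have h4 : i = (PP k).2.2 := by omega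
      rw [PP_I_succ, List.getElem?_append_right (by rw [List.length_take]; omega)] at h
      have h5 : i - ((PP k).1.1.take (PP k).2.2).length = 0 := by
        rw [List.length_take]; omega
      rw [h5] at h
      rcases st_cases k with h6 | h6
      · exact ⟨k, by rw [h4]; exact h6⟩
      · rw [if_neg (by omega)] at h
        simp at h

/-- the final label of a position never waited on -/
lemma final_label {i : ℕ} (h : ∀ k, ¬ Wt k i) :
    ∃ c k1, ∀ k, k1 ≤ k → (PP k).1.1[i]? = some (some c) := by
  obtain ⟨k1, h1, h2⟩ := len_gt i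
  have h3 : (PP k1).1.1[i]? = some ((PP k1).1.1[i]'(h2 k1 (le_refl _))) :=
    List.getElem?_eq_getElem (h2 k1 (le_refl _))
  cases h4 : (PP k1).1.1[i]'(h2 k1 (le_refl _)) with
  | none =>
    rw [h4] at h3
    obtain ⟨k', hk'⟩ := none_waited i k1 h3
    exact absurd hk' (h k')
  | some c =>
    rw [h4] at h3
    refine ⟨c, k1, fun k hk => ?_⟩
    obtain ⟨d, rfl⟩ := Nat.exists_eq_add_of_le hk
    clear hk
    induction d with
    | zero => exact h3
    | succ d ih =>
      have h5 : i < (PP (k1 + d)).2.2 := by
        rcases st_cases (k1 + d) with h6 | h6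
        · by_contra hge
          exact h1 (k1 + d) (by omega) _ (by omega) h6
        · have := h2 (k1 + d) (by omega)
          omega
      rw [← Nat.add_assoc, PP_keep h5, ih]

/-- every index is treated -/
lemma len_eq (e : ℕ) : ∃ k, (PP k).1.1.length = e := by
  classical
  have hex : ∃ k, e ≤ (PP k).1.1.length := by
    obtain ⟨k1, _, h2⟩ := len_gt e
    exact ⟨k1, (h2 k1 (le_refl _)).le⟩
  have h1 := Nat.find_spec hex
  cases h2 : Nat.find hex with
  | zero =>
    rw [h2, PP_zero] at h1
    refine ⟨0, ?_⟩
    rw [PP_zero]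
    simp at h1
    simp [h1]
  | succ k =>
    have h3 := Nat.find_min hex (m := k) (by omega)
    push Not at h3
    rw [h2, PP_len_succ] at h1
    have h4 := PP_st_le k
    refine ⟨k + 1, ?_⟩
    rw [PP_len_succ]
    omega

/-- labels occur in arbitrarily late records -/
lemma label_late (n : ℕ) : ∃ k c, n ≤ k ∧ some c ∈ (PP k).1.1 := by
  by_cases h : ∃ k, n ≤ k ∧ (PP k).2.2 = (PP k).1.1.length
  · obtain ⟨k, hk, hl⟩ := h
    refine ⟨k + 1, (PP (k + 1)).2.1, by omega, ?_⟩
    rw [PP_I_succ, if_neg (by omega)]
    simp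
  · exfalso
    push Not at h
    have hW : ∀ k, n ≤ k → Wt k (PP k).2.2 := fun k hk => (st_cases k).resolve_right (h k hk)
    have hdec : ∀ d, (PP (n + d)).1.1.length ≤ (PP n).1.1.length := by
      intro d
      induction d with
      | zero => exact le_refl _
      | succ d ih =>
        rw [← Nat.add_assoc, PP_len_succ]
        have := (hW (n + d) (by omega)).2
        omega
    obtain ⟨k0, hk0⟩ := Wt_fin (PP n).1.1.length
    have h1 := hW (n + k0) (by omega)
    refine hk0 (n + k0) (by omega) _ ?_ h1
    have h2 := h1.2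
    have h3 := hdec k0
    omega

/-! the limit -/

lemma sg_succ (s : ℕ) : sg s <+: sg (s + 1) := by
  rcases step_cases s with ⟨j, r0, h1, h2, h3, h4, h5⟩ | ⟨hall, _⟩
  · rw [h4]
  · obtain ⟨ρ, st, e1, _⟩ := new_entries hall
    rw [e1]; exact List.prefix_append _ _

lemma sg_mono {s t : ℕ} (h : s ≤ t) : sg s <+: sg t := by
  obtain ⟨d, rfl⟩ := Nat.exists_eq_add_of_le h
  clear h
  induction d with
  | zero => exact List.prefix_refl _
  | succ d ih => exact ih.trans (sg_succ (s + d))

lemma sg_long (n : ℕ) : ∃ s, n < (sg s).length := by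
  induction n with
  | zero =>
    obtain ⟨k, c, _, hc⟩ := label_late 0
    have h := PP_mrk k c hc
    refine ⟨(PP k).2.1 + 1, ?_⟩
    by_contra h0
    have : (sg ((PP k).2.1 + 1)) = [] := List.eq_nil_of_length_eq_zero (by omega)
    rw [this] at h
    simp at h
  | succ n ih =>
    obtain ⟨s, hs⟩ := ih
    obtain ⟨k, c, hk, hc⟩ := label_late s
    have h := PP_mrk k c hc
    refine ⟨(PP k).2.1 + 1, ?_⟩
    have h1 := PP_x_ge k
    have h2 := (sg_mono (show s ≤ (PP k).2.1 by omega)).length_le
    have h3 := List.length_pos_of_mem h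
    rw [List.length_drop] at h3
    omega

open Classical in
/-- the function -/
noncomputable def GG (n : ℕ) : ℕ := ((sg (Nat.find (sg_long n)))[n]?).getD 0

lemma sg_get {s n : ℕ} (h : n < (sg s).length) : (sg s)[n]? = some (GG n) := by
  classical
  have h1 := Nat.find_spec (sg_long n)
  have h2 : Nat.find (sg_long n) ≤ s := Nat.find_min' _ h
  have h3 : (sg (Nat.find (sg_long n)))[n]? = some (GG n) := by
    unfold GG
    rw [List.getElem?_eq_getElem h1]
    rfl
  obtain ⟨ρ, hρ⟩ := sg_mono h2
  rw [← hρ, List.getElem?_append_left h1]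
  exact h3

lemma sg_eq_pre (s : ℕ) : sg s = pre GG (sg s).length := by
  apply pre_eq_of_prefix
  intro i hi
  have := sg_get hi
  rw [List.getElem?_eq_getElem hi] at this
  exact Option.some.inj this

end Pool.Agent.Helper743.PR
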