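import Pool.Agent.Helper743.PRStep

set_option autoImplicit false

namespace Pool.Agent.Helper743.PR

open Nat.Partrec (Code)
open Filter

lemma findIdx_congr' {α : Type} {p q : α → Bool} {L : List α} (h : ∀ a ∈ L, p a = q a) :
    L.findIdx p = L.findIdx q := by
  induction L with
  | nil => rfl
  | cons a L ih =>
    rw [List.findIdx_cons, List.findIdx_cons, h a (by simp), ih (fun b hb => h b (by simp [hb]))]

lemma ev_list {α : Type} {P : ℕ → α → Prop} {L : List α} (h : ∀ a ∈ L, ∀ᶠ t in atTop, P t a) :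
    ∀ᶠ t in atTop, ∀ a ∈ L, P t a := by
  induction L with
  | nil => exact Eventually.of_forall (fun t a ha => by simp at ha)
  | cons b L ih =>
    have h1 := h b (by simp)
    have h2 := ih (fun a ha => h a (by simp [ha]))
    filter_upwards [h1, h2] with t h3 h4 a ha
    rcases List.mem_cons.1 ha with rfl | ha
    · exact h3
    · exact h4 a ha

lemma findIdx_range {t n : ℕ} {p : ℕ → Bool} (hn : n < t) (h1 : p n = true)
    (h2 : ∀ j < n, p j = false) : (List.range t).findIdx p = n := by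
  have hlen : n < (List.range t).length := by simpa using hn
  rw [List.findIdx_eq hlen]
  refine ⟨by simpa using h1, fun j hj => ?_⟩
  have := h2 j hj
  simpa using this

lemma ccT_iff (t l s : ℕ) (σ : List ℕ) (r : Rc) :
    ccT t l s σ r = true ↔ ∃ w < t, okT t r l σ s (LS w) := by
  unfold ccT ccP okP
  simp

lemma ccR_iff (l s : ℕ) (σ : List ℕ) (r : Rc) : ccR l s σ r = true ↔ CC l s σ r := by
  unfold ccR; simp

lemma ccT_lim (l s : ℕ) (σ : List ℕ) (r : Rc) : ∀ᶠ t in atTop, ccT t l s σ r = ccR l s σ r := by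
  by_cases h : CC l s σ r
  · obtain ⟨ρ, t, ht⟩ := h
    have hR : ccR l s σ r = true := (ccR_iff _ _ _ _).2 ⟨ρ, t, ht⟩
    filter_upwards [eventually_ge_atTop (max t (Encodable.encode ρ + 1))] with t' ht'
    rw [hR, ccT_iff]
    refine ⟨Encodable.encode ρ, lt_of_lt_of_le (Nat.lt_succ_self _)
      (le_trans (le_max_right _ _) ht'), ?_⟩
    rw [LS_encode]
    exact okT_mono (le_trans (le_max_left _ _) ht') ht
  · have hR : ccR l s σ r = false := by
      rw [← Bool.not_eq_true, ccR_iff]; exact h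
    refine Eventually.of_forall (fun t => ?_)
    rw [hR, ← Bool.not_eq_true, ccT_iff]
    rintro ⟨w, _, hw⟩
    exact h ⟨LS w, t, hw⟩

lemma nstT_lim (s : ℕ) (σ : List ℕ) (r : Rc) : ∀ᶠ t in atTop, nstT t s σ r = nstR s σ r := by
  have h := ev_list (L := List.range r.1.1.length)
    (P := fun t l => ccT t (l + 1) s σ r = ccR (l + 1) s σ r)
    (fun l _ => ccT_lim (l + 1) s σ r)
  filter_upwards [h] with t ht
  exact findIdx_congr' ht

lemma badT_lim (s : ℕ) (σ : List ℕ) (r : Rc) : ∀ᶠ t in atTop, badT t s σ r = badR s σ r := by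
  filter_upwards [ccT_lim (r.2.2 + 1) s σ r] with t ht
  unfold badT badR
  rw [ht]

lemma exR_spec {s : ℕ} {σ : List ℕ} {r : Rc} (h : CC 0 s σ r) : OK 0 s σ r (exR s σ r) := by
  classical
  have h' : ∃ w, OK 0 s σ r (LS w) := by
    obtain ⟨ρ, hρ⟩ := h
    exact ⟨Encodable.encode ρ, by rw [LS_encode]; exact hρ⟩
  unfold exR
  rw [dif_pos h']
  exact Nat.find_spec h'

lemma exP_lim {s : ℕ} {σ : List ℕ} {r : Rc} (h : CC 0 s σ r) :
    ∀ᶠ t in atTop, exP ((t, 0), (s, σ)) r = exR s σ r := by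
  classical
  have h' : ∃ w, OK 0 s σ r (LS w) := by
    obtain ⟨ρ, hρ⟩ := h
    exact ⟨Encodable.encode ρ, by rw [LS_encode]; exact hρ⟩
  have e1 : exR s σ r = LS (Nat.find h') := by
    unfold exR
    rw [dif_pos h']
  obtain ⟨t0, ht0⟩ := Nat.find_spec h'
  filter_upwards [eventually_ge_atTop (max t0 (Nat.find h' + 1))] with t ht
  rw [e1]
  unfold exP
  congr 1
  apply findIdx_range
  · exact lt_of_lt_of_le (Nat.lt_succ_self _) (le_trans (le_max_right _ _) ht)
  · rw [decide_eq_true_eq]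
    exact okT_mono (le_trans (le_max_left _ _) ht) ht0
  · intro j hj
    rw [decide_eq_false_iff_not]
    intro hh
    exact Nat.find_min h' hj ⟨t, hh⟩

lemma mdR_spec (N : ℕ) : ∀ u, u < N → (∃ t, hlt' u t = true) → hlt' u (mdR N) = true := by
  classical
  exact Nat.find_spec (md_ex N)

lemma mdT_lim (N : ℕ) : ∀ᶠ t in atTop, mdT t N = mdR N := by
  classical
  filter_upwards [eventually_gt_atTop (mdR N)] with t ht
  unfold mdT
  apply findIdx_range ht
  · rw [decide_eq_true_eq]
    intro u hu hh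
    exact mdR_spec N u (List.mem_range.1 hu) ⟨t, hh⟩
  · intro j hj
    rw [decide_eq_false_iff_not]
    intro hh
    apply Nat.find_min (md_ex N) hj
    intro u hu hex
    apply hh u (List.mem_range.2 hu)
    exact hlt'_mono ht.le (mdR_spec N u hu hex)

lemma pushG_lim (s : ℕ) (u : St) : ∀ᶠ t in atTop,
    pushG (nstT t s) (ccT t 0 s) (fun σ r => exP ((t, 0), (s, σ)) r) (mdT t ((s + 1) ^ 2)) s u =
    pushG (nstR s) (ccR 0 s) (exR s) (mdR ((s + 1) ^ 2)) s u := by
  have h1 := mdT_lim ((s + 1) ^ 2)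
  have h2 := ccT_lim 0 s (sig1 (mdR ((s + 1) ^ 2)) s u) (rec0 s u)
  have h3 := nstT_lim s (sig1 (mdR ((s + 1) ^ 2)) s u) (rec0 s u)
  by_cases hc : ccR 0 s (sig1 (mdR ((s + 1) ^ 2)) s u) (rec0 s u) = true
  · have h4 := exP_lim ((ccR_iff _ _ _ _).1 hc)
    filter_upwards [h1, h2, h3, h4] with t h1 h2 h3 h4
    unfold pushG
    rw [h1, h2, h3, hc]
    simp only [if_true, h4]
  · filter_upwards [h1, h2, h3] with t h1 h2 h3
    unfold pushG
    rw [h1, h2, h3]
    rw [if_neg hc, if_neg hc, if_neg hc]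

lemma stepT_lim (s : ℕ) (u : St) : ∀ᶠ t in atTop, stepT t s u = stepR s u := by
  have h1 := ev_list (L := u.2) (P := fun t r => badT t s u.1 r = badR s u.1 r)
    (fun r _ => badT_lim s u.1 r)
  have h2 := pushG_lim s u
  have h3 := ev_list (L := u.2) (P := fun t r => nstT t s u.1 r = nstR s u.1 r)
    (fun r _ => nstT_lim s u.1 r)
  filter_upwards [h1, h2, h3] with t h1 h2 h3
  have h4 : u.2.findIdx (badT t s u.1) = u.2.findIdx (badR s u.1) := findIdx_congr' h1
  unfold stepT stepR stepG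
  rw [h4, h2]
  cases h5 : u.2[u.2.findIdx (badR s u.1)]? with
  | none => rfl
  | some r =>
    have h6 : r ∈ u.2 := List.mem_of_getElem? h5
    simp only [Option.map_some, Option.getD_some]
    unfold updG
    rw [h3 r h6, h4]

lemma runT_lim (s : ℕ) : ∀ᶠ t in atTop, runT t s = runR s := by
  induction s with
  | zero => exact Eventually.of_forall (fun t => rfl)
  | succ s ih =>
    filter_upwards [ih, stepT_lim s (runR s)] with t h1 h2
    show stepT t s (runT t s) = stepR s (runR s)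
    rw [h1, h2]

end Pool.Agent.Helper743.PR
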