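import Pool.Agent.Helper743.PRLex

set_option autoImplicit false

namespace Pool.Agent.Helper743.PR

open Nat.Partrec (Code)
open Filter

attribute [local irreducible] hlt' evT irrT irrA mOK

lemma ev_le {P : ℕ → ℕ → Prop} (h : ∀ s, ∀ᶠ t in atTop, P t s) (n : ℕ) :
    ∀ᶠ t in atTop, ∀ s, s ≤ n → P t s := by
  have := ev_list (L := List.range (n + 1)) (P := P) (fun s _ => h s)
  filter_upwards [this] with t ht s hs
  exact ht s (List.mem_range.2 (by omega))

theorem limC_GG : LimC GG := by
  classical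
  refine ⟨fun n t => ((runT t ((List.range t).findIdx
    (fun s => decide (n < (runT t s).1.length)))).1[n]?).getD 0, ?_, ?_⟩
  · have r1 : Primrec (fun q : (ℕ × ℕ) × ℕ => (runT q.1.2 q.2).1) :=
      Primrec.fst.comp (runT_p.comp (Primrec.snd.comp Primrec.fst) Primrec.snd)
    have r2 : Primrec (fun q : (ℕ × ℕ) × ℕ => (runT q.1.2 q.2).1.length) :=
      Primrec.list_length.comp r1
    have r3 : PrimrecPred (fun q : (ℕ × ℕ) × ℕ => q.1.1 < (runT q.1.2 q.2).1.length) :=
      Primrec.nat_lt.comp (Primrec.fst.comp Primrec.fst) r2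
    have r4 : Primrec₂ (fun (q : ℕ × ℕ) (s : ℕ) => decide (q.1 < (runT q.2 s).1.length)) :=
      r3.decide
    have r5 : Primrec (fun q : ℕ × ℕ => (List.range q.2).findIdx
        (fun s => decide (q.1 < (runT q.2 s).1.length))) :=
      Primrec.list_findIdx (Primrec.list_range.comp Primrec.snd) r4
    have r6 : Primrec (fun q : ℕ × ℕ => (runT q.2 ((List.range q.2).findIdx
        (fun s => decide (q.1 < (runT q.2 s).1.length)))).1) :=
      Primrec.fst.comp (runT_p.comp Primrec.snd r5)
    have r7 := Primrec.option_getD.comp (Primrec.list_getElem?.comp r6 Primrec.fst)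
      (Primrec.const 0)
    exact r7.to_comp
  · intro n
    rw [← eventually_atTop]
    have h1 := ev_le (P := fun t s => runT t s = runR s) runT_lim (Nat.find (sg_long n))
    filter_upwards [h1, eventually_gt_atTop (Nat.find (sg_long n))] with t h2 h3
    have h4 : (List.range t).findIdx (fun s => decide (n < (runT t s).1.length)) =
        Nat.find (sg_long n) := by
      apply findIdx_range h3
      · rw [h2 _ (le_refl _), decide_eq_true_eq]
        exact Nat.find_spec (sg_long n)
      · intro j hj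
        rw [h2 _ hj.le, decide_eq_false_iff_not]
        exact Nat.find_min (sg_long n) hj
    rw [h4, h2 _ (le_refl _)]
    rfl

theorem limC_DD : LimC DD := by
  refine ⟨fun s t => evT t (((lastR (runT t (s + 1)).2).map (fun r => r.1.1.length)).getD 0)
    (runT t (s + 1)).1 s, ?_, ?_⟩
  · have r0 : Primrec (fun q : ℕ × ℕ => runT q.2 (q.1 + 1)) :=
      runT_p.comp Primrec.snd (Primrec.succ.comp Primrec.fst)
    have r1 : Primrec (fun q : ℕ × ℕ => lastR (runT q.2 (q.1 + 1)).2) :=
      lastR_p.comp (Primrec.snd.comp r0)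
    have r2 : Primrec₂ (fun (_ : ℕ × ℕ) (r : Rc) => r.1.1.length) :=
      Primrec.list_length.comp (rI.comp Primrec.snd)
    have r3 := Primrec.option_getD.comp (Primrec.option_map r1 r2) (Primrec.const 0)
    have r4 := evT_p.comp (((Primrec.snd (α := ℕ) (β := ℕ)).pair r3).pair
      ((Primrec.fst.comp r0).pair Primrec.fst))
    exact r4.to_comp
  · intro s
    rw [← eventually_atTop]
    have h1 := evR_spec (((lastR (pa (s + 1))).map (fun r => r.1.1.length)).getD 0) (sg (s + 1)) s
    filter_upwards [h1, runT_lim (s + 1)] with t h2 h3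
    rw [h3]
    exact h2

/-- the origin of a late entry -/
lemma entry {s n : ℕ} (h : (sg s).length ≤ n) : ∃ u, s ≤ u ∧ (∀ r ∈ pa u, badR u (sg u) r = false) ∧
    ((∃ c, some c ∈ (newIB u).1 ∧ GG n = mk c u (mdR ((u + 1) ^ 2))) ∨
      (u ≤ nn (GG n) ∧ some (lab (GG n)) ∉ (newIB u).2 ∧
        ∀ j, (newIB u).1[j]? = some (some (lab (GG n))) → ∃ t, irrT t j (GG n))) := by
  classical
  have h1 := Nat.find_spec (sg_long n)
  have h2 : s < Nat.find (sg_long n) := by
    by_contra hle
    push Not at hle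
    have := (sg_mono hle).length_le
    omega
  obtain ⟨u, hu⟩ : ∃ u, Nat.find (sg_long n) = u + 1 := ⟨Nat.find (sg_long n) - 1, by omega⟩
  have h3 : (sg u).length ≤ n := by
    have := Nat.find_min (sg_long n) (m := u) (by omega)
    omega
  rw [hu] at h1
  rcases step_cases u with ⟨j, r0, _, _, _, h4, _⟩ | ⟨hall, _⟩
  · rw [h4] at h1; omega
  · refine ⟨u, by omega, hall, ?_⟩
    obtain ⟨ρ, st, e1, e2, e3, e4, e5, e6⟩ := new_entries hall
    apply e5
    have h5 := sg_get h1
    rw [e1, List.getElem?_append_right h3] at h5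
    exact List.mem_of_getElem? h5

lemma newcnt {u : ℕ} (hall : ∀ r ∈ pa u, badR u (sg u) r = false) (c : ℕ) :
    ((newIB u).1 ++ (newIB u).2).count (some c) ≤ 1 := by
  obtain ⟨ρ, st, e1, e2, e3, e4, e5, e6⟩ := new_entries hall
  have h1 : (pa (u + 1))[(pa u).length]? = some (newIB u, (u, st)) := by
    rw [e2]; simp
  exact (inv (u + 1) _ _ h1).cnt c

lemma entry_ok {k s n : ℕ} (hs : TT k ≤ s) (h : (sg s).length ≤ n) :
    s ≤ nn (GG n) ∧ some (lab (GG n)) ∉ bn (PP k) := by
  obtain ⟨u, hu, hall, h1⟩ := entry h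
  have hsub := bn_sub (fun j r hr => (inv u j r hr).chain) k (PP k)
    (PP_spec (le_trans hs hu))
  rcases h1 with ⟨c, hc1, hc2⟩ | ⟨h2, h3, _⟩
  · rw [hc2, nn_mk, lab_mk]
    refine ⟨hu, fun hc3 => ?_⟩
    have h4 := hsub _ hc3
    have h5 := newcnt hall c
    rw [List.count_append] at h5
    have h7 := List.count_pos_iff.2 hc1
    have h8 := List.count_pos_iff.2 h4
    omega
  · exact ⟨le_trans hu h2, fun hc3 => h3 (hsub _ hc3)⟩

lemma pre_split {s n : ℕ} (h : (sg s).length ≤ n) : ∃ ρ, pre GG n = sg s ++ ρ ∧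
    ∀ m ∈ ρ, ∃ i, (sg s).length ≤ i ∧ m = GG i := by
  obtain ⟨ρ, hρ⟩ := pre_prefix GG h
  rw [← sg_eq_pre] at hρ
  refine ⟨ρ, hρ.symm, fun m hm => ?_⟩
  obtain ⟨i, hi⟩ := List.mem_iff_getElem?.1 hm
  have h1 : (pre GG n)[(sg s).length + i]? = some m := by
    rw [← hρ, List.getElem?_append_right (by omega), Nat.add_sub_cancel_left, hi]
  rw [pre_getElem?] at h1
  by_cases h2 : (sg s).length + i < n
  · rw [if_pos h2] at h1
    exact ⟨_, Nat.le_add_right _ _, (Option.some.inj h1).symm⟩
  · rw [if_neg h2] at h1; simp at h1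

/-- along the function itself no event takes place -/
lemma no_event {k n l : ℕ} (hl : l = (PP k).2.2) (hn : ¬ CC l (TT k) (sg (TT k)) (PP k))
    (h : (sg (TT k)).length ≤ n) : evR (PP k).1.1.length (pre GG n) (PP k).2.1 = 0 := by
  by_contra hne
  obtain ⟨t, ht⟩ := evR_ex (PP k).1.1.length (pre GG n) (PP k).2.1
  obtain ⟨ρ, hρ, hm⟩ := pre_split h
  apply hn
  refine ⟨ρ, t, ?_, fun m hm' => ?_⟩
  · rw [← hρ, ht]; exact hne
  · obtain ⟨i, hi, rfl⟩ := hm m hm'
    obtain ⟨h1, h2⟩ := entry_ok (le_refl (TT k)) hi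
    subst hl
    exact mOK_of_bn (le_refl _) h1 h2

lemma evR_of_mem {e : ℕ} {τ : List ℕ} {x v : ℕ}
    (h : v ∈ Code.eval (Denumerable.ofNat Code e) (Encodable.encode (τ, x))) :
    evR e τ x = v := by
  obtain ⟨t0, ht0⟩ := Code.evaln_complete.1 h
  obtain ⟨t, h1, h2⟩ := ((evR_spec e τ x).and (eventually_ge_atTop t0)).exists
  have h3 : v ∈ Code.evaln t (Denumerable.ofNat Code e) (Encodable.encode (τ, x)) :=
    Code.evaln_mono h2 ht0
  rw [← h1]
  unfold evT
  rw [Option.mem_def.1 h3]
  rfl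

theorem DD_not_TR : ¬ TR DD GG := by
  intro hTR
  obtain ⟨ev, hev, hmono, hcor⟩ := use_principle GG _ hTR
  have hpart : Nat.Partrec (fun z => Part.some (Encodable.encode
      (ev ((Encodable.decode (α := List ℕ × ℕ) z).getD ([], 0)).1
        ((Encodable.decode (α := List ℕ × ℕ) z).getD ([], 0)).2))) := by
    have h0 : Computable (fun z : ℕ => (Encodable.decode (α := List ℕ × ℕ) z).getD ([], 0)) :=
      Computable.option_getD Computable.decode (Computable.const _)
    exact Partrec.nat_iff.1 (Computable.encode.comp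
      (hev.comp (Computable.fst.comp h0) (Computable.snd.comp h0)))
  obtain ⟨c, hc⟩ := Code.exists_code.1 hpart
  have hE : ∀ σ x, evR (Encodable.encode c) σ x = Encodable.encode (ev σ x) := by
    intro σ x
    apply evR_of_mem
    rw [Denumerable.ofNat_encode, hc]
    simp only [Encodable.encodek, Option.getD_some, Part.mem_some_iff]
  obtain ⟨k, hk⟩ := len_eq (Encodable.encode c)
  obtain ⟨n, hn⟩ := (hcor (PP k).2.1 (DD (PP k).2.1)).1 (Part.mem_some _)
  rcases PP_neg k with h1 | ⟨⟨h1, h2⟩, _⟩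
  · have h3 := no_event rfl (h1 (TT k) (le_refl _))
      (le_max_right n (sg (TT k)).length)
    rw [hk, hE] at h3
    have h4 := hmono _ _ _ _ (pre_prefix GG (le_max_left n (sg (TT k)).length)) hn
    rw [h4] at h3
    simp at h3
  · rw [hk, hE] at h1 h2
    cases h5 : ev (sg ((PP k).2.1 + 1)) (PP k).2.1 with
    | none => rw [h5] at h1; simp at h1
    | some y =>
      rw [h5, Encodable.encode_some] at h2
      have h6 : ev (pre GG (sg ((PP k).2.1 + 1)).length) (PP k).2.1 = some y := by
        rw [← sg_eq_pre]; exact h5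
      have h7 := hmono _ _ _ _ (pre_prefix GG (le_max_left n (sg ((PP k).2.1 + 1)).length)) hn
      have h8 := hmono _ _ _ _ (pre_prefix GG (le_max_right n (sg ((PP k).2.1 + 1)).length)) h6
      rw [h7] at h8
      have h9 := Option.some.inj h8
      rw [h9] at h2
      simp at h2

theorem K_not_TR : ¬ TR K GG := fun h => DD_not_TR ((limC_DD.TR_K).trans h)

end Pool.Agent.Helper743.PR
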