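import Pool.Agent.Helper743.PRDefs

set_option autoImplicit false

namespace Pool.Agent.Helper743.PR

open Nat.Partrec (Code)
open Filter

def childIB (o : Option Rc) (s : ℕ) : List (Option ℕ) × List (Option ℕ) :=
  (o.map (fun r => (r.1.1.take r.2.2 ++ [if r.2.2 < r.1.1.length then none else some s],
    r.1.2 ++ r.1.1.drop r.2.2))).getD ([], [])

def marks (I : List (Option ℕ)) (s z : ℕ) : List ℕ :=
  I.filterMap (fun o => o.map (fun c => mk c s z))

def lastR (p : List Rc) : Option Rc := p[p.length - 1]?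

section generic

variable (bad : Rc → Bool) (nst : List ℕ → Rc → ℕ) (c0 : List ℕ → Rc → Bool)
  (ex : List ℕ → Rc → List ℕ) (z s : ℕ)

def sig1 (u : St) : List ℕ := u.1 ++ marks (childIB (lastR u.2) s).1 s z

def rec0 (u : St) : Rc := (childIB (lastR u.2) s, (s, 0))

def pushG (u : St) : St :=
  (if c0 (sig1 z s u) (rec0 s u) then sig1 z s u ++ ex (sig1 z s u) (rec0 s u) else sig1 z s u,
    u.2 ++ [(childIB (lastR u.2) s, (s, if c0 (sig1 z s u) (rec0 s u) then
      (childIB (lastR u.2) s).1.length else nst (sig1 z s u) (rec0 s u)))])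

def updG (u : St) (r : Rc) : St :=
  (u.1, u.2.take (u.2.findIdx bad) ++ [(r.1, (r.2.1, nst u.1 r))])

def stepG (u : St) : St :=
  ((u.2[u.2.findIdx bad]?).map (updG bad nst u)).getD (pushG nst c0 ex z s u)

end generic

noncomputable def stepT (t s : ℕ) (u : St) : St :=
  stepG (badT t s u.1) (nstT t s) (ccT t 0 s) (fun σ r => exP ((t, 0), (s, σ)) r)
    (mdT t ((s + 1) ^ 2)) s u

lemma childIB_p : Primrec (fun q : Option Rc × ℕ => childIB q.1 q.2) := by
  have h1 : Primrec (fun q : (Option Rc × ℕ) × Rc => q.2.1.1.take q.2.2.2) :=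
    Primrec.list_take.comp (rs.comp Primrec.snd) (rI.comp Primrec.snd)
  have h2 : Primrec (fun q : (Option Rc × ℕ) × Rc => q.2.1.1.drop q.2.2.2) :=
    Primrec.list_drop.comp (rs.comp Primrec.snd) (rI.comp Primrec.snd)
  have h3 : PrimrecPred (fun q : (Option Rc × ℕ) × Rc => q.2.2.2 < q.2.1.1.length) :=
    Primrec.nat_lt.comp (rs.comp Primrec.snd) (Primrec.list_length.comp (rI.comp Primrec.snd))
  have h4 : Primrec (fun q : (Option Rc × ℕ) × Rc =>
      (if q.2.2.2 < q.2.1.1.length then none else some q.1.2 : Option ℕ)) :=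
    Primrec.ite h3 (Primrec.const none) (Primrec.option_some.comp (Primrec.snd.comp Primrec.fst))
  have h5 := Primrec.list_concat.comp h1 h4
  have h6 := Primrec.list_append.comp (rB.comp (Primrec.snd (α := Option Rc × ℕ))) h2
  have h7 := h5.pair h6
  have h8 := Primrec.option_map (Primrec.fst (α := Option Rc) (β := ℕ)) h7.to₂
  have h9 := Primrec.option_getD.comp h8 (Primrec.const ([], []))
  exact h9

lemma marks_p : Primrec (fun q : List (Option ℕ) × (ℕ × ℕ) => marks q.1 q.2.1 q.2.2) := by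
  have a1 : Primrec (fun w : ((List (Option ℕ) × (ℕ × ℕ)) × Option ℕ) × ℕ =>
      mk w.2 w.1.1.2.1 w.1.1.2.2) :=
    mk_p.comp (Primrec.snd.pair ((Primrec.fst.comp (Primrec.snd.comp
      (Primrec.fst.comp Primrec.fst))).pair (Primrec.snd.comp (Primrec.snd.comp
      (Primrec.fst.comp Primrec.fst)))))
  have a2 : Primrec₂ (fun (q : List (Option ℕ) × (ℕ × ℕ)) (o : Option ℕ) =>
      o.map (fun c => mk c q.2.1 q.2.2)) := Primrec.option_map Primrec.snd a1.to₂
  exact Primrec.listFilterMap Primrec.fst a2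

lemma lastR_p : Primrec lastR :=
  Primrec.list_getElem?.comp Primrec.id (Primrec.nat_sub.comp Primrec.list_length (Primrec.const 1))

attribute [local irreducible] childIB marks lastR

lemma sig1_p : Primrec (fun q : (ℕ × ℕ) × St => sig1 (mdT q.1.1 ((q.1.2 + 1) ^ 2)) q.1.2 q.2) := by
  have h1 : Primrec (fun q : (ℕ × ℕ) × St => childIB (lastR q.2.2) q.1.2) :=
    childIB_p.comp ((lastR_p.comp (Primrec.snd.comp Primrec.snd)).pair
      (Primrec.snd.comp Primrec.fst))
  have hpow : Primrec₂ (fun m n : ℕ => m ^ n) := Primrec₂.unpaired'.1 Nat.Primrec.pow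
  have h2 : Primrec (fun q : (ℕ × ℕ) × St => (q.1.2 + 1) ^ 2) :=
    hpow.comp (Primrec.succ.comp (Primrec.snd.comp Primrec.fst)) (Primrec.const 2)
  have h3 : Primrec (fun q : (ℕ × ℕ) × St => mdT q.1.1 ((q.1.2 + 1) ^ 2)) :=
    mdT_p.comp ((Primrec.fst.comp Primrec.fst).pair h2)
  have h4 := marks_p.comp ((Primrec.fst.comp h1).pair ((Primrec.snd.comp Primrec.fst).pair h3))
  have h5 := Primrec.list_append.comp (Primrec.fst.comp (Primrec.snd (α := ℕ × ℕ) (β := St))) h4
  exact h5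

lemma rec0_p : Primrec (fun q : (ℕ × ℕ) × St => rec0 q.1.2 q.2) := by
  have h1 : Primrec (fun q : (ℕ × ℕ) × St => childIB (lastR q.2.2) q.1.2) :=
    childIB_p.comp ((lastR_p.comp (Primrec.snd.comp Primrec.snd)).pair
      (Primrec.snd.comp Primrec.fst))
  exact h1.pair ((Primrec.snd.comp Primrec.fst).pair (Primrec.const 0))

attribute [local irreducible] sig1 rec0 ccT nstT badT mdT exP

abbrev Qa := (ℕ × ℕ) × St

noncomputable def S1 (q : Qa) : List ℕ := sig1 (mdT q.1.1 ((q.1.2 + 1) ^ 2)) q.1.2 q.2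
noncomputable def R0 (q : Qa) : Rc := rec0 q.1.2 q.2
noncomputable def C0 (q : Qa) : Bool := ccT q.1.1 0 q.1.2 (S1 q) (R0 q)
noncomputable def E0 (q : Qa) : List ℕ := exP ((q.1.1, 0), (q.1.2, S1 q)) (R0 q)
noncomputable def N0 (q : Qa) : ℕ := nstT q.1.1 q.1.2 (S1 q) (R0 q)

lemma S1_p : Primrec S1 := sig1_p
lemma R0_p : Primrec R0 := rec0_p
lemma C0_p : Primrec C0 := by
  have a : Primrec (fun q : Qa => q.1.1) := Primrec.fst.comp Primrec.fst
  have b : Primrec (fun q : Qa => q.1.2) := Primrec.snd.comp Primrec.fst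
  have h := ccT_p.comp (((a.pair (Primrec.const 0)).pair (b.pair S1_p)).pair R0_p)
  exact h
lemma E0_p : Primrec E0 := by
  have a : Primrec (fun q : Qa => q.1.1) := Primrec.fst.comp Primrec.fst
  have b : Primrec (fun q : Qa => q.1.2) := Primrec.snd.comp Primrec.fst
  have h := exP_p.comp (((a.pair (Primrec.const 0)).pair (b.pair S1_p)).pair R0_p)
  exact h
lemma N0_p : Primrec N0 := by
  have a : Primrec (fun q : Qa => q.1.1) := Primrec.fst.comp Primrec.fst
  have b : Primrec (fun q : Qa => q.1.2) := Primrec.snd.comp Primrec.fst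
  have h := nstT_p.comp (((a.pair b).pair S1_p).pair R0_p)
  exact h

noncomputable def pushQ (q : Qa) : St :=
  (cond (C0 q) (S1 q ++ E0 q) (S1 q),
    q.2.2 ++ [((R0 q).1, (q.1.2, cond (C0 q) (R0 q).1.1.length (N0 q)))])

lemma pushQ_p : Primrec pushQ := by
  have h1 := Primrec.cond C0_p (Primrec.list_append.comp S1_p E0_p) S1_p
  have h2 := Primrec.cond C0_p (Primrec.list_length.comp (rI.comp R0_p)) N0_p
  have b : Primrec (fun q : Qa => q.1.2) := Primrec.snd.comp Primrec.fst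
  have c : Primrec (fun q : Qa => q.2.2) := Primrec.snd.comp Primrec.snd
  have h3 := Primrec.list_concat.comp c ((Primrec.fst.comp R0_p).pair (b.pair h2))
  exact h1.pair h3

lemma pushQ_eq (t s : ℕ) (u : St) : pushQ ((t, s), u) =
    pushG (nstT t s) (ccT t 0 s) (fun σ r => exP ((t, 0), (s, σ)) r)
    (mdT t ((s + 1) ^ 2)) s u := by
  have hr : (rec0 s u).1 = childIB (lastR u.2) s := by unfold rec0; rfl
  unfold pushQ pushG C0 E0 N0 S1 R0
  simp only [hr]
  cases h : ccT t 0 s (sig1 (mdT t ((s + 1) ^ 2)) s u) (rec0 s u) with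
  | true => simp
  | false => simp

noncomputable def idxQ (q : Qa) : ℕ := q.2.2.findIdx (badT q.1.1 q.1.2 q.2.1)

lemma idxQ_p : Primrec idxQ := by
  have c : Primrec (fun q : Qa => q.2.2) := Primrec.snd.comp Primrec.snd
  have h1 := badT_p.comp ((Primrec.fst.pair (Primrec.fst.comp Primrec.snd)).comp
    (Primrec.fst (α := Qa) (β := Rc)) |>.pair (Primrec.snd (α := Qa) (β := Rc)))
  have h2 := Primrec.list_findIdx c h1.to₂
  exact h2

attribute [local irreducible] S1 R0 C0 E0 N0 pushQ idxQ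

noncomputable def stepQ (q : Qa) : St :=
  ((q.2.2[idxQ q]?).map (fun r => ((q.2.1, q.2.2.take (idxQ q) ++
    [(r.1, (r.2.1, nstT q.1.1 q.1.2 q.2.1 r))]) : St))).getD (pushQ q)

lemma stepQ_p : Primrec stepQ := by
  have c : Primrec (fun q : Qa => q.2.2) := Primrec.snd.comp Primrec.snd
  have c1 : Primrec (fun q : Qa => q.2.1) := Primrec.fst.comp Primrec.snd
  have f1 : Primrec (fun q : Qa × Rc => q.1) := Primrec.fst
  have f2 : Primrec (fun q : Qa × Rc => q.2) := Primrec.snd
  have h1 := nstT_p.comp (((Primrec.fst.comp f1).pair (c1.comp f1)).pair f2)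
  have h2 := (Primrec.fst.comp f2).pair ((Primrec.fst.comp (Primrec.snd.comp f2)).pair h1)
  have h3 := Primrec.list_take.comp (idxQ_p.comp f1) (c.comp f1)
  have h4 := Primrec.list_concat.comp h3 h2
  have h5 := (c1.comp f1).pair h4
  have h6 := Primrec.option_map (Primrec.list_getElem?.comp c idxQ_p) h5.to₂
  have h7 := Primrec.option_getD.comp h6 pushQ_p
  exact h7

lemma stepQ_eq (t s : ℕ) (u : St) : stepQ ((t, s), u) = stepT t s u := by
  have h : idxQ ((t, s), u) = u.2.findIdx (badT t s u.1) := by unfold idxQ; rfl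
  unfold stepQ stepT stepG
  rw [pushQ_eq, h]
  rfl

lemma stepT_p : Primrec (fun q : Qa => stepT q.1.1 q.1.2 q.2) :=
  stepQ_p.of_eq (fun q => stepQ_eq q.1.1 q.1.2 q.2)

noncomputable def runT (t : ℕ) (s : ℕ) : St := Nat.rec ([], []) (fun s u => stepT t s u) s

lemma runT_p : Primrec₂ runT := by
  have h1 : Primrec₂ (fun (q : ℕ × ℕ) (z : ℕ × St) => stepT q.1 z.1 z.2) := by
    have h := stepT_p.comp (((Primrec.fst.comp (Primrec.fst (α := ℕ × ℕ) (β := ℕ × St))).pair
      (Primrec.fst.comp (Primrec.snd (α := ℕ × ℕ) (β := ℕ × St)))).pair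
      (Primrec.snd.comp (Primrec.snd (α := ℕ × ℕ) (β := ℕ × St))))
    exact h
  have h2 := Primrec.nat_rec' (Primrec.snd (α := ℕ) (β := ℕ)) (Primrec.const (([], []) : St)) h1
  exact h2

/-! limits -/

lemma evT_lim (e : ℕ) (τ : List ℕ) (x : ℕ) : ∃ v, ∀ᶠ t in atTop, evT t e τ x = v := by
  by_cases h : ∃ t, evT t e τ x ≠ 0
  · obtain ⟨t, ht⟩ := h
    exact ⟨evT t e τ x, eventually_atTop.2 ⟨t, fun t' h => evT_mono h ht⟩⟩
  · push Not at h
    exact ⟨0, Eventually.of_forall h⟩

noncomputable def evR (e : ℕ) (τ : List ℕ) (x : ℕ) : ℕ := (evT_lim e τ x).choose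

lemma evR_spec (e : ℕ) (τ : List ℕ) (x : ℕ) : ∀ᶠ t in atTop, evT t e τ x = evR e τ x :=
  (evT_lim e τ x).choose_spec

/-- the limit of `okT` -/
def OK (l s : ℕ) (σ : List ℕ) (r : Rc) (ρ : List ℕ) : Prop := ∃ t, okT t r l σ s ρ

def CC (l s : ℕ) (σ : List ℕ) (r : Rc) : Prop := ∃ ρ, OK l s σ r ρ

noncomputable def ccR (l s : ℕ) (σ : List ℕ) (r : Rc) : Bool :=
  open Classical in decide (CC l s σ r)

noncomputable def nstR (s : ℕ) (σ : List ℕ) (r : Rc) : ℕ :=
  (List.range r.1.1.length).findIdx (fun l => ccR (l + 1) s σ r)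

noncomputable def badR (s : ℕ) (σ : List ℕ) (r : Rc) : Bool :=
  decide (r.2.2 < r.1.1.length) && !ccR (r.2.2 + 1) s σ r

noncomputable def exR (s : ℕ) (σ : List ℕ) (r : Rc) : List ℕ :=
  open Classical in if h : ∃ w, OK 0 s σ r (LS w) then LS (Nat.find h) else []

lemma md_ex (N : ℕ) : ∃ z, ∀ u, u < N → (∃ t, hlt' u t = true) → hlt' u z = true := by
  induction N with
  | zero => exact ⟨0, fun u hu => absurd hu (Nat.not_lt_zero _)⟩
  | succ N ih =>
    obtain ⟨z, hz⟩ := ih
    by_cases h : ∃ t, hlt' N t = true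
    · obtain ⟨t, ht⟩ := h
      refine ⟨max z t, fun u hu hh => ?_⟩
      rcases Nat.lt_succ_iff_lt_or_eq.1 hu with h1 | h1
      · exact hlt'_mono (le_max_left _ _) (hz u h1 hh)
      · subst h1; exact hlt'_mono (le_max_right _ _) ht
    · refine ⟨z, fun u hu hh => ?_⟩
      rcases Nat.lt_succ_iff_lt_or_eq.1 hu with h1 | h1
      · exact hz u h1 hh
      · subst h1; exact absurd hh h

noncomputable def mdR (N : ℕ) : ℕ := open Classical in Nat.find (md_ex N)

noncomputable def stepR (s : ℕ) (u : St) : St :=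
  stepG (badR s u.1) (nstR s) (ccR 0 s) (exR s) (mdR ((s + 1) ^ 2)) s u

noncomputable def runR (s : ℕ) : St := Nat.rec ([], []) (fun s u => stepR s u) s

end Pool.Agent.Helper743.PR
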